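import Mathlib

open NormedSpace Complex
open scoped Nat

namespace Pool.Agent.H30.Alu

section Comm
variable {C : Type*} [NormedCommRing C] [NormedAlgebra ℂ C] [CompleteSpace C]

lemma exp_two (d : C) (c : ℂ) : ∃ ψ : C, exp (c • d) = 1 + c • d + d ^ 2 * ψ := by
  have h := exp_series_hasSum_exp' (𝕂 := ℂ) (c • d)
  have hs : Summable fun n : ℕ => (((n + 2)!⁻¹ : ℂ) * c ^ 2) • (c • d) ^ n := by
    refine Summable.of_norm_bounded (g := fun n : ℕ => ‖c ^ 2‖ * ‖(n !⁻¹ : ℂ) • (c • d) ^ n‖)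
      ((norm_expSeries_summable' (𝕂 := ℂ) (c • d)).mul_left _) fun n => ?_
    rw [norm_smul, norm_smul, norm_mul, mul_comm _ ‖c ^ 2‖, mul_assoc]
    gcongr
    rw [norm_inv, norm_inv, Complex.norm_natCast, Complex.norm_natCast]
    gcongr
    omega
  refine ⟨∑' n, (((n + 2)!⁻¹ : ℂ) * c ^ 2) • (c • d) ^ n, ?_⟩
  rw [← h.tsum_eq, ← h.summable.sum_add_tsum_nat_add 2, ← hs.tsum_mul_left]
  congr 1
  · simp [Finset.sum_range_succ]
  · congr 1; funext n
    rw [pow_add, mul_smul, smul_pow _ _ 2]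
    simp only [mul_smul_comm, mul_comm]

lemma key (d : C) (M : ℝ) (h : ∀ t : ℝ, ‖exp ((t * I) • d)‖ ≤ M) (a b : ℝ) (ha : 0 ≤ a)
    (hb : 0 < b) : ∃ g : C, d = g * (exp ((a : ℂ) • d) + exp ((b : ℂ) • d) - 2) := by
  let : NormedAlgebra ℚ C := NormedAlgebra.restrictScalars ℚ ℂ C
  obtain ⟨ψ, hψ⟩ := exp_two d a
  obtain ⟨χ, hχ⟩ := exp_two d b
  have e : exp ((a : ℂ) • d) + exp ((b : ℂ) • d) - 2 =
      (((a + b : ℝ) : ℂ) • 1 + d * (ψ + χ)) * d := by
    rw [hψ, hχ]; push_cast
    simp only [add_smul, add_mul, smul_mul_assoc, one_mul]; ring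
  have hu : IsUnit (((a + b : ℝ) : ℂ) • (1 : C) + d * (ψ + χ)) := by
    by_contra hn
    obtain ⟨f, hf⟩ := WeakDual.CharacterSpace.exists_apply_eq_zero hn
    have hexp : ∀ c : ℂ, f (exp (c • d)) = Complex.exp (c * f d) := by
      intro c
      rw [map_exp f (map_continuous f), map_smul, Complex.exp_eq_exp_ℂ, smul_eq_mul]
    have him : (f d).im = 0 := by
      by_contra hi
      have hb : ∀ t : ℝ, Real.exp (-(t * (f d).im)) ≤ M * ‖(1 : C)‖ := by
        intro t
        have h1 := AlgHom.norm_apply_le_self_mul_norm_one f (exp ((t * I) • d))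
        rw [hexp, Complex.norm_exp] at h1
        have : ((t : ℂ) * I * f d).re = -(t * (f d).im) := by simp
        rw [this] at h1
        exact h1.trans (mul_le_mul_of_nonneg_right (h t) (norm_nonneg _))
      have := hb (-(M * ‖(1 : C)‖) / (f d).im)
      rw [div_mul_cancel₀ _ hi, neg_neg] at this
      linarith [Real.add_one_le_exp (M * ‖(1 : C)‖)]
    obtain ⟨x, hx⟩ : ∃ x : ℝ, f d = x := ⟨(f d).re, by apply Complex.ext <;> simp [him]⟩
    have e2 := congrArg f e
    rw [map_mul, hf, zero_mul, map_sub, map_add, hexp, hexp, map_ofNat, hx] at e2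
    have e3 : Real.exp (a * x) + Real.exp (b * x) - 2 = 0 := by exact_mod_cast e2
    have hx0 : x = 0 := by
      rcases lt_trichotomy x 0 with h0 | h0 | h0
      · have := Real.exp_le_one_iff.2 (mul_nonpos_of_nonneg_of_nonpos ha h0.le)
        have := Real.exp_lt_one_iff.2 (mul_neg_of_pos_of_neg hb h0)
        linarith
      · exact h0
      · have := Real.one_le_exp (mul_nonneg ha h0.le)
        have := Real.one_lt_exp_iff.2 (mul_pos hb h0)
        linarith
    rw [map_add, map_mul, hx, hx0, map_smul, map_one] at hf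
    have : ((a + b : ℝ) : ℂ) = 0 := by simpa using hf
    have : a + b = 0 := by exact_mod_cast this
    linarith
  obtain ⟨u, hu⟩ := hu
  refine ⟨↑u⁻¹, ?_⟩
  rw [e, ← hu, ← mul_assoc, Units.inv_mul, one_mul]
end Comm

lemma key2 {B : Type*} [NormedRing B] [NormedAlgebra ℂ B] [CompleteSpace B]
    (d : B) (M : ℝ) (h : ∀ t : ℝ, ‖exp ((t * I) • d)‖ ≤ M) (a b : ℝ) (ha : 0 ≤ a)
    (hb : 0 < b) : ∃ g : B, d = g * (exp ((a : ℂ) • d) + exp ((b : ℂ) • d) - 2) := by
  let : NormedAlgebra ℚ B := NormedAlgebra.restrictScalars ℚ ℂ B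
  let : NormedCommRing (Algebra.elemental ℂ d) :=
    { (inferInstance : NormedRing (Algebra.elemental ℂ d)) with mul_comm := mul_comm }
  let : NormedAlgebra ℚ (Algebra.elemental ℂ d) := NormedAlgebra.restrictScalars ℚ ℂ _
  let d' : Algebra.elemental ℂ d := ⟨d, Algebra.elemental.self_mem ℂ d⟩
  have hv : ∀ c : ℂ, ((exp (c • d') : Algebra.elemental ℂ d) : B) = exp (c • d) := fun c =>
    map_exp (Algebra.elemental ℂ d).val continuous_subtype_val (c • d')
  obtain ⟨g, hg⟩ := key d' M (fun t => by have := h t; rw [← hv] at this; exact this)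
    a b ha hb
  refine ⟨g, ?_⟩
  have := congrArg Subtype.val hg
  rw [← hv, ← hv]
  exact this

section Star
variable {A : Type*} [CStarAlgebra A]

noncomputable def Lm : A →+* (A →L[ℂ] A) where
  toFun a := ContinuousLinearMap.mul ℂ A a
  map_one' := by ext; simp
  map_mul' a b := by ext; simp [mul_assoc]
  map_zero' := by simp
  map_add' a b := by simp

noncomputable def Rm : Aᵐᵒᵖ →+* (A →L[ℂ] A) where
  toFun a := (ContinuousLinearMap.mul ℂ A).flip a.unop
  map_one' := by ext; simp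
  map_mul' a b := by ext; simp [mul_assoc]
  map_zero' := by simp
  map_add' a b := by simp

lemma exp_ad (S X : A) (c : ℂ) :
    exp (c • (Lm S - Rm (MulOpposite.op S))) X = exp (c • S) * X * exp (-(c • S)) := by
  let : NormedAlgebra ℚ A := NormedAlgebra.restrictScalars ℚ ℂ _
  let : NormedAlgebra ℚ (A →L[ℂ] A) := NormedAlgebra.restrictScalars ℚ ℂ _
  have e : c • (Lm S - Rm (MulOpposite.op S)) = Lm (c • S) + Rm (MulOpposite.op (-(c • S))) := by
    ext; simp [Lm, Rm, smul_sub, sub_eq_add_neg]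
  have hc : Commute (Lm (c • S)) (Rm (MulOpposite.op (-(c • S)))) := by
    ext; simp [Lm, Rm, mul_assoc]
  have h1 : Continuous (Lm : A → A →L[ℂ] A) := (ContinuousLinearMap.mul ℂ A).continuous
  have h2 : Continuous (Rm : Aᵐᵒᵖ → A →L[ℂ] A) :=
    (ContinuousLinearMap.mul ℂ A).flip.continuous.comp MulOpposite.continuous_unop
  rw [e, exp_add_of_commute hc, ← map_exp Lm h1, ← map_exp Rm h2, exp_op]
  simp [Lm, Rm, mul_assoc]

lemma comm_of (S X : A) (hS : IsSelfAdjoint S) (a b : ℝ) (ha : 0 ≤ a) (hb : 0 < b)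
    (h : exp ((a : ℂ) • S) * X * exp (-((a : ℂ) • S)) +
      exp ((b : ℂ) • S) * X * exp (-((b : ℂ) • S)) = 2 • X) : S * X = X * S := by
  let : NormedAlgebra ℚ A := NormedAlgebra.restrictScalars ℚ ℂ _
  obtain ⟨g, hg⟩ := key2 (Lm S - Rm (MulOpposite.op S)) 1 (fun t => by
    refine ContinuousLinearMap.opNorm_le_bound _ zero_le_one fun Y => ?_
    have hsk : ((t : ℂ) * I) • S ∈ skewAdjoint A := by
      rw [skewAdjoint.mem_iff, star_smul, hS.star_eq, ← neg_smul]
      congr 1; simp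
    rw [exp_ad, one_mul, CStarRing.norm_mul_mem_unitary _
      (exp_mem_unitary_of_mem_skewAdjoint (neg_mem hsk)), CStarRing.norm_mem_unitary_mul _
      (exp_mem_unitary_of_mem_skewAdjoint hsk)]) a b ha hb
  have := congrArg (fun T : A →L[ℂ] A => T X) hg
  simp only [ContinuousLinearMap.mul_apply, ContinuousLinearMap.sub_apply,
    ContinuousLinearMap.add_apply, exp_ad, h] at this
  have h2 : (2 : A →L[ℂ] A) X = 2 • X := by
    rw [← one_add_one_eq_two, two_smul]; rfl
  rw [h2, sub_self, map_zero] at this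
  exact sub_eq_zero.1 this

end Star

end Pool.Agent.H30.Alu
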