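import Mathlib

namespace Pool.Agent.H30.Bkr

open Set

section Basic

variable {ι S : Type}

/-- The cylinder `[x]_K`. -/
def cyl (x : ι → S) (K : Set ι) : Set (ι → S) := {y | ∀ i ∈ K, y i = x i}

/-- The binary BKR product. -/
def box (A B : Set (ι → S)) : Set (ι → S) :=
  {x | ∃ K L : Set ι, Disjoint K L ∧ cyl x K ⊆ A ∧ cyl x L ⊆ B}

lemma self_mem (x : ι → S) (K : Set ι) : x ∈ cyl x K := fun _ _ => rfl

lemma box_comm (A B : Set (ι → S)) : box A B = box B A := by
  ext x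
  constructor <;> rintro ⟨K, L, h, h1, h2⟩ <;> exact ⟨L, K, h.symm, h2, h1⟩

lemma box_left (A B : Set (ι → S)) : box A B ⊆ A := fun x ⟨K, _, _, h1, _⟩ => h1 (self_mem x K)

lemma box_right (A B : Set (ι → S)) : box A B ⊆ B := fun x ⟨_, L, _, _, h2⟩ => h2 (self_mem x L)

lemma box_mono {A A' B B' : Set (ι → S)} (h : A ⊆ A') (h' : B ⊆ B') : box A B ⊆ box A' B' :=
  fun _ ⟨K, L, hd, h1, h2⟩ => ⟨K, L, hd, h1.trans h, h2.trans h'⟩

lemma box_univ (A : Set (ι → S)) : box A univ = A := by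
  refine (box_left _ _).antisymm fun x hx => ⟨univ, ∅, by simp, fun y hy => ?_, by simp⟩
  rwa [show y = x from funext fun i => hy i trivial]

lemma univ_box (A : Set (ι → S)) : box univ A = A := by rw [box_comm, box_univ]

/-- Pull-back along an injective reindexing of coordinates. -/
def pull {κ : Type} (e : κ → ι) (A : Set (κ → S)) : Set (ι → S) := {x | x ∘ e ∈ A}

lemma box_pull_sub {κ : Type} (e : κ → ι) (he : Function.Injective e) (A B : Set (κ → S)) :
    box (pull e A) (pull e B) ⊆ pull e (box A B) := by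
  classical
  rintro x ⟨K, L, hd, h1, h2⟩
  have key : ∀ (M : Set ι) (C : Set (κ → S)), cyl x M ⊆ pull e C → cyl (x ∘ e) (e ⁻¹' M) ⊆ C := by
    intro M C h y hy
    have : Function.extend e y x ∈ cyl x M := by
      intro i hi
      by_cases hi' : ∃ k, e k = i
      · obtain ⟨k, rfl⟩ := hi'
        rw [he.extend_apply]; exact hy k hi
      · rw [Function.extend_apply' _ _ _ hi']
    have h3 := h this
    rwa [pull, mem_ofPred_eq, Function.extend_comp he] at h3
  exact ⟨e ⁻¹' K, e ⁻¹' L, hd.preimage e, key K A h1, key L B h2⟩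

lemma pull_box_sub {κ : Type} (e : κ → ι) (he : Function.Injective e) (A B : Set (κ → S)) :
    pull e (box A B) ⊆ box (pull e A) (pull e B) := by
  rintro x ⟨K, L, hd, h1, h2⟩
  exact ⟨e '' K, e '' L, (disjoint_image_iff he).mpr hd,
    fun y hy => h1 fun k hk => hy _ ⟨k, hk, rfl⟩, fun y hy => h2 fun k hk => hy _ ⟨k, hk, rfl⟩⟩

lemma box_pull {κ : Type} (e : κ → ι) (he : Function.Injective e) (A B : Set (κ → S)) :
    box (pull e A) (pull e B) = pull e (box A B) :=
  (box_pull_sub e he A B).antisymm (pull_box_sub e he A B)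

end Basic

/-- Full binary trees (bracketings). -/
inductive Br
  | leaf : Br
  | node : Br → Br → Br

def Br.size : Br → ℕ
  | .leaf => 1
  | .node a b => a.size + b.size

lemma Br.size_pos : ∀ t : Br, 0 < t.size
  | .leaf => one_pos
  | .node a _ => Nat.add_pos_left a.size_pos _

/-- Labelled trees. -/
inductive LT
  | leaf : ℕ → LT
  | node : LT → LT → LT

def LT.L : LT → Finset ℕ
  | .leaf n => {n}
  | .node a b => a.L ∪ b.L

def LT.Good : LT → Prop
  | .leaf _ => True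
  | .node a b => a.Good ∧ b.Good ∧ Disjoint a.L b.L

def LT.shape : LT → Br
  | .leaf _ => .leaf
  | .node a b => .node a.shape b.shape

def LT.D : LT → ℕ × ℕ × ℕ → Prop
  | .leaf _, _ => False
  | .node a b, β => a.D β ∨ b.D β ∨ (β.1 ≠ β.2.1 ∧ β.1 ∈ a.L ∧ β.2.1 ∈ a.L ∧ β.2.2 ∈ b.L) ∨
      (β.1 ≠ β.2.1 ∧ β.1 ∈ b.L ∧ β.2.1 ∈ b.L ∧ β.2.2 ∈ a.L)

def LT.E {ι S : Type} (f : ℕ → Set (ι → S)) : LT → Set (ι → S)
  | .leaf n => f n
  | .node a b => box (a.E f) (b.E f)

lemma LT.L_ne : ∀ s : LT, s.L.Nonempty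
  | .leaf n => ⟨n, by simp [LT.L]⟩
  | .node a _ => a.L_ne.mono Finset.subset_union_left

lemma LT.card : ∀ s : LT, s.Good → s.L.card = s.shape.size
  | .leaf _, _ => rfl
  | .node a b, h => by
    rw [LT.L, Finset.card_union_of_disjoint h.2.2, a.card h.1, b.card h.2.1]; rfl

lemma LT.D_mem : ∀ (s : LT) (β : ℕ × ℕ × ℕ), s.Good → s.D β →
    β.1 ∈ s.L ∧ β.2.1 ∈ s.L ∧ β.2.2 ∈ s.L ∧ β.1 ≠ β.2.1 ∧ β.1 ≠ β.2.2 ∧ β.2.1 ≠ β.2.2
  | .leaf _, _, _, h => h.elim
  | .node a b, β, g, h => by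
    simp only [LT.L, Finset.mem_union]
    have hd := Finset.disjoint_left.mp g.2.2
    rcases h with h | h | ⟨h0, h1, h2, h3⟩ | ⟨h0, h1, h2, h3⟩
    · obtain ⟨h1, h2, h3, h4⟩ := a.D_mem β g.1 h
      exact ⟨Or.inl h1, Or.inl h2, Or.inl h3, h4⟩
    · obtain ⟨h1, h2, h3, h4⟩ := b.D_mem β g.2.1 h
      exact ⟨Or.inr h1, Or.inr h2, Or.inr h3, h4⟩
    · exact ⟨Or.inl h1, Or.inl h2, Or.inr h3, h0, fun e => hd h1 (e ▸ h3), fun e => hd h2 (e ▸ h3)⟩
    · exact ⟨Or.inr h1, Or.inr h2, Or.inl h3, h0, fun e => hd h3 (e ▸ h1), fun e => hd h3 (e ▸ h2)⟩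

section Eval

variable {ι S : Type} (f : ℕ → Set (ι → S))

lemma E0 : ∀ s : LT, (∀ n ∈ s.L, f n = univ) → s.E f = univ
  | .leaf n, h => h n (by simp [LT.L])
  | .node a b, h => by
    rw [LT.E, E0 a fun n hn => h n (Finset.mem_union_left _ hn),
      E0 b fun n hn => h n (Finset.mem_union_right _ hn), box_univ]

lemma E1 (p : ℕ) : ∀ s : LT, s.Good → p ∈ s.L → (∀ n ∈ s.L, n ≠ p → f n = univ) → s.E f = f p
  | .leaf n, _, hp, _ => by
    simp only [LT.L, Finset.mem_singleton] at hp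
    rw [hp]; rfl
  | .node a b, g, hp, h => by
    have hd := Finset.disjoint_left.mp g.2.2
    rcases Finset.mem_union.mp hp with hp | hp
    · rw [LT.E, E1 p a g.1 hp fun n hn => h n (Finset.mem_union_left _ hn),
        E0 f b fun n hn => h n (Finset.mem_union_right _ hn) fun e => hd hp (e ▸ hn), box_univ]
    · rw [LT.E, E1 p b g.2.1 hp fun n hn => h n (Finset.mem_union_right _ hn),
        E0 f a fun n hn => h n (Finset.mem_union_left _ hn) fun e => hd hn (e ▸ hp), univ_box]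

lemma E2 (p q : ℕ) (hpq : p ≠ q) : ∀ s : LT, s.Good → p ∈ s.L → q ∈ s.L →
    (∀ n ∈ s.L, n ≠ p → n ≠ q → f n = univ) → s.E f = box (f p) (f q)
  | .leaf n, _, hp, hq, _ => by
    simp only [LT.L, Finset.mem_singleton] at hp hq
    exact absurd (hp.trans hq.symm) hpq
  | .node a b, g, hp, hq, h => by
    have hd := Finset.disjoint_left.mp g.2.2
    rcases Finset.mem_union.mp hp with hp | hp <;> rcases Finset.mem_union.mp hq with hq | hq
    · rw [LT.E, E2 p q hpq a g.1 hp hq fun n hn => h n (Finset.mem_union_left _ hn),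
        E0 f b fun n hn => h n (Finset.mem_union_right _ hn) (fun e => hd hp (e ▸ hn))
          (fun e => hd hq (e ▸ hn)), box_univ]
    · rw [LT.E, E1 f p a g.1 hp fun n hn h1 => h n (Finset.mem_union_left _ hn) h1
        (fun e => hd hn (e ▸ hq)), E1 f q b g.2.1 hq fun n hn h1 =>
        h n (Finset.mem_union_right _ hn) (fun e => hd hp (e ▸ hn)) h1]
    · rw [LT.E, E1 f q a g.1 hq fun n hn h1 => h n (Finset.mem_union_left _ hn)
        (fun e => hd hn (e ▸ hp)) h1, E1 f p b g.2.1 hp fun n hn h1 =>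
        h n (Finset.mem_union_right _ hn) h1 (fun e => hd hq (e ▸ hn)), box_comm]
    · rw [LT.E, E2 p q hpq b g.2.1 hp hq fun n hn => h n (Finset.mem_union_right _ hn),
        E0 f a fun n hn => h n (Finset.mem_union_left _ hn) (fun e => hd hn (e ▸ hp))
          (fun e => hd hn (e ▸ hq)), univ_box]

lemma E3 (i j k : ℕ) (h : ∀ n, n ≠ i → n ≠ j → n ≠ k → f n = univ) : ∀ s : LT, s.Good →
    s.D (i, j, k) → s.E f = box (box (f i) (f j)) (f k)
  | .leaf _, _, hD => hD.elim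
  | .node a b, g, hD => by
    have hd := Finset.disjoint_left.mp g.2.2
    rcases hD with hD | hD | ⟨h0, h1, h2, h3⟩ | ⟨h0, h1, h2, h3⟩
    · obtain ⟨h1, h2, h3, -⟩ := a.D_mem _ g.1 hD
      rw [LT.E, E3 i j k h a g.1 hD, E0 f b fun n hn => h n (fun e => hd h1 (e ▸ hn))
        (fun e => hd h2 (e ▸ hn)) (fun e => hd h3 (e ▸ hn)), box_univ]
    · obtain ⟨h1, h2, h3, -⟩ := b.D_mem _ g.2.1 hD
      rw [LT.E, E3 i j k h b g.2.1 hD, E0 f a fun n hn => h n (fun e => hd hn (e ▸ h1))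
        (fun e => hd hn (e ▸ h2)) (fun e => hd hn (e ▸ h3)), univ_box]
    · rw [LT.E, E2 f i j h0 a g.1 h1 h2 fun n hn e1 e2 => h n e1 e2 (fun e => hd hn (e ▸ h3)),
        E1 f k b g.2.1 h3 fun n hn e => h n (fun e => hd h1 (e ▸ hn)) (fun e => hd h2 (e ▸ hn)) e]
    · rw [LT.E, E2 f i j h0 b g.2.1 h1 h2 fun n hn e1 e2 => h n e1 e2 (fun e => hd h3 (e ▸ hn)),
        E1 f k a g.1 h3 fun n hn e => h n (fun e => hd hn (e ▸ h1)) (fun e => hd hn (e ▸ h2)) e,
        box_comm]

lemma Epriv (pr : ℕ → Set ι) (hpr : ∀ m n, m ≠ n → Disjoint (pr m) (pr n)) (w : ι → S)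
    (hw : ∀ n, cyl w (pr n) ⊆ f n) : ∀ s : LT, s.Good → cyl w (⋃ n ∈ s.L, pr n) ⊆ s.E f
  | .leaf n, _ => by simpa [LT.L, LT.E] using hw n
  | .node a b, g => by
    intro y hy
    have hd := Finset.disjoint_left.mp g.2.2
    refine ⟨⋃ n ∈ a.L, pr n, ⋃ n ∈ b.L, pr n, ?_, fun z hz => Epriv pr hpr w hw a g.1 ?_,
      fun z hz => Epriv pr hpr w hw b g.2.1 ?_⟩
    · simp only [disjoint_iUnion_left, disjoint_iUnion_right]
      exact fun n hn m hm => hpr m n fun e => hd hm (e ▸ hn)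
    · intro c hc
      rw [hz c hc]
      simp only [mem_iUnion] at hc
      obtain ⟨n, hn, hc⟩ := hc
      exact hy c (mem_iUnion₂.mpr ⟨n, Finset.mem_union_left _ hn, hc⟩)
    · intro c hc
      rw [hz c hc]
      simp only [mem_iUnion] at hc
      obtain ⟨n, hn, hc⟩ := hc
      exact hy c (mem_iUnion₂.mpr ⟨n, Finset.mem_union_right _ hn, hc⟩)

lemma U1 (p : ℕ) : ∀ s : LT, p ∈ s.L → s.E f ⊆ f p
  | .leaf n, hp => by
    simp only [LT.L, Finset.mem_singleton] at hp
    rw [hp]; exact Subset.rfl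
  | .node a b, hp => by
    rcases Finset.mem_union.mp hp with hp | hp
    · exact (box_left _ _).trans (U1 p a hp)
    · exact (box_right _ _).trans (U1 p b hp)

lemma U2 (p q : ℕ) (hpq : p ≠ q) : ∀ s : LT, p ∈ s.L → q ∈ s.L → s.E f ⊆ box (f p) (f q)
  | .leaf n, hp, hq => by
    simp only [LT.L, Finset.mem_singleton] at hp hq
    exact absurd (hp.trans hq.symm) hpq
  | .node a b, hp, hq => by
    rcases Finset.mem_union.mp hp with hp | hp <;> rcases Finset.mem_union.mp hq with hq | hq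
    · exact (box_left _ _).trans (U2 p q hpq a hp hq)
    · exact box_mono (U1 f p a hp) (U1 f q b hq)
    · rw [box_comm]; exact box_mono (U1 f q a hq) (U1 f p b hp)
    · exact (box_right _ _).trans (U2 p q hpq b hp hq)

end Eval

def A0 : Set (Fin 5 → Bool) := {y | y 0 = false ∨ y 1 = true ∨ y 2 = true}
def B0 : Set (Fin 5 → Bool) := {y | y 0 = true ∨ y 1 = true ∨ y 3 = true}
def C0 : Set (Fin 5 → Bool) := {y | y 0 = false ∨ y 4 = true}
def x0 : Fin 5 → Bool := ![false, true, false, false, false]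

lemma x0_mem : x0 ∈ box (box A0 B0) C0 := by
  refine ⟨{1}, {0}, by simp, fun y hy => ?_, fun y hy => Or.inl (hy 0 rfl)⟩
  have h1 : y 1 = true := hy 1 rfl
  cases h : y 0
  · exact ⟨{0}, {1}, by simp, fun z hz => Or.inl ((hz 0 rfl).trans h),
      fun z hz => Or.inr (Or.inl ((hz 1 rfl).trans h1))⟩
  · exact ⟨{1}, {0}, by simp, fun z hz => Or.inr (Or.inl ((hz 1 rfl).trans h1)),
      fun z hz => Or.inl ((hz 0 rfl).trans h)⟩

lemma x0_not : x0 ∉ box (box A0 C0) B0 := by
  rintro ⟨K, L, hd, h1, h2⟩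
  have hL : (1 : Fin 5) ∈ L := by
    by_contra h
    have : (fun _ => false) ∈ cyl x0 L := by
      intro i hi
      fin_cases i <;> simp_all [x0]
    simpa [B0] using h2 this
  have hK : (1 : Fin 5) ∉ K := fun h => Set.disjoint_left.mp hd h hL
  have : (fun _ => false) ∈ cyl x0 K := by
    intro i hi
    fin_cases i <;> simp_all [x0]
  obtain ⟨K', L', hd', g1, g2⟩ := h1 this
  have key : ∀ M : Set (Fin 5), (0 : Fin 5) ∉ M →
      (![true, false, false, false, false] : Fin 5 → Bool) ∈ cyl (fun _ => false) M := by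
    intro M hM i hi
    fin_cases i <;> simp_all
  by_cases h0 : (0 : Fin 5) ∈ K'
  · simpa [C0] using g2 (key L' fun h => Set.disjoint_left.mp hd' h0 h)
  · simpa [A0] using g1 (key K' h0)

def bs (β : ℕ × ℕ × ℕ) (n : ℕ) : Set (Fin 5 → Bool) :=
  if n = β.1 then A0 else if n = β.2.1 then B0 else if n = β.2.2 then C0 else univ

def pr (β : ℕ × ℕ × ℕ) (n : ℕ) : Set (Fin 5) :=
  if n = β.1 then {2} else if n = β.2.1 then {3} else if n = β.2.2 then {4} else ∅

lemma w_mem (β : ℕ × ℕ × ℕ) (s : LT) (g : s.Good) : (fun _ => true) ∈ s.E (bs β) := by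
  refine Epriv (bs β) (pr β) ?_ (fun _ => true) ?_ s g (self_mem _ _)
  · intro m n hmn
    unfold pr
    split_ifs <;> simp_all
  · intro n y hy
    unfold pr at hy
    unfold bs
    split_ifs at hy ⊢
    · exact Or.inr (Or.inr (hy 2 rfl))
    · exact Or.inr (Or.inr (hy 3 rfl))
    · exact Or.inr (hy 4 rfl)
    · trivial

abbrev Bl (r : ℕ) := Fin r × Fin r × Fin r
abbrev I (r : ℕ) := Bl r × Fin 5

def cb {r : ℕ} (β : Bl r) : ℕ × ℕ × ℕ := (β.1, β.2.1, β.2.2)

/-- The global family of sets. -/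
def GA (r : ℕ) (n : ℕ) : Set (I r → Bool) := {y | ∀ β : Bl r, (fun c => y (β, c)) ∈ bs (cb β) n}

open Classical in
noncomputable def xD (r : ℕ) (D : ℕ × ℕ × ℕ → Prop) : I r → Bool :=
  fun a => if D (cb a.1) then x0 a.2 else true

lemma P1 (r : ℕ) (D : ℕ × ℕ × ℕ → Prop) (i j k : ℕ) (hi : i < r) (hj : j < r) (hk : k < r)
    (hij : i ≠ j) (hik : i ≠ k) (hjk : j ≠ k) (h : D (i, j, k)) :
    xD r D ∉ box (box (GA r i) (GA r k)) (GA r j) := by
  intro hx
  let β : Bl r := (⟨i, hi⟩, ⟨j, hj⟩, ⟨k, hk⟩)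
  have he : Function.Injective fun c : Fin 5 => ((β, c) : I r) := fun a b h => (Prod.mk.inj h).2
  have hs : ∀ n, GA r n ⊆ pull (fun c : Fin 5 => ((β, c) : I r)) (bs (i, j, k) n) :=
    fun n y hy => hy β
  have h1 := box_mono (box_mono (hs i) (hs k)) (hs j) hx
  rw [box_pull _ he, box_pull _ he] at h1
  have e : xD r D ∘ (fun c : Fin 5 => ((β, c) : I r)) = x0 := by
    funext c
    simp only [xD, Function.comp]
    rw [if_pos (show D (cb β) from h)]
  rw [pull, mem_ofPred_eq, e] at h1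
  simp only [bs, if_true, hik.symm, hjk.symm, hij.symm, if_false] at h1
  exact x0_not h1

lemma prod_sub (r : ℕ) : ∀ (s : LT) (y : I r → Bool),
    (∀ β : Bl r, (fun c => y (β, c)) ∈ s.E (bs (cb β))) → y ∈ s.E (GA r)
  | .leaf _, _, h => h
  | .node a b, y, h => by
    choose K L hd h1 h2 using h
    refine ⟨{c | c.2 ∈ K c.1}, {c | c.2 ∈ L c.1}, ?_, fun z hz => prod_sub r a z fun β => h1 β ?_,
      fun z hz => prod_sub r b z fun β => h2 β ?_⟩
    · exact Set.disjoint_left.mpr fun c hc hc' => Set.disjoint_left.mp (hd c.1) hc hc'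
    · exact fun c hc => hz (β, c) hc
    · exact fun c hc => hz (β, c) hc

lemma P2 (r : ℕ) (s : LT) (g : s.Good) : xD r s.D ∈ s.E (GA r) := by
  refine prod_sub r s _ fun β => ?_
  by_cases h : s.D (cb β)
  · have e : (fun c => xD r s.D (β, c)) = x0 := by
      funext c; simp only [xD]; rw [if_pos h]
    obtain ⟨-, -, -, h1, h2, h3⟩ := s.D_mem _ g h
    rw [e, E3 (bs (cb β)) (cb β).1 (cb β).2.1 (cb β).2.2 (fun n e1 e2 e3 => by
      simp [bs, e1, e2, e3]) s g h]
    simp only [bs, if_true, h1.symm, h2.symm, h3.symm, if_false]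
    exact x0_mem
  · have e : (fun c => xD r s.D (β, c)) = fun _ => true := by
      funext c; simp only [xD]; rw [if_neg h]
    rw [e]
    exact w_mem _ s g

/-- The value of the bracketing `t` of the word `A o, A (o+1), …` (factors kept in order). -/
def Br.ev {ι S : Type} (A : ℕ → Set (ι → S)) : Br → ℕ → Set (ι → S)
  | .leaf, o => A o
  | .node a b, o => box (a.ev A o) (b.ev A (o + a.size))

def lab : Br → ℕ → LT
  | .leaf, o => .leaf o
  | .node a b, o => .node (lab a o) (lab b (o + a.size))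

lemma lab_E {ι S : Type} (A : ℕ → Set (ι → S)) : ∀ (t : Br) (o : ℕ), (lab t o).E A = t.ev A o
  | .leaf, _ => rfl
  | .node a b, o => by rw [lab, LT.E, lab_E A a, lab_E A b]; rfl

lemma lab_L : ∀ (t : Br) (o n : ℕ), n ∈ (lab t o).L ↔ o ≤ n ∧ n < o + t.size
  | .leaf, o, n => by simp only [lab, LT.L, Finset.mem_singleton, Br.size]; omega
  | .node a b, o, n => by
    simp only [lab, LT.L, Finset.mem_union, lab_L a, lab_L b, Br.size]; omega

lemma lab_good : ∀ (t : Br) (o : ℕ), (lab t o).Good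
  | .leaf, _ => trivial
  | .node a b, o => ⟨lab_good a _, lab_good b _, Finset.disjoint_left.mpr fun n h1 h2 => by
      rw [lab_L] at h1 h2; omega⟩

lemma lab_shape : ∀ (t : Br) (o : ℕ), (lab t o).shape = t
  | .leaf, _ => rfl
  | .node a b, o => by rw [lab, LT.shape, lab_shape a, lab_shape b]

lemma lab_tri (i j k : ℕ) (hij : i < j) (hjk : j < k) : ∀ (t : Br) (o : ℕ), o ≤ i →
    k < o + t.size → (lab t o).D (i, j, k) ∨ (lab t o).D (j, k, i)
  | .leaf, o, h1, h2 => by simp only [Br.size] at h2; omega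
  | .node a b, o, h1, h2 => by
    simp only [Br.size] at h2
    simp only [lab, LT.D, lab_L]
    by_cases c1 : k < o + a.size
    · rcases lab_tri i j k hij hjk a o h1 c1 with h | h
      · exact Or.inl (Or.inl h)
      · exact Or.inr (Or.inl h)
    by_cases c2 : o + a.size ≤ i
    · rcases lab_tri i j k hij hjk b _ c2 (by omega) with h | h
      · exact Or.inl (Or.inr (Or.inl h))
      · exact Or.inr (Or.inr (Or.inl h))
    by_cases c3 : j < o + a.size
    · exact Or.inl (Or.inr (Or.inr (Or.inl (by omega))))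
    · exact Or.inr (Or.inr (Or.inr (Or.inr (by omega))))

lemma ev_pull {ι κ S : Type} (e : κ → ι) (he : Function.Injective e) (A : ℕ → Set (κ → S)) :
    ∀ (t : Br) (o : ℕ), t.ev (fun n => pull e (A n)) o = pull e (t.ev A o)
  | .leaf, _ => rfl
  | .node a b, o => by rw [Br.ev, ev_pull e he A a, ev_pull e he A b, box_pull e he]; rfl

lemma pull_inj {ι κ S : Type} [Nonempty S] (e : κ → ι) (he : Function.Injective e)
    {A B : Set (κ → S)} (h : pull e A = pull e B) : A = B := by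
  classical
  ext y
  have := Set.ext_iff.mp h (Function.extend e y fun _ => Classical.arbitrary S)
  simpa only [pull, mem_ofPred_eq, Function.extend_comp he] using this

end Pool.Agent.H30.Bkr
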