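import Mathlib

/-! Completely monotone functions on finite sets (iterated differences). -/

open Finset Filter Topology MeasureTheory

namespace Pool.Agent.H30.CM

variable {ι : Type*} [DecidableEq ι]

def D : List ι → (Finset ι → ℝ) → Finset ι → ℝ
  | [], g => g
  | a :: l, g => D l (fun J => g J - g (insert a J))

def CM (g : Finset ι → ℝ) : Prop := ∀ l J, 0 ≤ D l g J

lemma D_add (l : List ι) (g h : Finset ι → ℝ) (J : Finset ι) :
    D l (fun K => g K + h K) J = D l g J + D l h J := by
  induction l generalizing g h with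
  | nil => rfl
  | cons a l ih =>
    simp only [D]; rw [← ih]; congr 1; funext K; ring

lemma D_smul (l : List ι) (c : ℝ) (g : Finset ι → ℝ) (J : Finset ι) :
    D l (fun K => c * g K) J = c * D l g J := by
  induction l generalizing g with
  | nil => rfl
  | cons a l ih =>
    simp only [D]; rw [← ih]; congr 1; funext K; ring

lemma D_shift (l : List ι) (b : ι) (g : Finset ι → ℝ) (J : Finset ι) :
    D l (fun K => g (insert b K)) J = D l g (insert b J) := by
  induction l generalizing g with
  | nil => rfl
  | cons a l ih =>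
    simp only [D]; rw [← ih]; congr 1; funext K; rw [Finset.insert_comm]

lemma CM.nonneg {g : Finset ι → ℝ} (h : CM g) (J : Finset ι) : 0 ≤ g J := h [] J

lemma CM.diff {g : Finset ι → ℝ} (h : CM g) (a : ι) : CM (fun J => g J - g (insert a J)) :=
  fun l J => h (a :: l) J

lemma CM.shift {g : Finset ι → ℝ} (h : CM g) (a : ι) : CM (fun J => g (insert a J)) :=
  fun l J => by rw [D_shift]; exact h l _

lemma CM.add {g h : Finset ι → ℝ} (hg : CM g) (hh : CM h) : CM (fun J => g J + h J) :=
  fun l J => by rw [D_add]; exact add_nonneg (hg l J) (hh l J)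

lemma CM.smul {g : Finset ι → ℝ} (hg : CM g) {c : ℝ} (hc : 0 ≤ c) : CM (fun J => c * g J) :=
  fun l J => by rw [D_smul]; exact mul_nonneg hc (hg l J)

lemma CM.mul {g h : Finset ι → ℝ} (hg : CM g) (hh : CM h) : CM (fun J => g J * h J) := by
  intro l
  induction l generalizing g h with
  | nil => exact fun J => mul_nonneg (hg.nonneg J) (hh.nonneg J)
  | cons a l ih =>
    intro J
    simp only [D]
    have e : (fun J => g J * h J - g (insert a J) * h (insert a J)) =
        fun J => (g J - g (insert a J)) * h J + g (insert a J) * (h J - h (insert a J)) := by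
      funext K; ring
    rw [e, D_add]
    exact add_nonneg (ih (hg.diff a) hh J) (ih (hg.shift a) (hh.diff a) J)

lemma D_lim (l : List ι) (g : ℕ → Finset ι → ℝ) (g' : Finset ι → ℝ)
    (h : ∀ J, Tendsto (fun n => g n J) atTop (𝓝 (g' J))) (J : Finset ι) :
    Tendsto (fun n => D l (g n) J) atTop (𝓝 (D l g' J)) := by
  induction l generalizing g g' with
  | nil => exact h J
  | cons a l ih =>
    simp only [D]
    exact ih _ _ fun K => (h K).sub (h _)

lemma CM.lim {g : ℕ → Finset ι → ℝ} {g' : Finset ι → ℝ} (hg : ∀ n, CM (g n))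
    (h : ∀ J, Tendsto (fun n => g n J) atTop (𝓝 (g' J))) : CM g' :=
  fun l J => ge_of_tendsto' (D_lim l g g' h J) fun n => hg n l J

lemma CM.of_min {g : Finset ι → ℝ} (h0 : ∀ J, 0 ≤ g J)
    (h : ∀ a J, g (insert a J) = min (g J) (g {a})) : CM g := by
  intro l
  induction l generalizing g with
  | nil => exact h0
  | cons a l ih =>
    simp only [D]
    apply ih
    · intro J; rw [h]; linarith [min_le_left (g J) (g {a})]
    · intro b J
      rw [h a (insert b J), h b J, h a J, h a {b}]
      simp only [min_def]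
      split_ifs <;> linarith

lemma CM.const {c : ℝ} (hc : 0 ≤ c) : CM (fun _ : Finset ι => c) :=
  CM.of_min (fun _ => hc) (fun _ _ => by simp)

lemma D_int {Ω : Type*} [MeasurableSpace Ω] (μ : Measure Ω) (l : List ι)
    (g : Ω → Finset ι → ℝ) (hi : ∀ J, Integrable (fun ω => g ω J) μ) (J : Finset ι) :
    D l (fun K => ∫ ω, g ω K ∂μ) J = ∫ ω, D l (g ω) J ∂μ := by
  induction l generalizing g with
  | nil => rfl
  | cons a l ih =>
    simp only [D]
    rw [← ih (fun ω K => g ω K - g ω (insert a K)) (fun K => (hi K).sub (hi _))]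
    congr 1; funext K
    rw [integral_sub (hi K) (hi _)]

lemma CM.integral {Ω : Type*} [MeasurableSpace Ω] (μ : Measure Ω)
    {g : Ω → Finset ι → ℝ} (hi : ∀ J, Integrable (fun ω => g ω J) μ) (hg : ∀ ω, CM (g ω)) :
    CM (fun K => ∫ ω, g ω K ∂μ) := fun l J => by
  rw [D_int μ l g hi]; exact integral_nonneg fun ω => hg ω l J

lemma D_sum (l : List ι) (hl : l.Nodup) (g : Finset ι → ℝ) :
    D l g ∅ = ∑ K ∈ l.toFinset.powerset, (-1) ^ K.card * g K := by
  induction l generalizing g with
  | nil => simp [D]
  | cons a l ih =>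
    rw [List.nodup_cons] at hl
    have ha : a ∉ l.toFinset := by simpa using hl.1
    simp only [D]
    rw [ih hl.2, List.toFinset_cons, Finset.sum_powerset_insert ha, ← Finset.sum_add_distrib]
    refine Finset.sum_congr rfl fun K hK => ?_
    have : a ∉ K := fun h => ha (mem_powerset.mp hK h)
    rw [card_insert_of_notMem this]; ring

lemma CM.inv {r : Finset ι → ℝ} (hr : CM r) (h1 : ∀ J, r J < 1) : CM (fun J => (1 - r J)⁻¹) := by
  have hp : ∀ k : ℕ, CM (fun J => r J ^ k) := by
    intro k
    induction k with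
    | zero => simpa using CM.const (ι := ι) zero_le_one
    | succ k ih => simpa [pow_succ] using ih.mul hr
  have hs : ∀ n : ℕ, CM (fun J => ∑ k ∈ range n, r J ^ k) := by
    intro n
    induction n with
    | zero => simpa using CM.const (ι := ι) le_rfl
    | succ n ih => simpa [sum_range_succ] using ih.add (hp n)
  exact CM.lim hs fun J => (hasSum_geometric_of_lt_one (hr.nonneg J) (h1 J)).tendsto_sum_nat

lemma CM.ratio {s t : Finset ι → ℝ} {c : ℝ} (hs : ∀ J, 0 ≤ s J) (ht : CM t)
    (hr : CM (fun J => c - (s J + t J))) : CM (fun J => 1 - s J / (s J + t J)) := by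
  have hc : 0 ≤ c := by linarith [hr.nonneg ∅, hs ∅, ht.nonneg ∅]
  have key : ∀ d : ℝ, 0 < d → CM (fun J => 1 - s J / (s J + t J + d)) := by
    intro d hd
    have hcd : 0 < c + d := by linarith
    have h1 := (hr.smul (inv_nonneg.mpr hcd.le)).inv (fun J => by
      rw [inv_mul_lt_iff₀ hcd]; linarith [hs J, ht.nonneg J])
    have h2 := ((ht.add (CM.const hd.le)).smul (inv_nonneg.mpr hcd.le)).mul h1
    convert h2 using 2 with J
    have h3 : 0 < s J + t J + d := by linarith [hs J, ht.nonneg J]
    have h4 : 1 - (c + d)⁻¹ * (c - (s J + t J)) = (s J + t J + d) / (c + d) := by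
      field_simp; ring
    rw [h4]; field_simp; ring
  refine CM.lim (g := fun n J => 1 - s J / (s J + t J + 1 / ((n : ℝ) + 1)))
    (fun n => key _ (by positivity)) fun J => ?_
  apply Tendsto.const_sub
  rcases (add_nonneg (hs J) (ht.nonneg J)).eq_or_lt with h | h
  · have : s J = 0 := by linarith [hs J, ht.nonneg J]
    simp [this]
  · refine Tendsto.div tendsto_const_nhds ?_ h.ne'
    simpa using (tendsto_const_nhds (x := s J + t J)).add
      (tendsto_one_div_add_atTop_nhds_zero_nat (𝕜 := ℝ))

end Pool.Agent.H30.CM
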