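import Mathlib

/-! Kernel checker for zero-sum subsequences over `(ℤ/2)⁴ × ℤ/3`. -/

namespace Pool.Agent.H30.Dav

set_option maxRecDepth 100000
set_option synthInstance.maxSize 2000

abbrev H := (Fin 4 → ZMod 2) × ZMod 3

noncomputable def force {α : Type} (x : ℕ) (f : ℕ → α) : α :=
  Nat.rec (motive := fun _ => α) (f 0) (fun i _ => f (Nat.succ i)) x

theorem force_eq {α : Type} (x : ℕ) (f : ℕ → α) : force x f = f x := by cases x <;> rfl

def tb (s k : ℕ) : Bool := Nat.beq (Nat.land (Nat.shiftRight s k) 1) 1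

lemma tb_eq (s k : ℕ) : tb s k = s.testBit k := by
  change Nat.beq ((s >>> k) &&& 1) 1 = _
  rw [Nat.testBit, Nat.and_one_is_mod, Nat.one_and_eq_mod_two]
  rcases Nat.mod_two_eq_zero_or_one (s >>> k) with h | h <;> rw [h] <;> rfl

def sw (k m s : ℕ) : ℕ :=
  Nat.lor (Nat.shiftLeft (Nat.land s m) k) (Nat.land (Nat.shiftRight s k) m)

def rt (k s : ℕ) : ℕ :=
  Nat.land (Nat.lor (Nat.shiftLeft s (Nat.sub 48 k)) (Nat.shiftRight s k)) 0xFFFFFFFFFFFF

noncomputable def cs (b : Bool) (k m s : ℕ) : ℕ := Bool.rec s (sw k m s) b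

noncomputable def ext (s h : ℕ) : ℕ :=
  force (cs (tb h 0) 1 0x555555555555 s) fun s1 =>
  force (cs (tb h 1) 2 0x333333333333 s1) fun s2 =>
  force (cs (tb h 2) 4 0x0F0F0F0F0F0F s2) fun s3 =>
  force (cs (tb h 3) 8 0x00FF00FF00FF s3) fun s4 =>
  Nat.lor s (rt (Nat.land h 48) s4)

noncomputable def go (d : ℕ) : ℕ → ℕ → Bool :=
  Nat.rec (motive := fun _ => ℕ → ℕ → Bool) (fun _ _ => false)
    (fun _ rec s n => Nat.rec (motive := fun _ => Bool) true
      (fun k ih => Bool.rec false ih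
        (Bool.rec (force (ext s k) fun s' => rec s' (Nat.succ k)) true (tb s k))) n) d

def dec (y : ℕ) : H := (fun j => ((y / 2 ^ (j : ℕ) : ℕ) : ZMod 2), ((y / 16 : ℕ) : ZMod 3))

def Mv (s t : ℕ) (a : H) : Prop :=
  ∀ y < 48, t.testBit y = true → ∃ z < 48, s.testBit z = true ∧ dec y = dec z + a

lemma Mv.trans {s t u : ℕ} {a b : H} (h1 : Mv s t a) (h2 : Mv t u b) : Mv s u (a + b) := by
  intro y hy h
  obtain ⟨z, hz, h3, h4⟩ := h2 y hy h
  obtain ⟨w, hw, h5, h6⟩ := h1 z hz h3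
  exact ⟨w, hw, h5, by rw [h4, h6, add_assoc]⟩

lemma mv_sw (k m s : ℕ) (h : ∀ y < 48, (k ≤ y → m.testBit (y - k) = true → dec y = dec (y - k) + dec k) ∧
    (m.testBit y = true → k + y < 48 ∧ dec y = dec (k + y) + dec k)) (b : Bool) :
    Mv s (cs b k m s) (if b then dec k else 0) := by
  intro y hy ht
  cases b with
  | false => exact ⟨y, hy, ht, by simp⟩
  | true =>
    change (((s &&& m) <<< k) ||| ((s >>> k) &&& m)).testBit y = true at ht
    simp only [Nat.testBit_or, Nat.testBit_shiftLeft, Nat.testBit_and, Nat.testBit_shiftRight,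
      Bool.or_eq_true, Bool.and_eq_true, decide_eq_true_eq] at ht
    rcases ht with ⟨h1, h2, h3⟩ | ⟨h1, h2⟩
    · exact ⟨y - k, by omega, h2, (h y hy).1 h1 h3⟩
    · exact ⟨k + y, ((h y hy).2 h2).1, h1, ((h y hy).2 h2).2⟩

lemma mv_rt (k s : ℕ) (hs : s < 2 ^ 48) (h : ∀ y < 48, (48 - k ≤ y → dec y = dec (y - (48 - k)) - dec k) ∧
    (k + y < 48 → dec y = dec (k + y) - dec k)) : Mv s (rt k s) (-dec k) := by
  intro y hy ht
  change (((s <<< (48 - k)) ||| (s >>> k)) &&& 0xFFFFFFFFFFFF).testBit y = true at ht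
  simp only [Nat.testBit_or, Nat.testBit_shiftLeft, Nat.testBit_and, Nat.testBit_shiftRight,
    Bool.or_eq_true, Bool.and_eq_true, decide_eq_true_eq] at ht
  rcases ht.1 with ⟨h1, h2⟩ | h1
  · exact ⟨y - (48 - k), by omega, h2, by rw [← sub_eq_add_neg]; exact (h y hy).1 h1⟩
  · have : k + y < 48 := by
      by_contra hc
      rw [Nat.testBit_lt_two_pow (hs.trans_le (Nat.pow_le_pow_right (by norm_num) (by omega)))] at h1
      exact absurd h1 (by simp)
    exact ⟨k + y, this, h1, by rw [← sub_eq_add_neg]; exact (h y hy).2 this⟩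

lemma cs_lt (b : Bool) (k m s : ℕ) (hs : s < 2 ^ 48) (hm : m < 2 ^ (48 - k)) (hk : k ≤ 48) :
    cs b k m s < 2 ^ 48 := by
  cases b with
  | false => exact hs
  | true =>
    change (((s &&& m) <<< k) ||| ((s >>> k) &&& m)) < _
    refine Nat.or_lt_two_pow ?_ (Nat.and_lt_two_pow _ (hm.trans_le
      (Nat.pow_le_pow_right (by norm_num) (by omega))))
    rw [Nat.shiftLeft_eq]
    calc _ < 2 ^ (48 - k) * 2 ^ k := Nat.mul_lt_mul_of_pos_right (Nat.and_lt_two_pow _ hm) (by positivity)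
      _ = _ := by rw [← pow_add]; congr 1; omega

def Sub (s : ℕ) (U : Multiset H) : Prop :=
  s < 2 ^ 48 ∧ ∀ y < 48, s.testBit y = true → ∃ V ≤ U, V.sum = dec y

lemma dec_h : ∀ h < 48, (if tb h 0 then dec 1 else 0) + (if tb h 1 then dec 2 else 0) +
    (if tb h 2 then dec 4 else 0) + (if tb h 3 then dec 8 else 0) + -dec (Nat.land h 48) = -dec h ∧
    (Nat.land h 48 = 0 ∨ Nat.land h 48 = 16 ∨ Nat.land h 48 = 32) := by
  decide +kernel

lemma sub_ext {s h : ℕ} {U : Multiset H} (hh : h < 48) (hs : Sub s U) :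
    Sub (ext s h) (-dec h ::ₘ U) := by
  simp only [ext, force_eq]
  have l1 := cs_lt (tb h 0) 1 0x555555555555 s hs.1 (by norm_num) (by norm_num)
  have l2 := cs_lt (tb h 1) 2 0x333333333333 _ l1 (by norm_num) (by norm_num)
  have l3 := cs_lt (tb h 2) 4 0x0F0F0F0F0F0F _ l2 (by norm_num) (by norm_num)
  have l4 := cs_lt (tb h 3) 8 0x00FF00FF00FF _ l3 (by norm_num) (by norm_num)
  have m := ((((mv_sw 1 0x555555555555 s (by decide +kernel) (tb h 0)).trans
    (mv_sw 2 0x333333333333 _ (by decide +kernel) (tb h 1))).trans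
    (mv_sw 4 0x0F0F0F0F0F0F _ (by decide +kernel) (tb h 2))).trans
    (mv_sw 8 0x00FF00FF00FF _ (by decide +kernel) (tb h 3))).trans
    (mv_rt (Nat.land h 48) _ l4 (by
      rcases (dec_h h hh).2 with e | e | e <;> rw [e] <;> decide +kernel))
  rw [(dec_h h hh).1] at m
  refine ⟨Nat.or_lt_two_pow hs.1 (Nat.and_lt_two_pow _ (by norm_num)), fun y hy ht => ?_⟩
  change (s ||| _).testBit y = true at ht
  rw [Nat.testBit_or, Bool.or_eq_true] at ht
  rcases ht with ht | ht
  · obtain ⟨V, h1, h2⟩ := hs.2 y hy ht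
    exact ⟨V, h1.trans (Multiset.le_cons_self _ _), h2⟩
  · obtain ⟨z, hz, h1, h2⟩ := m y hy ht
    obtain ⟨V, h3, h4⟩ := hs.2 z hz h1
    exact ⟨-dec h ::ₘ V, Multiset.cons_le_cons _ h3, by rw [Multiset.sum_cons, h4, h2, add_comm]⟩

def ZS {G : Type} [AddCommGroup G] (S : Multiset G) : Prop := ∃ V ≤ S, V ≠ 0 ∧ V.sum = 0

lemma go_step (d s n : ℕ) (h : go (d + 1) s n = true) :
    ∀ k < n, tb s k = true ∨ go d (ext s k) (k + 1) = true := by
  induction n with
  | zero => simp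
  | succ n ih =>
    have e : go (d + 1) s (n + 1) = Bool.rec false (go (d + 1) s n)
      (Bool.rec (force (ext s n) fun s' => go d s' (n + 1)) true (tb s n)) := rfl
    rw [e, force_eq] at h
    have h2 : (tb s n = true ∨ go d (ext s n) (n + 1) = true) ∧ go (d + 1) s n = true := by
      cases h1 : tb s n <;> cases h3 : go d (ext s n) (n + 1) <;> simp_all
    intro k hk
    rcases Nat.lt_succ_iff_lt_or_eq.1 hk with h1 | rfl
    · exact ih h2.2 k h1
    · exact h2.1

lemma go_sound : ∀ (l : List ℕ) (s n : ℕ) (U : Multiset H), go l.length s n = true → n ≤ 48 →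
    (∀ h ∈ l, h < n) → l.Pairwise (· ≥ ·) → Sub s U →
    ZS (U + ((l.map fun h => -dec h : List H) : Multiset H))
  | [], _, _, _, h, _, _, _, _ => absurd h (by simp [go])
  | k :: l, s, n, U, h, hn, hl, hp, hs => by
    have hk := hl k List.mem_cons_self
    have e : U + (((k :: l).map fun h => -dec h : List H) : Multiset H) =
        (-dec k ::ₘ U) + ((l.map fun h => -dec h : List H) : Multiset H) := by
      rw [List.map_cons, ← Multiset.cons_coe, Multiset.add_cons, Multiset.cons_add]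
    rw [e]
    rcases go_step _ s n h k hk with h1 | h1
    · obtain ⟨V, h2, h3⟩ := hs.2 k (by omega) (tb_eq s k ▸ h1)
      exact ⟨-dec k ::ₘ V, (Multiset.cons_le_cons _ h2).trans (Multiset.le_add_right _ _),
        Multiset.cons_ne_zero, by rw [Multiset.sum_cons, h3, neg_add_cancel]⟩
    · rw [List.pairwise_cons] at hp
      exact go_sound l _ _ _ h1 (by omega) (fun a ha => Nat.lt_succ_of_le (hp.1 a ha)) hp.2
        (sub_ext (by omega) hs)

noncomputable def chk (a b c d : ℕ) : Bool :=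
  force (ext 1 (1 + 16 * a)) fun s1 => force (ext s1 (2 + 16 * b)) fun s2 =>
  force (ext s2 (4 + 16 * c)) fun s3 => force (ext s3 (8 + 16 * d)) fun s4 => go 5 s4 48

end Pool.Agent.H30.Dav
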