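import Pool.Agent.H30.Dav1

/-! Every sequence of length nine over `(ℤ/2)⁴ × ℤ/3` has a zero-sum subsequence. -/

namespace Pool.Agent.H30.Dav

set_option maxRecDepth 100000
set_option synthInstance.maxSize 2000

lemma chk0 : ∀ b < 3, ∀ c < 3, ∀ d < 3, chk 0 b c d = true := by decide +kernel
lemma chk1 : ∀ b < 3, ∀ c < 3, ∀ d < 3, chk 1 b c d = true := by decide +kernel
lemma chk2 : ∀ b < 3, ∀ c < 3, ∀ d < 3, chk 2 b c d = true := by decide +kernel

lemma chkA (a : ℕ) (ha : a < 3) : ∀ b < 3, ∀ c < 3, ∀ d < 3, chk a b c d = true := by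
  interval_cases a
  exacts [chk0, chk1, chk2]

lemma ZS.map {G G' : Type} [AddCommGroup G] [AddCommGroup G'] (f : G →+ G') {S : Multiset G}
    (h : ZS S) : ZS (S.map f) := by
  obtain ⟨V, h1, h2, h3⟩ := h
  exact ⟨V.map f, Multiset.map_le_map h1, by simpa using h2, by rw [← map_multiset_sum, h3, map_zero]⟩

lemma enc : ∀ x : H, ∃ h < 48, -dec h = x := by decide +kernel

lemma encb : ∀ c : ZMod 3, ∃ a < 3, ∀ j : Fin 4, -dec (2 ^ (j : ℕ) + 16 * a) = (Pi.single j 1, c) := by
  decide +kernel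

lemma core (c : Fin 4 → ZMod 3) (T : Multiset H) (hT : T.card = 5) :
    ZS ((Finset.univ.val.map fun j => ((Pi.single j 1, c j) : H)) + T) := by
  choose e he1 he2 using enc
  choose a ha1 ha2 using encb
  have h := chkA _ (ha1 (c 0)) _ (ha1 (c 1)) _ (ha1 (c 2)) _ (ha1 (c 3))
  simp only [chk, force_eq] at h
  have s0 : Sub 1 0 := ⟨by norm_num, fun y _ hy => ⟨0, le_rfl, by
    rw [Nat.testBit_one_eq_true_iff_self_eq_zero] at hy
    subst hy
    decide⟩⟩
  have b0 := ha1 (c 0)
  have b1 := ha1 (c 1)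
  have b2 := ha1 (c 2)
  have b3 := ha1 (c 3)
  have s4 := sub_ext (h := 8 + 16 * a (c 3)) (by omega) (sub_ext (h := 4 + 16 * a (c 2)) (by omega)
    (sub_ext (h := 2 + 16 * a (c 1)) (by omega) (sub_ext (h := 1 + 16 * a (c 0)) (by omega) s0)))
  let l := (T.map e).sort (· ≥ ·)
  have hl : l.length = 5 := by simp [l, hT]
  have key := go_sound l _ 48 _ (hl ▸ h) le_rfl (fun x hx => by
    simp only [l, Multiset.mem_sort, Multiset.mem_map] at hx
    obtain ⟨y, -, rfl⟩ := hx
    exact he1 y) (Multiset.pairwise_sort _ _) s4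
  have e1 : ((l.map fun h => -dec h : List H) : Multiset H) = T := by
    rw [← Multiset.map_coe, Multiset.sort_eq, Multiset.map_map]
    simp [he2]
  rw [e1] at key
  convert key using 2
  have r0 := ha2 (c 0) 0
  have r1 := ha2 (c 1) 1
  have r2 := ha2 (c 2) 2
  have r3 := ha2 (c 3) 3
  norm_num at r0 r1
  have r2' : -dec (4 + 16 * a (c 2)) = (Pi.single 2 1, c 2) := r2
  have r3' : -dec (8 + 16 * a (c 3)) = (Pi.single 3 1, c 3) := r3
  rw [r0, r1, r2', r3']
  have : (Finset.univ : Finset (Fin 4)).val = 3 ::ₘ 2 ::ₘ 1 ::ₘ 0 ::ₘ 0 := by decide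
  rw [this]
  simp only [Multiset.map_cons, Multiset.map_zero]

lemma basis (S : Multiset H) : ∀ k, k ≤ S.card → ∃ (b : Fin k → H) (T : Multiset H),
    S = Finset.univ.val.map b + T ∧ (LinearIndependent (ZMod 2) (fun j => (b j).1) ∨
      ∀ x ∈ T, x.1 ∈ Submodule.span (ZMod 2) (Set.range fun j => (b j).1))
  | 0, _ => ⟨Fin.elim0, S, by simp, Or.inl linearIndependent_empty_type⟩
  | k + 1, hk => by
    classical
    obtain ⟨b, T, hS, h⟩ := basis S k (by omega)
    have step : ∀ x ∈ T, S = Finset.univ.val.map (Fin.cons x b : Fin (k + 1) → H) + T.erase x := by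
      intro x hx
      rw [Fin.univ_succ, Finset.cons_val, Multiset.map_cons, Finset.map_val, Multiset.map_map,
        Multiset.cons_add, ← Multiset.add_cons]
      simp only [Fin.cons_zero, Multiset.cons_erase hx]
      exact hS
    have hc : ∀ x : H, (fun j => ((Fin.cons x b : Fin (k + 1) → H) j).1) =
        Fin.cons x.1 fun j => (b j).1 := fun x => by
      funext j; refine Fin.cases rfl (fun _ => rfl) j
    by_cases h2 : ∀ x ∈ T, x.1 ∈ Submodule.span (ZMod 2) (Set.range fun j => (b j).1)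
    · obtain ⟨x, hx⟩ : ∃ x, x ∈ T := Multiset.card_pos_iff_exists_mem.1 (by
        have := congrArg Multiset.card hS
        simp at this
        omega)
      refine ⟨_, _, step x hx, Or.inr fun y hy => Submodule.span_mono ?_
        (h2 y (Multiset.mem_of_mem_erase hy))⟩
      rintro _ ⟨j, rfl⟩
      exact ⟨j.succ, rfl⟩
    · push Not at h2
      obtain ⟨x, hx, h3⟩ := h2
      refine ⟨_, _, step x hx, Or.inl ?_⟩
      rw [hc, linearIndependent_fin_cons]
      exact ⟨h.resolve_right fun h4 => h3 (h4 x hx), h3⟩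

theorem nine (S : Multiset H) (hS : S.card = 9) : ZS S := by
  obtain ⟨b, T, rfl, h⟩ := basis S 4 (by omega)
  have h2 : ∀ x ∈ T, x.1 ∈ Submodule.span (ZMod 2) (Set.range fun j => (b j).1) := by
    rcases h with h | h
    · intro x _
      rw [h.span_eq_top_of_card_eq_finrank (by simp)]
      trivial
    · exact h
  let L : H →+ H := AddMonoidHom.prodMap
    (Fintype.linearCombination (ZMod 2) fun j => (b j).1).toAddMonoidHom (AddMonoidHom.id _)
  have h3 : ∀ x : H, ∃ y : H, x ∈ T → L y = x := fun x => by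
    by_cases hx : x ∈ T
    · have := h2 x hx
      rw [← Fintype.range_linearCombination] at this
      obtain ⟨v, hv⟩ := this
      exact ⟨(v, x.2), fun _ => Prod.ext hv rfl⟩
    · exact ⟨0, fun h => absurd h hx⟩
  choose σ hσ using h3
  have := (core (fun j => (b j).2) (T.map σ) (by simp at hS ⊢; omega)).map L
  rw [Multiset.map_add, Multiset.map_map, Multiset.map_map,
    Multiset.map_congr rfl (f := L ∘ σ) (g := id) (fun x hx => hσ x hx), Multiset.map_id] at this
  convert this using 3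
  exact Prod.ext (by simp [L]) rfl

end Pool.Agent.H30.Dav
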