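import Mathlib

set_option autoImplicit false

namespace Pool.Agent.H30.Hyper

open Filter Topology Polynomial

lemma pow_mem_span {𝕂 V : Type} [Field 𝕂] [AddCommGroup V] [Module 𝕂 V] (S : V →ₗ[𝕂] V)
    (p : 𝕂[X]) (hp : p ≠ 0) (h : aeval S p = 0) (v : V) (n : ℕ) :
    (S ^ n) v ∈ Submodule.span 𝕂 (Set.range fun i : Fin p.natDegree => (S ^ (i : ℕ)) v) := by
  have e : S ^ n = aeval S (X ^ n % p) := by
    have := congrArg (aeval S) (EuclideanDomain.div_add_mod (X ^ n : 𝕂[X]) p)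
    rw [map_add, map_mul, h, zero_mul, zero_add] at this
    rw [this]; simp
  rw [e, aeval_def, eval₂_eq_sum, Polynomial.sum, LinearMap.sum_apply]
  refine Submodule.sum_mem _ (fun i hi => ?_)
  have hlt : i < p.natDegree := by
    have h1 : (i : WithBot ℕ) ≤ (X ^ n % p).degree := le_degree_of_mem_supp i hi
    have h2 := lt_of_le_of_lt h1 (degree_mod_lt (X ^ n) hp)
    rw [degree_eq_natDegree hp] at h2
    exact_mod_cast h2
  rw [← Algebra.smul_def, LinearMap.smul_apply]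
  exact Submodule.smul_mem _ _ (Submodule.subset_span ⟨⟨i, hlt⟩, rfl⟩)

variable {𝕂 : Type} [RCLike 𝕂]

lemma span_top {V : Type} [AddCommGroup V] [Module 𝕂 V] [TopologicalSpace V]
    [IsTopologicalAddGroup V] [ContinuousSMul 𝕂 V] [T2Space V] (S : V →ₗ[𝕂] V)
    (p : 𝕂[X]) (hp : p ≠ 0) (h : aeval S p = 0) (v : V)
    (hv : Dense (Set.range fun n : ℕ => (S ^ n) v)) :
    Submodule.span 𝕂 (Set.range fun i : Fin p.natDegree => (S ^ (i : ℕ)) v) = ⊤ := by
  set W := Submodule.span 𝕂 (Set.range fun i : Fin p.natDegree => (S ^ (i : ℕ)) v)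
  have : FiniteDimensional 𝕂 W := FiniteDimensional.span_of_finite _ (Set.finite_range _)
  have hc : IsClosed (W : Set V) := W.closed_of_finiteDimensional
  have hd : Dense (W : Set V) := hv.mono (by
    rintro _ ⟨n, rfl⟩
    exact pow_mem_span S p hp h v n)
  rw [← SetLike.coe_set_eq, Submodule.top_coe, ← hc.closure_eq, hd.closure_eq]

lemma subsingleton_of_fd {V : Type} [AddCommGroup V] [Module 𝕂 V] [TopologicalSpace V]
    [IsTopologicalAddGroup V] [ContinuousSMul 𝕂 V] [T2Space V] [FiniteDimensional 𝕂 V]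
    (S : V →ₗ[𝕂] V) (v : V) (hv : Dense (Set.range fun n : ℕ => (S ^ n) v)) :
    Subsingleton V := by
  by_contra hs
  have : Nontrivial V := not_subsingleton_iff_nontrivial.1 hs
  have hd : 0 < Module.finrank 𝕂 V := Module.finrank_pos
  let b := Module.finBasis 𝕂 V
  let D : V → 𝕂 := fun u => b.det (fun i : Fin (Module.finrank 𝕂 V) => (S ^ (i : ℕ)) u)
  have hDc : Continuous D := by
    simp only [D, Module.Basis.det_apply]
    refine Continuous.matrix_det (continuous_matrix (fun i j => ?_))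
    simp only [Module.Basis.toMatrix_apply]
    exact (b.coord i ∘ₗ (S ^ (j : ℕ))).continuous_of_finiteDimensional
  have hDS : ∀ u, D (S u) = LinearMap.det S * D u := by
    intro u
    simp only [D]
    rw [← Module.Basis.det_comp]
    congr 1
    funext i
    simp only [Function.comp]
    rw [← Module.End.mul_apply, ← Module.End.mul_apply, ← pow_succ, ← pow_succ']
  have hDn : ∀ n, ‖D ((S ^ n) v)‖ = ‖LinearMap.det S‖ ^ n * ‖D v‖ := by
    intro n
    induction n with
    | zero => simp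
    | succ n ih => rw [pow_succ', Module.End.mul_apply, hDS, norm_mul, ih]; ring
  have hDt : ∀ t : 𝕂, D (t • v) = t ^ Module.finrank 𝕂 V * D v := by
    intro t
    simp only [D, map_smul]
    have := b.det.toMultilinearMap.map_smul_univ (fun _ => t)
      (fun i : Fin (Module.finrank 𝕂 V) => (S ^ (i : ℕ)) v)
    simpa using this
  have hD0 : D v ≠ 0 := by
    have hsp := span_top S S.charpoly S.charpoly_monic.ne_zero S.aeval_self_charpoly v hv
    rw [S.charpoly_natDegree] at hsp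
    have hli : LinearIndependent 𝕂 (fun i : Fin (Module.finrank 𝕂 V) => (S ^ (i : ℕ)) v) :=
      linearIndependent_of_top_le_span_of_card_eq_finrank hsp.ge (by simp)
    exact (b.is_basis_iff_det.1 ⟨hli, hsp⟩).ne_zero
  have hpos : 0 < ‖D v‖ := norm_pos_iff.2 hD0
  rcases le_total ‖LinearMap.det S‖ 1 with h | h
  · have hall : ∀ u, ‖D u‖ ≤ ‖D v‖ := fun u =>
      hv.induction (P := fun u => ‖D u‖ ≤ ‖D v‖) (by
        rintro _ ⟨n, rfl⟩
        rw [hDn]
        exact mul_le_of_le_one_left hpos.le (pow_le_one₀ (norm_nonneg _) h))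
        (isClosed_le hDc.norm continuous_const) u
    have := hall ((2 : 𝕂) • v)
    rw [hDt, norm_mul, norm_pow, RCLike.norm_two] at this
    have h2 : (1 : ℝ) < 2 ^ Module.finrank 𝕂 V := one_lt_pow₀ (by norm_num) hd.ne'
    nlinarith
  · have hall : ∀ u, ‖D v‖ ≤ ‖D u‖ := fun u =>
      hv.induction (P := fun u => ‖D v‖ ≤ ‖D u‖) (by
        rintro _ ⟨n, rfl⟩
        rw [hDn]
        exact le_mul_of_one_le_left hpos.le (one_le_pow₀ h))
        (isClosed_le continuous_const hDc.norm) u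
    have := hall ((0 : 𝕂) • v)
    rw [hDt, zero_pow hd.ne', zero_mul, norm_zero] at this
    linarith

section
variable {E : Type} [AddCommGroup E] [Module 𝕂 E] [TopologicalSpace E]
  [IsTopologicalAddGroup E] [ContinuousSMul 𝕂 E]

lemma cont_aeval (T : E →ₗ[𝕂] E) (hT : Continuous T) (p : 𝕂[X]) : Continuous (aeval T p) := by
  induction p using Polynomial.induction_on' with
  | add p q hp hq => rw [map_add]; exact hp.add hq
  | monomial n a =>
    rw [aeval_monomial, ← Algebra.smul_def]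
    have : Continuous (T ^ n) := by
      rw [Module.End.coe_pow]; exact hT.iterate n
    exact this.const_smul a

omit [TopologicalSpace E] [IsTopologicalAddGroup E] [ContinuousSMul 𝕂 E] in
lemma aeval_comm (T : E →ₗ[𝕂] E) (p : 𝕂[X]) (n : ℕ) (y : E) :
    (T ^ n) (aeval T p y) = aeval T p ((T ^ n) y) := by
  have : T ^ n * aeval T p = aeval T p * T ^ n := by
    have h : T ^ n = aeval T (X ^ n : 𝕂[X]) := by simp
    rw [h, ← map_mul, ← map_mul, mul_comm]
  exact LinearMap.congr_fun this y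

lemma dense_range_aeval (T : E →ₗ[𝕂] E) (hT : Continuous T) (x : E)
    (hx : Dense (Set.range fun n : ℕ => (T ^ n) x)) (p : 𝕂[X]) (hp : p ≠ 0) :
    DenseRange (aeval T p) := by
  let L := (LinearMap.range (aeval T p)).topologicalClosure
  have hLc : IsClosed (L : Set E) := Submodule.isClosed_topologicalClosure _
  have hTL : L ≤ L.comap T := by
    intro y hy
    have : Set.MapsTo T (LinearMap.range (aeval T p) : Set E) (LinearMap.range (aeval T p)) := by
      rintro _ ⟨z, rfl⟩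
      exact ⟨T z, by simpa using (aeval_comm T p 1 z).symm⟩
    exact this.closure hT hy
  let S : (E ⧸ L) →ₗ[𝕂] (E ⧸ L) := L.mapQ L T hTL
  have hS : ∀ n y, (S ^ n) (L.mkQ y) = L.mkQ ((T ^ n) y) := by
    intro n y
    induction n with
    | zero => simp
    | succ n ih => rw [pow_succ', pow_succ', Module.End.mul_apply, ih]; rfl
  have hSa : ∀ (r : 𝕂[X]) y, aeval S r (L.mkQ y) = L.mkQ (aeval T r y) := by
    intro r y
    induction r using Polynomial.induction_on' with
    | add p q hp hq => simp only [map_add, LinearMap.add_apply, hp, hq]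
    | monomial n a =>
      simp only [aeval_monomial, ← Algebra.smul_def, LinearMap.smul_apply, hS, map_smul]
  have h0 : aeval S p = 0 := by
    apply LinearMap.ext
    intro q
    obtain ⟨y, rfl⟩ := L.mkQ_surjective q
    rw [hSa]
    simp only [Submodule.mkQ_apply, LinearMap.zero_apply, Submodule.Quotient.mk_eq_zero]
    exact Submodule.le_topologicalClosure _ ⟨y, rfl⟩
  have hq : Dense (Set.range fun n : ℕ => (S ^ n) (L.mkQ x)) := by
    simp only [hS]
    exact DenseRange.comp L.mkQ_surjective.denseRange hx continuous_quot_mk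
  have hsp := span_top S p hp h0 _ hq
  have : FiniteDimensional 𝕂 (E ⧸ L) :=
    Module.Finite.of_fg_top (by rw [← hsp]; exact Submodule.fg_span (Set.finite_range _))
  have hsub := subsingleton_of_fd S _ hq
  have hL : L = ⊤ := Submodule.Quotient.subsingleton_iff.1 hsub
  exact Submodule.dense_iff_topologicalClosure_eq_top.2 hL

lemma hc_aeval (T : E →ₗ[𝕂] E) (hT : Continuous T) (x : E)
    (hx : Dense (Set.range fun n : ℕ => (T ^ n) x)) (p : 𝕂[X]) (hp : p ≠ 0) :
    Dense (Set.range fun n : ℕ => (T ^ n) (aeval T p x)) := by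
  simp only [aeval_comm]
  exact DenseRange.comp (dense_range_aeval T hT x hx p hp) hx (cont_aeval T hT p)

lemma hc_sum (T : E →ₗ[𝕂] E) (hT : Continuous T) (x : E)
    (hx : Dense (Set.range fun n : ℕ => (T ^ n) x)) (n : ℕ) (a : Fin n → 𝕂) (ha : a ≠ 0) :
    Dense (Set.range fun k : ℕ => (T ^ k) (∑ i, a i • (T ^ (i : ℕ)) x)) := by
  have h := hc_aeval T hT x hx (∑ i : Fin n, monomial i (a i)) (by
    intro h0
    apply ha
    funext j
    have := congrArg (fun q : 𝕂[X] => q.coeff j) h0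
    simpa [coeff_monomial, Fin.val_inj] using this)
  simpa [aeval_monomial, ← Algebra.smul_def] using h

end

lemma sum_mem_chain {E : Type} [AddCommGroup E] (N : ℕ → Set E) (f : ℕ → E)
    (h0 : ∀ n, (0 : E) ∈ N n) (hm : Antitone N) (n0 : ℕ)
    (hl : ∀ i, n0 ≤ i → ∀ y ∈ N (i + 1), f i + y ∈ N i) (t : Finset ℕ) :
    ∀ n, n0 ≤ n → (∀ i ∈ t, n ≤ i) → ∑ i ∈ t, f i ∈ N n := by
  induction t using Finset.induction_on_min with
  | empty => intro n _ _; simpa using h0 n
  | insert a s ha ih =>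
    intro n hn ht
    have has : a ∉ s := fun h => lt_irrefl _ (ha a h)
    have hna : n ≤ a := ht a (Finset.mem_insert_self _ _)
    rw [Finset.sum_insert has]
    exact hm hna (hl a (hn.trans hna) _ (ih (a + 1) (by omega) (fun i hi => ha i hi)))

section
variable {E : Type} [AddCommGroup E] [Module 𝕂 E] [UniformSpace E]
  [IsUniformAddGroup E] [ContinuousSMul 𝕂 E]

lemma exists_N (v : ℕ → E) (G : Set E) (hG : IsOpen G) (n : ℕ)
    (hv : ∀ a : Fin n → 𝕂, a ≠ 0 → ∑ i, a i • v i ∈ G) (V : Set E) (hV : V ∈ 𝓝 (0 : E)) :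
    ∃ N ∈ 𝓝 (0 : E), IsClosed N ∧ N ⊆ V ∧ ∀ a : Fin n → 𝕂, ‖a‖ ≤ n → 1 / (n + 1 : ℝ) ≤ ‖a‖ →
      ∀ y ∈ N, ∑ i, a i • v i + y ∈ G := by
  let A : Set (Fin n → 𝕂) := Metric.closedBall 0 n ∩ {a | 1 / (n + 1 : ℝ) ≤ ‖a‖}
  have hA : IsCompact A :=
    (isCompact_closedBall _ _).inter_right (isClosed_le continuous_const continuous_norm)
  have hK : IsCompact ((fun a : Fin n → 𝕂 => ∑ i, a i • v i) '' A) :=
    hA.image (continuous_finsetSum _ (fun i _ => (continuous_apply i).smul continuous_const))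
  obtain ⟨W, hW, hKW⟩ := compact_open_separated_add_right hK hG (by
    rintro _ ⟨a, ha, rfl⟩
    apply hv
    rintro rfl
    have h := ha.2
    simp only [Set.mem_ofPred_eq, norm_zero] at h
    have : (0 : ℝ) < 1 / (n + 1 : ℝ) := by positivity
    linarith)
  obtain ⟨N, hN, hNc, hNs⟩ := exists_mem_nhds_isClosed_subset (inter_mem hW hV)
  refine ⟨N, hN, hNc, fun y hy => (hNs hy).2, fun a h1 h2 y hy => ?_⟩
  exact hKW (Set.add_mem_add ⟨a, ⟨by simpa using h1, h2⟩, rfl⟩ (hNs hy).1)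

omit [IsUniformAddGroup E] in
lemma exists_c (w : E) (n : ℕ) (V : Set E) (hV : V ∈ 𝓝 (0 : E)) :
    ∃ c : 𝕂, c ≠ 0 ∧ ∀ a : 𝕂, ‖a‖ ≤ n → a • c • w ∈ V := by
  have h : ContinuousAt (fun t : 𝕂 => t • w) 0 := (continuous_id.smul continuous_const).continuousAt
  have h1 : (fun t : 𝕂 => t • w) ⁻¹' V ∈ 𝓝 (0 : 𝕂) := h (by simpa using hV)
  obtain ⟨δ, hδ, hs⟩ := Metric.mem_nhds_iff.1 h1
  have hp : 0 < δ / (n + 1 : ℝ) := by positivity
  refine ⟨((δ / (n + 1 : ℝ) : ℝ) : 𝕂), by exact_mod_cast hp.ne', fun a ha => ?_⟩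
  rw [smul_smul]
  apply hs
  rw [mem_ball_zero_iff, norm_mul, RCLike.norm_ofReal, abs_of_pos hp]
  calc ‖a‖ * (δ / (n + 1 : ℝ)) ≤ n * (δ / (n + 1 : ℝ)) := by gcongr
    _ < (n + 1) * (δ / (n + 1 : ℝ)) := by gcongr; linarith
    _ = δ := by field_simp

/-- the state of the recursive construction -/
def St (w : ℕ → E) (G u : ℕ → Set E) (n : ℕ) (c : ℕ → 𝕂) (N : Set E) : Prop :=
  (∀ i, c i ≠ 0) ∧ N ∈ 𝓝 (0 : E) ∧ IsClosed N ∧ N ⊆ u n ∧
    ∀ a : Fin n → 𝕂, ‖a‖ ≤ n → 1 / (n + 1 : ℝ) ≤ ‖a‖ →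
      ∀ y ∈ N, ∑ i, a i • c i • w i + y ∈ G n

lemma exists_seq (w : ℕ → E) (G u : ℕ → Set E) (hG : ∀ n, IsOpen (G n))
    (hu : ∀ n, u n ∈ 𝓝 (0 : E))
    (hw : ∀ (m n : ℕ) (a : Fin n → 𝕂), a ≠ 0 → ∑ i, a i • w i ∈ G m) :
    ∃ (c : ℕ → 𝕂) (N : ℕ → Set E), (∀ n, St w G u n c (N n)) ∧ Antitone N ∧
      ∀ (n : ℕ) (a : 𝕂), ‖a‖ ≤ n → ∀ y ∈ N (n + 1), a • c n • w n + y ∈ N n := by
  have hN : ∀ (n : ℕ) (c : ℕ → 𝕂), (∀ i, c i ≠ 0) → ∀ V ∈ 𝓝 (0 : E),
      ∃ N, St w G u n c N ∧ N ⊆ V := by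
    intro n c hc V hV
    obtain ⟨N, h1, h2, h3, h4⟩ := exists_N (𝕂 := 𝕂) (fun i => c i • w i) (G n) (hG n) n
      (fun a ha => by
        simp only [smul_smul]
        apply hw
        intro h
        apply ha
        funext i
        have := congrFun h i
        simpa [hc] using this) (V ∩ u n) (inter_mem hV (hu n))
    exact ⟨N, ⟨hc, h1, h2, fun y hy => (h3 hy).2, h4⟩, fun y hy => (h3 hy).1⟩
  let S := fun n => {p : (ℕ → 𝕂) × Set E // St w G u n p.1 p.2}
  have step : ∀ n (p : S n), ∃ q : S (n + 1), (∀ i < n, q.1.1 i = p.1.1 i) ∧ q.1.2 ⊆ p.1.2 ∧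
      ∀ a : 𝕂, ‖a‖ ≤ n → ∀ y ∈ q.1.2, a • q.1.1 n • w n + y ∈ p.1.2 := by
    rintro n ⟨⟨c, N⟩, hp⟩
    obtain ⟨H, hH, hHH⟩ := exists_nhds_zero_half hp.2.1
    obtain ⟨t, ht, hta⟩ := exists_c (𝕂 := 𝕂) (w n) n H hH
    obtain ⟨N', h1, h2⟩ := hN (n + 1) (Function.update c n t) (fun i => by
      by_cases h : i = n
      · subst h; simpa using ht
      · simpa [h] using hp.1 i) H hH
    refine ⟨⟨(Function.update c n t, N'), h1⟩, fun i hi => by simp [hi.ne], fun y hy => ?_,
      fun a ha y hy => ?_⟩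
    · simpa using hHH 0 (mem_of_mem_nhds hH) y (h2 hy)
    · simpa using hHH _ (hta a ha) y (h2 hy)
  choose nxt h1 h2 h3 using step
  obtain ⟨N0, hN0, -⟩ := hN 0 (fun _ => 1) (fun _ => one_ne_zero) Set.univ univ_mem
  let sq : ∀ n, S n := fun n => Nat.rec ⟨(fun _ => 1, N0), hN0⟩ (fun n p => nxt n p) n
  have hsq : ∀ n, sq (n + 1) = nxt n (sq n) := fun n => rfl
  have hst : ∀ n, ∀ i < n, (sq n).1.1 i = (sq (i + 1)).1.1 i := by
    intro n
    induction n with
    | zero => intro i hi; omega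
    | succ n ih =>
      intro i hi
      rcases Nat.lt_succ_iff_lt_or_eq.1 hi with h | h
      · rw [hsq, h1 n _ i h, ih i h]
      · rw [h]
  refine ⟨fun i => (sq (i + 1)).1.1 i, fun n => (sq n).1.2, fun n => ?_,
    antitone_nat_of_succ_le (fun n => h2 n (sq n)), fun n => h3 n (sq n)⟩
  obtain ⟨-, a2, a3, a4, a5⟩ := (sq n).2
  refine ⟨fun i => (sq (i + 1)).2.1 i, a2, a3, a4, fun a b1 b2 y hy => ?_⟩
  have := a5 a b1 b2 y hy
  simpa only [hst n _ (Fin.is_lt _)] using this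

/-- bounded sequences -/
def Bd (𝕂 : Type) [RCLike 𝕂] : Submodule 𝕂 (ℕ → 𝕂) where
  carrier := {a | ∃ B : ℕ, ∀ i, ‖a i‖ ≤ B}
  zero_mem' := ⟨0, by simp⟩
  add_mem' := by
    rintro a b ⟨B, hB⟩ ⟨C, hC⟩
    exact ⟨B + C, fun i => (norm_add_le _ _).trans (by push_cast; linarith [hB i, hC i])⟩
  smul_mem' := by
    rintro c a ⟨B, hB⟩
    obtain ⟨C, hC⟩ := exists_nat_ge ‖c‖
    refine ⟨C * B, fun i => ?_⟩
    rw [Pi.smul_apply, norm_smul]
    push_cast
    exact mul_le_mul hC (hB i) (norm_nonneg _) (by positivity)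

lemma rank_Bd : Cardinal.continuum ≤ Module.rank 𝕂 (Bd 𝕂) := by
  let g : Set.Ioo (0 : ℝ) 1 → Bd 𝕂 := fun t => ⟨fun n => ((t.1 : ℝ) : 𝕂) ^ n, 1, fun n => by
    rw [norm_pow, RCLike.norm_ofReal, abs_of_pos t.2.1]
    simpa using pow_le_one₀ t.2.1.le t.2.2.le⟩
  have h1 := (linearIndependent_monoidHom (Multiplicative ℕ) 𝕂).comp
    (fun t : Set.Ioo (0 : ℝ) 1 => powersHom 𝕂 ((t.1 : ℝ) : 𝕂)) (by
      intro s t h
      have := (powersHom 𝕂).injective h
      exact Subtype.ext (RCLike.ofReal_injective this))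
  have h2 : LinearIndependent 𝕂 g := LinearIndependent.of_comp (Bd 𝕂).subtype h1
  have := h2.cardinal_le_rank
  rwa [Cardinal.mk_Ioo_real zero_lt_one] at this

lemma card_le {Y : Type} [TopologicalSpace Y] [T1Space Y] [SecondCountableTopology Y] :
    Cardinal.mk Y ≤ Cardinal.continuum := by
  have hinj : Function.Injective
      (fun y : Y => {s : TopologicalSpace.countableBasis Y | y ∈ s.1}) := by
    intro y z h
    by_contra hne
    obtain ⟨s, hs, hy, hsub⟩ :=
      (TopologicalSpace.isBasis_countableBasis Y).exists_subset_of_mem_open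
        (show y ∈ ({z}ᶜ : Set Y) from hne) isOpen_compl_singleton
    have : (⟨s, hs⟩ : TopologicalSpace.countableBasis Y) ∈
        {s : TopologicalSpace.countableBasis Y | z ∈ s.1} := by
      have h' := Set.ext_iff.1 h ⟨s, hs⟩
      exact h'.1 hy
    exact hsub this rfl
  refine (Cardinal.mk_le_of_injective hinj).trans ?_
  rw [Cardinal.mk_set, ← Cardinal.two_power_aleph0]
  exact Cardinal.power_le_power_left two_ne_zero Cardinal.mk_le_aleph0

theorem main [CompleteSpace E] [TopologicalSpace.MetrizableSpace E] (T : E →ₗ[𝕂] E)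
    (hT : Continuous T) (x : E) (hx : Dense (Set.range fun n : ℕ => (T ^ n) x)) :
    ∃ M : Submodule 𝕂 E, Dense (M : Set E) ∧
      (∀ y ∈ M, y ≠ 0 → Dense (Set.range fun n : ℕ => (T ^ n) y)) ∧
      Module.rank 𝕂 M = Module.rank 𝕂 E := by
  rcases subsingleton_or_nontrivial E with hs | hs
  · exact ⟨⊤, by simp, fun y _ hy => (hy (Subsingleton.elim _ _)).elim, rank_top 𝕂 E⟩
  have : TopologicalSpace.SeparableSpace E := ⟨⟨_, Set.countable_range _, hx⟩⟩
  have : (uniformity E).IsCountablyGenerated := IsUniformAddGroup.uniformity_countably_generated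
  have : SecondCountableTopology E := UniformSpace.secondCountable_of_separable E
  obtain ⟨U, hU⟩ := (TopologicalSpace.countable_countableBasis E).exists_eq_range
    (by
      obtain ⟨s, hs, -⟩ := (TopologicalSpace.isBasis_countableBasis E).exists_subset_of_mem_open
        (Set.mem_univ (0 : E)) isOpen_univ
      exact ⟨s, hs⟩)
  have hUm : ∀ j, U j ∈ TopologicalSpace.countableBasis E := fun j => by rw [hU]; exact ⟨j, rfl⟩
  have hTk : ∀ k : ℕ, Continuous (⇑(T ^ k) : E → E) := fun k => by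
    rw [Module.End.coe_pow]; exact hT.iterate k
  let G : ℕ → Set E := fun n => ⋂ j ∈ Finset.range n, ⋃ k : ℕ, (T ^ k) ⁻¹' U j
  have hG : ∀ n, IsOpen (G n) := fun n => isOpen_biInter_finset fun j _ => isOpen_iUnion fun k =>
    (TopologicalSpace.isOpen_of_mem_countableBasis (hUm j)).preimage (hTk k)
  have hG1 : ∀ y, Dense (Set.range fun n : ℕ => (T ^ n) y) → ∀ n, y ∈ G n := by
    intro y hy n
    simp only [G, Set.mem_iInter, Set.mem_iUnion]
    intro j _
    obtain ⟨_, ⟨k, rfl⟩, hk⟩ := hy.exists_mem_open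
      (TopologicalSpace.isOpen_of_mem_countableBasis (hUm j))
      (TopologicalSpace.nonempty_of_mem_countableBasis (hUm j))
    exact ⟨k, hk⟩
  have hG2 : ∀ y, (∀ᶠ n in atTop, y ∈ G n) → Dense (Set.range fun n : ℕ => (T ^ n) y) := by
    intro y hy
    rw [(TopologicalSpace.isBasis_countableBasis E).dense_iff]
    intro o ho _
    rw [hU] at ho
    obtain ⟨j, rfl⟩ := ho
    obtain ⟨n, hn, hjn⟩ := (hy.and (eventually_gt_atTop j)).exists
    simp only [G, Set.mem_iInter, Set.mem_iUnion] at hn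
    obtain ⟨k, hk⟩ := hn j (Finset.mem_range.2 hjn)
    exact ⟨_, hk, k, rfl⟩
  obtain ⟨u, hu⟩ := (𝓝 (0 : E)).exists_antitone_basis
  obtain ⟨c, N, hSt, hanti, hlink⟩ := exists_seq (𝕂 := 𝕂) (fun i => (T ^ i) x) G u hG hu.mem
    (fun m n a ha => hG1 _ (hc_sum T hT x hx n a ha) m)
  have htail : ∀ (a : ℕ → 𝕂) (B : ℕ), (∀ i, ‖a i‖ ≤ B) → ∀ n, B ≤ n → ∀ t : Finset ℕ,
      (∀ i ∈ t, n ≤ i) → ∑ i ∈ t, a i • c i • (T ^ i) x ∈ N n := fun a B hB n hn t ht =>
    sum_mem_chain N _ (fun n => mem_of_mem_nhds (hSt n).2.1) hanti B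
      (fun i hi y hy => hlink i (a i) ((hB i).trans (by exact_mod_cast hi)) y hy) t n hn ht
  have hsum : ∀ a : Bd 𝕂, Summable (fun i => a.1 i • c i • (T ^ i) x) := by
    rintro ⟨a, B, hB⟩
    rw [summable_iff_vanishing]
    intro e he
    obtain ⟨m, hm⟩ := hu.mem_iff.1 he
    refine ⟨Finset.range (max m B), fun t ht => ?_⟩
    have := htail a B hB (max m B) (le_max_right _ _) t (fun i hi => by
      have := Finset.disjoint_left.1 ht hi
      simpa using this)
    exact hm (hu.antitone (le_max_left m B) ((hSt _).2.2.2.1 this))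
  let Φ : Bd 𝕂 →ₗ[𝕂] E :=
    { toFun := fun a => ∑' i, a.1 i • c i • (T ^ i) x
      map_add' := fun a b => by
        rw [← (hsum a).tsum_add (hsum b)]
        simp [add_smul]
      map_smul' := fun r a => by
        rw [RingHom.id_apply, ← (hsum a).tsum_const_smul r]
        simp [mul_smul] }
  have hΦ : ∀ a : Bd 𝕂, a ≠ 0 → Dense (Set.range fun n : ℕ => (T ^ n) (Φ a)) := by
    intro a ha
    obtain ⟨B, hB⟩ := a.2
    obtain ⟨i0, hi0⟩ : ∃ i, a.1 i ≠ 0 := by
      by_contra h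
      push Not at h
      exact ha (Subtype.ext (funext h))
    apply hG2
    have hev : ∀ᶠ n : ℕ in atTop, 1 / (n + 1 : ℝ) ≤ ‖a.1 i0‖ :=
      tendsto_one_div_add_atTop_nhds_zero_nat.eventually (ge_mem_nhds (norm_pos_iff.2 hi0))
    filter_upwards [hev, eventually_gt_atTop i0, eventually_ge_atTop B] with n h1 h2 h3
    have hy : Φ a - ∑ i ∈ Finset.range n, a.1 i • c i • (T ^ i) x ∈ N n := by
      refine (hSt n).2.2.1.mem_of_tendsto
        ((hsum a).hasSum.tendsto_sum_nat.sub_const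
          (∑ i ∈ Finset.range n, a.1 i • c i • (T ^ i) x)) ?_
      filter_upwards [eventually_ge_atTop n] with m hm
      rw [← Finset.sum_Ico_eq_sub _ hm]
      exact htail a.1 B hB n h3 _ (fun i hi => (Finset.mem_Ico.1 hi).1)
    have := (hSt n).2.2.2.2 (fun i : Fin n => a.1 i)
      ((pi_norm_le_iff_of_nonneg (by positivity)).2
        (fun i => (hB i).trans (by exact_mod_cast h3)))
      (h1.trans (norm_le_pi_norm (fun i : Fin n => a.1 i) ⟨i0, h2⟩)) _ hy
    rw [Fin.sum_univ_eq_sum_range (fun i => a.1 i • c i • (T ^ i) x) n] at this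
    simpa using this
  have hinj : Function.Injective Φ := by
    rw [injective_iff_map_eq_zero]
    intro a ha
    by_contra hne
    have h := hΦ a hne
    simp only [ha, map_zero, Set.range_const] at h
    obtain ⟨z, hz⟩ := exists_ne (0 : E)
    have := h z
    rw [closure_singleton] at this
    exact hz this
  refine ⟨LinearMap.range Φ, hx.mono ?_, ?_, ?_⟩
  · rintro _ ⟨n, rfl⟩
    obtain ⟨B, hB⟩ := exists_nat_ge ‖(c n)⁻¹‖
    refine ⟨⟨Pi.single n (c n)⁻¹, B, fun i => ?_⟩, ?_⟩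
    · by_cases h : i = n
      · subst h; simpa using hB
      · simp [h]
    · change ∑' i, (Pi.single n (c n)⁻¹ : ℕ → 𝕂) i • c i • (T ^ i) x = _
      rw [tsum_eq_single n (fun i hi => by simp [hi])]
      simp [smul_smul, (hSt 0).1 n]
  · rintro _ ⟨a, rfl⟩ hy
    exact hΦ a (fun h => hy (by rw [h, map_zero]))
  · apply le_antisymm (Submodule.rank_le _)
    rw [rank_range_of_injective Φ hinj]
    exact ((rank_le_card 𝕂 E).trans card_le).trans rank_Bd

end

end Pool.Agent.H30.Hyper
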