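import Mathlib

open Filter Topology

namespace Pool.Agent.H30.Lfp

theorem lfp {S : Type} (Φ : (S → ℝ) → S → ℝ) (hm : Monotone Φ) (hc : Continuous Φ) (x0 : S → ℝ)
    (h0 : x0 ≤ Φ x0) (h1 : x0 ≤ 1) (h2 : Φ 1 ≤ 1) :
    Φ (fun s => ⨆ n, Φ^[n] x0 s) = (fun s => ⨆ n, Φ^[n] x0 s) ∧ (∀ s, x0 s ≤ ⨆ n, Φ^[n] x0 s) ∧
      ∀ v, x0 ≤ v → Φ v ≤ v → ∀ s, ⨆ n, Φ^[n] x0 s ≤ v s := by
  have sup : ∀ v, x0 ≤ v → Φ v ≤ v → ∀ n, Φ^[n] x0 ≤ v := by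
    intro v a b n
    induction n with
    | zero => exact a
    | succ n ih => rw [Function.iterate_succ_apply']; exact (hm ih).trans b
  have mono : Monotone fun n => Φ^[n] x0 := hm.monotone_iterate_of_le_map h0
  have bdd : ∀ s, BddAbove (Set.range fun n => Φ^[n] x0 s) := fun s =>
    ⟨1, by rintro _ ⟨n, rfl⟩; exact sup 1 h1 h2 n s⟩
  have ten : Tendsto (fun n => Φ^[n] x0) atTop (𝓝 fun s => ⨆ n, Φ^[n] x0 s) :=
    tendsto_pi_nhds.2 fun s => tendsto_atTop_ciSup (fun a b hab => mono hab s) (bdd s)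
  refine ⟨?_, fun s => le_ciSup (bdd s) 0, fun v a b s => ciSup_le fun n => sup v a b n s⟩
  exact isFixedPt_of_tendsto_iterate ten hc.continuousAt

end Pool.Agent.H30.Lfp
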