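import Mathlib

set_option autoImplicit false

namespace Pool.Agent.H30.Loc

variable {K : Type} [Field K]

/-- both triples lie on one of six special lines -/
def SL (a b c a' b' c' : K) : Prop :=
  (a = 0 ∧ c = 0 ∧ a' = 0 ∧ c' = 0) ∨ (a = 0 ∧ b = 0 ∧ a' = 0 ∧ b' = 0) ∨
  (a = b ∧ c = 0 ∧ a' = b' ∧ c' = 0) ∨ (a = c ∧ b = 0 ∧ a' = c' ∧ b' = 0) ∨
  (a = 0 ∧ b = c ∧ a' = 0 ∧ b' = c') ∨ (a = b ∧ b = c ∧ a' = b' ∧ b' = c')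

/-- the planar relation: one triple vanishes or both lie on a special line -/
def TL (a b c a' b' c' : K) : Prop :=
  (a = 0 ∧ b = 0 ∧ c = 0) ∨ (a' = 0 ∧ b' = 0 ∧ c' = 0) ∨ SL a b c a' b' c'

lemma TL_symm {a b c a' b' c' : K} (h : TL a b c a' b' c') : TL a' b' c' a b c := by
  unfold TL SL at *
  rcases h with h | h | h | h | h | h | h | h <;> grind

lemma TL_add {a b c x y z a' b' c' : K} (h : TL a b c a' b' c') (h' : TL x y z a' b' c') :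
    TL (a + x) (b + y) (c + z) a' b' c' := by
  unfold TL SL at *
  rcases h with h | h | h | h | h | h | h | h <;>
    rcases h' with h' | h' | h' | h' | h' | h' | h' | h' <;> grind

lemma TL_smul {a b c a' b' c' : K} (t : K) (h : TL a b c a' b' c') :
    TL (t * a) (t * b) (t * c) a' b' c' := by
  unfold TL SL at *
  rcases h with h | h | h | h | h | h | h | h <;> simp_all

/-- coordinates: 0 is p, 1 2 complete V1, 3 4 complete V2, 5 6 are a1 a2 -/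
def rel (u w : Fin 7 → K) : Prop :=
  u = 0 ∨ w = 0 ∨
  (u 3 = 0 ∧ u 4 = 0 ∧ u 6 = 0 ∧ w 3 = 0 ∧ w 4 = 0 ∧ w 6 = 0 ∧
    TL (u 0) (u 1) (u 2) (w 0) (w 1) (w 2)) ∨
  (u 1 = 0 ∧ u 2 = 0 ∧ u 5 = 0 ∧ w 1 = 0 ∧ w 2 = 0 ∧ w 5 = 0 ∧
    TL (u 0) (u 3) (u 4) (w 0) (w 3) (w 4)) ∨
  (u 0 = 0 ∧ u 1 = 0 ∧ u 2 = 0 ∧ u 3 = 0 ∧ u 4 = 0 ∧
    w 1 = 0 ∧ w 2 = 0 ∧ w 3 = 0 ∧ w 4 = 0 ∧ w 5 = 0 ∧ w 6 = 0) ∨
  (w 0 = 0 ∧ w 1 = 0 ∧ w 2 = 0 ∧ w 3 = 0 ∧ w 4 = 0 ∧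
    u 1 = 0 ∧ u 2 = 0 ∧ u 3 = 0 ∧ u 4 = 0 ∧ u 5 = 0 ∧ u 6 = 0)

lemma eq_zero_iff (w : Fin 7 → K) :
    w = 0 ↔ w 0 = 0 ∧ w 1 = 0 ∧ w 2 = 0 ∧ w 3 = 0 ∧ w 4 = 0 ∧ w 5 = 0 ∧ w 6 = 0 := by
  constructor
  · rintro rfl; simp
  · rintro ⟨h0, h1, h2, h3, h4, h5, h6⟩
    funext i
    fin_cases i <;> simpa

lemma rel_symm {u w : Fin 7 → K} (h : rel u w) : rel w u := by
  unfold rel at *
  have := @TL_symm K _ (u 0) (u 1) (u 2) (w 0) (w 1) (w 2)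
  have := @TL_symm K _ (u 0) (u 3) (u 4) (w 0) (w 3) (w 4)
  rcases h with h | h | h | h | h | h <;> grind

lemma TL_p {a b c a' : K} (h : TL a b c a' 0 0) : a' = 0 ∨ (a = 0 ∧ b = 0 ∧ c = 0) := by
  unfold TL SL at h
  grind

lemma TL_0 (a b c : K) : TL 0 0 0 a b c := Or.inl ⟨rfl, rfl, rfl⟩

lemma TL_0' (a b c : K) : TL a b c 0 0 0 := Or.inr (Or.inl ⟨rfl, rfl, rfl⟩)

lemma rel_add {u x w : Fin 7 → K} (h : rel u w) (h' : rel x w) : rel (u + x) w := by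
  have a1 := @TL_add K _ (u 0) (u 1) (u 2) (x 0) (x 1) (x 2) (w 0) (w 1) (w 2)
  have a2 := @TL_add K _ (u 0) (u 3) (u 4) (x 0) (x 3) (x 4) (w 0) (w 3) (w 4)
  have p1 := @TL_p K _ (u 0) (u 1) (u 2) (w 0)
  have p2 := @TL_p K _ (u 0) (u 3) (u 4) (w 0)
  have p3 := @TL_p K _ (x 0) (x 1) (x 2) (w 0)
  have p4 := @TL_p K _ (x 0) (x 3) (x 4) (w 0)
  have z1 := @TL_0' K _ (u 0 + x 0) (u 1 + x 1) (u 2 + x 2)
  have z2 := @TL_0' K _ (u 0 + x 0) (u 3 + x 3) (u 4 + x 4)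
  unfold rel at *
  simp only [eq_zero_iff, Pi.add_apply] at *
  rcases h with h | h | h | h | h | h <;> rcases h' with h' | h' | h' | h' | h' | h' <;> grind

lemma rel_smul {u w : Fin 7 → K} (t : K) (h : rel u w) : rel (t • u) w := by
  have a1 := @TL_smul K _ (u 0) (u 1) (u 2) (w 0) (w 1) (w 2) t
  have a2 := @TL_smul K _ (u 0) (u 3) (u 4) (w 0) (w 3) (w 4) t
  unfold rel at *
  simp only [eq_zero_iff, Pi.smul_apply, smul_eq_mul] at *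
  rcases h with h | h | h | h | h | h <;> grind


lemma rel_zero (w : Fin 7 → K) : rel 0 w := Or.inl rfl

lemma rel_sum {m : ℕ} (c : Fin m → K) (v : Fin m → Fin 7 → K) (w : Fin 7 → K)
    (h : ∀ i, rel (v i) w) : rel (∑ i, c i • v i) w :=
  Finset.sum_induction _ (fun u => rel u w) (fun _ _ => rel_add) (rel_zero w)
    (fun i _ => rel_smul _ (h i))

lemma rel_a1 {w : Fin 7 → K} (h : rel ![0, 0, 0, 0, 0, 1, 0] w) :
    w 3 = 0 ∧ w 4 = 0 ∧ w 6 = 0 := by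
  unfold rel at h
  simp only [eq_zero_iff] at h
  simp at h
  grind

lemma rel_a2 {w : Fin 7 → K} (h : rel ![0, 0, 0, 0, 0, 0, 1] w) :
    w 1 = 0 ∧ w 2 = 0 ∧ w 5 = 0 := by
  unfold rel at h
  simp only [eq_zero_iff] at h
  simp at h
  grind

lemma rel_pp {u w : Fin 7 → K} (h : rel u w) (hu1 : u 1 = 0) (hu2 : u 2 = 0) (hu3 : u 3 = 0)
    (hu4 : u 4 = 0) (hw1 : w 1 = 0) (hw2 : w 2 = 0) (hw3 : w 3 = 0) (hw4 : w 4 = 0) :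
    u 0 * w 0 = 0 := by
  rw [mul_eq_zero]
  unfold rel at h
  simp only [eq_zero_iff, hu1, hu2, hu3, hu4, hw1, hw2, hw3, hw4] at h
  have := @TL_p K _ (u 0) 0 0 (w 0)
  rcases h with h | h | h | h | h | h <;> grind

end Pool.Agent.H30.Loc
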