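import Pool.Agent.H30.PdA

/-! Local cohomology and `Ext` groups. -/

namespace Pool.Agent.H30.Pd
open CategoryTheory Abelian Limits Opposite RingTheory.Sequence

variable {R : Type} [CommRing R]

noncomputable abbrev FF (Y : ModuleCat.{0} R) : ModuleCat.{0} R ⥤ (ModuleCat.{0} R)ᵒᵖ :=
  ((linearYoneda R (ModuleCat.{0} R)).obj Y).rightOp

noncomputable abbrev KK (Y : ModuleCat.{0} R) {X : ModuleCat.{0} R} (P : ProjectiveResolution X) :=
  ((FF Y).mapHomologicalComplex (ComplexShape.down ℕ)).obj P.complex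

noncomputable def kk (Y : ModuleCat.{0} R) {Z : ModuleCat.{0} R} (f : Z ⟶ Y) :
    (FF Y).obj Z ⟶ op (ModuleCat.of R R) :=
  Quiver.Hom.op (ModuleCat.ofHom (LinearMap.toSpanSingleton R (Z ⟶ Y) f))

lemma kk_comp (Y : ModuleCat.{0} R) {Z W : ModuleCat.{0} R} (f : Z ⟶ Y) (g : W ⟶ Z) :
    (FF Y).map g ≫ kk Y f = kk Y (g ≫ f) := by
  apply Quiver.Hom.unop_inj
  ext
  change g ≫ ((1 : R) • f) = (1 : R) • (g ≫ f)
  simp

lemma kk_zero (Y : ModuleCat.{0} R) {Z : ModuleCat.{0} R} : kk Y (0 : Z ⟶ Y) = 0 := by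
  apply Quiver.Hom.unop_inj
  ext
  change ((1 : R) • (0 : Z ⟶ Y)) = (0 : Z ⟶ Y)
  simp

noncomputable def cl (Y : ModuleCat.{0} R) {X : ModuleCat.{0} R} (P : ProjectiveResolution X) (n : ℕ)
    (f : P.complex.X (n + 1) ⟶ Y) (hf : P.complex.d (n + 2) (n + 1) ≫ f = 0) :
    ((FF Y).leftDerived (n + 1)).obj X ⟶ op (ModuleCat.of R R) :=
  (P.isoLeftDerivedObj (FF Y) (n + 1)).hom ≫ (KK Y P).homologyι (n + 1) ≫
    (KK Y P).descOpcycles (kk Y f) (n + 2) (by simp) (by
      change (FF Y).map _ ≫ _ = 0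
      rw [kk_comp, hf, kk_zero])

lemma cl_nat (Y : ModuleCat.{0} R) {X X' : ModuleCat.{0} R} (P : ProjectiveResolution X)
    (P' : ProjectiveResolution X') (g : X' ⟶ X) (n : ℕ)
    (f : P.complex.X (n + 1) ⟶ Y) (hf : P.complex.d (n + 2) (n + 1) ≫ f = 0) :
    ((FF Y).leftDerived (n + 1)).map g ≫ cl Y P n f hf =
      cl Y P' n ((ProjectiveResolution.lift g P' P).f (n + 1) ≫ f)
        (by rw [← HomologicalComplex.Hom.comm_assoc, hf, comp_zero]) := by
  unfold cl
  rw [ProjectiveResolution.isoLeftDerivedObj_hom_naturality_assoc g P' P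
    (ProjectiveResolution.lift g P' P) (ProjectiveResolution.lift_commutes_zero g P' P)]
  congr 1
  refine (HomologicalComplex.homologyι_naturality_assoc
    (((FF Y).mapHomologicalComplex (ComplexShape.down ℕ)).map (ProjectiveResolution.lift g P' P))
    (n + 1) _).trans ?_
  rw [HomologicalComplex.opcyclesMap_comp_descOpcycles]
  simp only [← kk_comp]
  rfl

lemma cl_zero (Y : ModuleCat.{0} R) {X : ModuleCat.{0} R} (P : ProjectiveResolution X) (n : ℕ)
    (f : P.complex.X (n + 1) ⟶ Y) (hf : P.complex.d (n + 2) (n + 1) ≫ f = 0)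
    (h : cl Y P n f hf = 0) : ∃ g : P.complex.X n ⟶ Y, P.complex.d (n + 1) n ≫ g = f := by
  unfold cl at h
  rw [Preadditive.IsIso.comp_left_eq_zero] at h
  have ex : (ShortComplex.mk _ _ ((KK Y P).homologyι_comp_fromOpcycles (n + 1) n)).Exact :=
    ShortComplex.exact_of_f_is_kernel _ ((KK Y P).homologyIsKernel (n + 1) n (by simp))
  have e := ex.comp_descToInjective _ h
  set k := ex.descToInjective _ h
  have e2 : (FF Y).map (P.complex.d (n + 1) n) ≫ k = kk Y f := by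
    have := congrArg ((KK Y P).pOpcycles (n + 1) ≫ ·) e
    simp only [HomologicalComplex.p_descOpcycles, HomologicalComplex.p_fromOpcycles_assoc] at this
    exact this
  refine ⟨k.unop.hom (1 : R), ?_⟩
  have := congrArg (fun t => t.unop.hom (1 : R)) e2
  exact this.trans (one_smul R f)

lemma lc_zero (J : Ideal R) (Y : ModuleCat.{0} R) (n : ℕ)
    (h : ∀ t : ℕ, Subsingleton (Ext (ModuleCat.of R (R ⧸ J ^ t)) Y (n + 1))) :
    IsZero ((localCohomology J (n + 1)).obj Y) := by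
  refine IsZero.of_iso ?_ (colimitObjIsoColimitCompEvaluation
    (localCohomology.diagram (localCohomology.idealPowersDiagram J) (n + 1)) Y)
  rw [IsZero.iff_id_eq_zero]
  refine colimit.hom_ext fun t => IsZero.eq_of_src ?_ _ _
  let P := ProjectiveResolution.of (ModuleCat.of R (R ⧸ J ^ t.unop.unop))
  refine IsZero.of_iso ?_ (P.isoExt (n + 1) Y)
  rw [← HomologicalComplex.exactAt_iff_isZero_homology,
    HomologicalComplex.exactAt_iff' _ n (n + 1) (n + 2) (by simp) (by simp),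
    ShortComplex.moduleCat_exact_iff]
  intro (f : P.complex.X (n + 1) ⟶ Y) (hf : P.complex.d (n + 2) (n + 1) ≫ f = 0)
  have := h t.unop.unop
  exact (P.extMk_eq_zero_iff f (n + 2) rfl hf n rfl).1 (Subsingleton.elim _ _)

lemma lc_nz (J : Ideal R) (Y : ModuleCat.{0} R) (n : ℕ)
    (h : IsZero ((localCohomology J (n + 1)).obj Y)) (t : ℕ)
    (e : Ext (ModuleCat.of R (R ⧸ J ^ t)) Y (n + 1)) : ∃ (s : ℕ) (hs : t ≤ s),
      (Ext.mk₀ (ModuleCat.ofHom (Submodule.mapQ (J ^ s) (J ^ t) LinearMap.id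
        (Ideal.pow_le_pow_right hs)))).comp e (zero_add _) = 0 := by
  let D := localCohomology.diagram (localCohomology.idealPowersDiagram J) (n + 1) ⋙
    (evaluation _ _).obj Y
  have hz : IsZero (colimit D) := h.of_iso (colimitObjIsoColimitCompEvaluation
    (localCohomology.diagram (localCohomology.idealPowersDiagram J) (n + 1)) Y).symm
  let P := ProjectiveResolution.of (ModuleCat.of R (R ⧸ J ^ t))
  obtain ⟨f, hf, rfl⟩ := P.extMk_surjective e (n + 2) rfl
  have := ModuleCat.subsingleton_of_isZero hz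
  obtain ⟨k, a, b, hk⟩ := Concrete.colimit_exists_of_rep_eq D (i := op (op t)) (j := op (op t))
    ((cl Y P n f hf).unop.hom (1 : R)) 0 (Subsingleton.elim _ _)
  have hs : t ≤ k.unop.unop := a.unop.unop.le
  refine ⟨k.unop.unop, hs, ?_⟩
  let P' := ProjectiveResolution.of (ModuleCat.of R (R ⧸ J ^ k.unop.unop))
  let q : ModuleCat.of R (R ⧸ J ^ k.unop.unop) ⟶ ModuleCat.of R (R ⧸ J ^ t) :=
    ModuleCat.ofHom (Submodule.mapQ _ _ LinearMap.id (Ideal.pow_le_pow_right hs))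
  have e1 : ((FF Y).leftDerived (n + 1)).map q ≫ cl Y P n f hf = 0 := by
    apply Quiver.Hom.unop_inj
    ext
    exact hk.trans (map_zero _)
  rw [cl_nat Y P P'] at e1
  rw [ProjectiveResolution.mk₀_comp_extMk f (n + 2) rfl hf (R' := P') (g := q)
    ⟨ProjectiveResolution.lift q P' P, by
      simpa using ProjectiveResolution.lift_commutes_zero q P' P⟩]
  exact (P'.extMk_eq_zero_iff _ (n + 2) rfl _ n rfl).2 (cl_zero Y P' n _ _ e1)

lemma extP (N : ModuleCat.{0} R) : ∀ (rs : List R) (M : ModuleCat.{0} R),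
    (∀ r ∈ rs, ∃ k, r ^ k ∈ Module.annihilator R N) → IsWeaklyRegular M rs →
    ∀ i < rs.length, Subsingleton (Ext N M i)
  | [], _, _, _, i, hi => by simp at hi
  | a :: rs, M, mem, reg, i, hi => by
    rw [isWeaklyRegular_cons_iff] at reg
    obtain ⟨k, hk⟩ := mem a List.mem_cons_self
    match i with
    | 0 => exact extW N [a ^ k] M (by simpa using hk) (by simpa using reg.1.pow k) 0 (by simp)
    | i + 1 =>
      let g := (AddCommGrpCat.ofHom ((Ext.mk₀ (ModuleCat.smulShortComplex M a).f).postcomp N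
        (add_zero (i + 1))))
      have mono_g : Mono g := by
        apply (Ext.covariant_sequence_exact₁' N reg.1.smulShortComplex_shortExact i (i + 1)
          rfl).mono_g ((AddCommGrpCat.isZero_of_iff_subsingleton.mpr ?_).eq_zero_of_src _)
        exact extP N rs (ModuleCat.of R (QuotSMulTop a M))
          (fun r hr => mem r (List.mem_cons_of_mem _ hr)) reg.2 i (by simpa using hi)
      let gk := AddCommGrpCat.ofHom ((Ext.mk₀ (M.smulShortComplex (a ^ k)).f).postcomp N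
        (add_zero (i + 1)))
      have mono_gk : Mono gk := by
        simp only [ModuleCat.smulShortComplex_f_eq_smul_id, g, gk] at mono_g ⊢
        exact (Ext.postcomp_smul_id_mono_iff (a ^ k) (i + 1)).mpr <|
          ((Ext.postcomp_smul_id_mono_iff a (i + 1)).mp mono_g).pow k
      have zero_gk : gk = 0 := Ext.postcomp_smul_id_eq_zero_of_mem_annihilator hk (i + 1)
      exact AddCommGrpCat.subsingleton_of_isZero (IsZero.of_mono_eq_zero _ zero_gk)

lemma extF (J : Ideal R) (rs : List R) (h : IsWeaklyRegular R rs) (hJ : ∀ r ∈ rs, r ∈ J) (t : ℕ)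
    (M : ModuleCat.{0} R) [Module.Flat R M] (i : ℕ) (hi : i < rs.length) :
    Subsingleton (Ext (ModuleCat.of R (R ⧸ J ^ t)) M i) :=
  extP _ rs M (fun r hr => ⟨t, by
    rw [show Module.annihilator R (ModuleCat.of R (R ⧸ J ^ t)) =
      Module.annihilator R (R ⧸ J ^ t) from rfl, Ideal.annihilator_quotient]
    exact Ideal.pow_mem_pow (hJ r hr) t⟩) (wr_flat h _) i hi

/-- A retract of a module of projective dimension at most one has no third local cohomology. -/
lemma lcA (J : Ideal R) (rs : List R) (hl : 5 ≤ rs.length) (h : IsWeaklyRegular R rs)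
    (hJ : ∀ r ∈ rs, r ∈ J) (D D0 : ModuleCat.{0} R) (hpd : HasProjectiveDimensionLE D 1)
    (i : D0 ⟶ D) (p : D ⟶ D0) (hp : i ≫ p = 𝟙 _) : IsZero ((localCohomology J 3).obj D0) := by
  refine lc_zero J D0 2 fun t => ?_
  have s1 := ModuleCat.shortExact_projectiveShortComplex D
  have p1 : Projective D.projectiveShortComplex.X₁ :=
    projective_iff_hasProjectiveDimensionLT_one.2
      ((s1.hasProjectiveDimensionLT_X₃_iff 0 inferInstance).1 hpd)
  have p2 : Module.Projective R D.projectiveShortComplex.X₁ :=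
    ModuleCat.projective_of_module_projective _
  have e1 : Subsingleton (Ext (ModuleCat.of R (R ⧸ J ^ t)) D 3) := ext3 _ s1 3
    (extF J rs h hJ t _ 3 (by omega)) (extF J rs h hJ t _ 4 (by omega))
  refine subsingleton_of_forall_eq 0 fun e => ?_
  rw [← Ext.comp_mk₀_id e, ← hp, ← Ext.mk₀_comp_mk₀, ← Ext.comp_assoc_of_second_deg_zero,
    Subsingleton.elim (e.comp (Ext.mk₀ i) _) 0, Ext.zero_comp]

lemma lcB (J : Ideal R) (rs : List R) (hl : 4 ≤ rs.length) (h : IsWeaklyRegular R rs)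
    (hJ : ∀ r ∈ rs, r ∈ J) (F G : Type) [AddCommGroup F] [Module R F] [Module.Flat R F]
    [AddCommGroup G] [Module R G] [Module.Flat R G] (δ : G →ₗ[R] G) (hδ : Function.Injective δ)
    (ρ : F →ₗ[R] G ⧸ LinearMap.range δ) (D0 : ModuleCat.{0} R)
    (i : D0 ⟶ ModuleCat.of R (LinearMap.ker ρ)) (p : ModuleCat.of R (LinearMap.ker ρ) ⟶ D0)
    (E : ModuleCat.of R R ⟶ ModuleCat.of R (LinearMap.ker ρ))
    (q : ModuleCat.of R (LinearMap.ker ρ) ⟶ ModuleCat.of R R) (hp : p ≫ i + q ≫ E = 𝟙 _)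
    (φ : ↥(J ^ 1) →ₗ[R] (G ⧸ LinearMap.range δ) ⧸ LinearMap.range ρ)
    (hφ : ∀ (s : ℕ) (hs : 1 ≤ s) (c : (G ⧸ LinearMap.range δ) ⧸ LinearMap.range ρ),
      ¬ ∀ (f : R) (hf : f ∈ J ^ s), φ ⟨f, Ideal.pow_le_pow_right hs hf⟩ = f • c) :
    ¬ IsZero ((localCohomology J 3).obj D0) := by
  intro hz
  let U := G ⧸ LinearMap.range δ
  let C := U ⧸ LinearMap.range ρ
  let S2 : ShortComplex (ModuleCat.{0} R) := ShortComplex.moduleCatMk (LinearMap.ker ρ).subtype
    ρ.rangeRestrict (by ext x; exact x.2)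
  have s2 : S2.ShortExact := ModuleCat.shortComplex_shortExact S2 (fun x => by
      change ρ.rangeRestrict x = 0 ↔ _
      rw [Subtype.ext_iff]
      exact ⟨fun h => ⟨⟨x, h⟩, rfl⟩, by rintro ⟨y, rfl⟩; exact y.2⟩)
    Subtype.val_injective ρ.surjective_rangeRestrict
  let SQ : ∀ (M : Type) [AddCommGroup M] [Module R M] (W : Submodule R M),
      ShortComplex (ModuleCat.{0} R) := fun M _ _ W =>
    ShortComplex.moduleCatMk W.subtype W.mkQ (by ext x; simp)
  have sQ : ∀ (M : Type) [AddCommGroup M] [Module R M] (W : Submodule R M),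
      (SQ M W).ShortExact := fun M _ _ W => ModuleCat.shortComplex_shortExact _
        (LinearMap.exact_subtype_mkQ W) Subtype.val_injective W.mkQ_surjective
  have s3 := sQ U (LinearMap.range ρ)
  let e1 : Ext (ModuleCat.of R (R ⧸ J ^ 1)) (ModuleCat.of R C) 1 :=
    (sQ R (J ^ 1)).extClass.comp (Ext.mk₀ (ModuleCat.ofHom φ)) (add_zero 1)
  let e2 : Ext (ModuleCat.of R (R ⧸ J ^ 1)) (ModuleCat.of R (LinearMap.range ρ)) 2 :=
    e1.comp s3.extClass rfl
  let e3 : Ext (ModuleCat.of R (R ⧸ J ^ 1)) (ModuleCat.of R (LinearMap.ker ρ)) 3 :=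
    e2.comp s2.extClass rfl
  obtain ⟨s, hs, h0⟩ := lc_nz J D0 2 hz 1 (e3.comp (Ext.mk₀ p) (add_zero 3))
  set Q : ModuleCat.of R (R ⧸ J ^ s) ⟶ ModuleCat.of R (R ⧸ J ^ 1) :=
    ModuleCat.ofHom (Submodule.mapQ (J ^ s) (J ^ 1) LinearMap.id (Ideal.pow_le_pow_right hs))
  have h3 : (Ext.mk₀ Q).comp e3 (zero_add 3) = 0 := by
    have := extF J rs h hJ s (ModuleCat.of R R) 3 (by omega)
    rw [← Ext.comp_mk₀_id ((Ext.mk₀ Q).comp e3 (zero_add 3)), ← hp, Ext.mk₀_add, Ext.comp_add,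
      ← Ext.mk₀_comp_mk₀, ← Ext.mk₀_comp_mk₀, ← Ext.comp_assoc_of_second_deg_zero,
      ← Ext.comp_assoc_of_second_deg_zero,
      Subsingleton.elim (((Ext.mk₀ Q).comp e3 (zero_add 3)).comp (Ext.mk₀ q) _) 0,
      Ext.comp_assoc_of_third_deg_zero (Ext.mk₀ Q) e3 (Ext.mk₀ p), h0]
    simp
  have h2 : (Ext.mk₀ Q).comp e2 (zero_add 2) = 0 := by
    have := extF J rs h hJ s (ModuleCat.of R F) 2 (by omega)
    obtain ⟨x, hx⟩ := Ext.covariant_sequence_exact₃ _ s2 ((Ext.mk₀ Q).comp e2 (zero_add 2)) rfl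
      ((Ext.comp_assoc _ _ _ _ rfl rfl).trans h3)
    rw [← hx, @Subsingleton.elim _ this x 0]
    exact Ext.zero_comp _ _ _ _ _
  have h1 : (Ext.mk₀ Q).comp e1 (zero_add 1) = 0 := by
    have : Module.Flat R (LinearMap.range δ) :=
      Module.Flat.of_linearEquiv (LinearEquiv.ofInjective δ hδ).symm
    have := ext3 (ModuleCat.of R (R ⧸ J ^ s)) (sQ G (LinearMap.range δ)) 1
      (extF J rs h hJ s (ModuleCat.of R G) 1 (by omega))
      (extF J rs h hJ s (ModuleCat.of R (LinearMap.range δ)) 2 (by omega))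
    obtain ⟨x, hx⟩ := Ext.covariant_sequence_exact₃ _ s3 ((Ext.mk₀ Q).comp e1 (zero_add 1)) rfl
      ((Ext.comp_assoc _ _ _ _ rfl rfl).trans h2)
    rw [← hx, @Subsingleton.elim _ this x 0]
    exact Ext.zero_comp _ _ _ _ _
  let j : ModuleCat.of R ↥(J ^ s) ⟶ ModuleCat.of R ↥(J ^ 1) :=
    ModuleCat.ofHom (Submodule.inclusion (Ideal.pow_le_pow_right hs))
  have nat := (sQ R (J ^ s)).extClass_naturality (sQ R (J ^ 1)) ⟨j, 𝟙 _, Q, rfl, rfl⟩
  obtain ⟨y, hy⟩ := Ext.contravariant_sequence_exact₁ (sQ R (J ^ s)) (ModuleCat.of R C)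
    (Ext.mk₀ (j ≫ ModuleCat.ofHom φ)) (add_zero 1) (by
      rw [← Ext.mk₀_comp_mk₀, ← Ext.comp_assoc_of_second_deg_zero]
      erw [nat]
      exact (Ext.comp_assoc _ _ _ _ rfl rfl).trans h1)
  obtain ⟨y, rfl⟩ := (Ext.mk₀_bijective _ _).2 y
  rw [Ext.mk₀_comp_mk₀] at hy
  have hy' := (Ext.mk₀_bijective _ _).1 hy
  refine hφ s hs (y.hom (1 : R)) fun f hf => ?_
  have := congrArg (fun t => t.hom ⟨f, hf⟩) hy'
  refine this.symm.trans ?_
  exact (congrArg y.hom (mul_one f).symm).trans (y.hom.map_smul f (1 : R))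

end Pool.Agent.H30.Pd
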