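import Mathlib

/-! Packings of unit balls: an octahedral cluster with three corner balls moved onto a face. -/

namespace Pool.Agent.H30.Oct

open Finset

/-- The centres of a packing of unit balls: the open unit balls are pairwise disjoint. -/
def IsPacking (P : Finset (EuclideanSpace ℝ (Fin 3))) : Prop :=
  ∀ a ∈ P, ∀ b ∈ P, a ≠ b → Disjoint (Metric.ball a 1) (Metric.ball b 1)

/-- The number of `m`-element sets of pairwise touching balls. -/
noncomputable def touching (m : ℕ) (P : Finset (EuclideanSpace ℝ (Fin 3))) : ℕ :=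
  {t : Finset (EuclideanSpace ℝ (Fin 3)) |
    t ⊆ P ∧ t.card = m ∧ ∀ a ∈ t, ∀ b ∈ t, a ≠ b → dist a b = 2}.ncard

abbrev P3 := ℕ × ℕ × ℕ

lemma two_tri (M : ℕ) : ∀ n ≤ M, 2 * ∑ y ∈ range M, (n - y) = n * (n + 1) := by
  induction M with
  | zero => intro n hn; simp [Nat.le_zero.1 hn]
  | succ M ih =>
    intro n hn
    cases n with
    | zero => simp
    | succ n =>
      rw [sum_range_succ']
      simp only [Nat.add_sub_add_right, Nat.sub_zero]
      have := ih n (by omega)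
      linarith

lemma six_tet (M : ℕ) : ∀ n ≤ M, 3 * ∑ y ∈ range M, (n - y) * (n - y + 1) =
    n * (n + 1) * (n + 2) := by
  induction M with
  | zero => intro n hn; simp [Nat.le_zero.1 hn]
  | succ M ih =>
    intro n hn
    cases n with
    | zero => simp
    | succ n =>
      rw [sum_range_succ']
      simp only [Nat.add_sub_add_right, Nat.sub_zero]
      have := ih n (by omega)
      linarith

def box (a b c : ℕ) : Finset P3 := range a ×ˢ range b ×ˢ range c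

lemma low_card (a b c m : ℕ) (h : m ≤ a ∧ m ≤ b ∧ m ≤ c) :
    6 * ((box a b c).filter (fun p => p.1 + p.2.1 + p.2.2 < m)).card = m * (m + 1) * (m + 2) := by
  rw [card_filter, box, sum_product, ← six_tet a m h.1, mul_sum, mul_sum]
  refine sum_congr rfl (fun x _ => ?_)
  rw [sum_product, ← two_tri b (m - x) (by omega), ← mul_assoc]
  congr 1
  refine sum_congr rfl (fun y _ => ?_)
  rw [← card_filter, ← card_range (m - x - y)]
  congr 1
  ext z
  simp only [mem_filter, mem_range]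
  omega

def N (a b c lo h : ℕ) : Finset P3 :=
  (box a b c).filter (fun p => lo ≤ p.1 + p.2.1 + p.2.2 ∧ p.1 + p.2.1 + p.2.2 + h + 3 ≤ a + b + c)

lemma N_card (a b c lo h : ℕ) (h1 : lo ≤ a ∧ lo ≤ b ∧ lo ≤ c) (h2 : h ≤ a ∧ h ≤ b ∧ h ≤ c)
    (h3 : lo + h + 2 ≤ a + b + c) :
    6 * (N a b c lo h).card + lo * (lo + 1) * (lo + 2) + h * (h + 1) * (h + 2) =
      6 * (a * b * c) := by
  have e1 := low_card a b c lo h1
  have e2 := low_card a b c h h2
  have e3 : ((box a b c).filter (fun p => p.1 + p.2.1 + p.2.2 < h)).card =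
      ((box a b c).filter (fun p => a + b + c < p.1 + p.2.1 + p.2.2 + h + 3)).card := by
    refine card_nbij' (fun p => (a - 1 - p.1, b - 1 - p.2.1, c - 1 - p.2.2))
      (fun p => (a - 1 - p.1, b - 1 - p.2.1, c - 1 - p.2.2)) ?_ ?_ ?_ ?_ <;>
    · rintro ⟨x, y, z⟩
      simp [box]
      omega
  have e4 : (box a b c).card = a * b * c := by simp [box, mul_assoc]
  have e5 := card_filter_add_card_filter_not (s := box a b c)
    (fun p => lo ≤ p.1 + p.2.1 + p.2.2 ∧ p.1 + p.2.1 + p.2.2 + h + 3 ≤ a + b + c)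
  have e6 : (box a b c).filter (fun p => ¬ (lo ≤ p.1 + p.2.1 + p.2.2 ∧
      p.1 + p.2.1 + p.2.2 + h + 3 ≤ a + b + c)) =
      (box a b c).filter (fun p => p.1 + p.2.1 + p.2.2 < lo) ∪
      (box a b c).filter (fun p => a + b + c < p.1 + p.2.1 + p.2.2 + h + 3) := by
    rw [← filter_or]
    exact filter_congr (fun p _ => by omega)
  rw [e6, card_union_of_disjoint (disjoint_filter.2 (fun p _ => by omega))] at e5
  unfold N
  omega

/-- the cluster -/
def S (L : ℕ) : Finset P3 :=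
  (N (L + 3) (L + 3) (L + 3) (L + 2) (L + 2) \ {(L + 2, L + 2, 0), (L + 2, 0, L + 2), (0, L + 2, L + 2)})
    ∪ {(0, 0, L + 1), (1, 0, L), (0, 1, L)}

lemma S_card (L : ℕ) : 3 * (S L).card = 2 * (L + 3) ^ 3 + (L + 3) := by
  have h := N_card (L + 3) (L + 3) (L + 3) (L + 2) (L + 2) (by omega) (by omega) (by omega)
  have h1 : ({(L + 2, L + 2, 0), (L + 2, 0, L + 2), (0, L + 2, L + 2)} : Finset P3) ⊆
      N (L + 3) (L + 3) (L + 3) (L + 2) (L + 2) := by
    simp [insert_subset_iff, N, box]; omega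
  have h2 := card_sdiff_add_card_eq_card h1
  rw [S, card_union_of_disjoint (by simp [N, box]; omega)]
  rw [card_eq_three.2 ⟨_, _, _, by simp, by simp, by simp, rfl⟩] at h2 ⊢
  nlinarith

def I {m : ℕ} (L : ℕ) (o : Fin m → P3) : Finset P3 :=
  (box (L + 3) (L + 3) (L + 3)).filter (fun p => ∀ i, p + o i ∈ S L)

lemma key (A B : Finset P3) (bad new : List P3) (h1 : ∀ p, p ∈ A → p ∉ bad → p ∈ B)
    (h2 : ∀ p ∈ new, p ∈ B ∧ p ∉ A) (h3 : new.Nodup) :
    A.card + new.length ≤ B.card + bad.length := by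
  have e1 : A ∪ new.toFinset ⊆ B ∪ bad.toFinset := by
    intro p hp
    simp only [mem_union, List.mem_toFinset] at hp ⊢
    rcases hp with hp | hp
    · by_cases hb : p ∈ bad
      · exact Or.inr hb
      · exact Or.inl (h1 p hp hb)
    · exact Or.inl (h2 p hp).1
  have e2 := card_le_card e1
  rw [card_union_of_disjoint (disjoint_right.2 (fun p hp => (h2 p (List.mem_toFinset.1 hp)).2)),
    List.toFinset_card_of_nodup h3] at e2
  have := card_union_le B bad.toFinset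
  have := List.toFinset_card_le bad
  omega

def off3 : Fin 8 → Fin 3 → P3 := ![![(0, 0, 0), (1, 0, 0), (0, 1, 0)],
  ![(0, 0, 0), (1, 0, 0), (0, 0, 1)],
  ![(0, 0, 0), (0, 1, 0), (0, 0, 1)],
  ![(1, 0, 0), (0, 1, 0), (0, 0, 1)],
  ![(1, 0, 0), (0, 1, 0), (1, 1, 0)],
  ![(1, 0, 0), (0, 0, 1), (1, 0, 1)],
  ![(0, 1, 0), (0, 0, 1), (0, 1, 1)],
  ![(1, 1, 0), (1, 0, 1), (0, 1, 1)]]

def off4 : Fin 2 → Fin 4 → P3 := ![![(0, 0, 0), (1, 0, 0), (0, 1, 0), (0, 0, 1)],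
  ![(1, 1, 0), (1, 0, 1), (0, 1, 1), (1, 1, 1)]]

lemma mem_N (a b c lo h x y z : ℕ) : (x, y, z) ∈ N a b c lo h ↔
    x < a ∧ y < b ∧ z < c ∧ lo ≤ x + y + z ∧ x + y + z + h + 3 ≤ a + b + c := by
  simp [N, box, and_assoc]

lemma mem_S (L x y z : ℕ) : (x, y, z) ∈ S L ↔ x ≤ L + 2 ∧ y ≤ L + 2 ∧ z ≤ L + 2 ∧
    ((L + 2 ≤ x + y + z ∧ x + y + z ≤ 2 * L + 4 ∧ x + y < 2 * L + 4 ∧ x + z < 2 * L + 4 ∧
      y + z < 2 * L + 4) ∨ (x + y + z = L + 1 ∧ x + y ≤ 1)) := by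
  simp only [S, mem_union, mem_sdiff, mem_N, mem_insert, mem_singleton, Prod.mk.injEq]
  omega

lemma mem_I3 (L x y z : ℕ) (a b c : P3) : (x, y, z) ∈ I L ![a, b, c] ↔
    x < L + 3 ∧ y < L + 3 ∧ z < L + 3 ∧ (x, y, z) + a ∈ S L ∧ (x, y, z) + b ∈ S L ∧
      (x, y, z) + c ∈ S L := by
  simp only [I, box, mem_filter, mem_product, mem_range, and_assoc, Fin.forall_fin_succ]
  simp

lemma mem_I4 (L x y z : ℕ) (a b c d : P3) : (x, y, z) ∈ I L ![a, b, c, d] ↔
    x < L + 3 ∧ y < L + 3 ∧ z < L + 3 ∧ (x, y, z) + a ∈ S L ∧ (x, y, z) + b ∈ S L ∧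
      (x, y, z) + c ∈ S L ∧ (x, y, z) + d ∈ S L := by
  simp only [I, box, mem_filter, mem_product, mem_range, and_assoc, Fin.forall_fin_succ]
  simp

lemma count3 (L : ℕ) : 4 * (L + 2) * (L + 3) * (4 * L + 7) < 3 * ∑ τ, (I L (off3 τ)).card := by
  have e0 : off3 0 = ![(0, 0, 0), (1, 0, 0), (0, 1, 0)] := rfl
  have h0 := key (N (L + 2) (L + 2) (L + 3) (L + 2) (L + 1)) (I L (off3 0))
    [(0, L + 1, L + 2), (L + 1, 0, L + 2)] [(0, 0, L + 1), (0, 1, L), (1, 0, L)]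
    (by rintro ⟨x, y, z⟩; rw [e0, mem_I3]; simp [mem_N, mem_S]; omega)
    (by rw [e0]; simp [mem_I3, mem_N, mem_S]; try omega) (by simp)
  have g0 := N_card (L + 2) (L + 2) (L + 3) (L + 2) (L + 1) (by omega) (by omega) (by omega)
  have e1 : off3 1 = ![(0, 0, 0), (1, 0, 0), (0, 0, 1)] := rfl
  have h1 := key (N (L + 2) (L + 3) (L + 2) (L + 2) (L + 1)) (I L (off3 1))
    [(0, L + 2, L + 1), (L + 1, L + 2, 0)] [(0, 0, L + 1), (0, 1, L), (1, 0, L)]
    (by rintro ⟨x, y, z⟩; rw [e1, mem_I3]; simp [mem_N, mem_S]; omega)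
    (by rw [e1]; simp [mem_I3, mem_N, mem_S]; try omega) (by simp)
  have g1 := N_card (L + 2) (L + 3) (L + 2) (L + 2) (L + 1) (by omega) (by omega) (by omega)
  have e2 : off3 2 = ![(0, 0, 0), (0, 1, 0), (0, 0, 1)] := rfl
  have h2 := key (N (L + 3) (L + 2) (L + 2) (L + 2) (L + 1)) (I L (off3 2))
    [(L + 2, 0, L + 1), (L + 2, L + 1, 0)] [(0, 0, L + 1), (0, 1, L), (1, 0, L)]
    (by rintro ⟨x, y, z⟩; rw [e2, mem_I3]; simp [mem_N, mem_S]; omega)
    (by rw [e2]; simp [mem_I3, mem_N, mem_S]; try omega) (by simp)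
  have g2 := N_card (L + 3) (L + 2) (L + 2) (L + 2) (L + 1) (by omega) (by omega) (by omega)
  have e3 : off3 3 = ![(1, 0, 0), (0, 1, 0), (0, 0, 1)] := rfl
  have h3 := key (N (L + 2) (L + 2) (L + 2) (L + 1) (L + 0)) (I L (off3 3))
    [] [(0, 0, L)]
    (by rintro ⟨x, y, z⟩; rw [e3, mem_I3]; simp [mem_N, mem_S]; omega)
    (by rw [e3]; simp [mem_I3, mem_N, mem_S]; try omega) (by simp)
  have g3 := N_card (L + 2) (L + 2) (L + 2) (L + 1) (L + 0) (by omega) (by omega) (by omega)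
  have e4 : off3 4 = ![(1, 0, 0), (0, 1, 0), (1, 1, 0)] := rfl
  have h4 := key (N (L + 2) (L + 2) (L + 3) (L + 1) (L + 2)) (I L (off3 4))
    [(L + 1, L + 1, 0)] [(0, 0, L)]
    (by rintro ⟨x, y, z⟩; rw [e4, mem_I3]; simp [mem_N, mem_S]; omega)
    (by rw [e4]; simp [mem_I3, mem_N, mem_S]; try omega) (by simp)
  have g4 := N_card (L + 2) (L + 2) (L + 3) (L + 1) (L + 2) (by omega) (by omega) (by omega)
  have e5 : off3 5 = ![(1, 0, 0), (0, 0, 1), (1, 0, 1)] := rfl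
  have h5 := key (N (L + 2) (L + 3) (L + 2) (L + 1) (L + 2)) (I L (off3 5))
    [(L + 1, 0, L + 1)] [(0, 0, L)]
    (by rintro ⟨x, y, z⟩; rw [e5, mem_I3]; simp [mem_N, mem_S]; omega)
    (by rw [e5]; simp [mem_I3, mem_N, mem_S]; try omega) (by simp)
  have g5 := N_card (L + 2) (L + 3) (L + 2) (L + 1) (L + 2) (by omega) (by omega) (by omega)
  have e6 : off3 6 = ![(0, 1, 0), (0, 0, 1), (0, 1, 1)] := rfl
  have h6 := key (N (L + 3) (L + 2) (L + 2) (L + 1) (L + 2)) (I L (off3 6))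
    [(0, L + 1, L + 1)] [(0, 0, L)]
    (by rintro ⟨x, y, z⟩; rw [e6, mem_I3]; simp [mem_N, mem_S]; omega)
    (by rw [e6]; simp [mem_I3, mem_N, mem_S]; try omega) (by simp)
  have g6 := N_card (L + 3) (L + 2) (L + 2) (L + 1) (L + 2) (by omega) (by omega) (by omega)
  have e7 : off3 7 = ![(1, 1, 0), (1, 0, 1), (0, 1, 1)] := rfl
  have h7 := key (N (L + 2) (L + 2) (L + 2) (L + 0) (L + 1)) (I L (off3 7))
    [(0, L + 1, L + 1), (L + 1, 0, L + 1), (L + 1, L + 1, 0)] []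
    (by rintro ⟨x, y, z⟩; rw [e7, mem_I3]; simp [mem_N, mem_S]; omega)
    (by rw [e7]; simp [mem_I3, mem_N, mem_S]; try omega) (by simp)
  have g7 := N_card (L + 2) (L + 2) (L + 2) (L + 0) (L + 1) (by omega) (by omega) (by omega)
  simp only [List.length] at h0 h1 h2 h3 h4 h5 h6 h7
  rw [Fin.sum_univ_eight]
  nlinarith

lemma count4 (L : ℕ) : 4 * (L + 1) * (L + 2) * (L + 3) < 3 * ∑ τ, (I L (off4 τ)).card := by
  have e0 : off4 0 = ![(0, 0, 0), (1, 0, 0), (0, 1, 0), (0, 0, 1)] := rfl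
  have h0 := key (N (L + 2) (L + 2) (L + 2) (L + 2) (L + 0)) (I L (off4 0))
    [] [(0, 0, L + 1), (0, 1, L), (1, 0, L)]
    (by rintro ⟨x, y, z⟩; rw [e0, mem_I4]; simp [mem_N, mem_S]; omega)
    (by rw [e0]; simp [mem_I4, mem_N, mem_S]; try omega) (by simp)
  have g0 := N_card (L + 2) (L + 2) (L + 2) (L + 2) (L + 0) (by omega) (by omega) (by omega)
  have e1 : off4 1 = ![(1, 1, 0), (1, 0, 1), (0, 1, 1), (1, 1, 1)] := rfl
  have h1 := key (N (L + 2) (L + 2) (L + 2) (L + 0) (L + 2)) (I L (off4 1))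
    [] []
    (by rintro ⟨x, y, z⟩; rw [e1, mem_I4]; simp [mem_N, mem_S]; omega)
    (by rw [e1]; simp [mem_I4, mem_N, mem_S]; try omega) (by simp)
  have g1 := N_card (L + 2) (L + 2) (L + 2) (L + 0) (L + 2) (by omega) (by omega) (by omega)
  simp only [List.length] at h0 h1
  rw [Fin.sum_univ_two]
  nlinarith

noncomputable def emb (p : P3) : EuclideanSpace ℝ (Fin 3) :=
  !₂[√2 * (p.1 + p.2.1), √2 * (p.1 + p.2.2), √2 * (p.2.1 + p.2.2)]

def Q (p q : P3) : ℤ :=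
  ((p.1 : ℤ) + p.2.1 - q.1 - q.2.1) ^ 2 + ((p.1 : ℤ) + p.2.2 - q.1 - q.2.2) ^ 2 +
    ((p.2.1 : ℤ) + p.2.2 - q.2.1 - q.2.2) ^ 2

lemma dist_sq (p q : P3) : dist (emb p) (emb q) ^ 2 = 2 * (Q p q : ℝ) := by
  rw [EuclideanSpace.dist_eq, Real.sq_sqrt (by positivity), Fin.sum_univ_three]
  change dist (√2 * (p.1 + p.2.1) : ℝ) (√2 * (q.1 + q.2.1)) ^ 2 +
    dist (√2 * (p.1 + p.2.2) : ℝ) (√2 * (q.1 + q.2.2)) ^ 2 +
    dist (√2 * (p.2.1 + p.2.2) : ℝ) (√2 * (q.2.1 + q.2.2)) ^ 2 = _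
  simp only [Real.dist_eq, sq_abs, Q]
  have := Real.sq_sqrt (show (0 : ℝ) ≤ 2 by norm_num)
  push_cast
  linear_combination ((p.1 + p.2.1 - q.1 - q.2.1 : ℝ) ^ 2 + (p.1 + p.2.2 - q.1 - q.2.2 : ℝ) ^ 2 +
    (p.2.1 + p.2.2 - q.2.1 - q.2.2 : ℝ) ^ 2) * this

lemma Q_ge {p q : P3} (h : p ≠ q) : 2 ≤ Q p q := by
  obtain ⟨x, y, z⟩ := p
  obtain ⟨u, v, w⟩ := q
  simp only [Q]
  have hne : ¬ (x = u ∧ y = v ∧ z = w) := by simpa using h
  have sq1 : ∀ t : ℤ, |t| ≤ t ^ 2 := fun t => by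
    rw [← sq_abs]; have := abs_nonneg t
    rcases this.eq_or_lt with h | h
    · rw [← h]; norm_num
    · nlinarith
  have a := sq1 ((x : ℤ) + y - u - v)
  have b := sq1 ((x : ℤ) + z - u - w)
  have c := sq1 ((y : ℤ) + z - v - w)
  generalize ((x : ℤ) + y - u - v) ^ 2 = A at *
  generalize ((x : ℤ) + z - u - w) ^ 2 = B at *
  generalize ((y : ℤ) + z - v - w) ^ 2 = C at *
  rcases abs_cases ((x : ℤ) + y - u - v) with h1 | h1 <;>
  rcases abs_cases ((x : ℤ) + z - u - w) with h2 | h2 <;>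
  rcases abs_cases ((y : ℤ) + z - v - w) with h3 | h3 <;> omega

lemma dist_ge {p q : P3} (h : p ≠ q) : 2 ≤ dist (emb p) (emb q) := by
  have h1 : (2 : ℝ) ≤ Q p q := by exact_mod_cast Q_ge h
  have := dist_sq p q
  nlinarith [dist_nonneg (x := emb p) (y := emb q)]

lemma emb_inj : Function.Injective emb := fun p q h => by
  by_contra hc
  have := dist_ge hc
  rw [h, dist_self] at this
  norm_num at this

noncomputable def pack (L : ℕ) : Finset (EuclideanSpace ℝ (Fin 3)) := (S L).map ⟨emb, emb_inj⟩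

lemma pack_packing (L : ℕ) : IsPacking (pack L) := by
  intro a ha b hb hab
  obtain ⟨p, -, rfl⟩ := mem_map.1 ha
  obtain ⟨q, -, rfl⟩ := mem_map.1 hb
  refine Metric.ball_disjoint_ball ?_
  have := dist_ge (p := p) (q := q) (fun h => hab (by rw [h]))
  norm_num
  exact this

lemma touching_ge {r m : ℕ} (L : ℕ) (o : Fin r → Fin m → P3)
    (h1 : ∀ τ i j, i ≠ j → Q (o τ i) (o τ j) = 2)
    (hm : m ≠ 0) (h2 : ∀ τ σ, (∑ i, o τ i).1 % m = (∑ i, o σ i).1 % m →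
      (∑ i, o τ i).2.1 % m = (∑ i, o σ i).2.1 % m →
      (∑ i, o τ i).2.2 % m = (∑ i, o σ i).2.2 % m → τ = σ) :
    ∑ τ, (I L (o τ)).card ≤ touching m (pack L) := by
  have inj : ∀ τ (p : P3), Function.Injective (fun i => p + o τ i) := by
    intro τ p i j h
    by_contra hc
    have := h1 τ i j hc
    rw [add_left_cancel h] at this
    simp [Q] at this
  let F : (Σ _ : Fin r, P3) → Finset (EuclideanSpace ℝ (Fin 3)) := fun x =>
    (univ.map ⟨_, inj x.1 x.2⟩).map ⟨emb, emb_inj⟩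
  have hF : Function.Injective F := by
    rintro ⟨τ, p⟩ ⟨σ, q⟩ h
    have h3 := congrArg (fun s : Finset P3 => ∑ x ∈ s, x) (map_injective _ h)
    simp only [sum_map, Function.Embedding.coeFn_mk, sum_add_distrib, sum_const, card_univ,
      Fintype.card_fin] at h3
    have a1 := congrArg (fun x : P3 => x.1 % m) h3
    have a2 := congrArg (fun x : P3 => x.2.1 % m) h3
    have a3 := congrArg (fun x : P3 => x.2.2 % m) h3
    simp only [Prod.fst_add, Prod.snd_add, Prod.smul_fst, Prod.smul_snd, smul_eq_mul,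
      Nat.mul_add_mod] at a1 a2 a3
    obtain rfl := h2 _ _ a1 a2 a3
    rw [smul_right_injective _ hm (add_right_cancel h3)]
  rw [← card_sigma, ← card_map ⟨F, hF⟩, ← Set.ncard_coe_finset]
  refine Set.ncard_le_ncard ?_ ((pack L).powerset.finite_toSet.subset (fun t ht => by
    simpa using ht.1))
  intro t ht
  obtain ⟨⟨τ, p⟩, hx, rfl⟩ := mem_map.1 (mem_coe.1 ht)
  have hp := (mem_filter.1 (mem_sigma.1 hx).2).2
  refine ⟨map_subset_map.2 (fun x hx => ?_), by simp [F], fun a ha b hb hab => ?_⟩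
  · obtain ⟨i, -, rfl⟩ := mem_map.1 hx
    exact hp i
  · obtain ⟨x, hx, rfl⟩ := mem_map.1 ha
    obtain ⟨y, hy, rfl⟩ := mem_map.1 hb
    obtain ⟨i, -, rfl⟩ := mem_map.1 hx
    obtain ⟨j, -, rfl⟩ := mem_map.1 hy
    have e := h1 τ i j (fun h => hab (by rw [h]))
    have e2 : Q (p + o τ i) (p + o τ j) = 2 := by
      rw [← e]; simp only [Q, Prod.fst_add, Prod.snd_add]; push_cast; ring
    have e3 := dist_sq (p + o τ i) (p + o τ j)
    rw [e2] at e3
    refine (pow_left_inj₀ dist_nonneg (by norm_num) two_ne_zero).1 ?_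
    refine e3.trans (by norm_num)

lemma touch3 (L : ℕ) : ∑ τ, (I L (off3 τ)).card ≤ touching 3 (pack L) :=
  touching_ge L off3 (by decide) (by decide) (by decide)

lemma touch4 (L : ℕ) : ∑ τ, (I L (off4 τ)).card ≤ touching 4 (pack L) :=
  touching_ge L off4 (by decide) (by decide) (by decide)

lemma pack_card (L : ℕ) : ((pack L).card : ℚ) = (2 * ((L + 3 : ℕ) : ℚ) ^ 3 + (L + 3 : ℕ)) / 3 := by
  rw [pack, card_map, eq_div_iff (by norm_num), mul_comm]
  exact_mod_cast S_card L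

end Pool.Agent.H30.Oct
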