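import Mathlib

/-! Criteria for projective dimension at most one and at least two. -/

namespace Pool.Agent.H30.Pd
open CategoryTheory Abelian Limits RingTheory.Sequence Pointwise

variable {R : Type} [CommRing R]

lemma extW (N : ModuleCat.{0} R) : ∀ (rs : List R) (M : ModuleCat.{0} R),
    (∀ r ∈ rs, r ∈ Module.annihilator R N) → IsWeaklyRegular M rs →
    ∀ i < rs.length, Subsingleton (Ext N M i)
  | [], _, _, _, i, hi => by simp at hi
  | a :: rs, M, mem, reg, i, hi => by
    rw [isWeaklyRegular_cons_iff] at reg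
    have ha := mem a List.mem_cons_self
    match i with
    | 0 =>
      have : Subsingleton (N →ₗ[R] M) := by
        refine ⟨fun f g => LinearMap.ext fun n => reg.1 ?_⟩
        have := Module.mem_annihilator.1 ha n
        simp only [← map_smul, this, map_zero]
      exact (Ext.addEquiv₀.trans ModuleCat.homAddEquiv).subsingleton
    | i + 1 =>
      let g := (AddCommGrpCat.ofHom ((Ext.mk₀ (ModuleCat.smulShortComplex M a).f).postcomp N
        (add_zero (i + 1))))
      have mono_g : Mono g := by
        apply (Ext.covariant_sequence_exact₁' N reg.1.smulShortComplex_shortExact i (i + 1)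
          rfl).mono_g ((AddCommGrpCat.isZero_of_iff_subsingleton.mpr ?_).eq_zero_of_src _)
        exact extW N rs (ModuleCat.of R (QuotSMulTop a M))
          (fun r hr => mem r (List.mem_cons_of_mem _ hr)) reg.2 i (by simpa using hi)
      have zero_g : g = 0 := Ext.postcomp_smul_id_eq_zero_of_mem_annihilator ha (i + 1)
      exact AddCommGrpCat.subsingleton_of_isZero (IsZero.of_mono_eq_zero _ zero_g)

lemma ext3 (N : ModuleCat.{0} R) {S : ShortComplex (ModuleCat.{0} R)} (hS : S.ShortExact) (n : ℕ)
    (h2 : Subsingleton (Ext N S.X₂ n)) (h1 : Subsingleton (Ext N S.X₁ (n + 1))) :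
    Subsingleton (Ext N S.X₃ n) := by
  refine ⟨fun a b => ?_⟩
  obtain ⟨x, rfl⟩ := Ext.covariant_sequence_exact₃ N hS a rfl (Subsingleton.elim _ _)
  obtain ⟨y, rfl⟩ := Ext.covariant_sequence_exact₃ N hS b rfl (Subsingleton.elim _ _)
  rw [Subsingleton.elim x y]

lemma wr_flat {rs : List R} (h : IsWeaklyRegular R rs) (M : Type) [AddCommGroup M] [Module R M]
    [Module.Flat R M] : IsWeaklyRegular M rs :=
  ((TensorProduct.lid R M).isWeaklyRegular_congr rs).1 h.isWeaklyRegular_rTensor

lemma not_pd_one (rs : List R) (hl : 4 ≤ rs.length) (h : IsWeaklyRegular R rs)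
    (F U : Type) [AddCommGroup F] [Module R F] [Module.Flat R F] [AddCommGroup U] [Module R U]
    (ρ : F →ₗ[R] U) (r : R) (hr : r ∈ Ideal.ofList rs) (hU : IsSMulRegular U r) (u : U)
    (hu : u ∉ LinearMap.range ρ) (hu' : ∀ a ∈ rs, a • u ∈ LinearMap.range ρ) :
    ¬ HasProjectiveDimensionLE (ModuleCat.of R (LinearMap.ker ρ)) 1 := by
  intro hpd
  let N : ModuleCat.{0} R := ModuleCat.of R (R ⧸ Ideal.ofList rs)
  have ann : ∀ a ∈ Ideal.ofList rs, a ∈ Module.annihilator R N := fun a ha => by
    rw [show Module.annihilator R N = Module.annihilator R (R ⧸ Ideal.ofList rs) from rfl,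
      Ideal.annihilator_quotient]
    exact ha
  have ann' : ∀ a ∈ rs, a ∈ Module.annihilator R N := fun a ha => ann a (Ideal.subset_span ha)
  let D : ModuleCat.{0} R := ModuleCat.of R (LinearMap.ker ρ)
  have s1 := ModuleCat.shortExact_projectiveShortComplex D
  have p1 : Projective D.projectiveShortComplex.X₁ :=
    projective_iff_hasProjectiveDimensionLT_one.2
      ((s1.hasProjectiveDimensionLT_X₃_iff 0 inferInstance).1 hpd)
  have p2 : Module.Projective R D.projectiveShortComplex.X₁ :=
    ModuleCat.projective_of_module_projective _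
  have e1 : Subsingleton (Ext N D 2) := ext3 N s1 2
    (extW N rs _ ann' (wr_flat h _) 2 (by omega)) (extW N rs _ ann' (wr_flat h _) 3 (by omega))
  have s2 := LinearMap.shortExact_shortComplexKer ρ.surjective_rangeRestrict
  have e1' : Subsingleton (Ext N ρ.rangeRestrict.shortComplexKer.X₁ 2) := by
    change Subsingleton (Ext N (ModuleCat.of R (LinearMap.ker ρ.rangeRestrict)) 2)
    rw [LinearMap.ker_rangeRestrict]
    exact e1
  have e2 := ext3 N s2 1 (extW N rs (ModuleCat.of R F) ann' (wr_flat h _) 1 (by omega)) e1'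
  have s3 := LinearMap.shortExact_shortComplexKer (LinearMap.range ρ).mkQ_surjective
  have e2' : Subsingleton (Ext N (LinearMap.range ρ).mkQ.shortComplexKer.X₁ 1) := by
    change Subsingleton (Ext N (ModuleCat.of R (LinearMap.ker (LinearMap.range ρ).mkQ)) 1)
    rw [Submodule.ker_mkQ]
    exact e2
  have e3 := ext3 N s3 0 (extW N [r] (ModuleCat.of R U) (by simpa using ann r hr)
    (by simpa using hU) 0 (by simp)) e2'
  have e3' : Subsingleton (Ext N (ModuleCat.of R (U ⧸ LinearMap.range ρ)) 0) := e3
  have e4 : Subsingleton (N →ₗ[R] (ModuleCat.of R (U ⧸ LinearMap.range ρ))) :=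
    (Ext.addEquiv₀.trans ModuleCat.homAddEquiv).symm.subsingleton
  let f : (R ⧸ Ideal.ofList rs) →ₗ[R] (U ⧸ LinearMap.range ρ) :=
    Submodule.liftQ _ (LinearMap.toSpanSingleton R _ (Submodule.Quotient.mk u)) (by
      rw [Ideal.ofList, Ideal.span_le]
      intro a ha
      simp only [SetLike.mem_coe, LinearMap.mem_ker, LinearMap.toSpanSingleton_apply]
      rw [← Submodule.Quotient.mk_smul, Submodule.Quotient.mk_eq_zero]
      exact hu' a ha)
  have := LinearMap.congr_fun (e4.elim f 0)
    (Submodule.Quotient.mk 1)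
  apply hu
  rw [← Submodule.Quotient.mk_eq_zero]
  have h1 : f (Submodule.Quotient.mk 1) = Submodule.Quotient.mk u := by
    simp only [f, Submodule.liftQ_apply, LinearMap.toSpanSingleton_apply, one_smul]
  exact h1.symm.trans this

lemma pd_one {m k : ℕ} {F : Type} [AddCommGroup F] [Module R F] (D : Submodule R F)
    (φ : (Fin m → R) →ₗ[R] F) (ψ : (Fin k → R) →ₗ[R] (Fin m → R))
    (h1 : LinearMap.range φ = D) (h2 : LinearMap.range ψ = LinearMap.ker φ)
    (h3 : Function.Injective ψ) : HasProjectiveDimensionLE (ModuleCat.of R D) 1 := by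
  subst h1
  have s := LinearMap.shortExact_shortComplexKer φ.surjective_rangeRestrict
  refine (s.hasProjectiveDimensionLT_X₃_iff 0
    (ModuleCat.projective_of_categoryTheory_projective (ModuleCat.of R (Fin m → R)))).2 ?_
  rw [← projective_iff_hasProjectiveDimensionLT_one]
  change Projective (ModuleCat.of R (LinearMap.ker φ.rangeRestrict))
  rw [LinearMap.ker_rangeRestrict, ← h2, ← IsProjective.iff_projective]
  exact Module.Projective.of_equiv (LinearEquiv.ofInjective ψ h3)

lemma wr_X {K : Type} [Field K] {n : ℕ} (l : List (Fin n)) (hl : l.Nodup) :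
    IsWeaklyRegular (MvPolynomial (Fin n) K)
      (l.map fun i => (MvPolynomial.X i : MvPolynomial (Fin n) K)) := by
  rw [isWeaklyRegular_iff_Fin]
  intro i
  have hI : (Ideal.ofList ((l.map fun i => (MvPolynomial.X i : MvPolynomial (Fin n) K)).take i) •
      ⊤ : Submodule (MvPolynomial (Fin n) K) (MvPolynomial (Fin n) K)) =
      Ideal.span (MvPolynomial.X '' {j | j ∈ l.take i}) := by
    rw [smul_eq_mul, Ideal.mul_top, Ideal.ofList, ← List.map_take]
    congr 1
    ext x
    simp only [List.mem_map, Set.mem_image, Set.mem_ofPred_eq]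
  rw [isSMulRegular_quotient_iff_mem_of_smul_mem, hI]
  intro x hx
  rw [MvPolynomial.mem_ideal_span_X_image] at hx ⊢
  intro m hm
  have hi : (i : ℕ) < l.length := by simpa using i.2
  have e : (l.map fun i => (MvPolynomial.X i : MvPolynomial (Fin n) K))[i] =
      MvPolynomial.X l[(i : ℕ)] := by simp
  rw [e, smul_eq_mul] at hx
  obtain ⟨j, hj, h⟩ := hx (Finsupp.single l[(i : ℕ)] 1 + m) (by
    rw [MvPolynomial.mem_support_iff, MvPolynomial.coeff_X_mul]
    exact MvPolynomial.mem_support_iff.1 hm)
  refine ⟨j, hj, ?_⟩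
  have hne : l[(i : ℕ)] ≠ j := by
    rintro rfl
    obtain ⟨k, hk, e⟩ := List.mem_iff_getElem.1 hj
    rw [List.getElem_take] at e
    have := (hl.getElem_inj_iff).1 e
    simp at hk
    omega
  simpa [Finsupp.single_eq_of_ne' hne] using h

end Pool.Agent.H30.Pd
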