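import Mathlib

set_option autoImplicit false

namespace Pool.Agent.H30.Poch

def ff : ℕ → ℝ
  | 0 => 1 | 1 => 66 | 2 => 1575 | 3 => 16120 | 4 => 67215 | 5 => 144906 | 6 => 178361
  | 7 => 127260 | 8 => 49200 | 9 => 8000 | _ => 0

def tup : List (Fin 3 → ℕ) := [![0,0,9], ![0,1,8], ![0,2,7], ![0,3,6], ![0,4,5], ![0,5,4], ![0,6,3], ![0,7,2], ![0,8,1], ![0,9,0], ![1,0,8], ![1,1,7], ![1,2,6], ![1,3,5], ![1,4,4], ![1,5,3], ![1,6,2], ![1,7,1], ![1,8,0], ![2,0,7], ![2,1,6], ![2,2,5], ![2,3,4], ![2,4,3], ![2,5,2], ![2,6,1], ![2,7,0], ![3,0,6], ![3,1,5], ![3,2,4], ![3,3,3], ![3,4,2], ![3,5,1], ![3,6,0], ![4,0,5], ![4,1,4], ![4,2,3], ![4,3,2], ![4,4,1], ![4,5,0], ![5,0,4], ![5,1,3], ![5,2,2], ![5,3,1], ![5,4,0], ![6,0,3], ![6,1,2], ![6,2,1], ![6,3,0], ![7,0,2], ![7,1,1], ![7,2,0], ![8,0,1], ![8,1,0], ![9,0,0]]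

lemma tup_eq : List.Nat.antidiagonalTuple 3 9 = tup := by decide +kernel

lemma sum_tup (F : (Fin 3 → ℕ) → ℂ) :
    ∑ k ∈ Finset.Nat.antidiagonalTuple 3 9, F k = (tup.map F).sum := by
  rw [← tup_eq]; rfl

lemma v2 (a b c : ℕ) : (![a, b, c] : Fin 3 → ℕ) 2 = c := rfl

lemma key (w : ℂ) : ∑ k ∈ Finset.Nat.antidiagonalTuple 3 9,
            (Nat.multinomial Finset.univ k : ℂ) * (∏ i, (ff (k i) : ℂ)) *
              Matrix.det (Matrix.of (fun i j : Fin 3 =>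
                (ascPochhammer ℂ (k i)).eval (w + ((j : ℕ) : ℂ) - ((i : ℕ) : ℂ)))) =
    1209600 * (872547610584 + 1556618575418 * w + 921956055501 * w ^ 2 + 180891835219 * w ^ 3) := by
  rw [sum_tup]
  simp only [tup, List.map_cons, List.map_nil, List.sum_cons, List.sum_nil,
    Nat.multinomial_univ_three, Fin.prod_univ_three, Matrix.det_fin_three, Matrix.of_apply,
    Matrix.cons_val_zero, Matrix.cons_val_one, v2, ascPochhammer_succ_eval, ascPochhammer_zero,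
    Polynomial.eval_one, Fin.val_zero, Fin.val_one, Fin.val_two, ff]
  norm_num [Nat.factorial]
  ring

lemma cubic_nonreal (a b c d : ℝ) (ha : a ≠ 0)
    (h : ∀ z : ℂ, (d : ℂ) + c * z + b * z ^ 2 + a * z ^ 3 = 0 → z.im = 0) :
    0 ≤ b ^ 2 * c ^ 2 - 4 * a * c ^ 3 - 4 * b ^ 3 * d - 27 * a ^ 2 * d ^ 2 + 18 * a * b * c * d := by
  let P : Cubic ℂ := ⟨a, b, c, d⟩
  have ha' : P.a ≠ 0 := by simpa [P] using ha
  have hs : (P.toPoly.map (RingHom.id ℂ)).Splits := IsAlgClosed.splits _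
  obtain ⟨x, y, z, h3⟩ := (Cubic.splits_iff_roots_eq_three ha').1 hs
  have hb := Cubic.b_eq_three_roots ha' h3
  have hc := Cubic.c_eq_three_roots ha' h3
  have hd := Cubic.d_eq_three_roots ha' h3
  simp only [P, RingHom.id_apply] at hb hc hd
  have hx := h x (by rw [hb, hc, hd]; ring)
  have hy := h y (by rw [hb, hc, hd]; ring)
  have hz := h z (by rw [hb, hc, hd]; ring)
  have ex : x = (x.re : ℂ) := by apply Complex.ext <;> simp [hx]
  have ey : y = (y.re : ℂ) := by apply Complex.ext <;> simp [hy]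
  have ez : z = (z.re : ℂ) := by apply Complex.ext <;> simp [hz]
  rw [ex, ey, ez] at hb hc hd
  have hb' : b = a * -(x.re + y.re + z.re) := by exact_mod_cast hb
  have hc' : c = a * (x.re * y.re + x.re * z.re + y.re * z.re) := by exact_mod_cast hc
  have hd' : d = a * -(x.re * y.re * z.re) := by exact_mod_cast hd
  have : b ^ 2 * c ^ 2 - 4 * a * c ^ 3 - 4 * b ^ 3 * d - 27 * a ^ 2 * d ^ 2 + 18 * a * b * c * d
      = (a * a * (x.re - y.re) * (x.re - z.re) * (y.re - z.re)) ^ 2 := by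
    rw [hb', hc', hd']; ring
  rw [this]; positivity

lemma roots_ff (z : ℂ) (h : ∑ k ∈ Finset.range (9 + 1), (ff k : ℂ) * z ^ k = 0) :
    z.im = 0 ∧ z.re < 0 := by
  have : ∑ k ∈ Finset.range (9 + 1), (ff k : ℂ) * z ^ k = (1 + z) ^ 6 * (1 + 20 * z) ^ 3 := by
    simp only [Finset.sum_range_succ, Finset.sum_range_zero, ff]
    push_cast
    ring
  rw [this] at h
  rcases mul_eq_zero.1 h with h | h
  · have h1 : z = -1 := by linear_combination pow_eq_zero_iff (two_ne_zero' ℕ |> fun _ => (by norm_num : (6 : ℕ) ≠ 0)) |>.1 h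
    rw [h1]; norm_num
  · have h1 : z = -1 / 20 := by
      have := (pow_eq_zero_iff (by norm_num : (3 : ℕ) ≠ 0)).1 h
      linear_combination (1 / 20 : ℂ) * this
    rw [h1]; norm_num

end Pool.Agent.H30.Poch
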