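import Mathlib

/-! Polynomial computations for two arrangements of nine planes in three-space. -/

namespace Pool.Agent.H30.Pog5
open MvPolynomial

abbrev S (K : Type) [Field K] := MvPolynomial (Fin 5) K

set_option linter.unusedSectionVars false

variable {K : Type} [Field K]

noncomputable def mk : List (ℤ × ℕ × ℕ × ℕ) → S K
  | [] => 0
  | (c, i, j, k) :: l => (c : S K) * X 0 ^ i * X 1 ^ j * X 2 ^ k + mk l

noncomputable def t1x : S K := mk [(2,4,0,0), (12,3,1,0), (9,3,0,1), (-6,2,2,0), (18,2,1,1), (10,2,0,2), (-3,1,2,1), (6,1,1,2), (3,1,0,3)]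
noncomputable def t1y : S K := mk [(18,2,2,0), (9,2,1,1), (-4,1,3,0), (18,1,2,1), (10,1,1,2), (-6,0,4,0), (-3,0,3,1), (6,0,2,2), (3,0,1,3)]
noncomputable def t2x : S K := mk [(2,5,0,0), (-6,4,1,0), (3,4,0,1), (-6,3,2,0), (-9,3,1,1), (1,3,0,2), (18,2,3,0), (-3,2,2,1), (-3,2,1,2), (9,1,3,1)]
noncomputable def t2y : S K := mk [(-4,2,3,0), (1,2,1,2), (12,1,4,0), (-3,1,2,2)]
noncomputable def phx : S K := mk [(8,5,1,0), (8,4,2,0), (16,4,1,1), (-2,4,0,2), (24,3,2,1), (10,3,1,2), (-3,3,0,3), (16,2,2,2), (2,2,1,3), (-1,2,0,4), (3,1,2,3)]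
noncomputable def phy : S K := mk [(8,4,2,0), (4,4,1,1), (8,3,3,0), (8,3,2,1), (2,3,1,2), (12,2,3,1), (2,2,2,2), (-2,2,1,3), (4,1,3,2), (-1,1,1,4)]
noncomputable def f1 : S K := mk [(-4,3,0,0), (2,2,0,1)]
noncomputable def f2 : S K := mk [(4,2,0,0), (10,1,0,1), (3,0,0,2)]
noncomputable def ps0x : S K := mk [(2,5,0,0), (9,4,1,0), (15,3,2,0), (-2,3,0,2), (9,2,3,0), (-6,2,2,1), (-9,2,1,2), (-9,1,3,1), (-9,1,2,2)]
noncomputable def ps0y : S K := mk [(2,2,3,0), (6,2,2,1), (4,2,1,2), (3,1,4,0), (9,1,3,1), (6,1,2,2)]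
noncomputable def ps1x : S K := mk [(-2,5,0,0), (-15,4,1,0), (-4,4,0,1), (-27,3,2,0), (2,3,0,2), (-15,2,3,0), (18,2,2,1), (15,2,1,2), (4,2,0,3), (15,1,3,1), (9,1,2,2)]
noncomputable def ps1y : S K := mk [(-6,3,2,0), (-12,3,1,1), (-14,2,3,0), (-30,2,2,1), (-4,2,1,2), (-9,1,4,0), (-19,1,3,1), (4,1,1,3)]

lemma dA_t1_0 : (X 0 : S K) ∣ (1) * t1x + (0) * t1y :=
  ⟨mk [(2,3,0,0), (12,2,1,0), (9,2,0,1), (-6,1,2,0), (18,1,1,1), (10,1,0,2), (-3,0,2,1), (6,0,1,2), (3,0,0,3)], by simp only [t1x, t1y, mk]; push_cast; ring⟩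
lemma dA_t1_1 : (X 0 - 3 * X 1 : S K) ∣ (1) * t1x + (-3) * t1y :=
  ⟨mk [(2,3,0,0), (18,2,1,0), (9,2,0,1), (-6,1,2,0), (18,1,1,1), (10,1,0,2), (-6,0,3,0), (-3,0,2,1), (6,0,1,2), (3,0,0,3)], by simp only [t1x, t1y, mk]; push_cast; ring⟩
lemma dA_t1_2 : (X 0 + X 1 : S K) ∣ (1) * t1x + (1) * t1y :=
  ⟨mk [(2,3,0,0), (10,2,1,0), (9,2,0,1), (2,1,2,0), (18,1,1,1), (10,1,0,2), (-6,0,3,0), (-3,0,2,1), (6,0,1,2), (3,0,0,3)], by simp only [t1x, t1y, mk]; push_cast; ring⟩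
lemma dA_t1_3 : (X 1 : S K) ∣ (0) * t1x + (1) * t1y :=
  ⟨mk [(18,2,1,0), (9,2,0,1), (-4,1,2,0), (18,1,1,1), (10,1,0,2), (-6,0,3,0), (-3,0,2,1), (6,0,1,2), (3,0,0,3)], by simp only [t1x, t1y, mk]; push_cast; ring⟩
lemma dA_t1_5 : (X 0 - X 1 + X 2 : S K) ∣ (1) * t1x + (-1) * t1y :=
  ⟨mk [(2,3,0,0), (14,2,1,0), (7,2,0,1), (-10,1,2,0), (2,1,1,1), (3,1,0,2), (-6,0,3,0), (-9,0,2,1), (-3,0,1,2)], by simp only [t1x, t1y, mk]; push_cast; ring⟩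
lemma dA_t1_6 : (2 * X 0 + X 2 : S K) ∣ (2) * t1x + (0) * t1y :=
  ⟨mk [(2,3,0,0), (12,2,1,0), (8,2,0,1), (-6,1,2,0), (12,1,1,1), (6,1,0,2)], by simp only [t1x, t1y, mk]; push_cast; ring⟩
lemma dA_t1_7 : (2 * X 1 + X 2 : S K) ∣ (0) * t1x + (2) * t1y :=
  ⟨mk [(18,2,1,0), (-4,1,2,0), (20,1,1,1), (-6,0,3,0), (6,0,1,2)], by simp only [t1x, t1y, mk]; push_cast; ring⟩
lemma dA_t1_8 : (X 0 + X 1 + X 2 : S K) ∣ (1) * t1x + (1) * t1y :=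
  ⟨mk [(2,3,0,0), (10,2,1,0), (7,2,0,1), (2,1,2,0), (10,1,1,1), (3,1,0,2), (-6,0,3,0), (3,0,2,1), (3,0,1,2)], by simp only [t1x, t1y, mk]; push_cast; ring⟩
lemma dA_t2_0 : (X 0 : S K) ∣ (1) * t2x + (0) * t2y :=
  ⟨mk [(2,4,0,0), (-6,3,1,0), (3,3,0,1), (-6,2,2,0), (-9,2,1,1), (1,2,0,2), (18,1,3,0), (-3,1,2,1), (-3,1,1,2), (9,0,3,1)], by simp only [t2x, t2y, mk]; push_cast; ring⟩
lemma dA_t2_1 : (X 0 - 3 * X 1 : S K) ∣ (1) * t2x + (-3) * t2y :=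
  ⟨mk [(2,4,0,0), (3,3,0,1), (-6,2,2,0), (1,2,0,2), (12,1,3,0), (-3,1,2,1), (-3,1,1,2)], by simp only [t2x, t2y, mk]; push_cast; ring⟩
lemma dA_t2_2 : (X 0 + X 1 : S K) ∣ (1) * t2x + (1) * t2y :=
  ⟨mk [(2,4,0,0), (-8,3,1,0), (3,3,0,1), (2,2,2,0), (-12,2,1,1), (1,2,0,2), (12,1,3,0), (9,1,2,1), (-3,1,1,2)], by simp only [t2x, t2y, mk]; push_cast; ring⟩
lemma dA_t2_3 : (X 1 : S K) ∣ (0) * t2x + (1) * t2y :=
  ⟨mk [(-4,2,2,0), (1,2,0,2), (12,1,3,0), (-3,1,1,2)], by simp only [t2x, t2y, mk]; push_cast; ring⟩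
lemma dA_t2_5 : (X 0 - X 1 + X 2 : S K) ∣ (1) * t2x + (-1) * t2y :=
  ⟨mk [(2,4,0,0), (-4,3,1,0), (1,3,0,1), (-10,2,2,0), (-4,2,1,1), (12,1,3,0), (3,1,2,1)], by simp only [t2x, t2y, mk]; push_cast; ring⟩
lemma dA_t2_6 : (2 * X 0 + X 2 : S K) ∣ (2) * t2x + (0) * t2y :=
  ⟨mk [(2,4,0,0), (-6,3,1,0), (2,3,0,1), (-6,2,2,0), (-6,2,1,1), (18,1,3,0)], by simp only [t2x, t2y, mk]; push_cast; ring⟩
lemma dA_t2_7 : (2 * X 1 + X 2 : S K) ∣ (0) * t2x + (2) * t2y :=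
  ⟨mk [(-4,2,2,0), (2,2,1,1), (12,1,3,0), (-6,1,2,1)], by simp only [t2x, t2y, mk]; push_cast; ring⟩
lemma dA_t2_8 : (X 0 + X 1 + X 2 : S K) ∣ (1) * t2x + (1) * t2y :=
  ⟨mk [(2,4,0,0), (-8,3,1,0), (1,3,0,1), (2,2,2,0), (-2,2,1,1), (12,1,3,0), (-3,1,2,1)], by simp only [t2x, t2y, mk]; push_cast; ring⟩
lemma dA_ph_0 : (X 0 : S K) ∣ (1) * phx + (0) * phy :=
  ⟨mk [(8,4,1,0), (8,3,2,0), (16,3,1,1), (-2,3,0,2), (24,2,2,1), (10,2,1,2), (-3,2,0,3), (16,1,2,2), (2,1,1,3), (-1,1,0,4), (3,0,2,3)], by simp only [phx, phy, mk]; push_cast; ring⟩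
lemma dA_ph_1 : (X 0 - 3 * X 1 : S K) ∣ (1) * phx + (-3) * phy :=
  ⟨mk [(8,4,1,0), (8,3,2,0), (4,3,1,1), (-2,3,0,2), (12,2,2,1), (-2,2,1,2), (-3,2,0,3), (4,1,2,2), (-1,1,1,3), (-1,1,0,4)], by simp only [phx, phy, mk]; push_cast; ring⟩
lemma dA_ph_2 : (X 0 + X 1 : S K) ∣ (1) * phx + (1) * phy :=
  ⟨mk [(8,4,1,0), (8,3,2,0), (20,3,1,1), (-2,3,0,2), (12,2,2,1), (14,2,1,2), (-3,2,0,3), (4,1,2,2), (3,1,1,3), (-1,1,0,4)], by simp only [phx, phy, mk]; push_cast; ring⟩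
lemma dA_ph_3 : (X 1 : S K) ∣ (0) * phx + (1) * phy :=
  ⟨mk [(8,4,1,0), (4,4,0,1), (8,3,2,0), (8,3,1,1), (2,3,0,2), (12,2,2,1), (2,2,1,2), (-2,2,0,3), (4,1,2,2), (-1,1,0,4)], by simp only [phx, phy, mk]; push_cast; ring⟩
lemma dA_ph_5 : (X 0 - X 1 + X 2 : S K) ∣ (1) * phx + (-1) * phy :=
  ⟨mk [(8,4,1,0), (8,3,2,0), (4,3,1,1), (-2,3,0,2), (12,2,2,1), (2,2,1,2), (-1,2,0,3), (4,1,2,2), (1,1,1,3)], by simp only [phx, phy, mk]; push_cast; ring⟩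
lemma dA_ph_6 : (2 * X 0 + X 2 : S K) ∣ (2) * phx + (0) * phy :=
  ⟨mk [(8,4,1,0), (8,3,2,0), (12,3,1,1), (-2,3,0,2), (20,2,2,1), (4,2,1,2), (-2,2,0,3), (6,1,2,2)], by simp only [phx, phy, mk]; push_cast; ring⟩
lemma dA_ph_7 : (2 * X 1 + X 2 : S K) ∣ (0) * phx + (2) * phy :=
  ⟨mk [(8,4,1,0), (8,3,2,0), (4,3,1,1), (12,2,2,1), (-4,2,1,2), (4,1,2,2), (-2,1,1,3)], by simp only [phx, phy, mk]; push_cast; ring⟩
lemma dA_ph_8 : (X 0 + X 1 + X 2 : S K) ∣ (1) * phx + (1) * phy :=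
  ⟨mk [(8,4,1,0), (8,3,2,0), (12,3,1,1), (-2,3,0,2), (12,2,2,1), (2,2,1,2), (-1,2,0,3), (4,1,2,2), (-1,1,1,3)], by simp only [phx, phy, mk]; push_cast; ring⟩
lemma dB_ps0_0 : (X 0 : S K) ∣ (1) * ps0x + (0) * ps0y :=
  ⟨mk [(2,4,0,0), (9,3,1,0), (15,2,2,0), (-2,2,0,2), (9,1,3,0), (-6,1,2,1), (-9,1,1,2), (-9,0,3,1), (-9,0,2,2)], by simp only [ps0x, ps0y, mk]; push_cast; ring⟩
lemma dB_ps0_1 : (2 * X 0 + 3 * X 1 : S K) ∣ (2) * ps0x + (3) * ps0y :=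
  ⟨mk [(2,4,0,0), (6,3,1,0), (6,2,2,0), (-2,2,0,2), (3,1,3,0), (3,1,2,1)], by simp only [ps0x, ps0y, mk]; push_cast; ring⟩
lemma dB_ps0_2 : (X 0 + X 1 : S K) ∣ (1) * ps0x + (1) * ps0y :=
  ⟨mk [(2,4,0,0), (7,3,1,0), (8,2,2,0), (-2,2,0,2), (3,1,3,0), (-3,1,1,2)], by simp only [ps0x, ps0y, mk]; push_cast; ring⟩
lemma dB_ps0_3 : (X 1 : S K) ∣ (0) * ps0x + (1) * ps0y :=
  ⟨mk [(2,2,2,0), (6,2,1,1), (4,2,0,2), (3,1,3,0), (9,1,2,1), (6,1,1,2)], by simp only [ps0x, ps0y, mk]; push_cast; ring⟩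
lemma dB_ps0_5 : (X 0 + 2 * X 1 + X 2 : S K) ∣ (1) * ps0x + (2) * ps0y :=
  ⟨mk [(2,4,0,0), (5,3,1,0), (-2,3,0,1), (5,2,2,0), (-1,2,1,1), (3,1,3,0), (3,1,2,1)], by simp only [ps0x, ps0y, mk]; push_cast; ring⟩
lemma dB_ps0_6 : (X 0 - X 2 : S K) ∣ (1) * ps0x + (0) * ps0y :=
  ⟨mk [(2,4,0,0), (9,3,1,0), (2,3,0,1), (15,2,2,0), (9,2,1,1), (9,1,3,0), (9,1,2,1)], by simp only [ps0x, ps0y, mk]; push_cast; ring⟩
lemma dB_ps0_7 : (X 1 + 2 * X 2 : S K) ∣ (0) * ps0x + (1) * ps0y :=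
  ⟨mk [(2,2,2,0), (2,2,1,1), (3,1,3,0), (3,1,2,1)], by simp only [ps0x, ps0y, mk]; push_cast; ring⟩
lemma dB_ps0_8 : (X 0 + X 1 + X 2 : S K) ∣ (1) * ps0x + (1) * ps0y :=
  ⟨mk [(2,4,0,0), (7,3,1,0), (-2,3,0,1), (8,2,2,0), (-5,2,1,1), (3,1,3,0), (-3,1,2,1)], by simp only [ps0x, ps0y, mk]; push_cast; ring⟩
lemma dB_ps1_0 : (X 0 : S K) ∣ (1) * ps1x + (0) * ps1y :=
  ⟨mk [(-2,4,0,0), (-15,3,1,0), (-4,3,0,1), (-27,2,2,0), (2,2,0,2), (-15,1,3,0), (18,1,2,1), (15,1,1,2), (4,1,0,3), (15,0,3,1), (9,0,2,2)], by simp only [ps1x, ps1y, mk]; push_cast; ring⟩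
lemma dB_ps1_1 : (2 * X 0 + 3 * X 1 : S K) ∣ (2) * ps1x + (3) * ps1y :=
  ⟨mk [(-2,4,0,0), (-12,3,1,0), (-4,3,0,1), (-18,2,2,0), (-12,2,1,1), (2,2,0,2), (-9,1,3,0), (-9,1,2,1), (6,1,1,2), (4,1,0,3)], by simp only [ps1x, ps1y, mk]; push_cast; ring⟩
lemma dB_ps1_2 : (X 0 + X 1 : S K) ∣ (1) * ps1x + (1) * ps1y :=
  ⟨mk [(-2,4,0,0), (-13,3,1,0), (-4,3,0,1), (-20,2,2,0), (-8,2,1,1), (2,2,0,2), (-9,1,3,0), (-4,1,2,1), (9,1,1,2), (4,1,0,3)], by simp only [ps1x, ps1y, mk]; push_cast; ring⟩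
lemma dB_ps1_3 : (X 1 : S K) ∣ (0) * ps1x + (1) * ps1y :=
  ⟨mk [(-6,3,1,0), (-12,3,0,1), (-14,2,2,0), (-30,2,1,1), (-4,2,0,2), (-9,1,3,0), (-19,1,2,1), (4,1,0,3)], by simp only [ps1x, ps1y, mk]; push_cast; ring⟩
lemma dB_ps1_5 : (X 0 + 2 * X 1 + X 2 : S K) ∣ (1) * ps1x + (2) * ps1y :=
  ⟨mk [(-2,4,0,0), (-11,3,1,0), (-2,3,0,1), (-17,2,2,0), (-9,2,1,1), (4,2,0,2), (-9,1,3,0), (-7,1,2,1), (8,1,1,2)], by simp only [ps1x, ps1y, mk]; push_cast; ring⟩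
lemma dB_ps1_6 : (X 0 - X 2 : S K) ∣ (1) * ps1x + (0) * ps1y :=
  ⟨mk [(-2,4,0,0), (-15,3,1,0), (-6,3,0,1), (-27,2,2,0), (-15,2,1,1), (-4,2,0,2), (-15,1,3,0), (-9,1,2,1)], by simp only [ps1x, ps1y, mk]; push_cast; ring⟩
lemma dB_ps1_7 : (X 1 + 2 * X 2 : S K) ∣ (0) * ps1x + (1) * ps1y :=
  ⟨mk [(-6,3,1,0), (-14,2,2,0), (-2,2,1,1), (-9,1,3,0), (-1,1,2,1), (2,1,1,2)], by simp only [ps1x, ps1y, mk]; push_cast; ring⟩
lemma dB_ps1_8 : (X 0 + X 1 + X 2 : S K) ∣ (1) * ps1x + (1) * ps1y :=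
  ⟨mk [(-2,4,0,0), (-13,3,1,0), (-2,3,0,1), (-20,2,2,0), (3,2,1,1), (4,2,0,2), (-9,1,3,0), (5,1,2,1), (4,1,1,2)], by simp only [ps1x, ps1y, mk]; push_cast; ring⟩


lemma prime_lin5 (a : Fin 5 → K) (h : a ≠ 0) : Prime (∑ i, C (a i) * X i : S K) := by
  have e : (∑ i, C (a i) * X i : S K) = sumSMulX (Finsupp.equivFunOnFinite.symm a) := by
    rw [sumSMulX, Finsupp.linearCombination_apply, Finsupp.sum_fintype _ _ (by simp)]
    simp [smul_eq_C_mul]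
  rw [e]
  apply Irreducible.prime
  apply irreducible_sumSMulX
  · obtain ⟨i, hi⟩ := Function.ne_iff.1 h
    exact ⟨i, by simpa using hi⟩
  · intro r hr
    rw [isUnit_iff_ne_zero]
    rintro rfl
    apply h
    ext i
    simpa using hr i

lemma prime_lin (a b c : K) (h : a ≠ 0 ∨ b ≠ 0 ∨ c ≠ 0) :
    Prime (C a * X 0 + C b * X 1 + C c * X 2 : S K) := by
  have := prime_lin5 ![a, b, c, 0, 0] (fun h0 => by
    have h1 := congrFun h0 0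
    have h2 := congrFun h0 1
    have h3 := congrFun h0 2
    simp at h1 h2 h3
    tauto)
  simpa [Fin.sum_univ_five] using this

lemma v2 {T : Type} (a b c d e : T) : ![a, b, c, d, e] 2 = c := rfl
lemma v3 {T : Type} (a b c d e : T) : ![a, b, c, d, e] 3 = d := rfl
lemma v4 {T : Type} (a b c d e : T) : ![a, b, c, d, e] 4 = e := rfl

lemma key {l F : S K} (h : l ∣ F) (P : Fin 5 → K) (hP : eval P l = 0) : eval P F = 0 := by
  obtain ⟨q, rfl⟩ := h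
  simp [hP]

lemma not_dvd {l F : S K} (P : Fin 5 → K) (hP : eval P l = 0) (hF : eval P F ≠ 0) : ¬ l ∣ F :=
  fun h => hF (key h P hP)

lemma step {l m D : S K} (hl : Prime l) (P : Fin 5 → K) (hP : eval P l = 0) (hF : eval P m ≠ 0)
    (h1 : m ∣ D) (h2 : l ∣ D) : m * l ∣ D :=
  IsRelPrime.mul_dvd (hl.irreducible.isRelPrime_iff_not_dvd.2 (not_dvd P hP hF)).symm h1 h2

lemma det_dvd {l p q u v a b : S K} (hu : IsUnit a ∨ IsUnit b) (h1 : l ∣ a * p + b * q)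
    (h2 : l ∣ a * u + b * v) : l ∣ p * v - q * u := by
  rcases hu with hu | hu
  · rw [← hu.dvd_mul_left]
    have : a * (p * v - q * u) = (a * p + b * q) * v - (a * u + b * v) * q := by ring
    rw [this]
    exact dvd_sub (h1.mul_right _) (h2.mul_right _)
  · rw [← hu.dvd_mul_left]
    have : b * (p * v - q * u) = (a * u + b * v) * p - (a * p + b * q) * u := by ring
    rw [this]
    exact dvd_sub (h2.mul_right _) (h1.mul_right _)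

lemma sub_dvd (g : S K) : (X 1 - X 0 : S K) ∣ g - aeval ![X 0, X 0, X 2, X 3, X 4] g := by
  induction g using MvPolynomial.induction_on with
  | C a => simp
  | add p q hp hq =>
    have : p + q - aeval ![X 0, X 0, X 2, X 3, X 4] (p + q)
      = (p - aeval ![X 0, X 0, X 2, X 3, X 4] p) + (q - aeval ![X 0, X 0, X 2, X 3, X 4] q) := by
      rw [map_add]; ring
    rw [this]; exact dvd_add hp hq
  | mul_X p i hp =>
    have h2 : (X 1 - X 0 : S K) ∣ X i - aeval ![X 0, X 0, X 2, X 3, X 4] (X i : S K) := by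
      fin_cases i <;> simp
    have : p * X i - aeval ![X 0, X 0, X 2, X 3, X 4] (p * X i)
      = (p - aeval ![X 0, X 0, X 2, X 3, X 4] p) * X i
        + aeval ![X 0, X 0, X 2, X 3, X 4] p * (X i - aeval ![X 0, X 0, X 2, X 3, X 4] (X i : S K)) := by
      rw [map_mul]; ring
    rw [this]; exact dvd_add (hp.mul_right _) (h2.mul_left _)

variable [CharZero K]

lemma unit_two : IsUnit (2 : S K) := by
  have : (2 : S K) = C (2 : K) := (map_ofNat C 2).symm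
  rw [this]; exact (isUnit_iff_ne_zero.2 (by norm_num)).map C

lemma unit_nine : IsUnit (9 : S K) := by
  have : (9 : S K) = C (9 : K) := (map_ofNat C 9).symm
  rw [this]; exact (isUnit_iff_ne_zero.2 (by norm_num)).map C

lemma prime_int (a b c : ℤ) (h : a ≠ 0 ∨ b ≠ 0 ∨ c ≠ 0) (l : S K)
    (hl : l = (a : S K) * X 0 + (b : S K) * X 1 + (c : S K) * X 2) : Prime l := by
  have := prime_lin (a : K) (b : K) (c : K) (by exact_mod_cast h)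
  rw [hl]
  simpa using this

lemma prod_dvd (D : S K) (h0 : X 0 ∣ D) (h1 : X 0 - 3 * X 1 ∣ D) (h2 : X 0 + X 1 ∣ D)
    (h3 : X 1 ∣ D) (h5 : X 0 - X 1 + X 2 ∣ D) (h6 : 2 * X 0 + X 2 ∣ D) (h7 : 2 * X 1 + X 2 ∣ D)
    (h8 : X 0 + X 1 + X 2 ∣ D) :
    X 0 * (X 0 - 3 * X 1) * (X 0 + X 1) * X 1 * (X 0 - X 1 + X 2) * (2 * X 0 + X 2)
      * (2 * X 1 + X 2) * (X 0 + X 1 + X 2) ∣ D := by
  refine step (prime_int 1 1 1 (by simp) _ (by push_cast; ring)) ![-3, 1, 2, 0, 0]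
    (by norm_num [v2]) (by norm_num [v2]) ?_ h8
  refine step (prime_int 0 2 1 (by simp) _ (by push_cast; ring)) ![-3, 1, -2, 0, 0]
    (by norm_num [v2]) (by norm_num [v2]) ?_ h7
  refine step (prime_int 2 0 1 (by simp) _ (by push_cast; ring)) ![-1, -3, 2, 0, 0]
    (by norm_num [v2]) (by norm_num [v2]) ?_ h6
  refine step (prime_int 1 (-1) 1 (by simp) _ (by push_cast; ring)) ![-3, -3, 0, 0, 0]
    (by norm_num [v2]) (by norm_num [v2]) ?_ h5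
  refine step (prime_int 0 1 0 (by simp) _ (by push_cast; ring)) ![-3, 0, -3, 0, 0]
    (by norm_num [v2]) (by norm_num [v2]) ?_ h3
  refine step (prime_int 1 1 0 (by simp) _ (by push_cast; ring)) ![-3, 3, -3, 0, 0]
    (by norm_num [v2]) (by norm_num [v2]) ?_ h2
  exact step (prime_int 1 (-3) 0 (by simp) _ (by push_cast; ring)) ![-3, -1, -3, 0, 0]
    (by norm_num [v2]) (by norm_num [v2]) h0 h1

lemma delta_eq : (t1x * t2y - t1y * t2x : S K) =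
    X 0 * (X 0 - 3 * X 1) * (X 0 + X 1) * X 1 * (X 0 - X 1 + X 2) * (2 * X 0 + X 2)
      * (2 * X 1 + X 2) * (X 0 + X 1 + X 2) * (-(9 * X 0 - 9 * X 1)) := by
  simp only [t1x, t1y, t2x, t2y, mk]; push_cast; ring

lemma rel_x : (f1 * t1x + f2 * t2x + (9 * X 0 - 9 * X 1) * phx : S K) = 0 := by
  simp only [t1x, t2x, phx, f1, f2, mk]; push_cast; ring

lemma rel_y : (f1 * t1y + f2 * t2y + (9 * X 0 - 9 * X 1) * phy : S K) = 0 := by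
  simp only [t1y, t2y, phy, f1, f2, mk]; push_cast; ring

lemma prime_al : Prime (9 * X 0 - 9 * X 1 : S K) :=
  prime_int 9 (-9) 0 (by simp) _ (by push_cast; ring)

lemma Q_ne : (X 0 * (X 0 - 3 * X 1) * (X 0 + X 1) * X 1 * (X 0 - X 1 + X 2) * (2 * X 0 + X 2)
      * (2 * X 1 + X 2) * (X 0 + X 1 + X 2) : S K) ≠ 0 := by
  intro h
  have := congrArg (eval ![(1 : K), 1, 1, 0, 0]) h
  norm_num [v2] at this

lemma al_f2 : ¬ (9 * X 0 - 9 * X 1 : S K) ∣ f2 :=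
  not_dvd ![1, 1, 0, 0, 0] (by norm_num) (by simp [f2, mk])

lemma al_t1x : ¬ (9 * X 0 - 9 * X 1 : S K) ∣ t1x :=
  not_dvd ![1, 1, 0, 0, 0] (by norm_num) (by simp [t1x, mk]; norm_num)

lemma rp : IsRelPrime (f2 : S K) f1 := by
  have e : (f1 : S K) = (-2) * (X 0 * X 0 * (2 * X 0 - X 2)) := by
    simp only [f1, mk]; push_cast; ring
  have a1 : IsRelPrime (f2 : S K) (X 0) :=
    ((X_prime (i := (0 : Fin 5))).irreducible.isRelPrime_iff_not_dvd.2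
      (not_dvd ![0, 0, 1, 0, 0] (by simp) (by simp [f2, mk]))).symm
  have a2 : IsRelPrime (f2 : S K) (2 * X 0 - X 2) :=
    ((prime_int 2 0 (-1) (by simp) _ (by push_cast; ring)).irreducible.isRelPrime_iff_not_dvd.2
      (not_dvd ![1, 0, 2, 0, 0] (by norm_num [v2]) (by simp [f2, mk]; norm_num))).symm
  have a3 : IsRelPrime (f2 : S K) (-2) := (unit_two.neg.isRelPrime_left).symm
  rw [e]
  exact a3.mul_right ((a1.mul_right a1).mul_right a2)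

lemma genA (p q r : S K) (h0 : X 0 ∣ p) (h1 : X 0 - 3 * X 1 ∣ p - 3 * q) (h2 : X 0 + X 1 ∣ p + q)
    (h3 : X 1 ∣ q) (h4 : X 2 ∣ r) (h5 : X 0 - X 1 + X 2 ∣ p - q + r)
    (h6 : 2 * X 0 + X 2 ∣ 2 * p + r) (h7 : 2 * X 1 + X 2 ∣ 2 * q + r)
    (h8 : X 0 + X 1 + X 2 ∣ p + q + r) :
    ∃ g0 g1 g2 g3 : S K, p = g0 * X 0 + g1 * t1x + g2 * t2x + g3 * phx ∧
      q = g0 * X 1 + g1 * t1y + g2 * t2y + g3 * phy ∧ r = g0 * X 2 := by
  obtain ⟨s, rfl⟩ := h4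
  obtain ⟨u, rfl⟩ : ∃ u, p = u + s * X 0 := ⟨p - s * X 0, by ring⟩
  obtain ⟨v, rfl⟩ : ∃ v, q = v + s * X 1 := ⟨q - s * X 1, by ring⟩
  have red : ∀ l a b F : S K, l ∣ F → F = a * u + b * v + s * l → l ∣ a * u + b * v := by
    intro l a b F h e
    rw [e] at h
    exact (dvd_add_left (dvd_mul_left _ _)).1 h
  have k0 := red _ 1 0 _ h0 (by ring)
  have k1 := red _ 1 (-3) _ h1 (by ring)
  have k2 := red _ 1 1 _ h2 (by ring)
  have k3 := red _ 0 1 _ h3 (by ring)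
  have k5 := red _ 1 (-1) _ h5 (by ring)
  have k6 := red _ 2 0 _ h6 (by ring)
  have k7 := red _ 0 2 _ h7 (by ring)
  have k8 := red _ 1 1 _ h8 (by ring)
  have u1 : IsUnit (1 : S K) := isUnit_one
  obtain ⟨g1, hg1⟩ := prod_dvd (u * t2y - v * t2x) (det_dvd (Or.inl u1) k0 dA_t2_0)
    (det_dvd (Or.inl u1) k1 dA_t2_1) (det_dvd (Or.inl u1) k2 dA_t2_2)
    (det_dvd (Or.inr u1) k3 dA_t2_3) (det_dvd (Or.inl u1) k5 dA_t2_5)
    (det_dvd (Or.inl unit_two) k6 dA_t2_6) (det_dvd (Or.inr unit_two) k7 dA_t2_7)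
    (det_dvd (Or.inl u1) k8 dA_t2_8)
  obtain ⟨g2, hg2⟩ := prod_dvd (t1x * v - t1y * u) (det_dvd (Or.inl u1) dA_t1_0 k0)
    (det_dvd (Or.inl u1) dA_t1_1 k1) (det_dvd (Or.inl u1) dA_t1_2 k2)
    (det_dvd (Or.inr u1) dA_t1_3 k3) (det_dvd (Or.inl u1) dA_t1_5 k5)
    (det_dvd (Or.inl unit_two) dA_t1_6 k6) (det_dvd (Or.inr unit_two) dA_t1_7 k7)
    (det_dvd (Or.inl u1) dA_t1_8 k8)
  have hd := delta_eq (K := K)
  have hQ := Q_ne (K := K)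
  have rx := rel_x (K := K)
  have ry := rel_y (K := K)
  have pa := prime_al (K := K)
  have af := al_f2 (K := K)
  have at1 := al_t1x (K := K)
  have hsub : ∀ g : S K, (9 * X 0 - 9 * X 1 : S K) ∣ g - aeval ![X 0, X 0, X 2, X 3, X 4] g := by
    intro g
    have e : (9 * X 0 - 9 * X 1 : S K) = (-9) * (X 1 - X 0) := by ring
    rw [e, unit_nine.neg.mul_left_dvd]
    exact sub_dvd g
  have hz : aeval ![X 0, X 0, X 2, X 3, X 4] (9 * X 0 - 9 * X 1 : S K) = (0 : S K) := by simp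
  have hf1 : aeval ![X 0, X 0, X 2, X 3, X 4] (f1 : S K) = (f1 : S K) := by simp [f1, mk, map_ofNat]
  have hf2 : aeval ![X 0, X 0, X 2, X 3, X 4] (f2 : S K) = (f2 : S K) := by simp [f2, mk, map_ofNat]
  generalize (X 0 * (X 0 - 3 * X 1) * (X 0 + X 1) * X 1 * (X 0 - X 1 + X 2) * (2 * X 0 + X 2)
      * (2 * X 1 + X 2) * (X 0 + X 1 + X 2) : S K) = Q at hg1 hg2 hd hQ
  generalize (9 * X 0 - 9 * X 1 : S K) = al at hd rx ry pa af at1 hsub hz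
  have cx : g1 * t1x + g2 * t2x + al * u = 0 := by
    apply mul_left_cancel₀ hQ
    linear_combination (-t1x) * hg1 - t2x * hg2 + u * hd
  have cy : g1 * t1y + g2 * t2y + al * v = 0 := by
    apply mul_left_cancel₀ hQ
    linear_combination (-t1y) * hg1 - t2y * hg2 + v * hd
  have d1 : al ∣ f2 * g1 - g2 * f1 := by
    refine (pa.dvd_or_dvd (b := t1x) ⟨g2 * phx - f2 * u, ?_⟩).resolve_right at1
    linear_combination f2 * cx - g2 * rx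
  have d2 : (f2 : S K) ∣ aeval ![X 0, X 0, X 2, X 3, X 4] g2 := by
    refine rp.dvd_of_dvd_mul_right ⟨aeval ![X 0, X 0, X 2, X 3, X 4] g1, ?_⟩
    obtain ⟨k, hk⟩ := d1
    have := congrArg (aeval (![X 0, X 0, X 2, X 3, X 4] : Fin 5 → S K)) hk
    rw [map_mul, hz, map_sub, map_mul, map_mul, hf1, hf2] at this
    linear_combination -this
  obtain ⟨h, hh⟩ := d2
  obtain ⟨k2, hk2⟩ : al ∣ g2 - f2 * h := hh ▸ hsub g2
  obtain ⟨k1, hk1⟩ : al ∣ g1 - f1 * h := by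
    refine (pa.dvd_or_dvd (a := f2) ?_).resolve_left af
    have : f2 * (g1 - f1 * h) = (f2 * g1 - g2 * f1) + al * (k2 * f1) := by
      linear_combination f1 * hk2
    rw [this]
    exact dvd_add d1 (dvd_mul_right _ _)
  refine ⟨s, -k1, -k2, h, ?_, ?_, by ring⟩
  · apply mul_left_cancel₀ pa.ne_zero
    linear_combination cx - h * rx - t1x * hk1 - t2x * hk2
  · apply mul_left_cancel₀ pa.ne_zero
    linear_combination cy - h * ry - t1y * hk1 - t2y * hk2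

lemma relA (g1 g2 g3 : S K) (hx : g1 * t1x + g2 * t2x + g3 * phx = 0)
    (hy : g1 * t1y + g2 * t2y + g3 * phy = 0) :
    ∃ h : S K, g1 = h * f1 ∧ g2 = h * f2 ∧ g3 = h * (9 * X 0 - 9 * X 1) := by
  have hd := delta_eq (K := K)
  have rx := rel_x (K := K)
  have ry := rel_y (K := K)
  have pa := prime_al (K := K)
  have af := al_f2 (K := K)
  have hD : (t1x * t2y - t1y * t2x : S K) ≠ 0 := by
    rw [hd]; exact mul_ne_zero Q_ne (neg_ne_zero.2 pa.ne_zero)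
  generalize (9 * X 0 - 9 * X 1 : S K) = al at rx ry pa af
  have e1 : al * g1 = g3 * f1 := by
    apply mul_left_cancel₀ hD
    linear_combination (al * t2y) * hx - (al * t2x) * hy - (g3 * t2y) * rx + (g3 * t2x) * ry
  have e2 : al * g2 = g3 * f2 := by
    apply mul_left_cancel₀ hD
    linear_combination (al * t1x) * hy - (al * t1y) * hx - (g3 * t1x) * ry + (g3 * t1y) * rx
  obtain ⟨h, rfl⟩ : al ∣ g3 := (pa.dvd_or_dvd ⟨g2, e2.symm⟩).resolve_right af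
  refine ⟨h, ?_, ?_, by ring⟩
  · apply mul_left_cancel₀ pa.ne_zero; linear_combination e1
  · apply mul_left_cancel₀ pa.ne_zero; linear_combination e2

end Pool.Agent.H30.Pog5
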