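import Pool.Agent.H30.PogA

/-! The second arrangement has no logarithmic derivation of degree four but multiples of Euler. -/

namespace Pool.Agent.H30.Pog
open MvPolynomial

variable {K : Type} [Field K]

lemma eval4 {p : S K} (hp : p.IsHomogeneous 4) : ∃ p400 p310 p301 p220 p211 p202 p130 p121 p112 p103 p040 p031 p022 p013 p004 : K, ∀ a b c : K,
    eval ![a, b, c] p = p400 * a^4 * b^0 * c^0 + p310 * a^3 * b^1 * c^0 + p301 * a^3 * b^0 * c^1 + p220 * a^2 * b^2 * c^0 + p211 * a^2 * b^1 * c^1 + p202 * a^2 * b^0 * c^2 + p130 * a^1 * b^3 * c^0 + p121 * a^1 * b^2 * c^1 + p112 * a^1 * b^1 * c^2 + p103 * a^1 * b^0 * c^3 + p040 * a^0 * b^4 * c^0 + p031 * a^0 * b^3 * c^1 + p022 * a^0 * b^2 * c^2 + p013 * a^0 * b^1 * c^3 + p004 * a^0 * b^0 * c^4 := by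
  induction hp using IsWeightedHomogeneous.induction_on with
  | zero => exact ⟨0, 0, 0, 0, 0, 0, 0, 0, 0, 0, 0, 0, 0, 0, 0, by simp⟩
  | add p q hp hq ip iq =>
    obtain ⟨p400, p310, p301, p220, p211, p202, p130, p121, p112, p103, p040, p031, p022, p013, p004, ip⟩ := ip
    obtain ⟨q400, q310, q301, q220, q211, q202, q130, q121, q112, q103, q040, q031, q022, q013, q004, iq⟩ := iq
    exact ⟨p400 + q400, p310 + q310, p301 + q301, p220 + q220, p211 + q211, p202 + q202, p130 + q130, p121 + q121, p112 + q112, p103 + q103, p040 + q040, p031 + q031, p022 + q022, p013 + q013, p004 + q004, fun a b c => by rw [map_add, ip, iq]; ring⟩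
  | monomial d r hr =>
    have h : d 0 + d 1 + d 2 = 4 := by
      simpa [Finsupp.weight_apply, Finsupp.sum_fintype, Fin.sum_univ_three] using hr
    have e : ∀ a b c : K, eval ![a, b, c] (monomial d r) = r * a ^ d 0 * b ^ d 1 * c ^ d 2 := by
      intro a b c
      simp [eval_monomial, Finsupp.prod_fintype, Fin.prod_univ_three, mul_assoc]
    simp only [e]
    generalize d 0 = i at *
    generalize d 1 = j at *
    generalize d 2 = k at *
    have hi : i ≤ 4 := by omega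
    have hj : j ≤ 4 - i := by omega
    obtain rfl : k = 4 - i - j := by omega
    interval_cases i <;> interval_cases j
    · exact ⟨0, 0, 0, 0, 0, 0, 0, 0, 0, 0, 0, 0, 0, 0, r, fun a b c => by norm_num⟩
    · exact ⟨0, 0, 0, 0, 0, 0, 0, 0, 0, 0, 0, 0, 0, r, 0, fun a b c => by norm_num⟩
    · exact ⟨0, 0, 0, 0, 0, 0, 0, 0, 0, 0, 0, 0, r, 0, 0, fun a b c => by norm_num⟩
    · exact ⟨0, 0, 0, 0, 0, 0, 0, 0, 0, 0, 0, r, 0, 0, 0, fun a b c => by norm_num⟩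
    · exact ⟨0, 0, 0, 0, 0, 0, 0, 0, 0, 0, r, 0, 0, 0, 0, fun a b c => by norm_num⟩
    · exact ⟨0, 0, 0, 0, 0, 0, 0, 0, 0, r, 0, 0, 0, 0, 0, fun a b c => by norm_num⟩
    · exact ⟨0, 0, 0, 0, 0, 0, 0, 0, r, 0, 0, 0, 0, 0, 0, fun a b c => by norm_num⟩
    · exact ⟨0, 0, 0, 0, 0, 0, 0, r, 0, 0, 0, 0, 0, 0, 0, fun a b c => by norm_num⟩
    · exact ⟨0, 0, 0, 0, 0, 0, r, 0, 0, 0, 0, 0, 0, 0, 0, fun a b c => by norm_num⟩
    · exact ⟨0, 0, 0, 0, 0, r, 0, 0, 0, 0, 0, 0, 0, 0, 0, fun a b c => by norm_num⟩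
    · exact ⟨0, 0, 0, 0, r, 0, 0, 0, 0, 0, 0, 0, 0, 0, 0, fun a b c => by norm_num⟩
    · exact ⟨0, 0, 0, r, 0, 0, 0, 0, 0, 0, 0, 0, 0, 0, 0, fun a b c => by norm_num⟩
    · exact ⟨0, 0, r, 0, 0, 0, 0, 0, 0, 0, 0, 0, 0, 0, 0, fun a b c => by norm_num⟩
    · exact ⟨0, r, 0, 0, 0, 0, 0, 0, 0, 0, 0, 0, 0, 0, 0, fun a b c => by norm_num⟩
    · exact ⟨r, 0, 0, 0, 0, 0, 0, 0, 0, 0, 0, 0, 0, 0, 0, fun a b c => by norm_num⟩

variable [CharZero K]

lemma lowB (p q r : S K) (hp : p.IsHomogeneous 4) (hq : q.IsHomogeneous 4) (hr : r.IsHomogeneous 4)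
    (h0 : X 0 ∣ p) (h1 : 2 * X 0 + 3 * X 1 ∣ 2 * p + 3 * q) (h2 : X 0 + X 1 ∣ p + q)
    (h3 : X 1 ∣ q) (h4 : X 2 ∣ r) (h5 : X 0 + 2 * X 1 + X 2 ∣ p + 2 * q + r)
    (h6 : X 0 - X 2 ∣ p - r) (h7 : X 1 + 2 * X 2 ∣ q + 2 * r)
    (h8 : X 0 + X 1 + X 2 ∣ p + q + r) : X 2 * p - X 0 * r = 0 := by
  obtain ⟨p400, p310, p301, p220, p211, p202, p130, p121, p112, p103, p040, p031, p022, p013, p004, hp⟩ := eval4 hp
  obtain ⟨q400, q310, q301, q220, q211, q202, q130, q121, q112, q103, q040, q031, q022, q013, q004, hq⟩ := eval4 hq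
  obtain ⟨r400, r310, r301, r220, r211, r202, r130, r121, r112, r103, r040, r031, r022, r013, r004, hr⟩ := eval4 hr
  apply MvPolynomial.funext
  intro P
  obtain ⟨a, b, c, rfl⟩ : ∃ a b c, P = ![a, b, c] :=
    ⟨P 0, P 1, P 2, by ext i; fin_cases i <;> rfl⟩
  simp only [map_sub, map_mul, hp, hr, eval_X, map_zero, Matrix.cons_val_zero, Matrix.cons_val]
  have e0 := key h0 ![0, 1, 0] (by norm_num [v2])
  have e1 := key h0 ![0, 0, 1] (by norm_num [v2])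
  have e2 := key h0 ![0, 1, 1] (by norm_num [v2])
  have e3 := key h0 ![0, 1, -1] (by norm_num [v2])
  have e4 := key h0 ![0, 2, 1] (by norm_num [v2])
  have e5 := key h1 ![0, 0, 1] (by norm_num [v2])
  have e6 := key h1 ![3, -2, 0] (by norm_num [v2])
  have e7 := key h1 ![3, -2, 1] (by norm_num [v2])
  have e8 := key h1 ![3, -2, -1] (by norm_num [v2])
  have e9 := key h1 ![3, -2, 2] (by norm_num [v2])
  have e10 := key h2 ![0, 0, 1] (by norm_num [v2])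
  have e11 := key h2 ![1, -1, 0] (by norm_num [v2])
  have e12 := key h2 ![1, -1, 1] (by norm_num [v2])
  have e13 := key h2 ![1, -1, -1] (by norm_num [v2])
  have e14 := key h2 ![1, -1, 2] (by norm_num [v2])
  have e15 := key h3 ![1, 0, 0] (by norm_num [v2])
  have e16 := key h3 ![0, 0, 1] (by norm_num [v2])
  have e17 := key h3 ![1, 0, 1] (by norm_num [v2])
  have e18 := key h3 ![1, 0, -1] (by norm_num [v2])
  have e19 := key h3 ![2, 0, 1] (by norm_num [v2])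
  have e20 := key h4 ![1, 0, 0] (by norm_num [v2])
  have e21 := key h4 ![0, 1, 0] (by norm_num [v2])
  have e22 := key h4 ![1, 1, 0] (by norm_num [v2])
  have e23 := key h4 ![1, -1, 0] (by norm_num [v2])
  have e24 := key h4 ![2, 1, 0] (by norm_num [v2])
  have e25 := key h5 ![1, 0, -1] (by norm_num [v2])
  have e26 := key h5 ![2, -1, 0] (by norm_num [v2])
  have e27 := key h5 ![1, -1, 1] (by norm_num [v2])
  have e28 := key h5 ![0, 1, -2] (by norm_num [v2])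
  have e29 := key h5 ![3, -1, -1] (by norm_num [v2])
  have e30 := key h6 ![0, 1, 0] (by norm_num [v2])
  have e31 := key h6 ![1, 0, 1] (by norm_num [v2])
  have e32 := key h6 ![1, 1, 1] (by norm_num [v2])
  have e33 := key h6 ![1, -1, 1] (by norm_num [v2])
  have e34 := key h6 ![1, 2, 1] (by norm_num [v2])
  have e35 := key h7 ![1, 0, 0] (by norm_num [v2])
  have e36 := key h7 ![0, 2, -1] (by norm_num [v2])
  have e37 := key h7 ![1, 2, -1] (by norm_num [v2])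
  have e38 := key h7 ![1, -2, 1] (by norm_num [v2])
  have e39 := key h7 ![2, 2, -1] (by norm_num [v2])
  have e40 := key h8 ![1, 0, -1] (by norm_num [v2])
  have e41 := key h8 ![1, -1, 0] (by norm_num [v2])
  have e42 := key h8 ![0, 1, -1] (by norm_num [v2])
  have e43 := key h8 ![2, -1, -1] (by norm_num [v2])
  have e44 := key h8 ![1, 1, -2] (by norm_num [v2])
  simp only [map_add, map_sub, map_mul, map_ofNat, hp, hq, hr] at e0 e1 e2 e3 e4 e5 e6 e7 e8 e9 e10 e11 e12 e13 e14 e15 e16 e17 e18 e19 e20 e21 e22 e23 e24 e25 e26 e27 e28 e29 e30 e31 e32 e33 e34 e35 e36 e37 e38 e39 e40 e41 e42 e43 e44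
  have t500 : 0 - r400 = 0 := by
    linear_combination (-1 : K) * e20
  have t410 : 0 - r310 = 0 := by
    linear_combination (2 : K) * e20 + (-1/2 : K) * e21 + (1/2 : K) * e22 + (1/6 : K) * e23 + (-1/6 : K) * e24
  have t401 : 0 + p400 - r301 = 0 := by
    linear_combination (-5/3 : K) * e0 + (-1/2 : K) * e1 + (4/9 : K) * e2 + (-8/27 : K) * e3 + (-5/54 : K) * e4 + (1/6 : K) * e5 + (-1/6 : K) * e6 + (1/12 : K) * e7 + (7/216 : K) * e8 + (-1/54 : K) * e9 + (23/6 : K) * e11 + (-7/18 : K) * e12 + (-7/18 : K) * e13 + (1/18 : K) * e14 + (-11/3 : K) * e15 + (1/6 : K) * e17 + (-1/12 : K) * e18 + (-29/3 : K) * e20 + (20/3 : K) * e21 + (-5/3 : K) * e22 + (-10/3 : K) * e23 + (1/3 : K) * e24 + (-1/2 : K) * e25 + (5/12 : K) * e26 + (-11/36 : K) * e27 + (1/36 : K) * e28 + (1/36 : K) * e29 + (5/12 : K) * e31 + (-7/18 : K) * e32 + (1/9 : K) * e34 + (-5/18 : K) * e36 + (1/12 : K) * e37 + (11/72 : K) *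 e38 + (1/2 : K) * e42 + (1/18 : K) * e43
  have t320 : 0 - r220 = 0 := by
    linear_combination (1 : K) * e20 + (1 : K) * e21 + (-1/2 : K) * e22 + (-1/2 : K) * e23
  have t311 : 0 + p310 - r211 = 0 := by
    linear_combination (-71/6 : K) * e0 + (5/6 : K) * e1 + (7/6 : K) * e2 + (-1/18 : K) * e3 + (-5/18 : K) * e4 + (25/12 : K) * e5 + (-11/24 : K) * e6 + (1/32 : K) * e7 + (11/144 : K) * e8 + (-1/72 : K) * e9 + (15 : K) * e11 + (1/6 : K) * e12 + (-3/2 : K) * e13 + (-1/2 : K) * e14 + (-21/2 : K) * e15 + (3/8 : K) * e17 + (1/2 : K) * e18 + (-56 : K) * e20 + (71/2 : K) * e21 + (-21/2 : K) * e22 + (-43/3 : K) * e23 + (7/3 : K) * e24 + (-13/16 : K) * e25 + (45/16 : K) * e26 + (59/48 : K) * e27 + (1/48 : K) * e28 + (-1/16 : K) * e29 + (27/8 : K) * e31 + (-5/2 : K) * e32 + (2/3 : K) * e34 + (-2/3 : K) * e36 + (7/32 : K) * e37 + (1/8 : K) * e38 + (5/4 : K) * e42 + (1/4 : K) * e43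
  have t302 : 0 + p301 - r202 = 0 := by
    linear_combination (-17/3 : K) * e0 + (25/6 : K) * e1 + (-1 : K) * e2 + (1 : K) * e3 + (1/6 : K) * e4 + (5/3 : K) * e5 + (1/12 : K) * e6 + (-11/48 : K) * e7 + (-1/24 : K) * e8 + (1/12 : K) * e9 + (5/2 : K) * e11 + (13/6 : K) * e12 + (-1/6 : K) * e13 + (-5/6 : K) * e14 + (-2 : K) * e15 + (-1/4 : K) * e17 + (3/2 : K) * e18 + (-15 : K) * e20 + (9 : K) * e21 + (-3 : K) * e22 + (-14/3 : K) * e23 + (2/3 : K) * e24 + (-7/8 : K) * e25 + (7/8 : K) * e26 + (1/24 : K) * e27 + (1/8 : K) * e28 + (-1/24 : K) * e29 + (5/4 : K) * e31 + (-2/3 : K) * e32 + (1/6 : K) * e34 + (-1/6 : K) * e36 + (1/16 : K) * e37 + (1/12 : K) * e38 + (-1/2 : K) * e42 + (1/6 : K) * e43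
  have t230 : 0 - r130 = 0 := by
    linear_combination (-2 : K) * e20 + (1/2 : K) * e21 + (-1 : K) * e22 + (1/3 : K) * e23 + (1/6 : K) * e24
  have t221 : 0 + p220 - r121 = 0 := by
    linear_combination (-83/6 : K) * e0 + (4/3 : K) * e1 + (7/6 : K) * e2 + (1/2 : K) * e3 + (-1/3 : K) * e4 + (7/3 : K) * e5 + (-1/3 : K) * e6 + (-1/24 : K) * e7 + (1/24 : K) * e8 + (14 : K) * e11 + (-1/6 : K) * e12 + (-4/3 : K) * e13 + (-2/3 : K) * e14 + (-7 : K) * e15 + (1/4 : K) * e17 + (1 : K) * e18 + (-54 : K) * e20 + (73/2 : K) * e21 + (-10 : K) * e22 + (-34/3 : K) * e23 + (7/3 : K) * e24 + (-3/4 : K) * e25 + (5/2 : K) * e26 + (7/3 : K) * e27 + (-1/12 : K) * e29 + (17/4 : K) * e31 + (-37/12 : K) * e32 + (5/6 : K) * e34 + (-1/3 : K) * e36 + (1/8 : K) * e37 + (-5/24 : K) * e38 + (1 : K) * e42 + (1/3 : K) * e43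
  have t212 : 0 + p211 - r112 = 0 := by
    linear_combination (1/3 : K) * e0 + (31/6 : K) * e1 + (-7/3 : K) * e2 + (7/9 : K) * e3 + (7/18 : K) * e4 + (2/3 : K) * e5 + (1/3 : K) * e6 + (-1/3 : K) * e7 + (-1/9 : K) * e8 + (1/9 : K) * e9 + (-4 : K) * e11 + (3 : K) * e12 + (2/3 : K) * e13 + (-2/3 : K) * e14 + (2 : K) * e15 + (-1/2 : K) * e17 + (2 : K) * e18 + (-2 : K) * e20 + (-9/2 : K) * e21 + (-1/2 : K) * e22 + (-13/6 : K) * e23 + (1/6 : K) * e24 + (-1/2 : K) * e25 + (1/4 : K) * e26 + (-3/4 : K) * e27 + (1/12 : K) * e28 + (-1/12 : K) * e29 + (-5/4 : K) * e31 + (7/6 : K) * e32 + (-1/4 : K) * e34 + (1/6 : K) * e38 + (-1 : K) * e42 + (1/3 : K) * e43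
  have t203 : 0 + p202 - r103 = 0 := by
    linear_combination (5/3 : K) * e0 + (-1/2 : K) * e1 + (-4/9 : K) * e2 + (8/27 : K) * e3 + (5/54 : K) * e4 + (-1/6 : K) * e5 + (1/6 : K) * e6 + (-1/12 : K) * e7 + (-7/216 : K) * e8 + (1/54 : K) * e9 + (-23/6 : K) * e11 + (7/18 : K) * e12 + (7/18 : K) * e13 + (-1/18 : K) * e14 + (11/3 : K) * e15 + (-1/6 : K) * e17 + (-11/12 : K) * e18 + (29/3 : K) * e20 + (-20/3 : K) * e21 + (5/3 : K) * e22 + (10/3 : K) * e23 + (-1/3 : K) * e24 + (1 : K) * e25 + (-5/12 : K) * e26 + (11/36 : K) * e27 + (-1/36 : K) * e28 + (-1/36 : K) * e29 + (1/12 : K) * e31 + (7/18 : K) * e32 + (-1/9 : K) * e34 + (5/18 : K) * e36 + (-1/12 : K) * e37 + (-11/72 : K) * e38 + (-1/2 : K) * e42 + (-1/18 : K) * e43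
  have t140 : 0 - r040 = 0 := by
    linear_combination (-1 : K) * e21
  have t131 : 0 + p130 - r031 = 0 := by
    linear_combination (-1/2 : K) * e1 + (1/2 : K) * e2 + (1/6 : K) * e3 + (-1/6 : K) * e4 + (-1/3 : K) * e12 + (2 : K) * e20 + (3/2 : K) * e21 + (1 : K) * e22 + (-1/3 : K) * e23 + (-1/6 : K) * e24 + (1/6 : K) * e27 + (1/2 : K) * e31 + (-1/2 : K) * e32 + (1/6 : K) * e34
  have t122 : 0 + p121 - r022 = 0 := by
    linear_combination (83/6 : K) * e0 + (-1/3 : K) * e1 + (-5/3 : K) * e2 + (-1 : K) * e3 + (1/3 : K) * e4 + (-7/3 : K) * e5 + (1/3 : K) * e6 + (1/24 : K) * e7 + (-1/24 : K) * e8 + (-14 : K) * e11 + (7/6 : K) * e12 + (4/3 : K) * e13 + (2/3 : K) * e14 + (7 : K) * e15 + (-1/4 : K) * e17 + (-1 : K) * e18 + (53 : K) * e20 + (-73/2 : K) * e21 + (21/2 : K) * e22 + (71/6 : K) * e23 + (-7/3 : K) * e24 + (3/4 : K) * e25 + (-5/2 : K) * e26 + (-17/6 : K) * e27 + (1/12 : K) * e29 +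 (-21/4 : K) * e31 + (43/12 : K) * e32 + (-5/6 : K) * e34 + (1/3 : K) * e36 + (-1/8 : K) * e37 + (5/24 : K) * e38 + (-1 : K) * e42 + (-1/3 : K) * e43
  have t113 : 0 + p112 - r013 = 0 := by
    linear_combination (23/2 : K) * e0 + (-11/2 : K) * e1 + (1/6 : K) * e2 + (-7/18 : K) * e3 + (1/18 : K) * e4 + (-11/4 : K) * e5 + (1/8 : K) * e6 + (29/96 : K) * e7 + (5/144 : K) * e8 + (-7/72 : K) * e9 + (-11 : K) * e11 + (-23/6 : K) * e12 + (5/6 : K) * e13 + (7/6 : K) * e14 + (17/2 : K) * e15 + (1/8 : K) * e17 + (-5/2 : K) * e18 + (56 : K) * e20 + (-65/2 : K) * e21 + (21/2 : K) * e22 + (49/3 : K) * e23 + (-7/3 : K) * e24 + (21/16 : K) * e25 + (-49/16 : K) * e26 + (-7/48 : K) * e27 + (-5/48 : K) * e28 + (7/48 : K) * e29 + (-21/8 : K) * e31 + (7/3 : K) * e32 + (-7/12 : K) * e34 + (2/3 : K) * e36 + (-7/32 : K) * e37 + (-7/24 : K) * e38 + (-1/4 : K) * e42 + (-7/12 : K) * e43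
  have t104 : 0 + p103 - r004 = 0 := by
    linear_combination (17/3 : K) * e0 + (-25/6 : K) * e1 + (1 : K) * e2 + (-1 : K) * e3 + (-1/6 : K) * e4 + (-5/3 : K) * e5 + (-1/12 : K) * e6 + (11/48 : K) * e7 + (1/24 : K) * e8 + (-1/12 : K) * e9 + (-5/2 : K) * e11 + (-13/6 : K) * e12 + (1/6 : K) * e13 + (5/6 : K) * e14 + (2 : K) * e15 + (1/4 : K) * e17 + (-1/2 : K) * e18 + (16 : K) * e20 + (-9 : K) * e21 + (3 : K) * e22 + (14/3 : K) * e23 + (-2/3 : K) * e24 + (3/8 : K) * e25 + (-7/8 : K) * e26 + (-1/24 : K) * e27 + (-1/8 : K) * e28 + (1/24 : K) * e29 + (-3/4 : K) * e31 + (2/3 : K) * e32 + (-1/6 : K) * e34 + (1/6 : K) * e36 + (-1/16 : K) * e37 + (-1/12 : K) * e38 + (1/2 : K) * e42 + (-1/6 : K) * e43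
  have t041 : 0 + p040 = 0 := by
    linear_combination (1 : K) * e0
  have t032 : 0 + p031 = 0 := by
    linear_combination (-2 : K) * e0 + (1/2 : K) * e1 + (-1/2 : K) * e2 + (-1/6 : K) * e3 + (1/6 : K) * e4
  have t023 : 0 + p022 = 0 := by
    linear_combination (-1 : K) * e0 + (-1 : K) * e1 + (1/2 : K) * e2 + (1/2 : K) * e3
  have t014 : 0 + p013 = 0 := by
    linear_combination (2 : K) * e0 + (-1/2 : K) * e1 + (1 : K) * e2 + (-1/3 : K) * e3 + (-1/6 : K) * e4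
  have t005 : 0 + p004 = 0 := by
    linear_combination (1 : K) * e1
  linear_combination a^5 * b^0 * c^0 * t500 + a^4 * b^1 * c^0 * t410 + a^4 * b^0 * c^1 * t401 + a^3 * b^2 * c^0 * t320 + a^3 * b^1 * c^1 * t311 + a^3 * b^0 * c^2 * t302 + a^2 * b^3 * c^0 * t230 + a^2 * b^2 * c^1 * t221 + a^2 * b^1 * c^2 * t212 + a^2 * b^0 * c^3 * t203 + a^1 * b^4 * c^0 * t140 + a^1 * b^3 * c^1 * t131 + a^1 * b^2 * c^2 * t122 + a^1 * b^1 * c^3 * t113 + a^1 * b^0 * c^4 * t104 + a^0 * b^4 * c^1 * t041 + a^0 * b^3 * c^2 * t032 + a^0 * b^2 * c^3 * t023 + a^0 * b^1 * c^4 * t014 + a^0 * b^0 * c^5 * t005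

end Pool.Agent.H30.Pog
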