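import Pool.Agent.H30.Pog5A
import Pool.Agent.H30.PogB

/-! Logarithmic derivations of two arrangements of twelve hyperplanes in five-space. -/

namespace Pool.Agent.H30.Pog5
open MvPolynomial

set_option linter.unusedSectionVars false

variable {K : Type} [Field K]

noncomputable def r2 : S K := mk [(-12,3,1,0), (-6,3,0,1), (36,2,2,0), (12,2,1,1), (-3,2,0,2), (18,1,2,1), (9,1,1,2)]
noncomputable def r3 : S K := mk [(-2,5,0,0), (-4,4,1,0), (-7,4,0,1), (14,3,2,0), (2,3,1,1), (-5,3,0,2), (13,2,2,1), (2,2,1,2), (-1,2,0,3), (3,1,2,2)]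
noncomputable def ee : S K := mk [(9,2,0,0), (-21,1,1,0), (3,1,0,1), (-9,0,1,1)]
noncomputable def k0 : S K := mk [(2,4,0,0), (9,3,1,0), (-2,3,0,1), (3,2,2,0), (-9,2,1,1), (-9,1,3,0), (-9,1,2,1)]
noncomputable def k1 : S K := mk [(-2,4,0,0), (-15,3,1,0), (-2,3,0,1), (9,2,2,0), (15,2,1,1), (4,2,0,2), (15,1,3,0), (9,1,2,1)]

lemma r2_eq : (t2x - (X 0 - 3 * X 1) * t1x : S K) = (X 0 + X 2) * r2 := by
  simp only [t2x, t1x, r2, mk]; push_cast; ring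
lemma r3_eq : (phx - X 0 ^ 2 * t1x : S K) = (X 0 + X 2) * r3 := by
  simp only [phx, t1x, r3, mk]; push_cast; ring
lemma ee_eq : (f1 + (X 0 - 3 * X 1) * f2 + X 0 ^ 2 * (9 * X 0 - 9 * X 1) : S K) = (X 0 + X 2) * ee := by
  simp only [f1, f2, ee, mk]; push_cast; ring
lemma ee_rel : (ee * t1x + f2 * r2 + (9 * X 0 - 9 * X 1) * r3 : S K) = 0 := by
  simp only [t1x, f2, ee, r2, r3, mk]; push_cast; ring
lemma k0_eq : (ps0x : S K) = 12 * X 0 ^ 3 * X 1 ^ 2 + 18 * X 0 ^ 2 * X 1 ^ 3 + (X 0 + X 2) * k0 := by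
  simp only [ps0x, k0, mk]; push_cast; ring
lemma k1_eq : (ps1x : S K) = -36 * X 0 ^ 3 * X 1 ^ 2 - 30 * X 0 ^ 2 * X 1 ^ 3 + (X 0 + X 2) * k1 := by
  simp only [ps1x, k1, mk]; push_cast; ring

def aA : Fin 12 → Fin 5 → ℤ := ![![1,0,0,0,0], ![1,-3,0,0,0], ![1,1,0,0,0], ![0,1,0,0,0], ![0,0,1,0,0],
  ![1,-1,1,0,0], ![2,0,1,0,0], ![0,2,1,0,0], ![1,1,1,0,0], ![0,0,0,1,0], ![-1,0,-1,1,0], ![0,0,0,0,1]]
def aB : Fin 12 → Fin 5 → ℤ := ![![1,0,0,0,0], ![2,3,0,0,0], ![1,1,0,0,0], ![0,1,0,0,0], ![0,0,1,0,0],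
  ![1,2,1,0,0], ![1,0,-1,0,0], ![0,1,2,0,0], ![1,1,1,0,0], ![0,0,0,1,0], ![-1,0,-1,1,0], ![0,0,0,0,1]]

/-- the value of the vector field `v` on the linear form with coefficients `a` -/
def ap {R : Type} [CommRing R] (a : Fin 5 → ℤ) (v : Fin 5 → R) : R := ∑ j, (a j : R) * v j

def InD (a : Fin 12 → Fin 5 → ℤ) (v : Fin 5 → S K) : Prop := ∀ i, ap (a i) X ∣ ap (a i) v

lemma inD_A (v : Fin 5 → S K) : InD aA v ↔ X 0 ∣ v 0 ∧ X 0 - 3 * X 1 ∣ v 0 - 3 * v 1 ∧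
    X 0 + X 1 ∣ v 0 + v 1 ∧ X 1 ∣ v 1 ∧ X 2 ∣ v 2 ∧ X 0 - X 1 + X 2 ∣ v 0 - v 1 + v 2 ∧
    2 * X 0 + X 2 ∣ 2 * v 0 + v 2 ∧ 2 * X 1 + X 2 ∣ 2 * v 1 + v 2 ∧
    X 0 + X 1 + X 2 ∣ v 0 + v 1 + v 2 ∧ X 3 ∣ v 3 ∧ -X 0 - X 2 + X 3 ∣ -v 0 - v 2 + v 3 ∧
    X 4 ∣ v 4 := by
  simp [InD, ap, aA, Fin.forall_fin_succ, Fin.sum_univ_five, sub_eq_add_neg]

noncomputable def G : Fin 7 → Fin 5 → S K := ![![X 0, X 1, X 2, X 3, 0],
  ![(X 0 + X 2) * t1x, (X 0 + X 2) * t1y, 0, X 3 * t1x, 0],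
  ![X 3 * t1x, X 3 * t1y, 0, X 3 * t1x, 0],
  ![t2x - (X 0 - 3 * X 1) * t1x, t2y - (X 0 - 3 * X 1) * t1y, 0, X 3 * r2, 0],
  ![phx - X 0 ^ 2 * t1x, phy - X 0 ^ 2 * t1y, 0, X 3 * r3, 0],
  ![0, 0, 0, X 3 * (-X 0 - X 2 + X 3), 0], ![0, 0, 0, 0, X 4]]

noncomputable def Rl : Fin 2 → Fin 7 → S K := ![![0, ee, 0, f2, 9 * X 0 - 9 * X 1, 0, 0],
  ![0, -X 3, X 0 + X 2, 0, 0, t1x, 0]]

lemma comb {l a b : S K} {p q u v : S K} (h1 : l ∣ a * p + b * q) (h2 : l ∣ a * u + b * v)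
    (c d F : S K) (e : F = c * (a * p + b * q) + d * (a * u + b * v)) : l ∣ F :=
  e ▸ dvd_add (h1.mul_left c) (h2.mul_left d)

lemma G_mem (g : Fin 7) : InD aA (G g : Fin 5 → S K) := by
  have r2e := r2_eq (K := K)
  have r3e := r3_eq (K := K)
  rw [inD_A]
  fin_cases g <;> simp only [G, Fin.zero_eta, Fin.mk_one, Fin.reduceFinMk, Matrix.cons_val, v2, v3, v4]
  · simp
  · exact ⟨comb dA_t1_0 dA_t1_0 (X 0 + X 2) (0) _ (by ring),
      comb dA_t1_1 dA_t1_1 (X 0 + X 2) (0) _ (by ring),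
      comb dA_t1_2 dA_t1_2 (X 0 + X 2) (0) _ (by ring),
      comb dA_t1_3 dA_t1_3 (X 0 + X 2) (0) _ (by ring),
      dvd_zero _,
      comb dA_t1_5 dA_t1_5 (X 0 + X 2) (0) _ (by ring),
      comb dA_t1_6 dA_t1_6 (X 0 + X 2) (0) _ (by ring),
      comb dA_t1_7 dA_t1_7 (X 0 + X 2) (0) _ (by ring),
      comb dA_t1_8 dA_t1_8 (X 0 + X 2) (0) _ (by ring),
      dvd_mul_right _ _, ⟨t1x, by ring⟩, dvd_zero _⟩
  · exact ⟨comb dA_t1_0 dA_t1_0 (X 3) (0) _ (by ring),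
      comb dA_t1_1 dA_t1_1 (X 3) (0) _ (by ring),
      comb dA_t1_2 dA_t1_2 (X 3) (0) _ (by ring),
      comb dA_t1_3 dA_t1_3 (X 3) (0) _ (by ring),
      dvd_zero _,
      comb dA_t1_5 dA_t1_5 (X 3) (0) _ (by ring),
      comb dA_t1_6 dA_t1_6 (X 3) (0) _ (by ring),
      comb dA_t1_7 dA_t1_7 (X 3) (0) _ (by ring),
      comb dA_t1_8 dA_t1_8 (X 3) (0) _ (by ring),
      dvd_mul_right _ _, by simp, dvd_zero _⟩
  · exact ⟨comb dA_t1_0 dA_t2_0 (-(X 0 - 3 * X 1)) (1) _ (by ring),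
      comb dA_t1_1 dA_t2_1 (-(X 0 - 3 * X 1)) (1) _ (by ring),
      comb dA_t1_2 dA_t2_2 (-(X 0 - 3 * X 1)) (1) _ (by ring),
      comb dA_t1_3 dA_t2_3 (-(X 0 - 3 * X 1)) (1) _ (by ring),
      dvd_zero _,
      comb dA_t1_5 dA_t2_5 (-(X 0 - 3 * X 1)) (1) _ (by ring),
      comb dA_t1_6 dA_t2_6 (-(X 0 - 3 * X 1)) (1) _ (by ring),
      comb dA_t1_7 dA_t2_7 (-(X 0 - 3 * X 1)) (1) _ (by ring),
      comb dA_t1_8 dA_t2_8 (-(X 0 - 3 * X 1)) (1) _ (by ring),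
      dvd_mul_right _ _, ⟨r2, by linear_combination -r2e⟩, dvd_zero _⟩
  · exact ⟨comb dA_t1_0 dA_ph_0 (-X 0 ^ 2) (1) _ (by ring),
      comb dA_t1_1 dA_ph_1 (-X 0 ^ 2) (1) _ (by ring),
      comb dA_t1_2 dA_ph_2 (-X 0 ^ 2) (1) _ (by ring),
      comb dA_t1_3 dA_ph_3 (-X 0 ^ 2) (1) _ (by ring),
      dvd_zero _,
      comb dA_t1_5 dA_ph_5 (-X 0 ^ 2) (1) _ (by ring),
      comb dA_t1_6 dA_ph_6 (-X 0 ^ 2) (1) _ (by ring),
      comb dA_t1_7 dA_ph_7 (-X 0 ^ 2) (1) _ (by ring),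
      comb dA_t1_8 dA_ph_8 (-X 0 ^ 2) (1) _ (by ring),
      dvd_mul_right _ _, ⟨r3, by linear_combination -r3e⟩, dvd_zero _⟩
  · simp
  · simp

lemma sub2 (g : S K) : ∃ a b : S K,
    g - aeval ![X 0, X 1, -X 0, 0, X 4] g = a * (X 0 + X 2) + b * X 3 := by
  induction g using MvPolynomial.induction_on with
  | C a => exact ⟨0, 0, by simp⟩
  | add p q hp hq =>
    obtain ⟨a, b, h⟩ := hp
    obtain ⟨c, d, h'⟩ := hq
    exact ⟨a + c, b + d, by rw [map_add]; linear_combination h + h'⟩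
  | mul_X p i hp =>
    obtain ⟨a, b, h⟩ := hp
    obtain ⟨c, d, h'⟩ : ∃ c d : S K, X i - aeval ![X 0, X 1, -X 0, 0, X 4] (X i : S K)
        = c * (X 0 + X 2) + d * X 3 := by
      fin_cases i
      · exact ⟨0, 0, by simp⟩
      · exact ⟨0, 0, by simp⟩
      · exact ⟨1, 0, by simp; ring⟩
      · exact ⟨0, 1, by simp⟩
      · exact ⟨0, 0, by simp⟩
    refine ⟨a * X i + aeval ![X 0, X 1, -X 0, 0, X 4] p * c,
      b * X i + aeval ![X 0, X 1, -X 0, 0, X 4] p * d, ?_⟩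
    rw [map_mul]
    linear_combination X i * h + aeval ![X 0, X 1, -X 0, 0, X 4] p * h'

variable [CharZero K]

lemma lam_ne : (X 0 + X 2 : S K) ≠ 0 := fun h => by
  simpa [v2] using congrArg (eval ![(1 : K), 0, 0, 0, 0]) h

lemma wl_ne : (-X 0 - X 2 + X 3 : S K) ≠ 0 := fun h => by
  simpa [v2, v3] using congrArg (eval ![(1 : K), 0, 0, 0, 0]) h

lemma G_gen (v : Fin 5 → S K) (hv : InD aA v) : ∃ k : Fin 7 → S K, ∀ j, v j = ∑ g, k g * G g j := by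
  have r2e := r2_eq (K := K)
  have r3e := r3_eq (K := K)
  obtain ⟨h0, h1, h2, h3, h4, h5, h6, h7, h8, ⟨s, hs⟩, ⟨k, hk⟩, ⟨u, hu⟩⟩ := (inD_A v).1 hv
  obtain ⟨g0, g1, g2, g3, e0, e1, e2⟩ := genA _ _ _ h0 h1 h2 h3 h4 h5 h6 h7 h8
  have e : (g1 + (X 0 - 3 * X 1) * g2 + X 0 ^ 2 * g3) * t1x = X 3 * (s - k)
      + (X 0 + X 2) * (k - g0 - g2 * r2 - g3 * r3) := by
    linear_combination -e0 - e2 + hs - hk - g2 * r2e - g3 * r3e
  have e' := congrArg (aeval (![X 0, X 1, -X 0, 0, X 4] : Fin 5 → S K)) e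
  have t1 : aeval (![X 0, X 1, -X 0, 0, X 4] : Fin 5 → S K) (t1x : S K) ≠ 0 := fun h => by
    have := congrArg (eval ![(1 : K), 1, 0, 0, 0]) h
    simp [t1x, mk, map_ofNat] at this
    norm_num at this
  rw [map_mul, map_add _ (X 3 * _), map_mul, map_mul, map_add _ (X 0)] at e'
  simp only [aeval_X, v2, v3, Matrix.cons_val_zero, zero_mul, add_neg_cancel, add_zero] at e'
  obtain ⟨a, b, hab⟩ := sub2 (g1 + (X 0 - 3 * X 1) * g2 + X 0 ^ 2 * g3)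
  rw [(mul_eq_zero.1 e').resolve_right t1, sub_zero] at hab
  have hw : (X 3 : S K) ∣ (-X 0 - X 2 + X 3) * (k - g0 - a * t1x - g2 * r2 - g3 * r3) :=
    ⟨s - g0 - (a + b) * t1x - g2 * r2 - g3 * r3, by linear_combination e - t1x * hab⟩
  obtain ⟨m, hm⟩ := (X_prime.dvd_or_dvd hw).resolve_left
    (not_dvd ![1, 0, 0, 0, 0] (by simp [v3]) (by simp [v2, v3]))
  refine ⟨![g0, a, b, g2, g3, m, u], fun j => ?_⟩
  fin_cases j <;> simp [G, Fin.sum_univ_succ, v2, v3, v4]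
  · linear_combination e0 + t1x * hab
  · linear_combination e1 + t1y * hab
  · linear_combination e2
  · linear_combination hs + t1x * hab - e + (-X 0 - X 2 + X 3) * hm
  · linear_combination hu

lemma G_rel (k : Fin 7 → S K) : (∀ j, ∑ g, k g * G g j = 0) ↔
    ∃ h : Fin 2 → S K, ∀ g, k g = ∑ r, h r * Rl r g := by
  have r2e := r2_eq (K := K)
  have r3e := r3_eq (K := K)
  have eq := ee_eq (K := K)
  have er := ee_rel (K := K)
  have rx := rel_x (K := K)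
  have ry := rel_y (K := K)
  simp only [Fin.forall_fin_succ, Fin.sum_univ_succ, G, Rl, Matrix.cons_val_zero, Matrix.cons_val_succ,
    Finset.univ_eq_empty, Finset.sum_empty, IsEmpty.forall_iff, mul_zero, add_zero, zero_add,
    and_true, Fin.succ_zero_eq_one, Fin.succ_one_eq_two, Fin.reduceSucc]
  constructor
  · rintro ⟨e0, e1, e2, e3, e4⟩
    have z0 : k 0 = 0 := (mul_eq_zero.1 e2).resolve_right (X_ne_zero _)
    have z6 : k 6 = 0 := (mul_eq_zero.1 e4).resolve_right (X_ne_zero _)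
    obtain ⟨h, a1, a2, a3⟩ := relA (k 1 * (X 0 + X 2) + k 2 * X 3 - (X 0 - 3 * X 1) * k 3 - X 0 ^ 2 * k 4)
      (k 3) (k 4) (by linear_combination e0 - X 0 * z0) (by linear_combination e1 - X 1 * z0)
    have hw : (X 3 : S K) ∣ (X 0 + X 2) * (h * ee - k 1) :=
      ⟨k 2, by linear_combination -a1 - h * eq - (X 0 - 3 * X 1) * a2 - X 0 ^ 2 * a3⟩
    obtain ⟨m, hm⟩ := (X_prime.dvd_or_dvd hw).resolve_left
      (not_dvd ![1, 0, 0, 0, 0] (by simp [v3]) (by simp [v2]))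
    have a4 : k 2 = m * (X 0 + X 2) := by
      apply mul_left_cancel₀ (X_ne_zero (3 : Fin 5))
      linear_combination a1 + h * eq + (X 0 - 3 * X 1) * a2 + X 0 ^ 2 * a3 + (X 0 + X 2) * hm
    refine ⟨![h, m], z0, by simp; linear_combination -hm, a4, a2, a3, ?_, z6⟩
    apply mul_left_cancel₀ (mul_ne_zero (X_ne_zero (3 : Fin 5)) (wl_ne (K := K)))
    simp only [Matrix.cons_val_one, Matrix.cons_val_zero]
    linear_combination e3 - X 3 * z0 + X 3 * t1x * hm - X 3 * t1x * a4 - X 3 * r2 * a2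
      - X 3 * r3 * a3 - X 3 * h * er
  · rintro ⟨h, a0, a1, a2, a3, a4, a5, a6⟩
    rw [a0, a1, a2, a3, a4, a5, a6]
    refine ⟨?_, ?_, by ring, ?_, by ring⟩
    · linear_combination h 0 * rx - h 0 * t1x * eq
    · linear_combination h 0 * ry - h 0 * t1y * eq
    · linear_combination X 3 * h 0 * er

lemma f2_ne : (f2 : S K) ≠ 0 := fun h => al_f2 (K := K) (h ▸ dvd_zero _)

end Pool.Agent.H30.Pog5
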