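import Pool.Agent.H30.Pog5B

/-! The second arrangement: an obstruction class. -/

namespace Pool.Agent.H30.Pog5
open MvPolynomial

set_option linter.unusedSectionVars false

variable {K : Type} [Field K]

noncomputable def uB : Fin 12 → S K := fun i => if i = 10 then 48 * X 0 ^ 2 * X 1 ^ 2 else 0

noncomputable def vB : Fin 5 → Fin 5 → S K :=
  ![![5 * ps0x + 3 * ps1x, 5 * ps0y + 3 * ps1y, 0, X 3 * (5 * k0 + 3 * k1), 0],
    ![-6 * ps0x - 2 * ps1x, -6 * ps0y - 2 * ps1y, 0, X 3 * (-6 * k0 - 2 * k1), 0],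
    ![-5 * ps0x - 3 * ps1x, -5 * ps0y - 3 * ps1y, 0, X 3 * (48 * X 0 ^ 2 * X 1 ^ 2 - 5 * k0 - 3 * k1), 0],
    ![0, 0, 0, X 3 * (48 * X 0 ^ 2 * X 1 ^ 2), 0], 0]

lemma condB (v : Fin 5 → S K) (F : Fin 12 → S K) : (∀ i, ap (aB i) X ∣ ap (aB i) v - F i) ↔
    X 0 ∣ v 0 - F 0 ∧ 2 * X 0 + 3 * X 1 ∣ 2 * v 0 + 3 * v 1 - F 1 ∧
    X 0 + X 1 ∣ v 0 + v 1 - F 2 ∧ X 1 ∣ v 1 - F 3 ∧ X 2 ∣ v 2 - F 4 ∧
    X 0 + 2 * X 1 + X 2 ∣ v 0 + 2 * v 1 + v 2 - F 5 ∧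
    X 0 - X 2 ∣ v 0 - v 2 - F 6 ∧ X 1 + 2 * X 2 ∣ v 1 + 2 * v 2 - F 7 ∧
    X 0 + X 1 + X 2 ∣ v 0 + v 1 + v 2 - F 8 ∧ X 3 ∣ v 3 - F 9 ∧
    -X 0 - X 2 + X 3 ∣ -v 0 - v 2 + v 3 - F 10 ∧ X 4 ∣ v 4 - F 11 := by
  simp [ap, aB, Fin.forall_fin_succ, Fin.sum_univ_five, sub_eq_add_neg]

lemma liftB (j : Fin 5) (hj : j ≠ 4) (i : Fin 12) :
    ap (aB i) X ∣ ap (aB i) (vB j : Fin 5 → S K) - X j * uB i := by
  have e0 := k0_eq (K := K)
  have e1 := k1_eq (K := K)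
  revert i
  rw [condB]
  fin_cases j <;> simp only [vB, uB, Fin.zero_eta, Fin.mk_one, Fin.reduceFinMk, Matrix.cons_val, v2, v3,
    v4, Fin.reduceEq, if_false, if_true, mul_zero, sub_zero]
  · exact ⟨comb dB_ps0_0 dB_ps1_0 (5) (3) _ (by ring),
      comb dB_ps0_1 dB_ps1_1 (5) (3) _ (by ring),
      comb dB_ps0_2 dB_ps1_2 (5) (3) _ (by ring),
      comb dB_ps0_3 dB_ps1_3 (5) (3) _ (by ring),
      dvd_zero _,
      comb dB_ps0_5 dB_ps1_5 (5) (3) _ (by ring),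
      comb dB_ps0_6 dB_ps1_6 (5) (3) _ (by ring),
      comb dB_ps0_7 dB_ps1_7 (5) (3) _ (by ring),
      comb dB_ps0_8 dB_ps1_8 (5) (3) _ (by ring),
      dvd_mul_right _ _, ⟨5 * k0 + 3 * k1, by linear_combination -5 * e0 - 3 * e1⟩, dvd_zero _⟩
  · exact ⟨comb dB_ps0_0 dB_ps1_0 (-6) (-2) _ (by ring),
      comb dB_ps0_1 dB_ps1_1 (-6) (-2) _ (by ring),
      comb dB_ps0_2 dB_ps1_2 (-6) (-2) _ (by ring),
      comb dB_ps0_3 dB_ps1_3 (-6) (-2) _ (by ring),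
      dvd_zero _,
      comb dB_ps0_5 dB_ps1_5 (-6) (-2) _ (by ring),
      comb dB_ps0_6 dB_ps1_6 (-6) (-2) _ (by ring),
      comb dB_ps0_7 dB_ps1_7 (-6) (-2) _ (by ring),
      comb dB_ps0_8 dB_ps1_8 (-6) (-2) _ (by ring),
      dvd_mul_right _ _, ⟨-6 * k0 - 2 * k1, by linear_combination 6 * e0 + 2 * e1⟩, dvd_zero _⟩
  · exact ⟨comb dB_ps0_0 dB_ps1_0 (-5) (-3) _ (by ring),
      comb dB_ps0_1 dB_ps1_1 (-5) (-3) _ (by ring),
      comb dB_ps0_2 dB_ps1_2 (-5) (-3) _ (by ring),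
      comb dB_ps0_3 dB_ps1_3 (-5) (-3) _ (by ring),
      dvd_zero _,
      comb dB_ps0_5 dB_ps1_5 (-5) (-3) _ (by ring),
      comb dB_ps0_6 dB_ps1_6 (-5) (-3) _ (by ring),
      comb dB_ps0_7 dB_ps1_7 (-5) (-3) _ (by ring),
      comb dB_ps0_8 dB_ps1_8 (-5) (-3) _ (by ring),
      dvd_mul_right _ _, ⟨48 * X 0 ^ 2 * X 1 ^ 2 - 5 * k0 - 3 * k1, by linear_combination 5 * e0 + 3 * e1⟩, dvd_zero _⟩
  · simp
  · exact absurd rfl hj

lemma comp_dvd {l F : Pog.S K} (hl : l.IsHomogeneous 1) (h : l ∣ F) :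
    l ∣ homogeneousComponent 4 F := by
  obtain ⟨k, rfl⟩ := h
  letI := MvPolynomial.gradedAlgebra (σ := Fin 3) (R := K)
  have := DirectSum.coe_decompose_mul_add_of_left_mem (homogeneousSubmodule (Fin 3) K)
    (a := l) (b := k) (i := 1) (j := 3) hl
  exact ⟨_, (decomposition.decompose'_apply (l * k) 4).symm.trans this⟩

noncomputable def pi1 : S K →ₐ[K] Polynomial (Pog.S K) :=
  aeval ![Polynomial.C (X 0), Polynomial.C (X 1), Polynomial.C (X 2), 0, Polynomial.X]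

lemma co_dvd (k : ℕ) (l F G u : S K) (l' : Pog.S K) (hl : pi1 l = Polynomial.C l')
    (h : l ∣ F - (G + X 4 ^ (k + 1) * u)) : l' ∣ (pi1 F).coeff k - (pi1 G).coeff k := by
  have := map_dvd pi1 h
  rw [hl, Polynomial.C_dvd_iff_dvd_coeff] at this
  have h2 := this k
  have e : pi1 (X 4 : S K) = Polynomial.X := by simp [pi1]
  rw [map_sub, map_add, map_mul, map_pow, e, Polynomial.coeff_sub, Polynomial.coeff_add,
    Polynomial.coeff_X_pow_mul', if_neg (by omega), add_zero] at h2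
  exact h2

variable [CharZero K]

lemma notB (k : ℕ) (v : Fin 5 → S K) (u : Fin 12 → S K) :
    ¬ ∀ i, ap (aB i) X ∣ ap (aB i) v - (X 4 ^ k * uB i + X 4 ^ (k + 1) * u i) := by
  rw [condB]
  rintro ⟨h0, h1, h2, h3, h4, h5, h6, h7, h8, h9, h10, -⟩
  have two : pi1 (2 : S K) = Polynomial.C 2 := by rw [map_ofNat, map_ofNat]
  have three : pi1 (3 : S K) = Polynomial.C 3 := by rw [map_ofNat, map_ofNat]
  have g0 := co_dvd k _ _ _ _ (X 0) (by simp [pi1]) h0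
  have g1 := co_dvd k _ _ _ _ (2 * X 0 + 3 * X 1) (by simp [pi1, map_ofNat]) h1
  have g2 := co_dvd k _ _ _ _ (X 0 + X 1) (by simp [pi1]) h2
  have g3 := co_dvd k _ _ _ _ (X 1) (by simp [pi1]) h3
  have g4 := co_dvd k _ _ _ _ (X 2) (by simp [pi1]) h4
  have g5 := co_dvd k _ _ _ _ (X 0 + 2 * X 1 + X 2) (by simp [pi1, map_ofNat]) h5
  have g6 := co_dvd k _ _ _ _ (X 0 - X 2) (by simp [pi1]) h6
  have g7 := co_dvd k _ _ _ _ (X 1 + 2 * X 2) (by simp [pi1, map_ofNat]) h7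
  have g8 := co_dvd k _ _ _ _ (X 0 + X 1 + X 2) (by simp [pi1]) h8
  have g9 := co_dvd k _ _ _ _ 0 (by simp [pi1]) h9
  have g10 := co_dvd k _ _ _ _ (-X 0 - X 2) (by simp [pi1]) h10
  have e10 : (pi1 (X 4 ^ k * uB 10 : S K)).coeff k = 48 * X 0 ^ 2 * X 1 ^ 2 := by
    have : pi1 (X 4 ^ k * uB 10 : S K) =
        Polynomial.X ^ k * Polynomial.C (48 * X 0 ^ 2 * X 1 ^ 2) := by
      simp [pi1, uB, map_ofNat]
    rw [this, Polynomial.coeff_X_pow_mul', if_pos le_rfl, Nat.sub_self, Polynomial.coeff_C_zero]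
  rw [e10] at g10
  simp only [uB, Fin.reduceEq, if_false, mul_zero, map_zero, Polynomial.coeff_zero, sub_zero, map_add,
    map_sub, map_neg, map_mul, two, three, Polynomial.coeff_add, Polynomial.coeff_sub,
    Polynomial.coeff_neg, Polynomial.coeff_C_mul, zero_dvd_iff] at g0 g1 g2 g3 g4 g5 g6 g7 g8 g9 g10
  rw [g9, add_zero] at g10
  generalize (pi1 (v 0)).coeff k = p at *
  generalize (pi1 (v 1)).coeff k = q at *
  generalize (pi1 (v 2)).coeff k = r at *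
  have x := fun i : Fin 3 => isHomogeneous_X K i
  have c2 : (2 : Pog.S K) = C 2 := (map_ofNat C 2).symm
  have c3 : (3 : Pog.S K) = C 3 := (map_ofNat C 3).symm
  have c48 : (48 : Pog.S K) = C 48 := (map_ofNat C 48).symm
  have m2 : ∀ f : Pog.S K, homogeneousComponent 4 (2 * f) = 2 * homogeneousComponent 4 f :=
    fun f => by rw [c2, homogeneousComponent_C_mul]
  have m3 : ∀ f : Pog.S K, homogeneousComponent 4 (3 * f) = 3 * homogeneousComponent 4 f :=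
    fun f => by rw [c3, homogeneousComponent_C_mul]
  have x2 : ∀ i, (2 * X i : Pog.S K).IsHomogeneous 1 := fun i => c2 ▸ (x i).C_mul _
  have x3 : ∀ i, (3 * X i : Pog.S K).IsHomogeneous 1 := fun i => c3 ▸ (x i).C_mul _
  have d0 := comp_dvd (x 0) g0
  have d1 := comp_dvd ((x2 0).add (x3 1)) g1
  have d2 := comp_dvd ((x 0).add (x 1)) g2
  have d3 := comp_dvd (x 1) g3
  have d4 := comp_dvd (x 2) g4
  have d5 := comp_dvd (((x 0).add (x2 1)).add (x 2)) g5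
  have d6 := comp_dvd ((x 0).sub (x 2)) g6
  have d7 := comp_dvd ((x 1).add (x2 2)) g7
  have d8 := comp_dvd (((x 0).add (x 1)).add (x 2)) g8
  have d10 := comp_dvd ((x 0).neg.sub (x 2)) g10
  have hh : (48 * X 0 ^ 2 * X 1 ^ 2 : Pog.S K).IsHomogeneous 4 := by
    rw [c48]
    exact ((isHomogeneous_X_pow 0 2).C_mul _).mul (isHomogeneous_X_pow 1 2)
  simp only [map_add, map_sub, map_neg, m2, m3, homogeneousComponent_eq_self hh]
    at d1 d2 d5 d6 d7 d8 d10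
  have l := Pog.lowB _ _ _ (homogeneousComponent_isHomogeneous 4 p)
    (homogeneousComponent_isHomogeneous 4 q) (homogeneousComponent_isHomogeneous 4 r)
    d0 d1 d2 d3 d4 d5 d6 d7 d8
  have a1 := Pog.key d10 ![1, 1, -1] (by simp)
  have a2 := congrArg (eval ![(1 : K), 1, -1]) l
  simp only [map_sub, map_neg, map_mul, map_pow, eval_X, map_ofNat, map_zero, Matrix.cons_val_zero,
    Matrix.cons_val_one, Matrix.cons_val] at a1 a2
  have : (48 : K) = 0 := by linear_combination a2 - a1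
  norm_num at this

end Pool.Agent.H30.Pog5
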