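import Pool.Agent.H30.SplitC

/-! Lattices of line arrangements with coefficients in the ring of eighth roots of unity. -/

namespace Pool.Agent.H30.Split
open MvPolynomial

variable {K : Type} [Field K]

lemma v2 {T : Type} (a b c : T) : ![a, b, c] 2 = c := rfl

def hyp (a : Fin 3 → K) : Submodule K (Fin 3 → K) := LinearMap.ker (dotProductBilin K K a)

lemma mem_hyp (a v : Fin 3 → K) : v ∈ hyp a ↔ a 0 * v 0 + a 1 * v 1 + a 2 * v 2 = 0 := by
  simp [hyp, dotProduct, Fin.sum_univ_three]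

def det3 {R : Type} [CommRing R] (a b c : Fin 3 → R) : R :=
  a 0 * (b 1 * c 2 - b 2 * c 1) - a 1 * (b 0 * c 2 - b 2 * c 0) + a 2 * (b 0 * c 1 - b 1 * c 0)

def Indep {R : Type} [CommRing R] (a b : Fin 3 → R) : Prop :=
  a 1 * b 2 - a 2 * b 1 ≠ 0 ∨ a 2 * b 0 - a 0 * b 2 ≠ 0 ∨ a 0 * b 1 - a 1 * b 0 ≠ 0

lemma cramer (a b c d v : Fin 3 → K) :
    det3 a b c * (d 0 * v 0 + d 1 * v 1 + d 2 * v 2) =
      det3 d b c * (a 0 * v 0 + a 1 * v 1 + a 2 * v 2) +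
      det3 a d c * (b 0 * v 0 + b 1 * v 1 + b 2 * v 2) +
      det3 a b d * (c 0 * v 0 + c 1 * v 1 + c 2 * v 2) := by
  simp only [det3]; ring

lemma clos {ι : Type} (a : ι → Fin 3 → K) (h0 : ∀ i, a i 0 ≠ 0 ∨ a i 1 ≠ 0 ∨ a i 2 ≠ 0)
    (h1 : ∀ i j, i ≠ j → Indep (a i) (a j)) (T : Set ι) (j : ι) :
    (⨅ i ∈ T, hyp (a i)) ≤ hyp (a j) ↔ j ∈ T ∨
      (∃ i ∈ T, ∃ k ∈ T, i ≠ k ∧ det3 (a i) (a k) (a j) = 0) ∨
      (∃ i ∈ T, ∃ k ∈ T, ∃ m ∈ T, det3 (a i) (a k) (a m) ≠ 0) := by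
  constructor
  · intro h
    have h' : ∀ v : Fin 3 → K, (∀ i ∈ T, a i 0 * v 0 + a i 1 * v 1 + a i 2 * v 2 = 0) →
        a j 0 * v 0 + a j 1 * v 1 + a j 2 * v 2 = 0 := by
      intro v hv
      rw [← mem_hyp]
      apply h
      simp only [Submodule.mem_iInf, mem_hyp]
      exact hv
    by_contra hc
    push Not at hc
    obtain ⟨c1, c2, c3⟩ := hc
    by_cases hT : ∃ i ∈ T, ∃ k ∈ T, i ≠ k
    · obtain ⟨i, hi, k, hk, hik⟩ := hT
      apply c2 i hi k hk hik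
      have := h' ![a i 1 * a k 2 - a i 2 * a k 1, a i 2 * a k 0 - a i 0 * a k 2,
        a i 0 * a k 1 - a i 1 * a k 0] (fun m hm => by
          have := c3 i hi k hk m hm
          simp only [det3] at this
          simp only [Matrix.cons_val_zero, Matrix.cons_val_one, v2]
          linear_combination this)
      simp only [Matrix.cons_val_zero, Matrix.cons_val_one, v2] at this
      simp only [det3]
      linear_combination this
    · push Not at hT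
      rcases T.eq_empty_or_nonempty with rfl | ⟨i, hi⟩
      · have e0 := h' ![1, 0, 0] (by simp)
        have e1 := h' ![0, 1, 0] (by simp)
        have e2 := h' ![0, 0, 1] (by simp)
        simp at e0 e1 e2
        rcases h0 j with h | h | h <;> contradiction
      · have hij : i ≠ j := fun e => c1 (e ▸ hi)
        have e0 := h' ![0, a i 2, -a i 1] (fun m hm => by rw [hT m hm i hi]; simp; ring)
        have e1 := h' ![-a i 2, 0, a i 0] (fun m hm => by rw [hT m hm i hi]; simp; ring)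
        have e2 := h' ![a i 1, -a i 0, 0] (fun m hm => by rw [hT m hm i hi]; simp; ring)
        simp only [Matrix.cons_val_zero, Matrix.cons_val_one, v2] at e0 e1 e2
        rcases h1 i j hij with h | h | h
        · exact h (by linear_combination -e0)
        · exact h (by linear_combination -e1)
        · exact h (by linear_combination -e2)
  · intro h v hv
    simp only [Submodule.mem_iInf, mem_hyp] at hv
    rw [mem_hyp]
    rcases h with h | ⟨i, hi, k, hk, hik, h⟩ | ⟨i, hi, k, hk, m, hm, h⟩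
    · exact hv j h
    · have ei := hv i hi
      have ek := hv k hk
      simp only [det3] at h
      rcases h1 i k hik with g | g | g
      · apply mul_left_cancel₀ g
        linear_combination v 0 * h + (a j 1 * a k 2 - a j 2 * a k 1) * ei
          - (a j 1 * a i 2 - a j 2 * a i 1) * ek
      · apply mul_left_cancel₀ g
        linear_combination v 1 * h + (a j 2 * a k 0 - a j 0 * a k 2) * ei
          - (a j 2 * a i 0 - a j 0 * a i 2) * ek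
      · apply mul_left_cancel₀ g
        linear_combination v 2 * h + (a j 0 * a k 1 - a j 1 * a k 0) * ei
          - (a j 0 * a i 1 - a j 1 * a i 0) * ek
    · have ei := hv i hi
      have ek := hv k hk
      have em := hv m hm
      apply mul_left_cancel₀ h
      linear_combination (exp := 1) det3 (a j) (a k) (a m) * ei + det3 (a i) (a j) (a m) * ek
        + det3 (a i) (a k) (a j) * em + cramer (a i) (a k) (a m) (a j) v


abbrev Z8 := ℤ × ℤ × ℤ × ℤ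

def ad (a b : Z8) : Z8 := (a.1 + b.1, a.2.1 + b.2.1, a.2.2.1 + b.2.2.1, a.2.2.2 + b.2.2.2)
def sb (a b : Z8) : Z8 := (a.1 - b.1, a.2.1 - b.2.1, a.2.2.1 - b.2.2.1, a.2.2.2 - b.2.2.2)
def ml (a b : Z8) : Z8 :=
  (a.1 * b.1 - a.2.1 * b.2.2.2 - a.2.2.1 * b.2.2.1 - a.2.2.2 * b.2.1,
   a.1 * b.2.1 + a.2.1 * b.1 - a.2.2.1 * b.2.2.2 - a.2.2.2 * b.2.2.1,
   a.1 * b.2.2.1 + a.2.1 * b.2.1 + a.2.2.1 * b.1 - a.2.2.2 * b.2.2.2,
   a.1 * b.2.2.2 + a.2.1 * b.2.2.1 + a.2.2.1 * b.2.1 + a.2.2.2 * b.1)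

noncomputable def zeta : ℂ := ⟨√2 / 2, √2 / 2⟩

lemma zeta2 : zeta ^ 2 = Complex.I := by
  have h : √2 * √2 = 2 := Real.mul_self_sqrt (by norm_num)
  apply Complex.ext <;> simp [zeta, pow_two]
  linarith

lemma zeta4 : zeta ^ 4 = -1 := by
  rw [show zeta ^ 4 = (zeta ^ 2) ^ 2 by ring, zeta2, Complex.I_sq]

noncomputable def ph (a : Z8) : ℂ := a.1 + a.2.1 * zeta + a.2.2.1 * zeta ^ 2 + a.2.2.2 * zeta ^ 3

lemma ph_ad (a b : Z8) : ph (ad a b) = ph a + ph b := by simp only [ph, ad]; push_cast; ring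
lemma ph_sb (a b : Z8) : ph (sb a b) = ph a - ph b := by simp only [ph, sb]; push_cast; ring
lemma ph_ml (a b : Z8) : ph (ml a b) = ph a * ph b := by
  obtain ⟨a0, a1, a2, a3⟩ := a
  obtain ⟨b0, b1, b2, b3⟩ := b
  simp only [ph, ml]; push_cast
  linear_combination (-(a1 * b3 + a2 * b2 + a3 * b1) - (a2 * b3 + a3 * b2) * zeta
    - a3 * b3 * zeta ^ 2) * zeta4

lemma ph_zero (a : Z8) : ph a = 0 ↔ a = (0, 0, 0, 0) := by
  constructor
  · obtain ⟨a0, a1, a2, a3⟩ := a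
    intro h
    simp only [ph] at h
    rw [show zeta ^ 3 = zeta ^ 2 * zeta by ring, zeta2] at h
    have h1 := congrArg Complex.re h
    have h2 := congrArg Complex.im h
    simp [zeta] at h1 h2
    have irr : ∀ m n : ℤ, (m : ℝ) + n * (√2 / 2) = 0 → n = 0 ∧ m = 0 := by
      intro m n e
      have hn : n = 0 := by
        by_contra hn
        have hn' : (n : ℝ) ≠ 0 := by exact_mod_cast hn
        apply irrational_sqrt_two
        refine ⟨-2 * m / n, ?_⟩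
        push_cast
        field_simp
        linarith
      subst hn
      simpa using e
    obtain ⟨p1, p2⟩ := irr a0 (a1 - a3) (by push_cast; linarith)
    obtain ⟨p3, p4⟩ := irr a2 (a1 + a3) (by push_cast; linarith)
    simp only [Prod.mk.injEq]
    omega
  · rintro rfl; simp [ph]

def dm (a b c : Fin 3 → Z8) : Z8 :=
  ad (sb (ml (a 0) (sb (ml (b 1) (c 2)) (ml (b 2) (c 1))))
    (ml (a 1) (sb (ml (b 0) (c 2)) (ml (b 2) (c 0))))) (ml (a 2) (sb (ml (b 0) (c 1)) (ml (b 1) (c 0))))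

lemma det_ph (a b c : Fin 3 → Z8) : det3 (fun j => ph (a j)) (fun j => ph (b j)) (fun j => ph (c j)) = 0
    ↔ dm a b c = (0, 0, 0, 0) := by
  rw [← ph_zero]
  simp only [dm, det3, ph_ad, ph_sb, ph_ml]

def IndepM (a b : Fin 3 → Z8) : Prop :=
  sb (ml (a 1) (b 2)) (ml (a 2) (b 1)) ≠ (0, 0, 0, 0) ∨ sb (ml (a 2) (b 0)) (ml (a 0) (b 2)) ≠ (0, 0, 0, 0)
    ∨ sb (ml (a 0) (b 1)) (ml (a 1) (b 0)) ≠ (0, 0, 0, 0)

instance (a b : Fin 3 → Z8) : Decidable (IndepM a b) := by unfold IndepM; infer_instance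

lemma indep_ph (a b : Fin 3 → Z8) (h : IndepM a b) :
    Indep (fun j => ph (a j)) (fun j => ph (b j)) := by
  simpa only [IndepM, Indep, ne_eq, ← ph_zero, ph_sb, ph_ml] using h

def tA : Fin 21 → Fin 3 → Z8 := ![![(1,0,0,0), (0,0,0,0), (0,0,0,0)], ![(0,0,0,0), (1,0,0,0), (0,0,0,0)], ![(0,0,0,0), (0,0,0,0), (1,0,0,0)], ![(1,0,0,0), (1,0,0,0), (0,0,0,0)], ![(1,0,0,0), (-1,0,0,0), (0,0,0,0)], ![(1,0,0,0), (0,1,0,0), (0,0,0,0)], ![(1,0,0,0), (0,-1,0,0), (0,0,0,0)], ![(1,0,0,0), (0,0,0,1), (0,0,0,0)], ![(1,0,0,0), (0,0,0,-1), (0,0,0,0)], ![(0,0,0,0), (1,0,0,0), (1,0,0,0)], ![(0,0,0,0), (1,0,0,0), (-1,0,0,0)], ![(0,0,0,0), (1,0,0,0), (0,1,0,0)], ![(0,0,0,0), (1,0,0,0), (0,-1,0,0)], ![(0,0,0,0), (1,0,0,0), (0,0,0,1)], ![(0,0,0,0), (1,0,0,0), (0,0,0,-1)], ![(1,0,0,0), (0,0,0,0), (0,1,0,0)], ![(1,0,0,0), (0,0,0,0), (0,-1,0,0)], ![(1,0,0,0), (0,0,0,0), (0,0,0,1)], ![(1,0,0,0), (0,0,0,0), (0,0,0,-1)],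 ![(1,0,0,0), (0,0,0,0), (0,0,1,0)], ![(1,0,0,0), (0,0,0,0), (0,0,-1,0)]]
def tB : Fin 21 → Fin 3 → Z8 := ![![(1,0,0,0), (0,0,0,0), (0,0,0,0)], ![(0,0,0,0), (1,0,0,0), (0,0,0,0)], ![(0,0,0,0), (0,0,0,0), (1,0,0,0)], ![(1,0,0,0), (1,0,0,0), (0,0,0,0)], ![(1,0,0,0), (-1,0,0,0), (0,0,0,0)], ![(1,0,0,0), (2,0,0,0), (0,0,0,0)], ![(1,0,0,0), (-2,0,0,0), (0,0,0,0)], ![(1,0,0,0), (0,0,2,0), (0,0,0,0)], ![(1,0,0,0), (0,0,-2,0), (0,0,0,0)], ![(0,0,0,0), (1,0,0,0), (1,0,0,0)], ![(0,0,0,0), (1,0,0,0), (-1,0,0,0)], ![(0,0,0,0), (1,0,0,0), (2,0,0,0)], ![(0,0,0,0), (1,0,0,0), (-2,0,0,0)], ![(0,0,0,0), (1,0,0,0), (0,0,2,0)], ![(0,0,0,0), (1,0,0,0), (0,0,-2,0)], ![(1,0,0,0), (0,0,0,0), (2,0,0,0)], ![(1,0,0,0), (0,0,0,0), (-2,0,0,0)], ![(1,0,0,0), (0,0,0,0), (0,0,2,0)], ![(1,0,0,0), (0,0,0,0), (0,0,-2,0)], ![(1,0,0,0), (0,0,0,0), (4,0,0,0)], ![(1,0,0,0), (0,0,0,0), (-4,0,0,0)]]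

def Pat (i j k : Fin 21) : Prop :=
  dm (tA i) (tA j) (tA k) = (0, 0, 0, 0) ↔ dm (tB i) (tB j) (tB k) = (0, 0, 0, 0)

instance (i j k : Fin 21) : Decidable (Pat i j k) := by unfold Pat; infer_instance

def Pat2 (i j : Fin 21) : Prop := ∀ k, j < k → Pat i j k

instance (i j : Fin 21) : Decidable (Pat2 i j) := by unfold Pat2; infer_instance

lemma pattern : ∀ i j, i < j → Pat2 i j := by
  decide +kernel

lemma sym_det {n : ℕ} (a b : Fin n → Fin 3 → K) (h : ∀ i j, i < j → ∀ k, j < k →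
    (det3 (a i) (a j) (a k) = 0 ↔ det3 (b i) (b j) (b k) = 0)) (i j k : Fin n) :
    det3 (a i) (a j) (a k) = 0 ↔ det3 (b i) (b j) (b k) = 0 := by
  have s1 : ∀ x y z : Fin 3 → K, det3 x y z = 0 ↔ det3 y x z = 0 := fun x y z => by
    rw [show det3 x y z = -det3 y x z by simp only [det3]; ring, neg_eq_zero]
  have s2 : ∀ x y z : Fin 3 → K, det3 x y z = 0 ↔ det3 x z y = 0 := fun x y z => by
    rw [show det3 x y z = -det3 x z y by simp only [det3]; ring, neg_eq_zero]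
  have z1 : ∀ x z : Fin 3 → K, det3 x x z = 0 := fun x z => by simp only [det3]; ring
  have z2 : ∀ x z : Fin 3 → K, det3 x z z = 0 := fun x z => by simp only [det3]; ring
  have h2 : ∀ i j k, i < j → (det3 (a i) (a j) (a k) = 0 ↔ det3 (b i) (b j) (b k) = 0) := by
    intro i j k hij
    rcases lt_trichotomy j k with g | rfl | g
    · exact h i j hij k g
    · simp [z2]
    · rw [s2 (a i), s2 (b i)]
      rcases lt_trichotomy i k with g' | rfl | g'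
      · exact h i k g' j g
      · simp [z1]
      · rw [s1 (a i), s1 (b i)]
        exact h k i g' j hij
  rcases lt_trichotomy i j with g | rfl | g
  · exact h2 i j k g
  · simp [z1]
  · rw [s1 (a i), s1 (b i)]
    exact h2 j i k g

lemma indepA : ∀ i j, i ≠ j → IndepM (tA i) (tA j) := by decide +kernel
lemma indepB : ∀ i j, i ≠ j → IndepM (tB i) (tB j) := by decide +kernel
lemma nzA : ∀ i, tA i 0 ≠ (0, 0, 0, 0) ∨ tA i 1 ≠ (0, 0, 0, 0) ∨ tA i 2 ≠ (0, 0, 0, 0) := by decide +kernel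
lemma nzB : ∀ i, tB i 0 ≠ (0, 0, 0, 0) ∨ tB i 1 ≠ (0, 0, 0, 0) ∨ tB i 2 ≠ (0, 0, 0, 0) := by decide +kernel

noncomputable def lA (i : Fin 21) (j : Fin 3) : ℂ := ph (tA i j)
noncomputable def lB (i : Fin 21) (j : Fin 3) : ℂ := ph (tB i j)

lemma nz_lA (i : Fin 21) : lA i 0 ≠ 0 ∨ lA i 1 ≠ 0 ∨ lA i 2 ≠ 0 := by
  simpa only [lA, ne_eq, ph_zero] using nzA i
lemma nz_lB (i : Fin 21) : lB i 0 ≠ 0 ∨ lB i 1 ≠ 0 ∨ lB i 2 ≠ 0 := by
  simpa only [lB, ne_eq, ph_zero] using nzB i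
lemma ind_lA (i j : Fin 21) (h : i ≠ j) : Indep (lA i) (lA j) := indep_ph _ _ (indepA i j h)
lemma ind_lB (i j : Fin 21) (h : i ≠ j) : Indep (lB i) (lB j) := indep_ph _ _ (indepB i j h)

lemma clos_eq (T : Set (Fin 21)) (j : Fin 21) :
    (⨅ i ∈ T, hyp (lA i)) ≤ hyp (lA j) ↔ (⨅ i ∈ T, hyp (lB i)) ≤ hyp (lB j) := by
  have h : ∀ i j k, det3 (lA i) (lA j) (lA k) = 0 ↔ det3 (lB i) (lB j) (lB k) = 0 :=
    sym_det lA lB fun i j hij k hjk =>
      (det_ph _ _ _).trans ((pattern i j hij k hjk).trans (det_ph _ _ _).symm)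
  rw [clos lA nz_lA ind_lA, clos lB nz_lB ind_lB]
  simp only [ne_eq, h]

lemma prodA : ∏ i, (C (lA i 0) * X 0 + C (lA i 1) * X 1 + C (lA i 2) * X 2 : MvPolynomial (Fin 3) ℂ)
    = mk X fA := by
  have hz : (C zeta : MvPolynomial (Fin 3) ℂ) ^ 4 = -1 := by rw [← map_pow, zeta4]; simp
  rw [fA_eq]
  simp [Fin.prod_univ_succ, lA, tA, ph]
  generalize (C zeta : MvPolynomial (Fin 3) ℂ) = z at hz
  have g1 : ∀ a b : MvPolynomial (Fin 3) ℂ, a ^ 4 + b ^ 4 =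
      (a + z * b) * ((a + -(z * b)) * ((a + z ^ 3 * b) * (a + -(z ^ 3 * b)))) := fun a b => by
    linear_combination (z ^ 2 * a ^ 2 * b ^ 2 - (z ^ 4 - 1) * b ^ 4) * hz
  have g2 : ∀ a b : MvPolynomial (Fin 3) ℂ, a ^ 2 + b ^ 2 =
      (a + z ^ 2 * b) * (a + -(z ^ 2 * b)) := fun a b => by
    linear_combination (b ^ 2) * hz
  have g3 : ∀ a b : MvPolynomial (Fin 3) ℂ, a ^ 2 - b ^ 2 = (a + b) * (a + -b) := fun a b => by ring
  simp only [g1, g2, g3, mul_assoc]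

lemma prodB : ∏ i, (C (lB i 0) * X 0 + C (lB i 1) * X 1 + C (lB i 2) * X 2 : MvPolynomial (Fin 3) ℂ)
    = mk X fB := by
  have hz : (C zeta : MvPolynomial (Fin 3) ℂ) ^ 4 = -1 := by rw [← map_pow, zeta4]; simp
  rw [fB_eq]
  simp [Fin.prod_univ_succ, lB, tB, ph]
  generalize (C zeta : MvPolynomial (Fin 3) ℂ) = z at hz
  have g1 : ∀ a b : MvPolynomial (Fin 3) ℂ, a ^ 4 - 16 * b ^ 4 =
      (a + 2 * b) * ((a + -(2 * b)) * ((a + 2 * z ^ 2 * b) * (a + -(2 * z ^ 2 * b)))) := fun a b => by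
    linear_combination (4 * a ^ 2 * b ^ 2 - 16 * b ^ 4) * hz
  have g2 : ∀ a b : MvPolynomial (Fin 3) ℂ, a ^ 2 - 16 * b ^ 2 =
      (a + 4 * b) * (a + -(4 * b)) := fun a b => by ring
  have g3 : ∀ a b : MvPolynomial (Fin 3) ℂ, a ^ 2 - b ^ 2 = (a + b) * (a + -b) := fun a b => by ring
  simp only [g1, g2, g3, mul_assoc]

end Pool.Agent.H30.Split
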