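import Pool.Agent.H30.Pog5C
import Pool.Agent.H30.SplitD

/-! The two arrangements of twelve hyperplanes have the same flats. -/

namespace Pool.Agent.H30.Pog5
open MvPolynomial
open Pool.Agent.H30.Split (hyp mem_hyp clos det3 Indep)

variable {K : Type} [Field K]

def cA : Fin 10 → Fin 3 → ℤ := ![![1,0,0], ![1,-3,0], ![1,1,0], ![0,1,0], ![0,0,1],
  ![1,-1,1], ![2,0,1], ![0,2,1], ![1,1,1], ![1,0,1]]
def cB : Fin 10 → Fin 3 → ℤ := ![![1,0,0], ![2,3,0], ![1,1,0], ![0,1,0], ![0,0,1],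
  ![1,2,1], ![1,0,-1], ![0,1,2], ![1,1,1], ![1,0,1]]

def dot3 (c : Fin 3 → ℤ) (v : Fin 5 → K) : K := c 0 * v 0 + c 1 * v 1 + c 2 * v 2

def St (K : Type) [Field K] (a : Fin 12 → Fin 5 → ℤ) (c : Fin 10 → Fin 3 → ℤ) : Prop :=
  ∀ v : Fin 5 → K, (∀ i : Fin 9, ap (a (i.castLE (by norm_num))) v = dot3 (c i.castSucc) v) ∧
    ap (a 9) v = v 3 ∧ ap (a 10) v = v 3 - dot3 (c 9) v ∧ ap (a 11) v = v 4

lemma stA : St K aA cA := fun v => by
  refine ⟨fun i => ?_, ?_, ?_, ?_⟩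
  · fin_cases i <;> simp [ap, aA, cA, dot3, Fin.sum_univ_five]
  all_goals simp [ap, aA, cA, dot3, Fin.sum_univ_five]
  ring

lemma stB : St K aB cB := fun v => by
  refine ⟨fun i => ?_, ?_, ?_, ?_⟩
  · fin_cases i <;> simp [ap, aB, cB, dot3, Fin.sum_univ_five]
  all_goals simp [ap, aB, cB, dot3, Fin.sum_univ_five]
  ring

def NN (K : Type) [Field K] (a : Fin 12 → Fin 5 → ℤ) (T : Set (Fin 12)) (j : Fin 12) : Prop :=
  ∃ v : Fin 5 → K, (∀ i ∈ T, ap (a i) v = 0) ∧ ap (a j) v ≠ 0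

lemma transfer {a b : Fin 12 → Fin 5 → ℤ} {c d : Fin 10 → Fin 3 → ℤ} (ha : St K a c) (hb : St K b d)
    (h : ∀ (v : Fin 5 → K) j, dot3 (c j) v ≠ 0 → ∃ v' : Fin 3 → K,
      (∀ i, dot3 (c i) v = 0 → (d i 0 : K) * v' 0 + d i 1 * v' 1 + d i 2 * v' 2 = 0) ∧
      (d j 0 : K) * v' 0 + d j 1 * v' 1 + d j 2 * v' 2 ≠ 0)
    (T : Set (Fin 12)) (j : Fin 12) : NN K a T j → NN K b T j := by
  classical
  rintro ⟨v, hv, hj⟩
  have cs : ∀ i : Fin 12, (∃ k : Fin 9, i = k.castLE (by norm_num)) ∨ i = 9 ∨ i = 10 ∨ i = 11 := by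
    decide
  obtain ⟨a1, a2, a3, a4⟩ := ha v
  have key : ∀ (v' : Fin 3 → K) (w : K),
      (∀ i, dot3 (c i) v = 0 → (d i 0 : K) * v' 0 + d i 1 * v' 1 + d i 2 * v' 2 = 0) →
      (v 3 = 0 → w = 0) →
      (v 3 = dot3 (c 9) v → w = (d 9 0 : K) * v' 0 + d 9 1 * v' 1 + d 9 2 * v' 2) →
      ∀ i ∈ T, ap (b i) ![v' 0, v' 1, v' 2, w, 0] = 0 := by
    intro v' w k1 k2 k3 i hi
    obtain ⟨b1, b2, b3, b4⟩ := hb ![v' 0, v' 1, v' 2, w, 0]
    have := hv i hi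
    rcases cs i with ⟨k, rfl⟩ | rfl | rfl | rfl
    · rw [b1]; exact k1 _ (a1 k ▸ this)
    · rw [b2]; exact k2 (a2 ▸ this)
    · rw [b3]; rw [a3, sub_eq_zero] at this; exact sub_eq_zero.2 (k3 this)
    · rw [b4]; rfl
  have key2 : ∀ j, dot3 (c j) v ≠ 0 → ∃ (v' : Fin 3 → K) (w : K),
      (∀ i ∈ T, ap (b i) ![v' 0, v' 1, v' 2, w, 0] = 0) ∧
      dot3 (d j) ![v' 0, v' 1, v' 2, w, 0] ≠ 0 ∧
      w = if v 3 = 0 then 0 else dot3 (d 9) ![v' 0, v' 1, v' 2, w, 0] := by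
    intro j hj
    obtain ⟨v', k1, k2⟩ := h v j hj
    refine ⟨v', if v 3 = 0 then 0 else (d 9 0 : K) * v' 0 + d 9 1 * v' 1 + d 9 2 * v' 2,
      key v' _ k1 (fun e => if_pos e) (fun e => ?_), k2, rfl⟩
    split_ifs with h0
    · exact (k1 9 (e ▸ h0)).symm
    · rfl
  have key3 : v 3 ≠ 0 → v 3 ≠ dot3 (c 9) v → ∀ i ∈ T, ap (b i) ![(0 : K), 0, 0, 1, 0] = 0 :=
    fun n1 n2 => key 0 1 (fun i _ => by simp) (fun e => absurd e n1) (fun e => absurd e n2)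
  rcases cs j with ⟨k, rfl⟩ | rfl | rfl | rfl
  · obtain ⟨v', w, k1, k2, -⟩ := key2 _ (a1 k ▸ hj)
    exact ⟨_, k1, by rw [(hb _).1]; exact k2⟩
  · rw [a2] at hj
    by_cases e : v 3 = dot3 (c 9) v
    · obtain ⟨v', w, k1, k2, k3⟩ := key2 9 (e ▸ hj)
      refine ⟨_, k1, ?_⟩
      rw [(hb _).2.1]
      rw [if_neg hj] at k3
      exact fun e' => k2 (k3 ▸ e')
    · exact ⟨_, key3 hj e, by rw [(hb _).2.1]; simp⟩
  · rw [a3, sub_ne_zero] at hj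
    by_cases e : v 3 = 0
    · obtain ⟨v', w, k1, k2, k3⟩ := key2 9 (fun e' => hj (e.trans e'.symm))
      refine ⟨_, k1, ?_⟩
      rw [(hb _).2.2.1]
      rw [if_pos e] at k3
      subst k3
      simpa using k2
    · exact ⟨_, key3 e hj, by rw [(hb _).2.2.1]; simp [dot3]⟩
  · refine ⟨![0, 0, 0, 0, 1], fun i hi => ?_, by rw [(hb _).2.2.2]; simp⟩
    obtain ⟨b1, b2, b3, b4⟩ := hb ![0, 0, 0, 0, 1]
    rcases cs i with ⟨k, rfl⟩ | rfl | rfl | rfl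
    · rw [b1]; simp [dot3]
    · rw [b2]; rfl
    · rw [b3]; simp [dot3]
    · exact absurd (hv _ hi) hj

variable [CharZero K]

lemma three {c d : Fin 10 → Fin 3 → ℤ} (c0 : ∀ i, c i 0 ≠ 0 ∨ c i 1 ≠ 0 ∨ c i 2 ≠ 0)
    (d0 : ∀ i, d i 0 ≠ 0 ∨ d i 1 ≠ 0 ∨ d i 2 ≠ 0) (c1 : ∀ i j, i ≠ j → Indep (c i) (c j))
    (d1 : ∀ i j, i ≠ j → Indep (d i) (d j))
    (h : ∀ i j k, det3 (c i) (c j) (c k) = 0 ↔ det3 (d i) (d j) (d k) = 0)
    (v : Fin 5 → K) (j : Fin 10) (hj : dot3 (c j) v ≠ 0) : ∃ v' : Fin 3 → K,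
      (∀ i, dot3 (c i) v = 0 → (d i 0 : K) * v' 0 + d i 1 * v' 1 + d i 2 * v' 2 = 0) ∧
      (d j 0 : K) * v' 0 + d j 1 * v' 1 + d j 2 * v' 2 ≠ 0 := by
  have cd : ∀ x y z : Fin 3 → ℤ, det3 (fun m => (x m : K)) (fun m => (y m : K)) (fun m => (z m : K)) = 0
      ↔ det3 x y z = 0 := fun x y z => by
    rw [← Int.cast_eq_zero (α := K)]; simp [det3]
  have ci : ∀ x y : Fin 3 → ℤ, Indep x y → Indep (fun m => (x m : K)) (fun m => (y m : K)) :=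
    fun x y hh => by simp only [Indep] at hh ⊢; exact_mod_cast hh
  have e1 := clos (fun i m => (c i m : K)) (fun i => by exact_mod_cast c0 i)
    (fun i j hij => ci _ _ (c1 i j hij)) {i | dot3 (c i) v = 0} j
  have e2 := clos (fun i m => (d i m : K)) (fun i => by exact_mod_cast d0 i)
    (fun i j hij => ci _ _ (d1 i j hij)) {i | dot3 (c i) v = 0} j
  simp only [ne_eq, cd, h] at e1 e2
  by_contra hc
  push Not at hc
  apply hj
  have := e1.2 (e2.1 fun v' hv' => by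
    simp only [Submodule.mem_iInf, mem_hyp] at hv' ⊢
    exact hc v' hv') (x := ![v 0, v 1, v 2]) (by
      simp only [Submodule.mem_iInf, mem_hyp]
      exact fun i hi => hi)
  exact (mem_hyp _ _).1 this

instance (x y : Fin 3 → ℤ) : Decidable (Indep x y) := by unfold Indep; infer_instance

lemma patAB : ∀ i j k, det3 (cA i) (cA j) (cA k) = 0 ↔ det3 (cB i) (cB j) (cB k) = 0 := by
  decide +kernel

lemma NN_iff (T : Set (Fin 12)) (j : Fin 12) : NN K aA T j ↔ NN K aB T j :=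
  ⟨transfer stA stB (three (by decide) (by decide) (by decide) (by decide) patAB) T j,
   transfer stB stA (three (by decide) (by decide) (by decide) (by decide)
    fun i j k => (patAB i j k).symm) T j⟩

def hy (K : Type) [Field K] (a : Fin 5 → ℤ) : Submodule K (Fin 5 → K) :=
  LinearMap.ker (dotProductBilin K K fun j => (a j : K))

omit [CharZero K] in
lemma mem_hy (a : Fin 5 → ℤ) (v : Fin 5 → K) : v ∈ hy K a ↔ ap a v = 0 := by
  simp [hy, ap, dotProduct]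

def Lat (K : Type) [Field K] (a : Fin 12 → Fin 5 → ℤ) : Set (Submodule K (Fin 5 → K)) :=
  {Y | ∃ T : Set (Fin 12), Y = ⨅ i ∈ T, hy K (a i)}

omit [CharZero K] in
lemma le_iff (a : Fin 12 → Fin 5 → ℤ) (T : Set (Fin 12)) (j : Fin 12) :
    (⨅ i ∈ T, hy K (a i)) ≤ hy K (a j) ↔ ¬ NN K a T j := by
  simp only [SetLike.le_def, Submodule.mem_iInf, mem_hy, NN, not_exists, not_and, not_not]

omit [CharZero K] in
lemma lat_eq (a : Fin 12 → Fin 5 → ℤ) (Y : Submodule K (Fin 5 → K))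
    (hY : Y ∈ Lat K a) : (⨅ i ∈ {i | Y ≤ hy K (a i)}, hy K (a i)) = Y := by
  apply le_antisymm
  · obtain ⟨T, rfl⟩ := hY
    refine le_iInf₂ fun i hi => ?_
    have hi' : i ∈ {i | (⨅ i ∈ T, hy K (a i)) ≤ hy K (a i)} := biInf_le (fun i => hy K (a i)) hi
    exact biInf_le (fun i => hy K (a i)) hi'
  · exact le_iInf₂ fun i hi => hi

lemma lat_iso : Nonempty (Lat K aA ≃o Lat K aB) := by
  have h : ∀ (T : Set (Fin 12)) j, (⨅ i ∈ T, hy K (aA i)) ≤ hy K (aA j) ↔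
      (⨅ i ∈ T, hy K (aB i)) ≤ hy K (aB j) := fun T j => by rw [le_iff, le_iff, NN_iff]
  refine ⟨Equiv.toOrderIso
    ⟨fun Y => ⟨⨅ i ∈ {i | Y.1 ≤ hy K (aA i)}, hy K (aB i), ⟨_, rfl⟩⟩,
     fun Y => ⟨⨅ i ∈ {i | Y.1 ≤ hy K (aB i)}, hy K (aA i), ⟨_, rfl⟩⟩, ?_, ?_⟩ ?_ ?_⟩
  · intro Y
    apply Subtype.ext
    simp only [← h, lat_eq aA Y.1 Y.2]
  · intro Y
    apply Subtype.ext
    simp only [h, lat_eq aB Y.1 Y.2]
  · intro Y Z hYZ
    have h1 : Y.1 ≤ Z.1 := hYZ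
    exact biInf_mono (f := fun i => hy K (aB i)) (p := fun i => i ∈ {i | Z.1 ≤ hy K (aA i)})
      (q := fun i => i ∈ {i | Y.1 ≤ hy K (aA i)}) fun i hi => h1.trans hi
  · intro Y Z hYZ
    have h1 : Y.1 ≤ Z.1 := hYZ
    exact biInf_mono (f := fun i => hy K (aA i)) (p := fun i => i ∈ {i | Z.1 ≤ hy K (aB i)})
      (q := fun i => i ∈ {i | Y.1 ≤ hy K (aB i)}) fun i hi => h1.trans hi

lemma arr_ok (a : Fin 12 → Fin 5 → ℤ) (h0 : ∀ i, a i ≠ 0)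
    (h1 : ∀ i j, i ≠ j → ∃ p q, a i p * a j q ≠ a i q * a j p) :
    (∀ i, (fun m => (a i m : K)) ≠ 0) ∧
      ∀ i j, i ≠ j → ∀ c : K, (fun m => (a i m : K)) ≠ c • fun m => (a j m : K) := by
  refine ⟨fun i hi => h0 i (funext fun m => by simpa using congrFun hi m), fun i j hij c hc => ?_⟩
  obtain ⟨p, q, h⟩ := h1 i j hij
  apply h
  have e1 := congrFun hc p
  have e2 := congrFun hc q
  simp only [Pi.smul_apply, smul_eq_mul] at e1 e2
  have : (a i p : K) * a j q = a i q * a j p := by rw [e1, e2]; ring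
  exact_mod_cast this

lemma arrA : (∀ i, (fun m => (aA i m : K)) ≠ 0) ∧
    ∀ i j, i ≠ j → ∀ c : K, (fun m => (aA i m : K)) ≠ c • fun m => (aA j m : K) :=
  arr_ok aA (by decide) (by decide +kernel)

lemma arrB : (∀ i, (fun m => (aB i m : K)) ≠ 0) ∧
    ∀ i j, i ≠ j → ∀ c : K, (fun m => (aB i m : K)) ≠ c • fun m => (aB j m : K) :=
  arr_ok aB (by decide) (by decide +kernel)

end Pool.Agent.H30.Pog5
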