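import Pool.Agent.H30.Pog5D
import Pool.Agent.H30.LocCoh

/-! Local cohomology of the logarithmic derivations of the two arrangements. -/

namespace Pool.Agent.H30.Pog5
open MvPolynomial CategoryTheory Limits Pool.Agent.H30.Pd

lemma retract {R F : Type} [CommRing R] [IsDomain R] [AddCommGroup F] [Module R F]
    (D D0 : Submodule R F) (l : F →ₗ[R] R) (Q : R) (hQ : Q ≠ 0) (hD : ∀ x ∈ D, Q ∣ l x)
    (e : F) (he : e ∈ D) (hl : l e = Q) (h0 : ∀ x, x ∈ D0 ↔ x ∈ D ∧ l x = 0) :
    ∃ (i : ModuleCat.of R D0 ⟶ ModuleCat.of R D) (p : ModuleCat.of R D ⟶ ModuleCat.of R D0)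
      (E : ModuleCat.of R R ⟶ ModuleCat.of R D) (q : ModuleCat.of R D ⟶ ModuleCat.of R R),
      i ≫ p = 𝟙 _ ∧ p ≫ i + q ≫ E = 𝟙 _ := by
  choose q hq using hD
  let q' : D →ₗ[R] R :=
    { toFun := fun x => q x x.2
      map_add' := fun x y => mul_left_cancel₀ hQ (by rw [mul_add, ← hq, ← hq, ← hq]; simp)
      map_smul' := fun c x => mul_left_cancel₀ hQ (by
        rw [← hq, smul_eq_mul, mul_left_comm, ← hq]; simp) }
  have hq' : ∀ x : D, l x = Q * q' x := fun x => hq x x.2
  let p : D →ₗ[R] D0 := LinearMap.codRestrict D0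
    (D.subtype - (LinearMap.toSpanSingleton R F e).comp q') fun x => (h0 _).2
      ⟨D.sub_mem x.2 (D.smul_mem _ he), by simp [hq', hl, mul_comm]⟩
  refine ⟨ModuleCat.ofHom (Submodule.inclusion fun x hx => ((h0 x).1 hx).1), ModuleCat.ofHom p,
    ModuleCat.ofHom (LinearMap.toSpanSingleton R D ⟨e, he⟩), ModuleCat.ofHom q', ?_, ?_⟩
  · ext x
    have : q' ⟨x, ((h0 x).1 x.2).1⟩ = 0 :=
      (mul_eq_zero.1 ((hq' _).symm.trans ((h0 x).1 x.2).2)).resolve_left hQ
    change (x : F) - q' ⟨x, ((h0 x).1 x.2).1⟩ • e = x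
    rw [this, zero_smul, sub_zero]
  · ext x
    change (x : F) - q' x • e + q' x • e = x
    rw [sub_add_cancel]

variable {K : Type} [Field K]

lemma der_ap (θ : Derivation K (S K) (S K)) (a : Fin 5 → ℤ) :
    θ (ap a X) = ap a fun j => θ (X j) := by
  simp [ap]

lemma der_prod {ι : Type} (θ : Derivation K (S K) (S K)) (f g : ι → S K) (h : ∀ i, θ (f i) = f i * g i)
    (s : Finset ι) : θ (∏ i ∈ s, f i) = (∏ i ∈ s, f i) * ∑ i ∈ s, g i := by
  classical
  induction s using Finset.induction_on with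
  | empty => simp
  | insert a s ha ih =>
    rw [Finset.prod_insert ha, Finset.sum_insert ha, Derivation.leibniz, ih, h]
    simp only [smul_eq_mul]; ring

variable [CharZero K]

lemma retr (a : Fin 12 → Fin 5 → ℤ) (ha : ∀ i, (fun m => (a i m : K)) ≠ 0)
    (D D0 : Submodule (S K) (Derivation K (S K) (S K)))
    (hD : ∀ θ, θ ∈ D ↔ InD a fun j => θ (X j))
    (h0 : ∀ θ, θ ∈ D0 ↔ (InD a fun j => θ (X j)) ∧ θ (∏ i, ap (a i) X) = 0) :
    ∃ (i : ModuleCat.of (S K) D0 ⟶ ModuleCat.of (S K) D)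
      (p : ModuleCat.of (S K) D ⟶ ModuleCat.of (S K) D0)
      (E : ModuleCat.of (S K) (S K) ⟶ ModuleCat.of (S K) D)
      (q : ModuleCat.of (S K) D ⟶ ModuleCat.of (S K) (S K)),
      i ≫ p = 𝟙 _ ∧ p ≫ i + q ≫ E = 𝟙 _ := by
  let e : Derivation K (S K) (S K) := mkDerivation K fun j => C (1 / 12 : K) * X j
  have he : ∀ i, e (ap (a i) X) = ap (a i) X * C (1 / 12 : K) := fun i => by
    rw [der_ap]
    simp only [e, mkDerivation_X, ap, Finset.sum_mul]
    exact Finset.sum_congr rfl fun j _ => by ring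
  refine retract D D0
    { toFun := fun θ => θ (∏ i, ap (a i) X), map_add' := fun _ _ => rfl, map_smul' := fun _ _ => rfl }
    (∏ i, ap (a i) X) (Finset.prod_ne_zero_iff.2 fun i _ => ?_) (fun θ hθ => ?_) e
    ((hD _).2 fun i => ?_) ?_ fun θ => by rw [h0, hD]; rfl
  · have := (prime_lin5 _ (ha i)).ne_zero
    simpa [ap] using this
  · choose g hg using (hD θ).1 hθ
    exact ⟨_, der_prod θ _ g (fun i => by rw [der_ap, hg]) _⟩
  · rw [← der_ap, he]; exact dvd_mul_right _ _
  · change e _ = _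
    rw [der_prod e _ _ he, Finset.sum_const, Finset.card_univ, Fintype.card_fin, nsmul_eq_mul,
      ← map_natCast (C : K →+* S K), ← map_mul]
    norm_num

lemma pdA (D : Submodule (S K) (Derivation K (S K) (S K)))
    (hD : ∀ θ, θ ∈ D ↔ InD aA fun j => θ (X j)) :
    HasProjectiveDimensionLE (ModuleCat.of (S K) D) 1 := by
  have ev : ∀ (k : Fin 7 → S K) j, (Fintype.linearCombination (S K)
      (fun g => mkDerivation K (G g : Fin 5 → S K)) k) (X j) = ∑ g, k g * G g j := by
    intro k j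
    simp [Fintype.linearCombination_apply, Fin.sum_univ_succ]
  refine pd_one _ (Fintype.linearCombination (S K) fun g => mkDerivation K (G g : Fin 5 → S K))
    (Fintype.linearCombination (S K) (Rl : Fin 2 → Fin 7 → S K)) ?_ ?_ ?_
  · ext θ
    rw [hD]
    constructor
    · rintro ⟨k, rfl⟩ i
      simp only [ev]
      have : ap (aA i) (fun j => ∑ g, k g * G g j) = ∑ g, k g * ap (aA i) (G g : Fin 5 → S K) := by
        simp only [ap, Finset.mul_sum]
        rw [Finset.sum_comm]
        exact Finset.sum_congr rfl fun g _ => Finset.sum_congr rfl fun j _ => by ring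
      rw [this]
      exact Finset.dvd_sum fun g _ => (G_mem g i).mul_left _
    · intro h
      obtain ⟨k, hk⟩ := G_gen _ h
      exact ⟨k, derivation_ext fun j => (ev k j).trans (hk j).symm⟩
  · ext k
    rw [LinearMap.mem_ker]
    constructor
    · rintro ⟨h, rfl⟩
      refine derivation_ext fun j => (ev _ j).trans ((G_rel _).2 ⟨h, fun g => ?_⟩ j)
      simp [Fintype.linearCombination_apply]
    · intro h
      obtain ⟨h, hh⟩ := (G_rel k).1 fun j => by rw [← ev, h]; rfl
      exact ⟨h, funext fun g => by simp [Fintype.linearCombination_apply, hh]⟩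
  · rw [injective_iff_map_eq_zero]
    intro h hh
    have e1 := congrFun hh 3
    have e2 := congrFun hh 2
    simp [Fintype.linearCombination_apply, Rl, f2_ne, lam_ne] at e1 e2
    ext1 r
    fin_cases r <;> simp [e1, e2]

omit [CharZero K] in
lemma hJ (l : List (Fin 5)) : ∀ r ∈ l.map fun i => (X i : S K), r ∈ Ideal.span (Set.range X) := by
  intro r hr
  obtain ⟨j, -, rfl⟩ := List.mem_map.1 hr
  exact Ideal.subset_span ⟨j, rfl⟩

lemma zeroA (D0 : Submodule (S K) (Derivation K (S K) (S K)))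
    (h0 : ∀ θ, θ ∈ D0 ↔ (InD aA fun j => θ (X j)) ∧ θ (∏ i, ap (aA i) X) = 0) :
    IsZero ((localCohomology (Ideal.span (Set.range (X : Fin 5 → S K))) 3).obj
      (ModuleCat.of (S K) D0)) := by
  let D : Submodule (S K) (Derivation K (S K) (S K)) :=
    { carrier := {θ | ∀ i, ap (aA i) X ∣ θ (ap (aA i) X)}
      add_mem' := fun h1 h2 i => dvd_add (h1 i) (h2 i)
      zero_mem' := fun _ => dvd_zero _
      smul_mem' := fun c _ h i => (h i).mul_left c }
  have hD : ∀ θ, θ ∈ D ↔ InD aA fun j => θ (X j) := fun θ => by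
    change (∀ i, _) ↔ _
    simp only [der_ap, InD]
  obtain ⟨i, p, -, -, h, -⟩ := retr aA arrA.1 D D0 hD h0
  exact lcA _ ([0, 1, 2, 3, 4].map fun i : Fin 5 => (X i : S K)) (by simp) (wr_X _ (by decide))
    (hJ _) _ _ (pdA D hD) i p h

lemma nzB (D0 : Submodule (S K) (Derivation K (S K) (S K)))
    (h0 : ∀ θ, θ ∈ D0 ↔ (InD aB fun j => θ (X j)) ∧ θ (∏ i, ap (aB i) X) = 0) :
    ¬ IsZero ((localCohomology (Ideal.span (Set.range (X : Fin 5 → S K))) 3).obj
      (ModuleCat.of (S K) D0)) := by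
  let ev : Derivation K (S K) (S K) →ₗ[S K] (Fin 5 → S K) :=
    { toFun := fun θ j => θ (X j), map_add' := fun _ _ => rfl, map_smul' := fun _ _ => rfl }
  have hev : Function.Bijective ev :=
    ⟨fun a b h => derivation_ext fun j => congrFun h j,
      fun v => ⟨mkDerivation K v, funext fun j => mkDerivation_X K v j⟩⟩
  have : Module.Flat (S K) (Derivation K (S K) (S K)) :=
    Module.Flat.of_linearEquiv (LinearEquiv.ofBijective ev hev)
  let δ : (Fin 12 → S K) →ₗ[S K] (Fin 12 → S K) :=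
    { toFun := fun g i => ap (aB i) X * g i
      map_add' := fun _ _ => funext fun i => mul_add _ _ _
      map_smul' := fun _ _ => funext fun i => mul_left_comm _ _ _ }
  have hδ : Function.Injective δ := fun g h e => funext fun i => by
    have := (prime_lin5 _ ((arrB (K := K)).1 i)).ne_zero
    exact mul_left_cancel₀ (by simpa [ap] using this) (congrFun e i)
  have mδ : ∀ g, g ∈ LinearMap.range δ ↔ ∀ i, ap (aB i) X ∣ g i := fun g =>
    ⟨by rintro ⟨h, rfl⟩ i; exact dvd_mul_right _ _, fun h => by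
      choose k hk using h
      exact ⟨k, funext fun i => (hk i).symm⟩⟩
  let ρ0 : Derivation K (S K) (S K) →ₗ[S K] (Fin 12 → S K) :=
    { toFun := fun θ i => θ (ap (aB i) X)
      map_add' := fun _ _ => rfl, map_smul' := fun _ _ => rfl }
  let ρ := (LinearMap.range δ).mkQ.comp ρ0
  have hk : ∀ θ, θ ∈ LinearMap.ker ρ ↔ InD aB fun j => θ (X j) := fun θ => by
    rw [LinearMap.mem_ker, LinearMap.comp_apply, Submodule.mkQ_apply,
      Submodule.Quotient.mk_eq_zero, mδ]
    exact forall_congr' fun i => by rw [← der_ap]; rfl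
  let π := (LinearMap.range ρ).mkQ.comp (LinearMap.range δ).mkQ
  have mπ : ∀ g, π g = 0 ↔ ∃ v : Fin 5 → S K, ∀ i, ap (aB i) X ∣ ap (aB i) v - g i := fun g => by
    rw [LinearMap.comp_apply, Submodule.mkQ_apply, Submodule.Quotient.mk_eq_zero]
    constructor
    · rintro ⟨θ, h⟩
      rw [LinearMap.comp_apply, Submodule.mkQ_apply, Submodule.mkQ_apply, Submodule.Quotient.eq,
        mδ] at h
      exact ⟨fun j => θ (X j), fun i => by rw [← der_ap]; exact h i⟩
    · rintro ⟨v, h⟩
      refine ⟨mkDerivation K v, ?_⟩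
      rw [LinearMap.comp_apply, Submodule.mkQ_apply, Submodule.mkQ_apply, Submodule.Quotient.eq, mδ]
      intro i
      change _ ∣ mkDerivation K v _ - g i
      rw [der_ap]
      simpa using h i
  have kill : ∀ f ∈ Ideal.span ((X : Fin 5 → S K) '' {j | j ≠ 4}), f • π uB = 0 := by
    intro f hf
    induction hf using Submodule.span_induction with
    | mem x hx =>
      obtain ⟨j, hj, rfl⟩ := hx
      rw [← map_smul, mπ]
      exact ⟨vB j, liftB j hj⟩
    | zero => exact zero_smul _ _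
    | add x y _ _ h1 h2 => rw [add_smul, h1, h2, add_zero]
    | smul c x _ h => rw [smul_eq_mul, mul_smul, h, smul_zero]
  let f5 := Fintype.linearCombination (S K) (X : Fin 5 → S K)
  have hr : LinearMap.range f5 = Ideal.span (Set.range (X : Fin 5 → S K)) ^ 1 := by
    rw [pow_one]; exact Fintype.range_linearCombination _ _
  let φ0 : (Fin 5 → S K) →ₗ[S K] _ :=
    (LinearMap.toSpanSingleton (S K) _ (π uB)).comp (LinearMap.proj 4)
  have hφ0 : LinearMap.ker f5 ≤ LinearMap.ker φ0 := by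
    intro k hk
    refine kill (k 4) ?_
    have e : X 4 * k 4 ∈ Ideal.span ((X : Fin 5 → S K) '' {j | j ≠ 4}) := by
      have h1 : ∑ j, k j * X j = 0 := hk
      rw [Fin.sum_univ_five] at h1
      have h2 : X 4 * k 4 = -k 0 * X 0 + -k 1 * X 1 + -k 2 * X 2 + -k 3 * X 3 := by
        linear_combination h1
      rw [h2]
      refine add_mem (add_mem (add_mem ?_ ?_) ?_) ?_ <;>
        exact Ideal.mul_mem_left _ _ (Ideal.subset_span ⟨_, by decide, rfl⟩)
    rw [mem_ideal_span_X_image] at e ⊢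
    intro m hm
    obtain ⟨j, hj, h⟩ := e (Finsupp.single 4 1 + m) (by
      rw [mem_support_iff, coeff_X_mul]
      exact mem_support_iff.1 hm)
    exact ⟨j, hj, by simpa [Finsupp.single_eq_of_ne hj] using h⟩
  obtain ⟨i, p, E, q, -, h⟩ := retr aB arrB.1 (LinearMap.ker ρ) D0 hk h0
  refine lcB _ ([0, 1, 2, 3].map fun i : Fin 5 => (X i : S K)) (by simp) (wr_X _ (by decide))
    (hJ _) _ _ δ hδ ρ _ i p E q h ((((LinearMap.ker f5).liftQ φ0 hφ0).comp
      f5.quotKerEquivRange.symm.toLinearMap).comp (LinearEquiv.ofEq _ _ hr.symm).toLinearMap) ?_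
  intro s hs c hc
  obtain ⟨s, rfl⟩ : ∃ r, s = r + 1 := ⟨s - 1, by omega⟩
  obtain ⟨c, rfl⟩ : ∃ g, π g = c :=
    ((LinearMap.range ρ).mkQ_surjective.comp (LinearMap.range δ).mkQ_surjective) c
  have h1 := hc (X 4 ^ (s + 1)) (Ideal.pow_mem_pow (Ideal.subset_span (Set.mem_range_self 4)) _)
  have h2 : f5 (Pi.single 4 (X 4 ^ s)) = X 4 ^ (s + 1) := by
    simp [f5, pow_succ]
  have h3 : f5.quotKerEquivRange.symm ⟨X 4 ^ (s + 1), ⟨_, h2⟩⟩ =
      Submodule.Quotient.mk (Pi.single 4 (X 4 ^ s) : Fin 5 → S K) := by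
    rw [LinearEquiv.symm_apply_eq]
    exact Subtype.ext h2.symm
  have h4 : (X 4 ^ s : S K) • π uB = (X 4 ^ (s + 1) : S K) • π c := by
    rw [← h1]
    change _ = (LinearMap.ker f5).liftQ φ0 hφ0 (f5.quotKerEquivRange.symm ⟨X 4 ^ (s + 1), ⟨_, h2⟩⟩)
    rw [h3, Submodule.liftQ_apply]
    simp [φ0]
  rw [← sub_eq_zero, ← map_smul, ← map_smul, ← map_sub, mπ] at h4
  obtain ⟨v, hv⟩ := h4
  exact notB s v (-c) fun i => by simpa [sub_eq_add_neg] using hv i

end Pool.Agent.H30.Pog5
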