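import Mathlib

namespace Pool.Agent.H30.PosQ

open Polynomial

noncomputable def N (p : ℝ[X]) : ℝ := ∑ k ∈ Finset.range (p.natDegree + 1), |p.coeff k| * 2 ^ k

theorem N_eq (p : ℝ[X]) {n : ℕ} (h : p.natDegree < n) :
    N p = ∑ k ∈ Finset.range n, |p.coeff k| * 2 ^ k := by
  refine Finset.sum_subset (Finset.range_subset_range.2 h) fun k _ hk => ?_
  rw [coeff_eq_zero_of_natDegree_lt (by simpa [Nat.lt_succ_iff] using hk)]
  simp

theorem N_nonneg (p : ℝ[X]) : 0 ≤ N p := Finset.sum_nonneg fun _ _ => by positivity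

theorem N_add (p q : ℝ[X]) : N (p + q) ≤ N p + N q := by
  have := natDegree_add_le p q
  rw [N_eq p (n := max p.natDegree q.natDegree + 1) (by omega),
    N_eq q (n := max p.natDegree q.natDegree + 1) (by omega),
    N_eq (p + q) (n := max p.natDegree q.natDegree + 1) (by omega), ← Finset.sum_add_distrib]
  refine Finset.sum_le_sum fun k _ => ?_
  rw [coeff_add, ← add_mul]
  gcongr
  exact abs_add_le _ _

theorem N_C (c : ℝ) : N (C c) = |c| := by simp [N]

def Bd (p : ℝ[X]) : Prop := ∃ K, 0 < K ∧ ∀ q, N (p * q) ≤ K * N q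

theorem bd_C (c : ℝ) : Bd (C c) := by
  refine ⟨|c| + 1, by positivity, fun q => ?_⟩
  have := natDegree_C_mul_le c q
  rw [N_eq (C c * q) (n := q.natDegree + 1) (by omega), N, Finset.mul_sum]
  refine Finset.sum_le_sum fun k _ => ?_
  rw [coeff_C_mul, abs_mul]
  nlinarith [mul_nonneg (abs_nonneg (q.coeff k)) (by positivity : (0 : ℝ) ≤ 2 ^ k)]

theorem bd_X : Bd X := by
  refine ⟨2, by positivity, fun q => ?_⟩
  have : (X * q).natDegree ≤ q.natDegree + 1 := natDegree_mul_le.trans (by simp [add_comm])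
  rw [N_eq (X * q) (n := q.natDegree + 1 + 1) (by omega), N, Finset.mul_sum, Finset.sum_range_succ']
  simp only [coeff_X_mul, coeff_X_mul_zero, abs_zero, zero_mul, add_zero]
  exact le_of_eq (Finset.sum_congr rfl fun k _ => by ring)

theorem Bd.mul {p p' : ℝ[X]} (h : Bd p) (h' : Bd p') : Bd (p * p') := by
  obtain ⟨K, hK, h⟩ := h
  obtain ⟨K', hK', h'⟩ := h'
  refine ⟨K * K', by positivity, fun q => ?_⟩
  rw [mul_assoc, mul_assoc]
  exact (h _).trans (mul_le_mul_of_nonneg_left (h' q) hK.le)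

theorem bd (p : ℝ[X]) : Bd p := by
  induction p using Polynomial.induction_on with
  | C a => exact bd_C a
  | add p q hp hq =>
    obtain ⟨K, hK, h⟩ := hp
    obtain ⟨K', hK', h'⟩ := hq
    refine ⟨K + K', by positivity, fun r => ?_⟩
    rw [add_mul, add_mul]
    exact (N_add _ _).trans (add_le_add (h r) (h' r))
  | monomial n a h => rw [pow_succ, ← mul_assoc]; exact h.mul bd_X

structure Good (T : Set ℚ[X]) (α β : ℝ) : Prop where
  add : ∀ {f g}, f ∈ T → g ∈ T → f + g ∈ T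
  mul : ∀ {f g}, f ∈ T → g ∈ T → f * g ∈ T
  cst : ∀ a : ℚ, 0 ≤ a → C a ∈ T
  sq : ∀ h : ℚ[X], h ^ 2 ∈ T
  lo : ∀ a : ℚ, (a : ℝ) < α → X - C a ∈ T
  hi : ∀ b : ℚ, β < (b : ℝ) → C b - X ∈ T
  h1 : -2 < α
  h2 : α < β
  h3 : β < 2
  ends : ∀ c, c = α ∨ c = β → ∃ s ∈ T, 0 < s.natDegree ∧ (∀ t ∈ Set.Icc α β, 0 ≤ aeval t s) ∧
    ∀ f : ℚ[X], aeval c f = 0 → s ∣ f

noncomputable abbrev ι : ℚ[X] →+* ℝ[X] := mapRingHom (algebraMap ℚ ℝ)

def A (T : Set ℚ[X]) (f : ℝ[X]) : Prop := ∀ δ > 0, ∃ h ∈ T, N (f - ι h) ≤ δ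

variable {T : Set ℚ[X]} {α β : ℝ}

theorem Good.pw (G : Good T α β) (k : ℕ) : C (2 ^ k) + X ^ k ∈ T ∧ C (2 ^ k) - X ^ k ∈ T := by
  have p : C 2 + X ∈ T := by
    have := G.lo (-2) (by simpa using G.h1)
    simpa [add_comm] using this
  have m : C 2 - X ∈ T := G.hi 2 (by simpa using G.h3)
  have hf := G.cst (1 / 2) (by norm_num)
  have e : (C (1 / 2) : ℚ[X]) * 2 = 1 := by
    rw [show (2 : ℚ[X]) = C 2 from rfl, ← C_mul]; norm_num
  induction k with
  | zero => exact ⟨by convert G.cst (1 + 1) (by norm_num) using 1; simp,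
      by simpa using G.cst 0 le_rfl⟩
  | succ k ih =>
    constructor
    · convert G.mul hf (G.add (G.mul ih.1 p) (G.mul ih.2 m)) using 1
      rw [pow_succ, C_mul]
      linear_combination -(C (2 ^ k) * C 2 + X ^ k * X) * e
    · convert G.mul hf (G.add (G.mul ih.1 m) (G.mul ih.2 p)) using 1
      rw [pow_succ, C_mul]
      linear_combination -(C (2 ^ k) * C 2 - X ^ k * X) * e

theorem Good.small (G : Good T α β) (e : ℚ[X]) (ε : ℚ) (h : N (ι e) ≤ ε) : C ε + e ∈ T := by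
  have key : ∀ n, C (∑ k ∈ Finset.range n, |e.coeff k| * 2 ^ k)
      + ∑ k ∈ Finset.range n, C (e.coeff k) * X ^ k ∈ T := by
    intro n
    induction n with
    | zero => simpa using G.cst 0 le_rfl
    | succ n ih =>
      rw [Finset.sum_range_succ, Finset.sum_range_succ, C_add, add_add_add_comm]
      refine G.add ih ?_
      rcases le_total 0 (e.coeff n) with h0 | h0
      · convert G.mul (G.cst _ h0) (G.pw n).1 using 1
        rw [abs_of_nonneg h0, C_mul]; ring
      · convert G.mul (G.cst _ (neg_nonneg.2 h0)) (G.pw n).2 using 1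
        rw [abs_of_nonpos h0, C_mul, C_neg]; ring
  have h2 : ∑ k ∈ Finset.range (e.natDegree + 1), |e.coeff k| * 2 ^ k ≤ ε := by
    rw [N_eq (ι e) (n := e.natDegree + 1) (Nat.lt_succ_of_le natDegree_map_le)] at h
    simp only [coe_mapRingHom, coeff_map, eq_ratCast] at h
    exact_mod_cast h
  convert G.add (G.cst _ (sub_nonneg.2 h2)) (key (e.natDegree + 1)) using 1
  rw [← as_sum_range_C_mul_X_pow, C_sub]; ring

theorem A.of_mem {h : ℚ[X]} (hh : h ∈ T) : A T (ι h) :=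
  fun δ hδ => ⟨h, hh, by simpa [N] using hδ.le⟩

theorem Good.Aadd (G : Good T α β) {f g : ℝ[X]} (hf : A T f) (hg : A T g) : A T (f + g) := by
  intro δ hδ
  obtain ⟨h, hh, h1⟩ := hf (δ / 2) (by positivity)
  obtain ⟨k, hk, h2⟩ := hg (δ / 2) (by positivity)
  refine ⟨h + k, G.add hh hk, ?_⟩
  rw [map_add, add_sub_add_comm]
  linarith [N_add (f - ι h) (g - ι k)]

theorem Good.Amul (G : Good T α β) {f g : ℝ[X]} (hf : A T f) (hg : A T g) : A T (f * g) := by
  intro δ hδ
  obtain ⟨K, hK, b1⟩ := bd f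
  obtain ⟨k, hk, h2⟩ := hg (δ / 2 / K) (by positivity)
  obtain ⟨K', hK', b2⟩ := bd (ι k)
  obtain ⟨h, hh, h1⟩ := hf (δ / 2 / K') (by positivity)
  refine ⟨h * k, G.mul hh hk, ?_⟩
  rw [map_mul, show f * g - ι h * ι k = f * (g - ι k) + ι k * (f - ι h) by ring]
  have e1 := (b1 (g - ι k)).trans (mul_le_mul_of_nonneg_left h2 hK.le)
  have e2 := (b2 (f - ι h)).trans (mul_le_mul_of_nonneg_left h1 hK'.le)
  rw [mul_div_cancel₀ _ hK.ne'] at e1
  rw [mul_div_cancel₀ _ hK'.ne'] at e2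
  linarith [N_add (f * (g - ι k)) (ι k * (f - ι h))]

theorem Good.AC (G : Good T α β) {c : ℝ} (hc : 0 ≤ c) : A T (C c) := by
  intro δ hδ
  obtain ⟨q, h1, h2⟩ := exists_rat_btwn (show c < c + δ by linarith)
  refine ⟨C q, G.cst q (by exact_mod_cast hc.trans h1.le), ?_⟩
  simp only [coe_mapRingHom, map_C, eq_ratCast]
  rw [← C_sub, N_C, abs_le]
  constructor <;> linarith

theorem Good.Alo (G : Good T α β) {r : ℝ} (hr : r < α) : A T (X - C r) := by
  obtain ⟨q, h1, h2⟩ := exists_rat_btwn hr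
  convert G.Aadd (A.of_mem (G.lo q h2)) (G.AC (sub_nonneg.2 h1.le)) using 1
  simp

theorem Good.Ahi (G : Good T α β) {r : ℝ} (hr : β < r) : A T (C r - X) := by
  obtain ⟨q, h1, h2⟩ := exists_rat_btwn hr
  convert G.Aadd (A.of_mem (G.hi q h1)) (G.AC (sub_nonneg.2 h2.le)) using 1
  simp

theorem Good.Aquad (G : Good T α β) (u v : ℝ) (hv : 0 < v) : A T ((X - C u) ^ 2 + C v) := by
  have hw : 0 < min 1 (v / (2 * |u| + 5)) := by positivity
  obtain ⟨q, h1, h2⟩ := exists_rat_btwn (show u < u + min 1 (v / (2 * |u| + 5)) by linarith)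
  have e1 : (q : ℝ) - u ≤ 1 := by linarith [min_le_left 1 (v / (2 * |u| + 5))]
  have e2 : ((q : ℝ) - u) * (2 * |u| + 5) ≤ v := by
    rw [← le_div_iff₀ (by positivity)]
    linarith [min_le_right 1 (v / (2 * |u| + 5))]
  have h3 : 0 ≤ u ^ 2 - q ^ 2 + v - 4 * (q - u) := by nlinarith [le_abs_self u]
  convert G.Aadd (G.Aadd (A.of_mem (G.sq (X - C q)))
    (G.Amul (G.AC (show 0 ≤ 2 * (q - u) by linarith)) (G.Alo G.h1))) (G.AC h3) using 1
  simp only [coe_mapRingHom, Polynomial.map_pow, Polynomial.map_sub, map_X, map_C, eq_ratCast,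
    C_sub, C_add, C_mul, C_pow, C_neg, map_ofNat]
  ring

theorem Good.Apos (G : Good T α β) (f : ℝ[X]) (hf : ∀ t ∈ Set.Icc α β, 0 < f.eval t) : A T f := by
  induction hn : f.natDegree using Nat.strong_induction_on generalizing f with
  | _ n ih =>
  have hα := hf α ⟨le_rfl, G.h2.le⟩
  have f0 : f ≠ 0 := by rintro rfl; simp at hα
  have step : ∀ p g : ℝ[X], f = p * g → 0 < p.natDegree → A T p →
      (∀ t ∈ Set.Icc α β, 0 < p.eval t) → A T f := by
    intro p g e hp hA hpos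
    have := mul_ne_zero_iff.1 (e ▸ f0)
    rw [e]
    refine G.Amul hA (ih g.natDegree ?_ g (fun t ht => ?_) rfl)
    · rw [← hn, e, natDegree_mul this.1 this.2]; omega
    · have h1 := hf t ht
      rw [e, eval_mul] at h1
      exact (pos_iff_pos_of_mul_pos h1).1 (hpos t ht)
  rcases Nat.eq_zero_or_pos f.natDegree with h0 | h0
  · rw [eq_C_of_natDegree_eq_zero h0] at hα ⊢
    exact G.AC (by simpa using hα.le)
  obtain ⟨z, hz⟩ : ∃ z : ℂ, aeval z f = 0 :=
    IsAlgClosed.exists_aeval_eq_zero ℂ f (natDegree_pos_iff_degree_pos.1 h0).ne'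
  by_cases him : z.im = 0
  · have hr : f.IsRoot z.re := by
      have : z = algebraMap ℝ ℂ z.re := Complex.ext rfl (by simpa using him)
      rw [this, aeval_algebraMap_apply] at hz
      simpa using hz
    obtain ⟨g, hg⟩ := dvd_iff_isRoot.2 hr
    rcases lt_or_ge z.re α with h | h
    · exact step _ g hg (by simp) (G.Alo h) fun t ht => by simp; linarith [ht.1]
    rcases lt_or_ge β z.re with h' | h'
    · refine step (C z.re - X) (-g) (by rw [hg]; ring) ?_ (G.Ahi h') fun t ht => by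
        simp; linarith [ht.2]
      rw [← natDegree_neg]; simp
    · exact absurd hr.eq_zero (hf _ ⟨h, h'⟩).ne'
  · obtain ⟨g, hg⟩ := quadratic_dvd_of_aeval_eq_zero_im_ne_zero f hz him
    have e : X ^ 2 - C (2 * z.re) * X + C (‖z‖ ^ 2) = (X - C z.re) ^ 2 + C (z.im ^ 2) := by
      rw [Complex.sq_norm, Complex.normSq_apply]
      simp only [C_add, C_mul, C_pow, map_ofNat]
      ring
    rw [e] at hg
    refine step _ g hg ?_ (G.Aquad _ _ (by positivity)) fun t _ => by simp; positivity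
    rw [natDegree_add_C, natDegree_pow]; simp

theorem Good.pos (G : Good T α β) (g : ℚ[X]) (hg : ∀ t ∈ Set.Icc α β, 0 < aeval t g) : g ∈ T := by
  obtain ⟨t0, ht0, hm⟩ := (isCompact_Icc (a := α) (b := β)).exists_isMinOn
    ⟨α, le_rfl, G.h2.le⟩ (Polynomial.continuous_aeval (A := ℝ) g).continuousOn
  obtain ⟨ε, h1, h2⟩ := exists_rat_btwn (hg t0 ht0)
  obtain ⟨h, hh, h3⟩ := G.Apos (ι (g - C ε)) (fun t ht => by
    have := hm ht
    rw [coe_mapRingHom, eval_map_algebraMap, map_sub, aeval_C, eq_ratCast]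
    exact sub_pos.2 (h2.trans_le this)) ε h1
  rw [← map_sub] at h3
  convert G.add hh (G.small _ ε h3) using 1
  ring

theorem dens {α β : ℝ} (hαβ : α < β) (p q : ℚ[X]) (hp : p ≠ 0)
    (h1 : ∀ t ∈ Set.Icc α β, 0 ≤ aeval t p) (h2 : ∀ t ∈ Set.Icc α β, 0 ≤ aeval t (p * q)) :
    ∀ t ∈ Set.Icc α β, 0 ≤ aeval t q := by
  intro t ht
  by_contra hneg
  have ho : IsOpen {x : ℝ | aeval x q < 0} :=
    isOpen_lt (Polynomial.continuous_aeval (A := ℝ) q) continuous_const
  rw [← closure_Ioo hαβ.ne] at ht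
  obtain ⟨x, hx⟩ := mem_closure_iff.1 ht _ ho (not_le.1 hneg)
  have hinf := infinite_of_mem_nhds x ((ho.inter isOpen_Ioo).mem_nhds hx)
  apply hp
  apply Polynomial.map_injective (algebraMap ℚ ℝ) (algebraMap ℚ ℝ).injective
  rw [Polynomial.map_zero]
  refine eq_zero_of_infinite_isRoot _ (hinf.mono fun y hy => ?_)
  have a := h1 y (Set.Ioo_subset_Icc_self hy.2)
  have b := h2 y (Set.Ioo_subset_Icc_self hy.2)
  have c : aeval y q < 0 := hy.1
  rw [map_mul] at b
  simp only [Set.mem_ofPred_eq, IsRoot.def, eval_map_algebraMap]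
  nlinarith

theorem Good.nonneg (G : Good T α β) (f : ℚ[X]) (hf : ∀ t ∈ Set.Icc α β, 0 ≤ aeval t f) :
    f ∈ T := by
  induction hn : f.natDegree using Nat.strong_induction_on generalizing f with
  | _ n ih =>
  rcases eq_or_ne f 0 with rfl | f0
  · simpa using G.cst 0 le_rfl
  have step : ∀ p g : ℚ[X], f = p * g → 0 < p.natDegree → p ∈ T →
      (∀ t ∈ Set.Icc α β, 0 ≤ aeval t p) → f ∈ T := by
    intro p g e hp hA hpos
    have := mul_ne_zero_iff.1 (e ▸ f0)
    rw [e]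
    refine G.mul hA (ih g.natDegree ?_ g (dens G.h2 p g this.1 hpos (e ▸ hf)) rfl)
    rw [← hn, e, natDegree_mul this.1 this.2]; omega
  by_cases hz : ∃ c ∈ Set.Icc α β, aeval c f = 0
  swap
  · exact G.pos f fun t ht => (hf t ht).lt_of_ne fun h => hz ⟨t, ht, h.symm⟩
  obtain ⟨c, hc, hc0⟩ := hz
  by_cases he : c = α ∨ c = β
  · obtain ⟨s, hs, hd, hpos, hdvd⟩ := G.ends c he
    obtain ⟨g, hg⟩ := hdvd f hc0
    exact step s g hg hd hs hpos
  push Not at he
  have hint : IsIntegral ℚ c := (show IsAlgebraic ℚ c from ⟨f, f0, hc0⟩).isIntegral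
  have hmin : IsLocalMin (fun x : ℝ => aeval x f) c := by
    filter_upwards [Icc_mem_nhds (hc.1.lt_of_ne he.1.symm) (hc.2.lt_of_ne he.2)] with x hx
    simpa [hc0] using hf x hx
  have hder := hmin.hasDerivAt_eq_zero (Polynomial.hasDerivAt_aeval f c)
  obtain ⟨g, hg⟩ := minpoly.dvd ℚ c hc0
  have hsep := (minpoly.irreducible hint).separable.aeval_derivative_ne_zero (minpoly.aeval ℚ c)
  rw [hg, derivative_mul, map_add, map_mul, map_mul, minpoly.aeval, zero_mul, add_zero] at hder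
  obtain ⟨g', hg'⟩ := minpoly.dvd ℚ c ((mul_eq_zero.1 hder).resolve_left hsep)
  refine step (minpoly ℚ c ^ 2) g' (by rw [hg, hg']; ring) ?_ (G.sq _) fun t _ => by
    rw [map_pow]; positivity
  rw [natDegree_pow]
  have := minpoly.natDegree_pos hint
  omega

theorem irr (n : ℕ) (hn : 0 < n) (p : ℕ) (hp : p.Prime) : Irreducible (X ^ n - C (p : ℚ)) := by
  have hm : (X ^ n - C (p : ℤ)).Monic := monic_X_pow_sub_C _ hn.ne'
  have hP : (Ideal.span {(p : ℤ)}).IsPrime :=
    (Ideal.span_singleton_prime (by exact_mod_cast hp.ne_zero)).2 (Nat.prime_iff_prime_int.1 hp)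
  have h := irreducible_of_eisenstein_criterion (f := X ^ n - C (p : ℤ)) hP
    (by rw [hm.leadingCoeff]; exact (Ideal.ne_top_iff_one _).1 hP.ne_top)
    (fun k hk => by
      rw [degree_X_pow_sub_C hn] at hk
      have hk' : k ≠ n := by rintro rfl; exact lt_irrefl _ hk
      rw [coeff_sub, coeff_X_pow, if_neg hk', coeff_C, Ideal.mem_span_singleton]
      split_ifs <;> simp)
    (by rw [degree_X_pow_sub_C hn]; exact_mod_cast hn)
    (by
      rw [coeff_sub, coeff_X_pow, if_neg hn.ne, coeff_C_zero, Ideal.span_singleton_pow,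
        Ideal.mem_span_singleton, zero_sub, dvd_neg]
      intro h
      have := Int.le_of_dvd (by exact_mod_cast hp.pos) h
      have h2 : (2 : ℤ) ≤ p := by exact_mod_cast hp.two_le
      nlinarith)
    hm.isPrimitive
  simpa using (hm.irreducible_iff_irreducible_map_fraction_map (K := ℚ)).1 h

theorem dvd_of (n : ℕ) (hn : 0 < n) (p : ℕ) (hp : p.Prime) (c : ℝ) (hc : c ^ n = p) (f : ℚ[X])
    (hf : aeval c f = 0) : X ^ n - C (p : ℚ) ∣ f := by
  rw [minpoly.eq_of_irreducible_of_monic (x := c) (irr n hn p hp) (by simp [hc])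
    (monic_X_pow_sub_C _ hn.ne')]
  exact minpoly.dvd ℚ c hf

end Pool.Agent.H30.PosQ
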