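import Mathlib

set_option autoImplicit false

namespace Pool.Agent.H30.Prodisc

open Filter Topology

variable {G : Type} [AddCommGroup G] [UniformSpace G] [IsUniformAddGroup G]

/-- elements having a nonzero multiple in `V` -/
def sat (V : AddSubgroup G) : AddSubgroup G where
  carrier := {g | ∃ n : ℤ, n ≠ 0 ∧ n • g ∈ V}
  zero_mem' := ⟨1, one_ne_zero, by simp⟩
  add_mem' := by
    rintro a b ⟨m, hm, ha⟩ ⟨n, hn, hb⟩
    refine ⟨m * n, mul_ne_zero hm hn, ?_⟩
    rw [smul_add]
    refine V.add_mem ?_ ?_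
    · rw [mul_comm, mul_smul]; exact V.zsmul_mem ha n
    · rw [mul_smul]; exact V.zsmul_mem hb m
  neg_mem' := by
    rintro a ⟨m, hm, ha⟩
    exact ⟨m, hm, by rw [smul_neg]; exact V.neg_mem ha⟩

omit [UniformSpace G] [IsUniformAddGroup G] in
lemma le_sat (V : AddSubgroup G) : V ≤ sat V := fun g hg => ⟨1, one_ne_zero, by simpa using hg⟩

omit [UniformSpace G] [IsUniformAddGroup G] in
lemma sat_mono {V W : AddSubgroup G} (h : V ≤ W) : sat V ≤ sat W :=
  fun _ ⟨n, hn, hg⟩ => ⟨n, hn, h hg⟩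

lemma sat_open {V : AddSubgroup G} (h : IsOpen (V : Set G)) : IsOpen (sat V : Set G) :=
  AddSubgroup.isOpen_mono (le_sat V) h

lemma fin_quot {K : Set G} (hK : IsCompact K) (hg : AddSubgroup.closure K = ⊤)
    {U : AddSubgroup G} (hU : IsOpen (U : Set G)) : Module.Finite ℤ (G ⧸ U) := by
  have := QuotientAddGroup.discreteTopology hU
  have hfin : ((QuotientAddGroup.mk' U) '' K).Finite :=
    (hK.image QuotientAddGroup.continuous_mk).finite_of_discrete
  rw [Module.Finite.iff_addGroup_fg, AddGroup.fg_iff]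
  refine ⟨_, ?_, hfin⟩
  rw [← AddMonoidHom.map_closure, hg, ← AddMonoidHom.range_eq_map, QuotientAddGroup.range_mk']

lemma sat_cover {K : Set G} (hK : IsCompact K) (hg : AddSubgroup.closure K = ⊤)
    {U : AddSubgroup G} (hU : IsOpen (U : Set G)) :
    ∃ t : Set G, t.Finite ∧ ∀ x ∈ sat U, ∃ y ∈ t, x - y ∈ U := by
  have := fin_quot hK hg hU
  have hT : Finite (Submodule.torsion ℤ (G ⧸ U)) :=
    Module.finite_of_fg_torsion _ (Submodule.torsion_isTorsion)
  refine ⟨Set.range (fun z : Submodule.torsion ℤ (G ⧸ U) => (z : G ⧸ U).out), Set.finite_range _, ?_⟩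
  rintro x ⟨n, hn, hx⟩
  have hm : (QuotientAddGroup.mk x : G ⧸ U) ∈ Submodule.torsion ℤ (G ⧸ U) := by
    refine ⟨⟨n, mem_nonZeroDivisors_of_ne_zero hn⟩, ?_⟩
    change n • (QuotientAddGroup.mk x : G ⧸ U) = 0
    rw [← QuotientAddGroup.mk_zsmul, QuotientAddGroup.eq_zero_iff]
    exact hx
  refine ⟨_, ⟨⟨_, hm⟩, rfl⟩, ?_⟩
  rw [← QuotientAddGroup.eq_iff_sub_mem]
  simp

lemma exists_inter [CompleteSpace G]
    (hb : ∀ s ∈ nhds (0 : G), ∃ U : AddSubgroup G, IsOpen (U : Set G) ∧ (U : Set G) ⊆ s)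
    (C : AddSubgroup G → Set G)
    (hcl : ∀ V : AddSubgroup G, IsOpen (V : Set G) → IsClosed (C V))
    (hne : ∀ V : AddSubgroup G, IsOpen (V : Set G) → (C V).Nonempty)
    (hmono : ∀ V W : AddSubgroup G, V ≤ W → C V ⊆ C W)
    (hfin : ∀ V : AddSubgroup G, IsOpen (V : Set G) →
      ∃ t : Set G, t.Finite ∧ ∀ x ∈ C V, ∃ y ∈ t, x - y ∈ V) :
    ∃ g, ∀ V : AddSubgroup G, IsOpen (V : Set G) → g ∈ C V := by
  let I := {V : AddSubgroup G // IsOpen (V : Set G)}
  have : Nonempty I := ⟨⟨⊤, by simp⟩⟩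
  let f : Filter G := ⨅ V : I, 𝓟 (C V.1)
  have hd : Directed (· ≥ ·) (fun V : I => 𝓟 (C V.1)) := by
    intro V W
    refine ⟨⟨V.1 ⊓ W.1, by simpa using V.2.inter W.2⟩, ?_, ?_⟩
    · exact principal_mono.2 (hmono _ _ inf_le_left)
    · exact principal_mono.2 (hmono _ _ inf_le_right)
  have hnb : f.NeBot := iInf_neBot_of_directed hd (fun V => principal_neBot_iff.2 (hne _ V.2))
  have htb : f.TotallyBounded := by
    intro d hdm
    rw [uniformity_eq_comap_nhds_zero_swapped, mem_comap] at hdm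
    obtain ⟨s, hs, hsd⟩ := hdm
    obtain ⟨U, hU, hUs⟩ := hb s hs
    obtain ⟨t, ht, hx⟩ := hfin U hU
    refine ⟨t, ht, ?_⟩
    have : C U ∈ f := mem_iInf_of_mem ⟨U, hU⟩ (mem_principal_self _)
    refine mem_of_superset this (fun x hxC => ?_)
    obtain ⟨y, hy, hxy⟩ := hx x hxC
    exact ⟨y, hy, hsd (hUs hxy)⟩
  obtain ⟨x, hx⟩ := htb.exists_clusterPt
  refine ⟨x, fun V hV => ?_⟩
  have h1 : ClusterPt x (𝓟 (C V)) := hx.mono (iInf_le (fun V : I => 𝓟 (C V.1)) ⟨V, hV⟩)
  rw [← mem_closure_iff_clusterPt, (hcl V hV).closure_eq] at h1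
  exact h1

lemma sat_inter [CompleteSpace G]
    (hb : ∀ s ∈ nhds (0 : G), ∃ U : AddSubgroup G, IsOpen (U : Set G) ∧ (U : Set G) ⊆ s)
    {K : Set G} (hK : IsCompact K) (hg : AddSubgroup.closure K = ⊤)
    (hc : ∀ H : AddSubgroup G, IsCompact (H : Set G) → H = ⊥)
    (g : G) (h : ∀ V : AddSubgroup G, IsOpen (V : Set G) → g ∈ sat V) : g = 0 := by
  let T : AddSubgroup G := ⨅ V : {V : AddSubgroup G // IsOpen (V : Set G)}, sat V.1
  have hT : IsCompact (T : Set G) := by
    apply TotallyBounded.isCompact_of_isClosed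
    · rw [totallyBounded_iff_subset_finite_iUnion_nhds_zero]
      intro s hs
      obtain ⟨U, hU, hUs⟩ := hb s hs
      obtain ⟨t, ht, hx⟩ := sat_cover hK hg hU
      refine ⟨t, ht, fun x hxT => ?_⟩
      have : x ∈ sat U := (AddSubgroup.mem_iInf.1 hxT) ⟨U, hU⟩
      obtain ⟨y, hy, hxy⟩ := hx x this
      simp only [Set.mem_iUnion]
      exact ⟨y, hy, x - y, hUs hxy, by simp⟩
    · rw [AddSubgroup.coe_iInf]
      exact isClosed_iInter (fun V => AddSubgroup.isClosed_of_isOpen _ (sat_open V.2))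
  have : g ∈ T := AddSubgroup.mem_iInf.2 (fun V => h V.1 V.2)
  rw [hc T hT] at this
  simpa using this

/-- continuous additive maps to the integers -/
def A (G : Type) [AddCommGroup G] [UniformSpace G] : Submodule ℤ (G →ₗ[ℤ] ℤ) where
  carrier := {φ | Continuous φ}
  zero_mem' := continuous_const
  add_mem' := fun ha hb => Continuous.add ha hb
  smul_mem' := fun c _ hx => Continuous.const_smul hx c

lemma cont_of_vanish {V : AddSubgroup G} (hV : IsOpen (V : Set G)) (φ : G →ₗ[ℤ] ℤ)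
    (h : ∀ x ∈ V, φ x = 0) : Continuous φ := by
  apply continuous_of_continuousAt_zero φ.toAddMonoidHom
  have : (fun _ => (0 : ℤ)) =ᶠ[𝓝 (0 : G)] φ.toAddMonoidHom := by
    filter_upwards [hV.mem_nhds V.zero_mem] with x hx
    exact (h x hx).symm
  exact continuousAt_const.congr this

omit [UniformSpace G] [IsUniformAddGroup G] in
lemma tf_quot (V : AddSubgroup G) : Module.IsTorsionFree ℤ (G ⧸ sat V) := by
  apply Module.IsTorsionFree.of_smul_eq_zero
  intro n q hq
  by_cases hn : n = 0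
  · exact Or.inl hn
  right
  induction q using QuotientAddGroup.induction_on with
  | H x =>
    rw [← QuotientAddGroup.mk_zsmul, QuotientAddGroup.eq_zero_iff] at hq
    obtain ⟨m, hm, hx⟩ := hq
    rw [QuotientAddGroup.eq_zero_iff]
    exact ⟨m * n, mul_ne_zero hm hn, by rwa [mul_smul]⟩

/-- pull back of functionals from the torsion-free quotient -/
def pull (V : AddSubgroup G) (hV : IsOpen (V : Set G)) :
    Module.Dual ℤ (G ⧸ sat V) →ₗ[ℤ] A G where
  toFun l := ⟨l ∘ₗ (QuotientAddGroup.mk' (sat V)).toIntLinearMap,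
    cont_of_vanish hV _ (fun x hx => by
      have : (QuotientAddGroup.mk x : G ⧸ sat V) = 0 :=
        (QuotientAddGroup.eq_zero_iff x).2 (le_sat V hx)
      simp [this])⟩
  map_add' a b := by ext; simp
  map_smul' c a := by ext; simp

lemma pull_apply (V : AddSubgroup G) (hV : IsOpen (V : Set G)) (l : Module.Dual ℤ (G ⧸ sat V))
    (x : G) : (pull V hV l).1 x = l (QuotientAddGroup.mk x) := rfl

lemma pull_surj (V : AddSubgroup G) (hV : IsOpen (V : Set G)) (φ : A G)
    (h : ∀ x ∈ V, φ.1 x = 0) : ∃ l, pull V hV l = φ := by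
  have h' : ∀ x ∈ sat V, φ.1.toAddMonoidHom x = 0 := by
    rintro x ⟨n, hn, hx⟩
    have := h _ hx
    rw [map_smul, smul_eq_mul, mul_eq_zero] at this
    exact this.resolve_left hn
  refine ⟨(QuotientAddGroup.lift (sat V) φ.1.toAddMonoidHom h').toIntLinearMap, ?_⟩
  ext x
  rfl

lemma mem_sat_of {K : Set G} (hK : IsCompact K) (hg : AddSubgroup.closure K = ⊤)
    (V : AddSubgroup G) (hV : IsOpen (V : Set G)) (x : G)
    (h : ∀ φ : A G, (∀ y ∈ V, φ.1 y = 0) → φ.1 x = 0) : x ∈ sat V := by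
  have := fin_quot hK hg (sat_open hV)
  have := tf_quot V
  rw [← QuotientAddGroup.eq_zero_iff]
  rw [← Module.forall_dual_apply_eq_zero_iff ℤ]
  intro l
  rw [← pull_apply V hV]
  apply h
  intro y hy
  rw [pull_apply, (QuotientAddGroup.eq_zero_iff y).2 (le_sat V hy), map_zero]

lemma exists_eval [CompleteSpace G]
    (hb : ∀ s ∈ nhds (0 : G), ∃ U : AddSubgroup G, IsOpen (U : Set G) ∧ (U : Set G) ⊆ s)
    {K : Set G} (hK : IsCompact K) (hg : AddSubgroup.closure K = ⊤)
    (ψ : A G →ₗ[ℤ] ℤ) : ∃ g : G, ∀ φ : A G, φ.1 g = ψ φ := by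
  obtain ⟨g, hgC⟩ := exists_inter hb
    (fun V => {g | ∀ φ : A G, (∀ y ∈ V, φ.1 y = 0) → φ.1 g = ψ φ})
    (fun V _ => by
      simp only [Set.ofPred_forall]
      exact isClosed_iInter fun φ => isClosed_iInter fun _ => isClosed_eq φ.2 continuous_const)
    (fun V hV => by
      have := fin_quot hK hg (sat_open hV)
      have := tf_quot V
      obtain ⟨q, hq⟩ := (Module.bijective_dual_eval ℤ (G ⧸ sat V)).2 (ψ ∘ₗ pull V hV)
      induction q using QuotientAddGroup.induction_on with
      | H x =>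
        refine ⟨x, fun φ hφ => ?_⟩
        obtain ⟨l, rfl⟩ := pull_surj V hV φ hφ
        have := LinearMap.congr_fun hq l
        simpa [pull_apply] using this)
    (fun V W hVW g hgV φ hφ => hgV φ (fun y hy => hφ y (hVW hy)))
    (fun V hV => by
      obtain ⟨t, ht, hx⟩ := sat_cover hK hg hV
      by_cases hne : ∃ g0 : G, ∀ φ : A G, (∀ y ∈ V, φ.1 y = 0) → φ.1 g0 = ψ φ
      · obtain ⟨g0, h0⟩ := hne
        refine ⟨(fun y => y + g0) '' t, ht.image _, fun x hxC => ?_⟩
        obtain ⟨y, hy, hxy⟩ := hx (x - g0) (mem_sat_of hK hg V hV _ (fun φ hφ => by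
          rw [map_sub, hxC φ hφ, h0 φ hφ, sub_self]))
        refine ⟨y + g0, ⟨y, hy, rfl⟩, ?_⟩
        convert hxy using 1
        abel
      · exact ⟨∅, Set.finite_empty, fun x hxC => (hne ⟨x, hxC⟩).elim⟩)
  refine ⟨g, fun φ => hgC φ.1.toAddMonoidHom.ker ?_ φ (fun y hy => hy)⟩
  have : ((φ.1.toAddMonoidHom.ker : AddSubgroup G) : Set G) = φ.1 ⁻¹' {0} := rfl
  rw [this]
  exact (isOpen_discrete _).preimage φ.2

lemma small_sat [CompleteSpace G]
    (hb : ∀ s ∈ nhds (0 : G), ∃ U : AddSubgroup G, IsOpen (U : Set G) ∧ (U : Set G) ⊆ s)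
    {K : Set G} (hK : IsCompact K) (hg : AddSubgroup.closure K = ⊤)
    (hc : ∀ H : AddSubgroup G, IsCompact (H : Set G) → H = ⊥)
    {U : AddSubgroup G} (hU : IsOpen (U : Set G)) :
    ∃ V : AddSubgroup G, IsOpen (V : Set G) ∧ sat V ≤ U := by
  by_contra hcon
  push Not at hcon
  obtain ⟨g, hgC⟩ := exists_inter hb (fun V => (sat V : Set G) \ U)
    (fun V hV => (AddSubgroup.isClosed_of_isOpen _ (sat_open hV)).sdiff hU)
    (fun V hV => by
      obtain ⟨x, hx, hxU⟩ := SetLike.not_le_iff_exists.1 (hcon V hV)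
      exact ⟨x, hx, hxU⟩)
    (fun V W h x hx => ⟨sat_mono h hx.1, hx.2⟩)
    (fun V hV => by
      obtain ⟨t, ht, hx⟩ := sat_cover hK hg hV
      exact ⟨t, ht, fun x hxC => hx x hxC.1⟩)
  have h0 : g = 0 := sat_inter hb hK hg hc g (fun V hV => (hgC V hV).1)
  have := (hgC ⊤ (by simp)).2
  rw [h0] at this
  exact this U.zero_mem

/-- restriction to a subset, as a locally constant function -/
def res (K : Set G) : A G →ₗ[ℤ] LocallyConstant K ℤ where
  toFun φ := ⟨fun k => φ.1 k, (IsLocallyConstant.iff_continuous _).2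
    (φ.2.comp continuous_subtype_val)⟩
  map_add' a b := by ext; simp
  map_smul' c a := by ext; rfl

omit [IsUniformAddGroup G] in
lemma res_inj {K : Set G} (hg : AddSubgroup.closure K = ⊤) : Function.Injective (res K) := by
  rw [injective_iff_map_eq_zero]
  intro φ hφ
  ext x
  have hx : x ∈ AddSubgroup.closure K := by rw [hg]; trivial
  change φ.1 x = 0
  induction hx using AddSubgroup.closure_induction with
  | mem y hy => exact congrFun (congrArg LocallyConstant.toFun hφ) ⟨y, hy⟩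
  | zero => simp
  | add a b _ _ ha hb => simp [ha, hb]
  | neg a _ ha => simp [ha]

omit [IsUniformAddGroup G] in
lemma bound_eval {K : Set G} (hg : AddSubgroup.closure K = ⊤) (g : G) :
    ∃ n : ℕ, ∀ (φ : A G) (N : ℤ), 0 ≤ N → (∀ x ∈ K, |φ.1 x| ≤ N) → |φ.1 g| ≤ n * N := by
  have hx : g ∈ AddSubgroup.closure K := by rw [hg]; trivial
  induction hx using AddSubgroup.closure_induction with
  | mem y hy => exact ⟨1, fun φ N _ h => by simpa using h y hy⟩
  | zero => exact ⟨0, fun φ N _ h => by simp⟩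
  | add a b _ _ ha hb =>
    obtain ⟨m, hm⟩ := ha
    obtain ⟨n, hn⟩ := hb
    refine ⟨m + n, fun φ N h0 h => ?_⟩
    rw [map_add]
    have := abs_add_le (φ.1 a) (φ.1 b)
    have h1 := hm φ N h0 h
    have h2 := hn φ N h0 h
    push_cast
    linarith
  | neg a _ ha =>
    obtain ⟨m, hm⟩ := ha
    exact ⟨m, fun φ N h0 h => by rw [map_neg, abs_neg]; exact hm φ N h0 h⟩

omit [IsUniformAddGroup G] in
lemma bound_K {K : Set G} (hK : IsCompact K) (φ : A G) :
    ∃ N : ℤ, 0 ≤ N ∧ ∀ x ∈ K, |φ.1 x| ≤ N := by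
  have h : ((fun x => |φ.1 x|) '' K).Finite :=
    (hK.image (continuous_abs.comp φ.2)).finite_of_discrete
  obtain ⟨N, hN⟩ := h.bddAbove
  exact ⟨max N 0, le_max_right _ _, fun x hx => le_trans (hN ⟨x, hx, rfl⟩) (le_max_left _ _)⟩

lemma free_K [T2Space G]
    (hb : ∀ s ∈ nhds (0 : G), ∃ U : AddSubgroup G, IsOpen (U : Set G) ∧ (U : Set G) ⊆ s)
    {K : Set G} (hK : IsCompact K) : Module.Free ℤ (LocallyConstant K ℤ) := by
  have : NonarchimedeanAddGroup G :=
    ⟨fun s hs => by
      obtain ⟨U, hU, hUs⟩ := hb s hs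
      exact ⟨⟨U, hU⟩, hUs⟩⟩
  have : CompactSpace K := isCompact_iff_compactSpace.1 hK
  exact LocallyConstant.freeOfProfinite (Profinite.of K)

lemma finite_A [T2Space G] [CompleteSpace G]
    (hb : ∀ s ∈ nhds (0 : G), ∃ U : AddSubgroup G, IsOpen (U : Set G) ∧ (U : Set G) ⊆ s)
    {K : Set G} (hK : IsCompact K) (hg : AddSubgroup.closure K = ⊤) :
    Module.Finite ℤ (A G) := by
  classical
  have := free_K hb hK
  let b := Module.Free.chooseBasis ℤ (LocallyConstant K ℤ)
  let S := {i | ∃ φ : A G, b.repr (res K φ) i ≠ 0}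
  by_cases hS : S.Finite
  · have : Finite S := hS
    let F : A G →ₗ[ℤ] (S → ℤ) := LinearMap.pi (fun i : S => b.coord i ∘ₗ res K)
    refine Module.Finite.of_injective F ?_
    rw [injective_iff_map_eq_zero]
    intro φ hφ
    apply res_inj hg
    rw [map_zero]
    apply b.repr.injective
    ext i
    by_cases hi : i ∈ S
    · simpa [F] using congrFun hφ ⟨i, hi⟩
    · by_contra hne
      exact hi ⟨φ, by simpa using hne⟩
  · exfalso
    let e : ℕ ↪ S := Set.Infinite.natEmbedding S hS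
    let e' : ℕ → Module.Free.ChooseBasisIndex ℤ (LocallyConstant K ℤ) := fun k => (e k).1
    have he' : Function.Injective e' := Subtype.val_injective.comp e.injective
    let ψ : (ℕ → ℤ) → (A G →ₗ[ℤ] ℤ) := fun c =>
      (b.constr ℤ (Function.extend e' c 0)) ∘ₗ res K
    have hψ : ∀ c φ, ψ c φ = (b.repr (res K φ)).sum (fun i a => a * Function.extend e' c 0 i) := by
      intro c φ
      simp [ψ, Module.Basis.constr_apply]
    have hcont : ∀ φ, Continuous (fun c => ψ c φ) := by
      intro φ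
      simp only [hψ, Finsupp.sum]
      refine continuous_finsetSum _ (fun i _ => continuous_const.mul ?_)
      by_cases hi : ∃ k, e' k = i
      · obtain ⟨k, rfl⟩ := hi
        simp only [he'.extend_apply]
        exact continuous_apply k
      · simp only [Function.extend_apply' _ _ _ hi]
        exact continuous_const
    let F : ℕ → Set (ℕ → ℤ) := fun n =>
      {c | ∀ (φ : A G) (N : ℤ), 0 ≤ N → (∀ x ∈ K, |φ.1 x| ≤ N) → |ψ c φ| ≤ n * N}
    obtain ⟨n, c0, hc0⟩ := nonempty_interior_of_iUnion_of_closed (f := F)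
      (fun n => by
        simp only [F, Set.ofPred_forall]
        exact isClosed_iInter fun φ => isClosed_iInter fun N => isClosed_iInter fun _ =>
          isClosed_iInter fun _ => isClosed_le (continuous_abs.comp (hcont φ)) continuous_const)
      (by
        rw [Set.eq_univ_iff_forall]
        intro c
        obtain ⟨g, hgc⟩ := exists_eval hb hK hg (ψ c)
        obtain ⟨n, hn⟩ := bound_eval hg g
        exact Set.mem_iUnion.2 ⟨n, fun φ N h0 h => by rw [← hgc]; exact hn φ N h0 h⟩)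
    choose φ hφ using fun k => (e k).2
    choose N hN0 hN using fun k => bound_K hK (φ k)
    let t : ℕ → ℤ := fun k => n * N k + |ψ c0 (φ k)| + 1
    let u : ℕ → ℕ → ℤ := fun k => c0 + Pi.single k (t k)
    have hu : Tendsto u atTop (𝓝 c0) := by
      rw [tendsto_pi_nhds]
      intro j
      refine tendsto_const_nhds.congr' ?_
      filter_upwards [eventually_gt_atTop j] with k hk
      simp [u, Pi.single_eq_of_ne hk.ne]
    obtain ⟨k, hk⟩ := (hu.eventually (mem_interior_iff_mem_nhds.1 hc0)).exists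
    have h1 := hk (φ k) (N k) (hN0 k) (hN k)
    have h2 : ψ (u k) (φ k) = ψ c0 (φ k) + t k * b.repr (res K (φ k)) (e' k) := by
      have : b.constr ℤ (Function.extend e' (u k) 0) =
          b.constr ℤ (Function.extend e' c0 0) + t k • b.coord (e' k) := by
        apply b.ext
        intro i
        simp only [Module.Basis.constr_basis, LinearMap.add_apply, LinearMap.smul_apply,
          Module.Basis.coord_apply, Module.Basis.repr_self, smul_eq_mul]
        by_cases hi : ∃ j, e' j = i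
        · obtain ⟨j, rfl⟩ := hi
          simp only [he'.extend_apply, u, Pi.add_apply, Finsupp.single_apply, he'.eq_iff,
            Pi.single_apply]
          split_ifs <;> simp
        · have hne : i ≠ e' k := fun h => hi ⟨k, h.symm⟩
          simp [Function.extend_apply' _ _ _ hi, hne]
      simp only [ψ, this]
      simp
    have h3 : 1 ≤ |b.repr (res K (φ k)) (e' k)| := Int.one_le_abs (hφ k)
    have ht : 0 ≤ t k := by
      have := hN0 k
      positivity
    have h4 : t k ≤ |t k * b.repr (res K (φ k)) (e' k)| := by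
      rw [abs_mul, abs_of_nonneg ht]
      nlinarith
    have h5 : |t k * b.repr (res K (φ k)) (e' k)| ≤ |ψ (u k) (φ k)| + |ψ c0 (φ k)| := by
      have : t k * b.repr (res K (φ k)) (e' k) = ψ (u k) (φ k) - ψ c0 (φ k) := by
        rw [h2]; ring
      rw [this]
      exact abs_sub _ _
    have h6 : t k = n * N k + |ψ c0 (φ k)| + 1 := rfl
    linarith

theorem main [T2Space G] [CompleteSpace G]
    (hb : ∀ s ∈ nhds (0 : G), ∃ U : AddSubgroup G, IsOpen (U : Set G) ∧ (U : Set G) ⊆ s)
    {K : Set G} (hK : IsCompact K) (hg : AddSubgroup.closure K = ⊤)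
    (hc : ∀ H : AddSubgroup G, IsCompact (H : Set G) → H = ⊥) :
    DiscreteTopology G ∧ ∃ n : ℕ, Nonempty (G ≃+ (Fin n → ℤ)) := by
  have hA := finite_A hb hK hg
  obtain ⟨s, hs⟩ := hA.fg_top
  have hz : ∀ g : G, (∀ φ ∈ s, (φ : A G).1 g = 0) → g = 0 := by
    intro g h
    apply sat_inter hb hK hg hc
    intro V hV
    apply mem_sat_of hK hg V hV
    intro φ _
    have hφ : φ ∈ Submodule.span ℤ (s : Set (A G)) := by rw [hs]; trivial
    clear * - h hφ
    induction hφ using Submodule.span_induction with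
    | mem y hy => exact h y hy
    | zero => simp
    | add a b _ _ ha hb => simp [ha, hb]
    | smul c a _ ha => simp [ha]
  have hd : DiscreteTopology G := by
    apply discreteTopology_of_isOpen_singleton_zero
    have : ({0} : Set G) = ⋂ φ ∈ s, (φ : A G).1 ⁻¹' {0} := by
      ext g
      simp only [Set.mem_singleton_iff, Set.mem_iInter, Set.mem_preimage]
      exact ⟨fun h φ _ => by simp [h], hz g⟩
    rw [this]
    exact isOpen_biInter_finset (fun φ _ => (isOpen_discrete _).preimage φ.2)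
  refine ⟨hd, ?_⟩
  have hfin : Module.Finite ℤ G := by
    rw [Module.Finite.iff_addGroup_fg, AddGroup.fg_iff]
    exact ⟨K, hg, hK.finite_of_discrete⟩
  have htf : Module.IsTorsionFree ℤ G := by
    apply Module.IsTorsionFree.of_smul_eq_zero
    intro n g h
    by_cases hn : n = 0
    · exact Or.inl hn
    right
    apply sat_inter hb hK hg hc
    intro V _
    exact ⟨n, hn, by rw [h]; exact V.zero_mem⟩
  exact ⟨Module.finrank ℤ G, ⟨(Module.finBasis ℤ G).equivFun.toAddEquiv⟩⟩

end Pool.Agent.H30.Prodisc
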