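import Mathlib

namespace Pool.Agent.H30.Q6

def ap (c i : ℕ) : ℕ := (c >>> (3 * i)) % 8
def ml (c d : ℕ) : ℕ := ap c (ap d 0) + 8 * ap c (ap d 1) + 64 * ap c (ap d 2) + 512 * ap c (ap d 3)
  + 4096 * ap c (ap d 4) + 32768 * ap c (ap d 5)
def ne1 (x y : ℕ) : ℕ := cond (Nat.beq x y) 0 1
def dg (c d : ℕ) : ℕ := ne1 (ap c 0) (ap d 0) + ne1 (ap c 1) (ap d 1) + ne1 (ap c 2) (ap d 2)
  + ne1 (ap c 3) (ap d 3) + ne1 (ap c 4) (ap d 4) + ne1 (ap c 5) (ap d 5)
def L5 : List ℕ := [5930, 5972, 6315, 6812, 9836, 10081, 10571, 10956, 12972, 13644, 15009, 15114, 17130, 17235, 17515, 17753, 19034, 19153, 21155, 21771, 22114, 22289, 22681, 22730, 34581, 34658, 34973, 35491, 42533, 42820, 43352, 43744, 45221, 46432, 47748, 47888, 49365, 49498, 50205, 50499, 51731, 51906, 53404, 54552, 54804, 55042, 55427, 55504, 67173, 67369, 67789, 68363, 71212, 71429, 71912, 72472, 78093, 78632, 80396, 80480, 82013, 82153, 82475, 82629, 84505, 84547, 86220, 86752, 87585, 87620, 88075, 88152, 98981,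 99597, 100521, 100682, 102572, 103720, 104581, 104784, 106828, 107360, 108557, 108648, 114794, 115025, 115221, 115522, 115753, 115781, 118945, 119050, 119428, 119568, 119820, 119904, 131755, 132427, 132714, 132945, 133785, 133834, 135325, 136536, 136725, 137026, 137859, 137936, 139469, 140008, 140841, 140869, 141835, 141912, 143529, 143690, 144005, 144208, 144397, 144488, 164578, 164627, 164963, 165145, 165978, 166097, 168148, 168218, 168988, 169219, 170003, 170178, 172124, 172257, 172579, 172740, 174105, 174147, 176226, 176401, 176660, 176898, 177185, 177220, 181896]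
def ev (x y z : ℕ) : List ℕ → ℕ
  | [] => 181896
  | [i] => cond (Nat.beq i 0) x (cond (Nat.beq i 1) y z)
  | i :: w => ml (cond (Nat.beq i 0) x (cond (Nat.beq i 1) y z)) (ev x y z w)
def tt (k v : ℕ) : Bool := !(Nat.beq v 0) && !(Nat.beq v k)
def W2 : List (List ℕ) := [[1], [1, 1], [0, 1], [0, 1, 0], [1, 0], [0, 1, 1, 1, 0], [0, 0, 1, 0, 0],
  [0, 1, 0, 0], [1, 1, 0], [0, 1, 1, 0]]
def W3 : List (List ℕ) := [[2], [2, 2], [0, 2], [2, 0], [0, 2, 0, 0]]
def chk (b : ℕ) : Bool :=
  Nat.beq b 55504 || tt (dg 55504 b) (dg (ml 55504 55504) (ml b b)) ||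
  L5.all fun a2 => Nat.beq a2 181896 || !(Nat.beq (ap a2 1) 1) || L5.all fun b2 =>
    (W2.any fun w => tt (dg 55504 b) (dg (ev 55504 a2 b w) (ev b b2 b w))) ||
    L5.all fun c => W3.any fun w => tt (dg 55504 b) (dg (ev 55504 a2 b w) (ev b b2 c w))
def p5 (c i : ℕ) : Bool := Nat.beq (ap c (ap c (ap c (ap c (ap c i))))) i
def R6 : List ℕ := [0, 1, 2, 3, 4, 5]
def cmp (c : ℕ) : Bool := !(p5 c 0 && p5 c 1 && p5 c 2 && p5 c 3 && p5 c 4 && p5 c 5) ||
  L5.any fun d => Nat.beq c d

theorem complete : (R6.all fun a => R6.all fun b => R6.all fun c => R6.all fun d => R6.all fun e =>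
    R6.all fun f => cmp (a + 8 * b + 64 * c + 512 * d + 4096 * e + 32768 * f)) = true := by
  decide +kernel

theorem c1 : (L5.take 40).all chk = true := by decide +kernel
theorem c2 : ((L5.drop 40).take 40).all chk = true := by decide +kernel
theorem c3 : ((L5.drop 80).take 30).all chk = true := by decide +kernel
theorem c4 : (L5.drop 110).all chk = true := by decide +kernel

theorem all_chk : ∀ b ∈ L5, chk b = true := by
  have e : L5 = L5.take 40 ++ ((L5.drop 40).take 40 ++ ((L5.drop 80).take 30 ++ L5.drop 110)) := by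
    decide +kernel
  intro b hb
  rw [e] at hb
  simp only [List.mem_append] at hb
  rcases hb with h | h | h | h
  exacts [List.all_eq_true.1 c1 b h, List.all_eq_true.1 c2 b h, List.all_eq_true.1 c3 b h,
    List.all_eq_true.1 c4 b h]

end Pool.Agent.H30.Q6
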