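import Mathlib

namespace Pool.Agent.H30.QExt

open MulOpposite Quaternion

abbrev Q := Quaternion ℝ

section
variable {V : Type*} [AddCommGroup V] [Module ℝ V] [Module Qᵐᵒᵖ V] [IsScalarTower ℝ Qᵐᵒᵖ V]
  [FiniteDimensional ℝ V]

lemma coe_real_complex_smul' (r : ℝ) (z : ℂ) : ((r • z : ℂ) : Q) = r • (z : Q) := by
  ext <;> simp

noncomputable def cq : ℂ →+* Qᵐᵒᵖ where
  toFun z := op (z : Q)
  map_one' := by simp
  map_mul' z w := by rw [← op_mul, ← coeComplex_mul, mul_comm]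
  map_zero' := by simp
  map_add' z w := by simp

lemma eig0 [Nontrivial V] (a : V →ₗ[Qᵐᵒᵖ] V) : ∃ x : V, x ≠ 0 ∧ ∃ l : Q, a x = op l • x := by
  letI : Module ℂ V := Module.compHom V cq
  have e : ∀ (z : ℂ) (x : V), z • x = op (z : Q) • x := fun _ _ => rfl
  haveI : IsScalarTower ℝ ℂ V := ⟨fun r z x => by
    rw [e, e, coe_real_complex_smul', op_smul, smul_assoc]⟩
  haveI : Module.Finite ℂ V := Module.Finite.of_restrictScalars_finite ℝ ℂ V
  let f : Module.End ℂ V := ⟨⟨a, a.map_add⟩, fun z x => a.map_smul _ x⟩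
  obtain ⟨z, hz⟩ := Module.End.exists_eigenvalue f
  obtain ⟨x, hx⟩ := hz.exists_hasEigenvector
  exact ⟨x, hx.2, z, hx.apply_eq_smul⟩

lemma eig (a : V →ₗ[Qᵐᵒᵖ] V) (P E : Submodule Qᵐᵒᵖ V) (hP : ∀ x ∈ P, a x ∈ P)
    (hE : ∀ x ∈ E, a x ∈ E) (h : ¬ E ≤ P) : ∃ x ∈ E, x ∉ P ∧ ∃ l : Q, a x - op l • x ∈ P := by
  let P' := P.comap E.subtype
  haveI : Module.Finite ℝ E :=
    Module.Finite.of_injective (E.subtype.restrictScalars ℝ) Subtype.val_injective
  haveI : Module.Finite ℝ (E ⧸ P') :=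
    Module.Finite.of_surjective (P'.mkQ.restrictScalars ℝ) P'.mkQ_surjective
  haveI : Nontrivial (E ⧸ P') := Submodule.Quotient.nontrivial_iff.2 fun ht => h fun x hx =>
    (show (⟨x, hx⟩ : E) ∈ P' from ht ▸ Submodule.mem_top)
  obtain ⟨x, hx, l, hl⟩ := eig0 (P'.mapQ P' (a.restrict hE) fun x hx => hP _ hx)
  obtain ⟨x, rfl⟩ := P'.mkQ_surjective x
  refine ⟨x, x.2, fun h => hx ((Submodule.Quotient.mk_eq_zero _).2 h), l, ?_⟩
  rw [Submodule.mkQ_apply, Submodule.mapQ_apply, ← Submodule.Quotient.mk_smul,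
    Submodule.Quotient.eq] at hl
  exact hl

omit [FiniteDimensional ℝ V] in
lemma rs (r : ℝ) (x : V) : op (r : Q) • x = r • x := by
  rw [← smul_one_smul Qᵐᵒᵖ r x]; congr 1; rw [← op_one, ← op_smul]; congr 1; ext <;> simp

omit [Module ℝ V] [IsScalarTower ℝ Qᵐᵒᵖ V] [FiniteDimensional ℝ V] in
lemma cancel (P : Submodule Qᵐᵒᵖ V) {x : V} (hx : x ∉ P) {q : Q} (h : op q • x ∈ P) : q = 0 := by
  by_contra hq
  have := P.smul_mem (op q⁻¹) h
  rw [smul_smul, ← op_mul, mul_inv_cancel₀ hq, op_one, one_smul] at this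
  exact hx this

lemma surj (a : V →ₗ[Qᵐᵒᵖ] V) (P E : Submodule Qᵐᵒᵖ V) (hP : ∀ x ∈ P, a x ∈ P)
    (hE : ∀ x ∈ E, a x ∈ E) (r s : ℝ)
    (h : ∀ x ∈ E, ∀ l : Q, a x - op l • x ∈ P → l * l + r • l + (s : Q) = 0 → x ∈ P) :
    ∀ y ∈ E, ∃ z ∈ E, y - (a (a z) + r • a z + s • z) ∈ P := by
  let p : V →ₗ[ℝ] V := (a ∘ₗ a).restrictScalars ℝ + r • a.restrictScalars ℝ + s • LinearMap.id
  have hp : ∀ z, p z = a (a z) + r • a z + s • z := fun _ => rfl
  have pE : ∀ M : Submodule Qᵐᵒᵖ V, (∀ x ∈ M, a x ∈ M) → ∀ x ∈ M, p x ∈ M := fun M hM x hx =>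
    M.add_mem (M.add_mem (hM _ (hM _ hx)) (M.smul_of_tower_mem r (hM _ hx)))
      (M.smul_of_tower_mem s hx)
  have pq : ∀ (q : Qᵐᵒᵖ) z, p (q • z) = q • p z := by
    intro q z
    simp only [hp, map_smul, smul_add, smul_comm q r, smul_comm q s]
  have inj : ∀ x ∈ E, p x ∈ P → x ∈ P := by
    let T : Submodule Qᵐᵒᵖ V :=
      { carrier := {x | x ∈ E ∧ p x ∈ P}
        add_mem' := fun ha hb => ⟨E.add_mem ha.1 hb.1, by rw [map_add]; exact P.add_mem ha.2 hb.2⟩
        zero_mem' := ⟨E.zero_mem, by simp⟩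
        smul_mem' := fun q x hx => ⟨E.smul_mem q hx.1, by rw [pq]; exact P.smul_mem q hx.2⟩ }
    by_contra hn
    obtain ⟨x, hx, hxP, l, hl⟩ := eig a P T hP (fun x hx => ⟨hE _ hx.1, by
      have := hP _ hx.2
      simpa [hp, LinearMap.map_smul_of_tower] using this⟩) (fun hT => hn fun x hx hp => hT ⟨hx, hp⟩)
    refine hxP (h x hx.1 l hl (cancel P hxP ?_))
    have e : op (l * l + r • l + (s : Q)) • x = p x - (a (a x - op l • x) +
        op l • (a x - op l • x) + r • (a x - op l • x)) := by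
      simp only [hp, op_add, add_smul, rs, op_smul, smul_assoc, map_sub, map_smul, smul_sub, op_mul,
        mul_smul]
      abel
    rw [e]
    exact P.sub_mem hx.2 (P.add_mem (P.add_mem (hP _ hl) (P.smul_mem _ hl))
      (P.smul_of_tower_mem r hl))
  let E' := E.restrictScalars ℝ
  let P' := (P.restrictScalars ℝ).comap E'.subtype
  let f := P'.mapQ P' (p.restrict (p := E') (q := E') (pE E hE)) fun x hx => pE P hP _ hx
  have fi : Function.Injective f := by
    rw [injective_iff_map_eq_zero]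
    intro x hx
    obtain ⟨x, rfl⟩ := P'.mkQ_surjective x
    exact (Submodule.Quotient.mk_eq_zero _).2
      (inj x x.2 ((Submodule.Quotient.mk_eq_zero P').1 hx))
  intro y hy
  obtain ⟨z, hz⟩ := LinearMap.injective_iff_surjective.1 fi (P'.mkQ ⟨y, hy⟩)
  obtain ⟨z, rfl⟩ := P'.mkQ_surjective z
  exact ⟨z, z.2, (Submodule.Quotient.eq P').1 hz.symm⟩

omit [Module Qᵐᵒᵖ V] [IsScalarTower ℝ Qᵐᵒᵖ V] in
lemma split (b : LinearMap.BilinForm ℝ V) (hs : ∀ x y, b x y = b y x) (D : Submodule ℝ V) (x : V)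
    (h : ∀ r ∈ D, (∀ d ∈ D, b r d = 0) → b r x = 0) : ∃ d ∈ D, ∀ e ∈ D, b e (x - d) = 0 := by
  let B : D →ₗ[ℝ] Module.Dual ℝ D := b.restrict D
  have e : LinearMap.range B = (LinearMap.ker B).dualAnnihilator := by
    refine Submodule.eq_of_le_of_finrank_eq ?_ ?_
    · rintro _ ⟨d, rfl⟩
      refine (Submodule.mem_dualAnnihilator _).2 fun r hr => ?_
      exact (hs _ _).trans (LinearMap.congr_fun (LinearMap.mem_ker.1 hr) d)
    · have := Subspace.finrank_add_finrank_dualAnnihilator_eq (LinearMap.ker B)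
      have := LinearMap.finrank_range_add_finrank_ker B
      omega
  have : (b x).domRestrict D ∈ LinearMap.range B := by
    rw [e]
    refine (Submodule.mem_dualAnnihilator _).2 fun r hr => (hs _ _).trans (h r r.2 fun d hd => ?_)
    exact LinearMap.congr_fun (LinearMap.mem_ker.1 hr) ⟨d, hd⟩
  obtain ⟨d, hd⟩ := this
  refine ⟨d, d.2, fun e he => ?_⟩
  have : b d e = b x e := LinearMap.congr_fun hd ⟨e, he⟩
  rw [map_sub, hs e x, hs e d, this, sub_self]

structure Good (a : V →ₗ[Qᵐᵒᵖ] V) (b : LinearMap.BilinForm ℝ V) : Prop where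
  symm : ∀ x y, b x y = b y x
  comp : ∀ (q : Q) x y, b (op q • x) y = b x (op (star q) • y)
  skew : ∀ x y, b (a x) y = - b x (a y)

variable {a : V →ₗ[Qᵐᵒᵖ] V} {b : LinearMap.BilinForm ℝ V}

def orth (g : Good a b) (M : Submodule Qᵐᵒᵖ V) : Submodule Qᵐᵒᵖ V where
  carrier := {x | ∀ m ∈ M, b m x = 0}
  add_mem' := fun hx hy m hm => by rw [map_add, hx m hm, hy m hm, add_zero]
  zero_mem' := fun m _ => map_zero _
  smul_mem' := fun q x hx m hm => by
    have := g.comp (star q.unop) m x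
    rw [star_star, op_unop] at this
    rw [← this]
    exact hx _ (M.smul_mem _ hm)

omit [FiniteDimensional ℝ V] in
lemma sq (g : Good a b) (q : Qᵐᵒᵖ) (x : V) : b (q • x) (q • x) = normSq q.unop * b x x := by
  have := g.comp q.unop x (q • x)
  rw [op_unop] at this
  rw [this, ← op_unop q, smul_smul, ← op_mul, unop_op, self_mul_star, rs, map_smul, smul_eq_mul]

omit [IsScalarTower ℝ Qᵐᵒᵖ V] [FiniteDimensional ℝ V] in
lemma orth_inv (g : Good a b) {M : Submodule Qᵐᵒᵖ V} (h : ∀ x ∈ M, a x ∈ M) :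
    ∀ x ∈ orth g M, a x ∈ orth g M := fun x hx m hm => by
  have := g.skew m x
  rw [hx _ (h m hm)] at this
  linarith

omit [Module ℝ V] [IsScalarTower ℝ Qᵐᵒᵖ V] [FiniteDimensional ℝ V] in
lemma msup {M : Submodule Qᵐᵒᵖ V} {x y : V} :
    y ∈ M ⊔ Submodule.span Qᵐᵒᵖ {x} ↔ ∃ m ∈ M, ∃ q : Qᵐᵒᵖ, m + q • x = y := by
  simp [Submodule.mem_sup, Submodule.mem_span_singleton]

omit [Module ℝ V] [IsScalarTower ℝ Qᵐᵒᵖ V] [FiniteDimensional ℝ V] in
lemma sup_inv {M : Submodule Qᵐᵒᵖ V} (h : ∀ x ∈ M, a x ∈ M) {x : V} {l : Q}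
    (hl : a x - op l • x ∈ M) : ∀ y ∈ M ⊔ Submodule.span Qᵐᵒᵖ {x},
      a y ∈ M ⊔ Submodule.span Qᵐᵒᵖ {x} := by
  intro y hy
  obtain ⟨m, hm, q, rfl⟩ := msup.1 hy
  refine msup.2 ⟨a m + q • (a x - op l • x), M.add_mem (h m hm) (M.smul_mem q hl), q * op l, ?_⟩
  simp only [mul_smul, smul_sub, map_add, map_smul]
  abel

omit [Module ℝ V] [IsScalarTower ℝ Qᵐᵒᵖ V] [FiniteDimensional ℝ V] in
lemma lt_sup {M : Submodule Qᵐᵒᵖ V} {x : V} (hx : x ∉ M) : M < M ⊔ Submodule.span Qᵐᵒᵖ {x} :=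
  lt_of_le_of_ne le_sup_left fun h => hx (h ▸ msup.2 ⟨0, M.zero_mem, 1, by simp⟩)

omit [FiniteDimensional ℝ V] in
lemma cs (g : Good a b) {M : Submodule Qᵐᵒᵖ V} (h : ∀ x ∈ M, 0 ≤ b x x) {x y : V} (hx : x ∈ M)
    (hy : y ∈ M) (h0 : b x x = 0) : b y x = 0 := by
  by_contra hne
  have := h (y + (-(b y y + 1) / (2 * b y x)) • x) (M.add_mem hy (M.smul_of_tower_mem _ hx))
  simp only [map_add, map_smul, LinearMap.add_apply, LinearMap.smul_apply, smul_eq_mul, h0,
    g.symm x y] at this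
  have e : -(b y y + 1) / (2 * b y x) * b y x = -(b y y + 1) / 2 := by field_simp
  rw [e] at this
  linarith

omit [FiniteDimensional ℝ V] in
lemma val (g : Good a b) {M : Submodule Qᵐᵒᵖ V} {x m : V} (hx : x ∈ orth g M) (hm : m ∈ M)
    (q : Qᵐᵒᵖ) : b (m + q • x) (m + q • x) = b m m + normSq q.unop * b x x := by
  have h1 : b m (q • x) = 0 := (orth g M).smul_mem q hx m hm
  simp only [map_add, LinearMap.add_apply, sq g, h1, g.symm (q • x) m]
  ring

theorem thmA (g : Good a b) (N : Submodule Qᵐᵒᵖ V) (hN : ∀ x ∈ N, a x ∈ N)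
    (hN0 : ∀ x ∈ N, 0 ≤ b x x) : ∃ L, N ≤ L ∧ (∀ x ∈ L, a x ∈ L) ∧
      Maximal (fun M : Submodule Qᵐᵒᵖ V => ∀ x ∈ M, 0 ≤ b x x) L := by
  haveI : IsNoetherian Qᵐᵒᵖ V := isNoetherian_of_tower ℝ inferInstance
  obtain ⟨L, ⟨hNL, hL, hL0⟩, hmax⟩ := set_has_maximal_iff_noetherian.2 this
    {L | N ≤ L ∧ (∀ x ∈ L, a x ∈ L) ∧ ∀ x ∈ L, 0 ≤ b x x} ⟨N, le_rfl, hN, hN0⟩
  refine ⟨L, hNL, hL, hL0, fun M hM hLM m hm => ?_⟩
  let L0 := L ⊓ orth g L
  have hi0 : ∀ x ∈ L0, a x ∈ L0 := fun x hx => ⟨hL x hx.1, orth_inv g hL x hx.2⟩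
  obtain ⟨l, hl, hl2⟩ := split b g.symm (L.restrictScalars ℝ) m
    fun r hr h => (g.symm _ _).trans (cs g hM (hLM hr) hm (h r hr))
  obtain ⟨D, ⟨hD0, hD1, hD, hD2⟩, hDm⟩ := set_has_maximal_iff_noetherian.2 this
    {D | L0 ≤ D ∧ D ≤ orth g L ∧ (∀ x ∈ D, a x ∈ D) ∧ ∀ x ∈ D, 0 ≤ b x x → x ∈ L0}
    ⟨L0, le_rfl, inf_le_right, hi0, fun x hx _ => hx⟩
  have hE : orth g L ⊓ orth g D ≤ L0 := by
    by_contra hn
    obtain ⟨x, hx, hx0, t, ht⟩ := eig a L0 (orth g L ⊓ orth g D) hi0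
      (fun x hx => ⟨orth_inv g hL x hx.1, orth_inv g hD x hx.2⟩) hn
    rcases le_or_gt 0 (b x x) with h | h
    · refine hmax _ ⟨hNL.trans le_sup_left, sup_inv hL ht.1, fun y hy => ?_⟩
        (lt_sup (x := x) fun h => hx0 ⟨h, hx.1⟩)
      obtain ⟨m, hm, q, rfl⟩ := msup.1 hy
      rw [val g hx.1 hm]
      have := hL0 m hm
      have := normSq_nonneg (a := q.unop)
      positivity
    · refine hDm _ ⟨hD0.trans le_sup_left, sup_le hD1 ((Submodule.span_singleton_le_iff_mem _ _).2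
        hx.1), sup_inv hD (hD0 ht), fun y hy h0 => ?_⟩
        (lt_sup (x := x) fun h' => h.ne (hx.2 x h'))
      obtain ⟨m, hm, q, rfl⟩ := msup.1 hy
      rw [val g hx.2 hm] at h0
      have h1 := normSq_nonneg (a := q.unop)
      have h2 : 0 ≤ b m m := by nlinarith
      have h3 := hD2 m hm h2
      have h4 : b m m = 0 := h3.2 m h3.1
      have h5 : normSq q.unop = 0 := by nlinarith
      have : q = 0 := unop_injective (normSq_eq_zero.1 h5)
      simpa [this] using h3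
  have hm' : m - l ∈ orth g L := hl2
  obtain ⟨d, hd, hd2⟩ := split b g.symm (D.restrictScalars ℝ) (m - l)
    fun r hr h => hm' r (hD2 r hr (h r hr).ge).1
  have he : m - l - d ∈ L0 := hE ⟨(orth g L).sub_mem hm' (hD1 hd), hd2⟩
  have h1 := hM _ (M.sub_mem hm (hLM hl))
  have h2 := val g (M := D) (x := m - l - d) hd2 hd 1
  rw [one_smul, add_sub_cancel, he.2 _ he.1, mul_zero, add_zero] at h2
  have h3 := hD2 d hd (h2 ▸ h1)
  have := L.add_mem (L.add_mem he.1 h3.1) hl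
  simpa using this

lemma simil {m x : Q} (h : x * x + (-(2 * m.re)) • x + ((normSq m : ℝ) : Q) = 0) :
    ∃ q : Q, q ≠ 0 ∧ x = q⁻¹ * m * q := by
  have key : ∀ q : Q, q ≠ 0 → q * x = m * q → ∃ q : Q, q ≠ 0 ∧ x = q⁻¹ * m * q := fun q hq e =>
    ⟨q, hq, by rw [mul_assoc, ← e, inv_mul_cancel_left₀ hq]⟩
  by_cases h0 : x - star m = 0
  · obtain rfl := sub_eq_zero.1 h0
    by_cases h1 : m.imI = 0 ∧ m.imJ = 0
    · refine key ⟨0, 1, 0, 0⟩ (fun h => by simpa using congrArg QuaternionAlgebra.imI h) ?_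
      ext <;> simp [h1.1, h1.2]
    · refine key ⟨0, m.imJ, -m.imI, 0⟩ (fun h => h1 ⟨?_, ?_⟩) ?_
      · simpa using congrArg QuaternionAlgebra.imJ h
      · simpa using congrArg QuaternionAlgebra.imI h
      · ext <;> simp <;> ring
  · refine key _ h0 ?_
    have e : m + star m = ((2 * m.re : ℝ) : Q) := by simp [self_add_star']
    rw [← self_mul_star, neg_smul, ← coe_mul_eq_smul, ← e] at h
    rw [← sub_eq_zero, ← h]
    noncomm_ring

omit [FiniteDimensional ℝ V] in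
lemma ann {P : Submodule Qᵐᵒᵖ V} (hP : ∀ x ∈ P, a x ∈ P) {z : V} {n : Q}
    (h : a z - op n • z ∈ P) : a (a z) - (2 * n.re) • a z + normSq n • z ∈ P := by
  have e0 : n * n - (2 * n.re) • n + ((normSq n : ℝ) : Q) = 0 := by
    rw [← star_mul_self, ← coe_mul_eq_smul, ← self_add_star']
    noncomm_ring
  have e : a (a z) - (2 * n.re) • a z + normSq n • z = a (a z - op n • z) +
      op n • (a z - op n • z) - (2 * n.re) • (a z - op n • z) +
      op (n * n - (2 * n.re) • n + ((normSq n : ℝ) : Q)) • z := by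
    simp only [op_add, op_sub, add_smul, sub_smul, rs, op_smul, smul_assoc, map_sub, map_smul,
      smul_sub, op_mul, mul_smul]
    abel
  rw [e, e0, op_zero, zero_smul, add_zero]
  exact P.sub_mem (P.add_mem (hP _ h) (P.smul_mem _ h)) (P.smul_of_tower_mem _ h)

omit [IsScalarTower ℝ Qᵐᵒᵖ V] [FiniteDimensional ℝ V] in
lemma adj (g : Good a b) (r s : ℝ) (y z : V) :
    b (a (a y) + r • a y + s • y) z = b y (a (a z) - r • a z + s • z) := by
  simp only [map_add, map_sub, map_smul, LinearMap.add_apply, LinearMap.smul_apply, smul_eq_mul,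
    g.skew]
  ring

omit [FiniteDimensional ℝ V] in
lemma iso (g : Good a b) {z : V} {n : Q} (hn : n.re ≠ 0) (h : b z (a z - op n • z) = 0) :
    b z z = 0 := by
  have h1 := g.skew z z
  rw [g.symm] at h1
  have h2 := g.comp n z z
  rw [g.symm] at h2
  have h3 : b z (op n • z) + b z (op (star n) • z) = 2 * n.re * b z z := by
    rw [← map_add, ← add_smul, ← op_add, self_add_star', rs, map_smul, smul_eq_mul]
  rw [map_sub] at h
  have : 2 * n.re * b z z = 0 := by linarith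
  simpa [hn] using this

theorem thmB (g : Good a b) (hrad : ∀ x, (∀ y, b x y = 0) → a x = 0) (S : Set Q)
    (hS : Maximal (fun T : Set Q => (∀ l ∈ T, ∃ x, x ≠ 0 ∧ a x = op l • x) ∧
      (∀ l ∈ T, l.re ≠ 0) ∧ (∀ l ∈ T, ∀ q : Q, q ≠ 0 → q⁻¹ * l * q ∈ T) ∧ ∀ l ∈ T, -l ∉ T) S)
    (N : Submodule Qᵐᵒᵖ V) (hN : ∀ x ∈ N, a x ∈ N) (hN0 : ∀ x ∈ N, ∀ y ∈ N, b x y = 0)
    (hNS : ∀ x ∈ N, x ≠ 0 → ∀ l : Q, a x = op l • x → l.re ≠ 0 → l ∈ S) :
    ∃ L, N ≤ L ∧ (∀ x ∈ L, a x ∈ L) ∧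
      Maximal (fun M : Submodule Qᵐᵒᵖ V => ∀ x ∈ M, 0 ≤ b x x) L ∧
      ∀ l : Q, l ∈ S ↔ l.re ≠ 0 ∧ ∃ x ∈ L, x ≠ 0 ∧ a x = op l • x := by
  haveI : IsNoetherian Qᵐᵒᵖ V := isNoetherian_of_tower ℝ inferInstance
  obtain ⟨⟨s1, s2, s3, s4⟩, s5⟩ := hS
  obtain ⟨K, ⟨hNK, hK, hK0, hKS⟩, hmax⟩ := set_has_maximal_iff_noetherian.2 this
    {K | N ≤ K ∧ (∀ x ∈ K, a x ∈ K) ∧ (∀ x ∈ K, ∀ y ∈ K, b x y = 0) ∧
      ∀ x ∈ K, x ≠ 0 → ∀ l : Q, a x = op l • x → l.re ≠ 0 → l ∈ S} ⟨N, le_rfl, hN, hN0, hNS⟩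
  have rt : ∀ n x : Q, x * x + (2 * n.re) • x + ((normSq n : ℝ) : Q) = 0 →
      ∃ q : Q, q ≠ 0 ∧ x = q⁻¹ * (-n) * q := fun n x h => simil (by simpa using h)
  have cre : ∀ q m : Q, q ≠ 0 → (q⁻¹ * m * q).re = m.re := by
    intro q m hq
    have : ∀ u v : Q, (u * v).re = (v * u).re := fun u v => by simp; ring
    rw [this, ← mul_assoc, mul_inv_cancel₀ hq, one_mul]
  have abs : ∀ z, ∀ n ∈ S, a z - op n • z ∈ K → z ∈ K := by
    intro z n hn hz
    by_contra hzK
    have o : z ∈ orth g K := by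
      intro k hk
      obtain ⟨y, hy, e⟩ := surj a ⊥ K (by simp) hK (2 * n.re) (normSq n) (fun x hx l hl h => by
        by_contra h0
        obtain ⟨q, hq, rfl⟩ := rt n l h
        have := s3 _ (hKS x hx h0 _ (sub_eq_zero.1 hl) (by simpa [cre q _ hq] using s2 n hn))
          q⁻¹ (inv_ne_zero hq)
        refine s4 n hn ?_
        simpa [mul_assoc, hq] using this) k hk
      rw [sub_eq_zero.1 e, adj g]
      exact hK0 _ hy _ (ann hK hz)
    have z0 : b z z = 0 := iso g (s2 n hn) ((g.symm _ _).trans (o _ hz))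
    refine hmax _ ⟨hNK.trans le_sup_left, sup_inv hK hz, fun x hx y hy => ?_,
      fun x hx h0 l hl hre => ?_⟩ (lt_sup hzK)
    · have nn : ∀ x ∈ K ⊔ Submodule.span Qᵐᵒᵖ {z}, b x x = 0 := by
        intro x hx
        obtain ⟨m, hm, q, rfl⟩ := msup.1 hx
        rw [val g o hm, z0, hK0 m hm m hm]; simp
      exact cs g (fun x hx => (nn x hx).ge) hy hx (nn y hy)
    · obtain ⟨m, hm, q, rfl⟩ := msup.1 hx
      by_cases hq : q = 0
      · subst hq
        rw [zero_smul, add_zero] at h0 hl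
        exact hKS m hm h0 l hl hre
      have hq' : q.unop ≠ 0 := by simpa using hq
      have : n * q.unop - q.unop * l = 0 := by
        refine cancel K hzK ?_
        have e : op (n * q.unop - q.unop * l) • z = op l • m - a m - q • (a z - op n • z) := by
          rw [map_add, map_smul, smul_add] at hl
          simp only [op_sub, op_mul, op_unop, sub_smul, mul_smul, smul_sub]
          rw [eq_sub_of_add_eq hl]; abel
        rw [e]
        exact K.sub_mem (K.sub_mem (K.smul_mem _ hm) (hK m hm)) (K.smul_mem _ hz)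
      have e : l = q.unop⁻¹ * n * q.unop := by
        rw [mul_assoc, sub_eq_zero.1 this, inv_mul_cancel_left₀ hq']
      exact e ▸ s3 n hn _ hq'
  obtain ⟨L, hKL, hL, hLm⟩ := thmA g K hK fun x hx => (hK0 x hx x hx).ge
  refine ⟨L, hNK.trans hKL, hL, hLm, fun l => ⟨fun hl => ⟨s2 l hl, ?_⟩, ?_⟩⟩
  · obtain ⟨x, h0, hx⟩ := s1 l hl
    exact ⟨x, hKL (abs x l hl (by simp [hx])), h0, hx⟩
  rintro ⟨hre, x, hxL, h0, hx⟩
  by_contra hl
  have hneg : -l ∈ S := by
    by_contra hn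
    refine hl (s5 (y := S ∪ {t | ∃ q : Q, q ≠ 0 ∧ t = q⁻¹ * l * q}) ⟨?_, ?_, ?_, ?_⟩
      Set.subset_union_left (Or.inr ⟨1, one_ne_zero, by simp⟩))
    · rintro t (ht | ⟨q, hq, rfl⟩)
      · exact s1 t ht
      · refine ⟨op q • x, fun h => hq (cancel ⊥ (by simpa using h0) h), ?_⟩
        rw [map_smul, hx, smul_smul, smul_smul, ← op_mul, ← op_mul]
        simp [mul_assoc, hq]
    · rintro t (ht | ⟨q, hq, rfl⟩)
      · exact s2 t ht
      · rwa [cre q l hq]
    · rintro t (ht | ⟨q, hq, rfl⟩) r hr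
      · exact Or.inl (s3 t ht r hr)
      · exact Or.inr ⟨q * r, mul_ne_zero hq hr, by simp [mul_assoc]⟩
    · rintro t (ht | ⟨q, hq, rfl⟩) (h | ⟨r, hr, h⟩)
      · exact s4 t ht h
      · refine hn ?_
        have := s3 t ht r⁻¹ (inv_ne_zero hr)
        rw [neg_eq_iff_eq_neg.1 h] at this
        simpa [mul_assoc, hr] using this
      · refine hn ?_
        have := s3 _ h q⁻¹ (inv_ne_zero hq)
        simpa [mul_assoc, hq] using this
      · have := congrArg QuaternionAlgebra.re h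
        have h1 := cre q l hq
        have h2 := cre r l hr
        rw [Quaternion.re_neg, h1, h2] at this
        exact hre (by linarith)
  have x0 : b x x = 0 := iso g hre (by simp [hx])
  have : a x = 0 := hrad x fun y => by
    obtain ⟨z, -, e⟩ := surj a K ⊤ hK (by simp) (2 * l.re) (normSq l) (fun w _ t ht h => by
      obtain ⟨q, hq, rfl⟩ := rt l t h
      exact abs w _ (s3 _ hneg q hq) ht) y trivial
    have h1 := cs g hLm.1 hxL (hKL e) x0
    have h2 : a (a x) - (2 * l.re) • a x + normSq l • x = 0 :=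
      ann (P := ⊥) (by simp) (by simp [hx])
    rw [map_sub, LinearMap.sub_apply, adj g, h2, map_zero, sub_zero] at h1
    rw [g.symm, h1]
  rw [hx] at this
  exact hre (by rw [cancel ⊥ (by simpa using h0) this]; rfl)

omit [IsScalarTower ℝ Qᵐᵒᵖ V] [FiniteDimensional ℝ V] in
lemma Good.neg (g : Good a b) : Good a (-b) :=
  ⟨fun x y => by simp [g.symm x y], fun q x y => by simp [g.comp], fun x y => by simp [g.skew]⟩

end

open Matrix

variable {n : ℕ}

def la (A : Matrix (Fin n) (Fin n) Q) : (Fin n → Q) →ₗ[Qᵐᵒᵖ] (Fin n → Q) where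
  toFun := A.mulVec
  map_add' := Matrix.mulVec_add A
  map_smul' q x := by
    funext i
    simp [mulVec, dotProduct, Finset.sum_mul, mul_assoc]

noncomputable def bf (G : Matrix (Fin n) (Fin n) Q) : LinearMap.BilinForm ℝ (Fin n → Q) :=
  LinearMap.mk₂ ℝ (fun x y => (star x ⬝ᵥ G *ᵥ y).re)
    (fun x x' y => by simp [add_dotProduct])
    (fun r x y => by
      have : star (r • x) = r • star x := by funext i; ext <;> simp
      simp [this, smul_dotProduct])
    (fun x y y' => by simp [mulVec_add])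
    (fun r x y => by simp [mulVec_smul])

lemma bf_apply (G : Matrix (Fin n) (Fin n) Q) (x y : Fin n → Q) :
    bf G x y = (star x ⬝ᵥ G *ᵥ y).re := rfl

lemma good {H A : Matrix (Fin n) (Fin n) Q} (hH : Hᴴ = -H) (hA : H * A = -(Aᴴ * H)) :
    Good (la A) (bf (H * A)) := by
  have hG : (H * A)ᴴ = H * A := by rw [conjTranspose_mul, hH, hA]; simp
  refine ⟨fun x y => ?_, fun q x y => ?_, fun x y => ?_⟩
  · rw [bf_apply, bf_apply, star_dotProduct, star_mulVec, hG, ← dotProduct_mulVec, re_star]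
  · have e1 : ∀ w : Fin n → Q, star (op q • x) ⬝ᵥ w = star q * (star x ⬝ᵥ w) := fun w => by
      simp [dotProduct, Finset.mul_sum, mul_assoc]
    have e2 : ∀ w : Fin n → Q, star x ⬝ᵥ (op (star q) • w) = (star x ⬝ᵥ w) * star q := fun w => by
      simp [dotProduct, Finset.sum_mul, mul_assoc]
    have e3 : (H * A) *ᵥ (op (star q) • y) = op (star q) • (H * A) *ᵥ y := (la (H * A)).map_smul _ _
    rw [bf_apply, bf_apply, e1, e3, e2]
    simp; ring
  · have : Aᴴ * (H * A) = -(H * A * A) := by rw [← Matrix.mul_assoc, hA]; simp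
    simp only [bf_apply, la, LinearMap.coe_mk, AddHom.coe_mk]
    rw [star_mulVec, ← dotProduct_mulVec, mulVec_mulVec, mulVec_mulVec, this, neg_mulVec,
      dotProduct_neg, re_neg]

lemma rad {H A : Matrix (Fin n) (Fin n) Q} (hu : IsUnit H) (hH : Hᴴ = -H)
    (hA : H * A = -(Aᴴ * H)) (x : Fin n → Q) (h : ∀ y, bf (H * A) x y = 0) : la A x = 0 := by
  have h1 := h ((H * A) *ᵥ x)
  rw [(good hH hA).symm, bf_apply] at h1
  have h2 : (H * A) *ᵥ x = 0 := by
    set w := (H * A) *ᵥ x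
    have e : (star w ⬝ᵥ w).re = ∑ i, normSq (w i) := by
      have : star w ⬝ᵥ w = ((∑ i, normSq (w i) : ℝ) : Q) := by
        simp only [dotProduct, Pi.star_apply, star_mul_self]
        exact (map_sum (algebraMap ℝ Q) _ _).symm
      rw [this]; rfl
    rw [e, Finset.sum_eq_zero_iff_of_nonneg fun i _ => normSq_nonneg] at h1
    exact funext fun i => normSq_eq_zero.1 (h1 i (Finset.mem_univ _))
  obtain ⟨u, rfl⟩ := hu
  have := congrArg (fun w => (↑u⁻¹ : Matrix (Fin n) (Fin n) Q) *ᵥ w) h2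
  show A *ᵥ x = 0
  simpa [mulVec_mulVec, ← Matrix.mul_assoc, -coe_units_inv] using this

lemma inv_formula (φ : Q →ₗ[ℝ] Q) (hm : ∀ x y, φ (x * y) = φ y * φ x) (h2 : ∀ x, φ (φ x) = x)
    (hne : ∃ x, φ x ≠ star x) (β : Q) (hβ : φ β = -β) (hn : ‖β‖ = 1) :
    β * β = -1 ∧ star β = -β ∧ ∀ q, β * φ q = star q * β := by
  have h1 : φ 1 = 1 := by
    have := hm (φ 1) 1
    rw [mul_one, h2, mul_one] at this
    exact this.symm
  have hr : ∀ r : ℝ, φ (r : Q) = r := fun r => by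
    have : (r : Q) = r • (1 : Q) := by ext <;> simp
    rw [this, map_smul, h1]
  have pure : ∀ p : Q, p.re = 0 → (φ p).re = 0 := by
    intro p hp
    have e : p * p = ((-normSq p : ℝ) : Q) := by
      rw [coe_neg, ← self_mul_star]; ext <;> simp [hp] <;> ring
    have e2 := hm p p
    rw [e, hr] at e2
    by_contra hq
    have a1 := congrArg QuaternionAlgebra.imI e2
    have a2 := congrArg QuaternionAlgebra.imJ e2
    have a3 := congrArg QuaternionAlgebra.imK e2
    have a0 := congrArg QuaternionAlgebra.re e2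
    simp at a0 a1 a2 a3
    have b1 : (φ p).imI = 0 := by
      apply mul_left_cancel₀ hq; linarith
    have b2 : (φ p).imJ = 0 := by
      apply mul_left_cancel₀ hq; linarith
    have b3 : (φ p).imK = 0 := by
      apply mul_left_cancel₀ hq; linarith
    rw [b1, b2, b3] at a0
    have := normSq_nonneg (a := p)
    have := mul_self_pos.2 hq
    linarith
  have dec : ∀ q : Q, φ q = (q.re : Q) + φ q.im := fun q => by
    conv_lhs => rw [← re_add_im q, map_add, hr]
  have b0 : β.re = 0 := by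
    have := congrArg QuaternionAlgebra.re ((dec β).symm.trans hβ)
    have h3 := pure β.im (by simp)
    simp [h3] at this
    linarith
  have bn : normSq β = 1 := by rw [normSq_eq_norm_mul_self, hn, one_mul]
  have bn' : β.imI ^ 2 + β.imJ ^ 2 + β.imK ^ 2 = 1 := by
    rw [normSq_def', b0] at bn; linarith
  have bs : star β = -β := by ext <;> simp [b0]
  have bb : β * β = -1 := by
    have := self_mul_star β
    rw [bs, bn, mul_neg, neg_eq_iff_eq_neg] at this
    simpa using this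
  have eig : ∀ a : Q, φ a = -a → a.re = 0 → a * β = β * a := by
    intro a ha ha0
    by_contra hc
    set c := a * β - β * a with hcd
    have hc0 : c ≠ 0 := sub_ne_zero.2 hc
    have p1 : φ c = -c := by rw [hcd, map_sub, hm, hm, ha, hβ]; noncomm_ring
    have ac : c * β = -(β * c) := by
      have : a * β * β = β * β * a := by rw [mul_assoc, bb]; simp
      rw [hcd, sub_mul, mul_sub, this]; noncomm_ring
    have p2 : φ (c * β) = -(c * β) := by rw [hm, p1, hβ, ac]; simp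
    have c0 : c.re = 0 := by simp [hcd]; ring
    have cb : c.imI * β.imI + c.imJ * β.imJ + c.imK * β.imK = 0 := by simp [hcd, b0, ha0]; ring
    obtain ⟨x, hx⟩ := hne
    apply hx
    have N : normSq c ≠ 0 := fun h => hc0 (normSq_eq_zero.1 h)
    have ex : normSq c • x.im = (normSq c * (x.imI * β.imI + x.imJ * β.imJ + x.imK * β.imK)) • β +
        (x.imI * c.imI + x.imJ * c.imJ + x.imK * c.imK) • c +
        (x.imI * (c * β).imI + x.imJ * (c * β).imJ + x.imK * (c * β).imK) • (c * β) := by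
      clear_value c
      ext <;> simp [normSq_def', b0, c0]
      · exact Or.inr (by linarith)
      · linear_combination (-(c.imI ^ 2 + c.imJ ^ 2 + c.imK ^ 2) * x.imI + c.imI * (x.imI * c.imI + x.imJ * c.imJ + x.imK * c.imK)) * bn' + (x.imI * (c.imI * β.imI + c.imJ * β.imJ + c.imK * β.imK) - c.imI * (x.imI * β.imI + x.imJ * β.imJ + x.imK * β.imK) - β.imI * (x.imI * c.imI + x.imJ * c.imJ + x.imK * c.imK)) * cb
      · linear_combination (-(c.imI ^ 2 + c.imJ ^ 2 + c.imK ^ 2) * x.imJ + c.imJ * (x.imI * c.imI + x.imJ * c.imJ + x.imK * c.imK)) * bn' + (x.imJ * (c.imI * β.imI + c.imJ * β.imJ + c.imK * β.imK) - c.imJ * (x.imI * β.imI + x.imJ * β.imJ + x.imK * β.imK) - β.imJ * (x.imI * c.imI + x.imJ * c.imJ + x.imK * c.imK)) * cb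
      · linear_combination (-(c.imI ^ 2 + c.imJ ^ 2 + c.imK ^ 2) * x.imK + c.imK * (x.imI * c.imI + x.imJ * c.imJ + x.imK * c.imK)) * bn' + (x.imK * (c.imI * β.imI + c.imJ * β.imJ + c.imK * β.imK) - c.imK * (x.imI * β.imI + x.imJ * β.imJ + x.imK * β.imK) - β.imK * (x.imI * c.imI + x.imJ * c.imJ + x.imK * c.imK)) * cb
    have e3 : normSq c • φ x.im = normSq c • (-x.im) := by
      rw [← map_smul, smul_neg, ex, map_add, map_add, map_smul, map_smul, map_smul, p2, p1, hβ]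
      simp only [smul_neg]; abel
    rw [dec, smul_right_injective Q N e3]
    ext <;> simp
  refine ⟨bb, bs, fun q => ?_⟩
  have p0 := pure q.im (by simp)
  have hc := eig (q.im - φ q.im) (by rw [map_sub, h2]; abel) (by simp [p0])
  have s1 : q.im * β + β * q.im = (((q.im * β + β * q.im).re : ℝ) : Q) := by
    ext <;> simp [b0] <;> ring
  have s2 : φ (q.im * β + β * q.im) = q.im * β + β * q.im := by rw [s1, hr]
  rw [map_add, hm, hm, hβ] at s2
  have s3 : (2 : ℝ) • (β * φ q.im) = (2 : ℝ) • (-(q.im * β)) := by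
    rw [two_smul, two_smul]
    have : β * φ q.im + β * φ q.im - (-(q.im * β) + -(q.im * β)) =
        ((q.im - φ q.im) * β - β * (q.im - φ q.im)) -
        ((-β * φ q.im + φ q.im * -β) - (q.im * β + β * q.im)) := by noncomm_ring
    rw [hc, s2, sub_self, sub_self, sub_self] at this
    exact sub_eq_zero.1 this
  have s4 := smul_right_injective Q two_ne_zero s3
  have s5 : star q = (q.re : Q) - q.im := by ext <;> simp
  rw [dec, mul_add, s4, s5, sub_mul, coe_commutes]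
  abel

end Pool.Agent.H30.QExt
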