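import Mathlib
import Pool.Agent.H30.Lfp

namespace Pool.Agent.H30.Rch

def Sx (x : Fin 5 → ℝ) : Prop := (∀ a, 0 ≤ x a) ∧ ∑ a, x a = 1

lemma shap (x y : Fin 5 → ℝ) (hx : Sx x) (hy : Sx y) (e : ℝ) (e0 : 0 ≤ e) (e1 : e ≤ 1 / 10000)
    (h1 : ∀ a, y (a + 1) ≤ ∑ i, x i * y (i + 1) + e) (h2 : ∀ a, x a ≤ ∑ i, x i * y (i + 2) + e) :
    ∑ i, x i * y (i + 1) ≤ 1 / 5 + 6 * e ∧ ∑ i, x i * y (i + 2) ≤ 1 / 5 + 6 * e := by
  obtain ⟨i0, -, hi⟩ := Finset.exists_max_image Finset.univ x Finset.univ_nonempty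
  obtain ⟨j0, -, hj⟩ := Finset.exists_max_image Finset.univ y Finset.univ_nonempty
  simp only [Finset.mem_univ, forall_true_left] at hi hj
  have sx := hx.2
  have sy := hy.2
  have sy2 : ∑ i, y (i + 2) = 1 := by rw [← sy]; exact Equiv.sum_comp (Equiv.addRight 2) y
  have N5 : 1 / 5 ≤ x i0 := by
    rw [Fin.sum_univ_five] at sx; linarith [hi 0, hi 1, hi 2, hi 3, hi 4]
  have M5 : 1 / 5 ≤ y j0 := by
    rw [Fin.sum_univ_five] at sy; linarith [hj 0, hj 1, hj 2, hj 3, hj 4]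
  have a1 : ∑ i, x i * (y j0 - y (i + 1)) = y j0 - ∑ i, x i * y (i + 1) := by
    simp only [mul_sub, Finset.sum_sub_distrib, ← Finset.sum_mul, sx, one_mul]
  have a2 : ∑ i, (x i0 - x i) * y (i + 2) = x i0 - ∑ i, x i * y (i + 2) := by
    simp only [sub_mul, Finset.sum_sub_distrib, ← Finset.mul_sum, sy2, mul_one]
  have n1 : ∀ i, 0 ≤ x i * (y j0 - y (i + 1)) := fun i => mul_nonneg (hx.1 i) (sub_nonneg.2 (hj _))
  have n2 : ∀ i, 0 ≤ (x i0 - x i) * y (i + 2) := fun i => mul_nonneg (sub_nonneg.2 (hi _)) (hy.1 _)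
  have b1 : ∀ i, x i * (y j0 - y (i + 1)) ≤ e := fun i => by
    have := Finset.single_le_sum (f := fun i => x i * (y j0 - y (i + 1))) (fun i _ => n1 i)
      (Finset.mem_univ i)
    have h := h1 (j0 - 1)
    rw [sub_add_cancel] at h
    linarith
  have b2 : ∀ i, (x i0 - x i) * y (i + 2) ≤ e := fun i => by
    have := Finset.single_le_sum (f := fun i => (x i0 - x i) * y (i + 2)) (fun i _ => n2 i)
      (Finset.mem_univ i)
    linarith [h2 i0]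
  have step : ∀ i, x i0 - 6 * e ≤ x i → y j0 - 6 * e ≤ y (i + 1) ∧ x i0 - 6 * e ≤ x (i - 1) := by
    intro i h
    have c1 : y j0 - 6 * e ≤ y (i + 1) := by nlinarith [b1 i, hj (i + 1)]
    refine ⟨c1, ?_⟩
    have := b2 (i - 1)
    rw [(by decide : ∀ i : Fin 5, i - 1 + 2 = i + 1)] at this
    nlinarith [hi (i - 1)]
  have s0 : x i0 - 6 * e ≤ x i0 := by linarith
  have s1 := (step _ s0).2
  have s2 := (step _ s1).2
  have s3 := (step _ s2).2
  have s4 := (step _ s3).2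
  have all : ∀ i, x i0 - 6 * e ≤ x i := by
    intro i
    have : ∀ i j : Fin 5, i = j ∨ i = j - 1 ∨ i = j - 1 - 1 ∨ i = j - 1 - 1 - 1 ∨
      i = j - 1 - 1 - 1 - 1 := by decide
    rcases this i i0 with h | h | h | h | h <;> rw [h] <;> assumption
  have ally : ∀ j, y j0 - 6 * e ≤ y j := fun j => by
    have := (step (j - 1) (all _)).1; rwa [sub_add_cancel] at this
  have u1 : 0 ≤ ∑ i, x i * (y j0 - y (i + 1)) := Finset.sum_nonneg fun i _ => n1 i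
  have u2 : 0 ≤ ∑ i, (x i0 - x i) * y (i + 2) := Finset.sum_nonneg fun i _ => n2 i
  have k1 : x i0 ≤ 1 / 5 + 6 * e := by
    rw [Fin.sum_univ_five] at sx
    linarith [all 0, all 1, all 2, all 3, all 4]
  have k2 : y j0 ≤ 1 / 5 + 6 * e := by
    rw [Fin.sum_univ_five] at sy
    linarith [ally 0, ally 1, ally 2, ally 3, ally 4]
  constructor <;> linarith

lemma gadH (e k uS wS uH wH : ℝ) (e0 : 0 ≤ e) (e1 : e ≤ 1 / 10000) (k0 : 0 ≤ k) (k1 : k ≤ 1)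
    (a1 : 1 / 5 - e ≤ uS) (a2 : uS ≤ 1 / 5 + 6 * e) (b1 : 1 / 5 - e ≤ wS) (b2 : wS ≤ 1 / 5 + 6 * e)
    (c1 : uH = (1 - k) * uS) (c2 : wH = k + (1 - k) * wS) (d1 : 3 / 5 * uS ≤ uH + e)
    (d2 : 2 / 5 + 3 / 5 * wS ≤ wH + e) :
    3 / 25 - 2 * e ≤ uH ∧ uH ≤ 3 / 25 + 5 * e ∧ 13 / 25 - 2 * e ≤ wH ∧ wH ≤ 13 / 25 + 11 * e := by
  have k2 : 2 / 5 - 2 * e ≤ k := by nlinarith
  have k3 : k ≤ 2 / 5 + 6 * e := by nlinarith
  refine ⟨by linarith, by nlinarith, by linarith, by nlinarith⟩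

lemma side (e x y r n uL wL uY wY uH wH s z uC wC uM wM uZ wZ uG wG : ℝ) (e0 : 0 ≤ e)
    (e1 : e ≤ 1 / 10000) (r0 : 0 ≤ r) (r1 : r ≤ 1) (n0 : 0 ≤ n) (n1 : n ≤ 1)
    (s0 : 0 ≤ s) (s1 : s ≤ 1) (z0 : 0 ≤ z) (z1 : z ≤ 1)
    (hx : x = r * uY + (1 - r) * uL) (hy : y = r * wY + (1 - r) * wL)
    (huL : uL = n * uH + (1 - n) * x) (hwL : wL = n * wH + (1 - n) * y)
    (g1 : wL ≤ y + e) (g2 : 2 / 5 * wH + 3 / 5 * y ≤ wL + e) (hz : r = 0 → n = 0 → y = 0)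
    (Y1 : uY ≤ 3 / 5 + e) (Y2 : wY ≤ 2 / 5 + e)
    (H1 : uH ≤ 3 / 25 + 5 * e) (H2 : 13 / 25 - 2 * e ≤ wH) (H3 : wH ≤ 13 / 25 + 11 * e)
    (huC : uC = s * uZ + (1 - s) * uM) (hwC : wC = s * wZ + (1 - s) * wM)
    (huM : uM = z * uG + (1 - z) * x) (hwM : wM = z * wG + (1 - z) * y)
    (g3 : uZ ≤ uC + e) (g4 : 2 / 5 * wG + 3 / 5 * y ≤ wM + e) (m0 : 0 ≤ wM)
    (Z1 : 2 / 5 - e ≤ uZ) (Z2 : 3 / 5 - e ≤ wZ) (G1 : uG ≤ 13 / 25 + 11 * e)
    (G2 : wG ≤ 3 / 25 + 5 * e) (fin : wC ≤ y + e) : False := by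
  have y1 : 13 / 25 - 7 * e ≤ y := by linarith
  have t0 : 0 ≤ (1 - r) * n := mul_nonneg (by linarith) n0
  have l0 : 0 < r + (1 - r) * n := by
    rcases r0.eq_or_lt with h | h
    · rcases n0.eq_or_lt with h' | h'
      · have := hz h.symm h'.symm; linarith
      · rw [← h]; linarith
    · linarith
  have ex : (r + (1 - r) * n) * x = r * uY + (1 - r) * n * uH := by rw [huL] at hx; linarith
  have ey : (r + (1 - r) * n) * y = r * wY + (1 - r) * n * wH := by rw [hwL] at hy; linarith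
  have y2 : y ≤ 13 / 25 + 11 * e := by
    refine le_of_mul_le_mul_left ?_ l0
    have := mul_le_mul_of_nonneg_left H3 t0
    have := mul_le_mul_of_nonneg_left (show wY ≤ 13 / 25 + 11 * e by linarith) r0
    linarith
  have x2 : x + 4 * y ≤ 11 / 5 + 49 * e := by
    refine le_of_mul_le_mul_left ?_ l0
    have := mul_le_mul_of_nonneg_left (show uH + 4 * wH ≤ 11 / 5 + 49 * e by linarith) t0
    have := mul_le_mul_of_nonneg_left (show uY + 4 * wY ≤ 11 / 5 + 49 * e by linarith) r0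
    linarith
  have x3 : x ≤ 3 / 25 + 77 * e := by linarith
  have z2 : z ≤ 2 / 5 + 3 * e := by nlinarith
  have m1 : uM ≤ 7 / 25 + 79 * e := by
    have := mul_le_mul_of_nonneg_left G1 z0
    have := mul_le_mul_of_nonneg_left x3 (show 0 ≤ 1 - z by linarith)
    nlinarith
  have s2 : 1 - s ≤ 10 * e := by nlinarith
  have := mul_nonneg (show 0 ≤ 1 - s by linarith) m0
  have := mul_le_mul_of_nonneg_left Z2 s0
  nlinarith

def nx : Fin 14 → Fin 5 → Fin 5 → Fin 14 :=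
  ![fun a _ => if a = 0 then 2 else 1, fun _ b => if b = 0 then 3 else 0,
    fun _ b => if b = 0 then 6 else 4, fun a _ => if a = 0 then 7 else 5,
    fun a b => if b - a < 2 then 8 else 1, fun a b => if b - a < 2 then 9 else 1,
    fun a b => if b - a < 2 then 12 else 11, fun a b => if b - a < 2 then 11 else 12,
    fun a b => if b - a < 2 then 12 else 10, fun a b => if b - a < 2 then 11 else 10,
    fun a b => if b = a + 1 then 11 else if b = a + 2 then 12 else 13,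
    fun _ _ => 11, fun _ _ => 12, fun _ _ => 13]

def St (σ : Fin 14 → Fin 5 → ℝ) : Prop := (∀ s a, 0 ≤ σ s a) ∧ ∀ s, ∑ a, σ s a = 1

noncomputable def G (σ τ : Fin 14 → Fin 5 → ℝ) (v : Fin 14 → ℝ) (x : Fin 14) : ℝ :=
  ∑ a, ∑ b, σ x a * τ x b * v (nx x a b)

noncomputable def val (σ τ : Fin 14 → Fin 5 → ℝ) (T : Set (Fin 14)) (s : Fin 14) : ℝ :=
  ⨆ n : ℕ, ((fun v : Fin 14 → ℝ => T.indicator (fun _ => (1 : ℝ)) + Tᶜ.indicator (G σ τ v))^[n]
    (T.indicator (fun _ => (1 : ℝ)))) s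

variable {σ τ σ' τ' : Fin 14 → Fin 5 → ℝ}

lemma Gm (hσ : St σ) (hτ : St τ) {v w : Fin 14 → ℝ} (c : ℝ) (h : ∀ s, v s ≤ w s + c) (s : Fin 14) :
    G σ τ v s ≤ G σ τ w s + c := by
  have : c = ∑ a, ∑ b, σ s a * τ s b * c := by
    simp only [← Finset.sum_mul, ← Finset.mul_sum, hσ.2, hτ.2, mul_one, one_mul]
  rw [this, G, G, ← Finset.sum_add_distrib]
  refine Finset.sum_le_sum fun a _ => ?_
  rw [← Finset.sum_add_distrib]
  refine Finset.sum_le_sum fun b _ => ?_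
  rw [← mul_add]
  exact mul_le_mul_of_nonneg_left (h _) (mul_nonneg (hσ.1 _ _) (hτ.1 _ _))

lemma G0 (s : Fin 14) : G σ τ 0 s = 0 := by simp [G]

lemma facts (hσ : St σ) (hτ : St τ) (T : Set (Fin 14)) :
    (∀ s ∈ T, val σ τ T s = 1) ∧ (∀ s ∉ T, val σ τ T s = G σ τ (val σ τ T) s) ∧
    (∀ s, 0 ≤ val σ τ T s) ∧
    ∀ v : Fin 14 → ℝ, (∀ s, 0 ≤ v s) → (∀ s ∈ T, 1 ≤ v s) → (∀ s ∉ T, G σ τ v s ≤ v s) →
      ∀ s, val σ τ T s ≤ v s := by
  classical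
  have G1 : ∀ s, G σ τ 1 s ≤ 1 := fun s => by
    simpa [G0] using Gm hσ hτ (v := 1) (w := 0) 1 (fun s => by simp) s
  have i0 : ∀ s, 0 ≤ T.indicator (fun _ => (1 : ℝ)) s := fun s => by
    by_cases hs : s ∈ T <;> simp [hs]
  obtain ⟨h1, h2, h3⟩ := Pool.Agent.H30.Lfp.lfp
    (fun x : Fin 14 → ℝ => T.indicator (fun _ => (1 : ℝ)) + Tᶜ.indicator (G σ τ x))
    (fun x y hxy s => by
      by_cases hs : s ∈ T
      · simp [hs]
      · simpa [hs] using Gm hσ hτ 0 (fun s => by simpa using hxy s) s)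
    (continuous_pi fun s => by
      by_cases hs : s ∈ T
      · simp [hs, continuous_const]
      · simp only [Pi.add_apply, Set.indicator_of_notMem hs, Set.indicator_of_mem (Set.mem_compl hs), G]
        fun_prop) (T.indicator (fun _ => (1 : ℝ)))
    (fun s => by
      by_cases hs : s ∈ T
      · simp [hs]
      · simpa [hs, G0] using Gm hσ hτ (v := 0) 0 (fun s => by simpa using i0 s) s)
    (fun s => by by_cases hs : s ∈ T <;> simp [hs])
    (fun s => by by_cases hs : s ∈ T <;> simp [hs, G1])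
  refine ⟨fun s hs => ?_, fun s hs => ?_, fun s => (i0 s).trans (h2 s),
    fun v a b c => h3 v (fun s => ?_) fun s => ?_⟩
  · have := congrFun h1 s; simp [hs] at this; exact this.symm
  · have := congrFun h1 s
    simp only [Pi.add_apply, Set.indicator_of_notMem hs, Set.indicator_of_mem (Set.mem_compl hs),
      zero_add] at this
    exact this.symm
  · by_cases hs : s ∈ T
    · simpa [hs] using b s hs
    · simpa [hs] using a s
  · by_cases hs : s ∈ T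
    · simpa [hs] using b s hs
    · simpa [hs] using c s hs

lemma impr (hσ : St σ) (hτ : St τ) (hσ' : St σ') (hτ' : St τ') (T : Set (Fin 14)) (s0 : Fin 14)
    (hs0 : s0 ∉ T) (hag : ∀ s, s ≠ s0 → σ s = σ' s ∧ τ s = τ' s) (e : ℝ) (e0 : 0 ≤ e)
    (hne : val σ' τ' T s0 ≤ val σ τ T s0 + e) :
    G σ' τ' (val σ τ T) s0 ≤ val σ τ T s0 + e ∧
      ∀ s, val σ' τ' T s = val σ' τ' T s0 → val σ τ T s ≤ val σ τ T s0 + e := by
  obtain ⟨f1, f2, f3, f4⟩ := facts hσ hτ T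
  obtain ⟨g1, g2, g3, -⟩ := facts hσ' hτ' T
  set c := val σ τ T s0 + e - val σ' τ' T s0 with hc
  have c0 : 0 ≤ c := by linarith
  have key : ∀ s, val σ τ T s ≤ val σ' τ' T s + c := by
    intro s
    refine (f4 (fun s => min (val σ τ T s) (val σ' τ' T s + c)) (fun s => le_min (f3 s) (by
      linarith [g3 s])) (fun s hs => le_min (f1 s hs).ge (by linarith [g1 s hs])) (fun s hs => ?_) s).trans
      (min_le_right _ _)
    have a := Gm hσ hτ (v := fun s => min (val σ τ T s) (val σ' τ' T s + c)) (w := val σ τ T) 0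
      (fun s => by simp) s
    rw [← f2 s hs, add_zero] at a
    refine le_min a ?_
    by_cases h : s = s0
    · rw [h] at a ⊢; linarith
    · have b := Gm hσ hτ (v := fun s => min (val σ τ T s) (val σ' τ' T s + c)) (w := val σ' τ' T) c
        (fun s => min_le_right _ _) s
      have : G σ τ (val σ' τ' T) s = G σ' τ' (val σ' τ' T) s := by
        simp only [G, (hag s h).1, (hag s h).2]
      rwa [this, ← g2 s hs] at b
  refine ⟨?_, fun s hs => by linarith [key s]⟩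
  have := Gm hσ' hτ' c key s0
  rw [← g2 s0 hs0] at this
  linarith

noncomputable def eta (x y : Fin 5 → ℝ) : ℝ := ∑ a, ∑ b, if b - a < 2 then x a * y b else 0

lemma lot {x y : Fin 5 → ℝ} (hx : Sx x) (hy : Sx y) (v : Fin 14 → ℝ) (P Q : Fin 14) :
    ∑ a, ∑ b, x a * y b * v (if b - a < 2 then P else Q) = eta x y * v P + (1 - eta x y) * v Q := by
  have : v Q = ∑ a, ∑ b, x a * y b * v Q := by
    simp only [← Finset.sum_mul, ← Finset.mul_sum, hx.2, hy.2, mul_one, one_mul]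
  rw [sub_mul, one_mul]
  nth_rw 1 [this]
  simp only [eta, Finset.sum_mul, ← Finset.sum_sub_distrib, ← Finset.sum_add_distrib]
  refine Finset.sum_congr rfl fun a _ => Finset.sum_congr rfl fun b _ => ?_
  split_ifs <;> ring

lemma eta01 {x y : Fin 5 → ℝ} (hx : Sx x) (hy : Sx y) : 0 ≤ eta x y ∧ eta x y ≤ 1 := by
  have : (1 : ℝ) = ∑ a, ∑ b, x a * y b := by
    simp only [← Finset.mul_sum, hx.2, hy.2, mul_one]
  constructor
  · refine Finset.sum_nonneg fun a _ => Finset.sum_nonneg fun b _ => ?_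
    have := mul_nonneg (hx.1 a) (hy.1 b)
    split_ifs <;> linarith
  · rw [this]
    refine Finset.sum_le_sum fun a _ => Finset.sum_le_sum fun b _ => ?_
    have := mul_nonneg (hx.1 a) (hy.1 b)
    split_ifs <;> linarith

lemma etaU {x : Fin 5 → ℝ} (hx : Sx x) :
    eta (fun _ => 1 / 5) x = 2 / 5 ∧ eta x (fun _ => 1 / 5) = 2 / 5 := by
  have := hx.2
  rw [Fin.sum_univ_five] at this
  constructor <;> simp +decide only [eta, Fin.sum_univ_five, if_true, if_false] <;> linarith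

lemma ctl {x y : Fin 5 → ℝ} (hx : Sx x) (hy : Sx y) (v : Fin 14 → ℝ) (P Q : Fin 14) :
    ∑ a, ∑ b, x a * y b * v (if a = 0 then P else Q) = x 0 * v P + (1 - x 0) * v Q ∧
    ∑ a, ∑ b, x a * y b * v (if b = 0 then P else Q) = y 0 * v P + (1 - y 0) * v Q := by
  have h1 := hx.2
  have h2 := hy.2
  rw [Fin.sum_univ_five] at h1 h2
  have e1 : x 4 = 1 - x 0 - x 1 - x 2 - x 3 := by linarith
  have e2 : y 4 = 1 - y 0 - y 1 - y 2 - y 3 := by linarith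
  constructor <;> simp +decide only [Fin.sum_univ_five, if_true, if_false, e1, e2] <;> ring

lemma shp {x y : Fin 5 → ℝ} (v : Fin 14 → ℝ) (h : v 13 = 0) :
    ∑ a, ∑ b, x a * y b * v (if b = a + 1 then 11 else if b = a + 2 then 12 else 13) =
      (∑ i, x i * y (i + 1)) * v 11 + (∑ i, x i * y (i + 2)) * v 12 := by
  simp +decide only [Fin.sum_univ_five, if_true, if_false, h, Fin.reduceAdd]
  ring

lemma sx (h : St σ) (s : Fin 14) : Sx (σ s) := ⟨h.1 s, h.2 s⟩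

lemma ab {x y : Fin 5 → ℝ} (hx : Sx x) (hy : Sx y) (c : ℝ) : ∑ a, ∑ b, x a * y b * c = c := by
  simp only [← Finset.sum_mul, ← Finset.mul_sum, hx.2, hy.2, mul_one, one_mul]

lemma Gv (hσ : St σ) (hτ : St τ) (v : Fin 14 → ℝ) :
    G σ τ v 0 = σ 0 0 * v 2 + (1 - σ 0 0) * v 1 ∧ G σ τ v 1 = τ 1 0 * v 3 + (1 - τ 1 0) * v 0 ∧
    G σ τ v 2 = τ 2 0 * v 6 + (1 - τ 2 0) * v 4 ∧ G σ τ v 3 = σ 3 0 * v 7 + (1 - σ 3 0) * v 5 ∧
    G σ τ v 4 = eta (σ 4) (τ 4) * v 8 + (1 - eta (σ 4) (τ 4)) * v 1 ∧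
    G σ τ v 5 = eta (σ 5) (τ 5) * v 9 + (1 - eta (σ 5) (τ 5)) * v 1 ∧
    G σ τ v 6 = eta (σ 6) (τ 6) * v 12 + (1 - eta (σ 6) (τ 6)) * v 11 ∧
    G σ τ v 7 = eta (σ 7) (τ 7) * v 11 + (1 - eta (σ 7) (τ 7)) * v 12 ∧
    G σ τ v 8 = eta (σ 8) (τ 8) * v 12 + (1 - eta (σ 8) (τ 8)) * v 10 ∧
    G σ τ v 9 = eta (σ 9) (τ 9) * v 11 + (1 - eta (σ 9) (τ 9)) * v 10 ∧
    (v 13 = 0 → G σ τ v 10 = (∑ i, σ 10 i * τ 10 (i + 1)) * v 11 + (∑ i, σ 10 i * τ 10 (i + 2)) * v 12) ∧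
    G σ τ v 11 = v 11 ∧ G σ τ v 12 = v 12 ∧ G σ τ v 13 = v 13 :=
  ⟨(ctl (sx hσ 0) (sx hτ 0) v 2 1).1, (ctl (sx hσ 1) (sx hτ 1) v 3 0).2,
    (ctl (sx hσ 2) (sx hτ 2) v 6 4).2, (ctl (sx hσ 3) (sx hτ 3) v 7 5).1,
    lot (sx hσ 4) (sx hτ 4) v 8 1, lot (sx hσ 5) (sx hτ 5) v 9 1, lot (sx hσ 6) (sx hτ 6) v 12 11,
    lot (sx hσ 7) (sx hτ 7) v 11 12, lot (sx hσ 8) (sx hτ 8) v 12 10, lot (sx hσ 9) (sx hτ 9) v 11 10,
    shp v, ab (sx hσ 11) (sx hτ 11) _, ab (sx hσ 12) (sx hτ 12) _, ab (sx hσ 13) (sx hτ 13) _⟩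

end Pool.Agent.H30.Rch
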