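import Mathlib

set_option autoImplicit false

namespace Pool.Agent.H30.Semilin

/-- Elements of (Q semidirect Z, the generator doubling) times the Klein bottle group. -/
@[ext] structure G where
  q : ℚ
  k : ℤ
  x : ℤ
  v : ℤ

/-- sign of the parity -/
def sg (v : ℤ) : ℤ := if v % 2 = 0 then 1 else -1

lemma sg_add (a b : ℤ) : sg (a + b) = sg a * sg b := by
  unfold sg
  split_ifs <;> omega

lemma sg_neg (a : ℤ) : sg (-a) = sg a := by
  unfold sg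
  split_ifs <;> omega

lemma sg_zero : sg 0 = 1 := rfl

lemma sg_sq (a : ℤ) : sg a * sg a = 1 := by
  unfold sg
  split_ifs <;> omega

instance : Mul G := ⟨fun a b => ⟨a.q + (2 : ℚ) ^ a.k * b.q, a.k + b.k, a.x + sg a.v * b.x, a.v + b.v⟩⟩
instance : One G := ⟨⟨0, 0, 0, 0⟩⟩
instance : Inv G := ⟨fun a => ⟨-((2 : ℚ) ^ (-a.k) * a.q), -a.k, -(sg a.v * a.x), -a.v⟩⟩

@[simp] lemma mul_q (a b : G) : (a * b).q = a.q + (2 : ℚ) ^ a.k * b.q := rfl
@[simp] lemma mul_k (a b : G) : (a * b).k = a.k + b.k := rfl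
@[simp] lemma mul_x (a b : G) : (a * b).x = a.x + sg a.v * b.x := rfl
@[simp] lemma mul_v (a b : G) : (a * b).v = a.v + b.v := rfl
@[simp] lemma one_q : (1 : G).q = 0 := rfl
@[simp] lemma one_k : (1 : G).k = 0 := rfl
@[simp] lemma one_x : (1 : G).x = 0 := rfl
@[simp] lemma one_v : (1 : G).v = 0 := rfl
@[simp] lemma inv_q (a : G) : (a⁻¹).q = -((2 : ℚ) ^ (-a.k) * a.q) := rfl
@[simp] lemma inv_k (a : G) : (a⁻¹).k = -a.k := rfl
@[simp] lemma inv_x (a : G) : (a⁻¹).x = -(sg a.v * a.x) := rfl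
@[simp] lemma inv_v (a : G) : (a⁻¹).v = -a.v := rfl

instance : Group G := Group.ofLeftAxioms
  (by
    intro a b c
    ext
    · simp only [mul_q, mul_k]
      rw [zpow_add₀ (by norm_num : (2 : ℚ) ≠ 0)]
      ring
    · simp only [mul_k]; ring
    · simp only [mul_x, mul_v, sg_add]; ring
    · simp only [mul_v]; ring)
  (by
    intro a
    ext <;> simp [sg_zero])
  (by
    intro a
    ext
    · simp
    · simp
    · simp [sg_neg]
    · simp)

/-- rationals with odd denominator -/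
def L (q : ℚ) : Prop := ∃ m n : ℤ, m % 2 = 1 ∧ (m : ℚ) * q = n

lemma L_zero : L 0 := ⟨1, 0, by norm_num, by simp⟩

lemma L_add {a b : ℚ} (ha : L a) (hb : L b) : L (a + b) := by
  obtain ⟨m, n, hm, h⟩ := ha
  obtain ⟨m', n', hm', h'⟩ := hb
  refine ⟨m * m', n * m' + m * n', ?_, ?_⟩
  · rw [Int.mul_emod, hm, hm']; rfl
  · push_cast
    rw [← h, ← h']; ring

lemma L_neg {a : ℚ} (ha : L a) : L (-a) := by
  obtain ⟨m, n, hm, h⟩ := ha
  exact ⟨m, -n, hm, by push_cast; rw [← h]; ring⟩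

lemma L_pow {a : ℚ} (ha : L a) {k : ℤ} (hk : 0 ≤ k) : L ((2 : ℚ) ^ k * a) := by
  obtain ⟨m, n, hm, h⟩ := ha
  obtain ⟨j, rfl⟩ := Int.eq_ofNat_of_zero_le hk
  refine ⟨m, 2 ^ j * n, hm, ?_⟩
  push_cast
  rw [← h, zpow_natCast]; ring

lemma L_ev (a : ℚ) : ∃ j : ℕ, L ((2 : ℚ) ^ (j : ℤ) * a) := by
  obtain ⟨j, m, hm, hd⟩ := Nat.exists_eq_two_pow_mul_odd a.den_nz
  refine ⟨j, m, a.num, ?_, ?_⟩
  · obtain ⟨t, rfl⟩ := hm
    push_cast
    omega
  · have h1 : (a.den : ℚ) * a = a.num := by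
      rw [mul_comm]; exact Rat.mul_den_eq_num a
    rw [← h1, hd, zpow_natCast]
    push_cast
    ring

/-- the positive cone -/
def P (g : G) : Prop :=
  L g.q ∧ (0 < g.k ∨ (g.k = 0 ∧ (0 < 2 * g.q - g.v ∨ (2 * g.q - g.v = 0 ∧
    (0 < g.x ∨ (g.x = 0 ∧ 0 ≤ g.v))))))

lemma P_one : P 1 := ⟨L_zero, by simp⟩

lemma even_of {g : G} (hL : L g.q) (h : 2 * g.q - g.v = 0) : sg g.v = 1 := by
  obtain ⟨m, n, hm, hq⟩ := hL
  have h1 : (m : ℚ) * g.v = 2 * n := by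
    have : (g.v : ℚ) = 2 * g.q := by linarith
    rw [this, ← hq]; ring
  have h2 : m * g.v = 2 * n := by exact_mod_cast h1
  unfold sg
  rw [if_pos]
  rcases Int.emod_two_eq_zero_or_one g.v with h3 | h3
  · exact h3
  · have : (m * g.v) % 2 = 1 := by rw [Int.mul_emod, hm, h3]; rfl
    omega

lemma P_mul {a b : G} (ha : P a) (hb : P b) : P (a * b) := by
  obtain ⟨la, ha⟩ := ha
  obtain ⟨lb, hb⟩ := hb
  have hka : 0 ≤ a.k := by rcases ha with h | h <;> omega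
  have hkb : 0 ≤ b.k := by rcases hb with h | h <;> omega
  refine ⟨L_add la (L_pow lb hka), ?_⟩
  rcases ha with ha | ⟨ka, ha⟩
  · left; simp only [mul_k]; omega
  rcases hb with hb | ⟨kb, hb⟩
  · left; simp only [mul_k]; omega
  right
  refine ⟨by simp [ka, kb], ?_⟩
  simp only [mul_q, mul_v, mul_x, ka, zpow_zero, one_mul]
  push_cast
  rcases ha with ha | ⟨ea, ha⟩
  · left
    rcases hb with hb | ⟨eb, hb⟩ <;> linarith
  rcases hb with hb | ⟨eb, hb⟩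
  · left; linarith
  right
  refine ⟨by linarith, ?_⟩
  rw [even_of la ea]
  omega

lemma P_anti {a : G} (ha : P a) (hb : P a⁻¹) : a = 1 := by
  obtain ⟨la, ha⟩ := ha
  obtain ⟨-, hb⟩ := hb
  simp only [inv_k, inv_q, inv_v, inv_x] at hb
  have hk : a.k = 0 := by rcases ha with h | h <;> rcases hb with h' | h' <;> omega
  rcases ha with ha | ⟨-, ha⟩
  · omega
  rcases hb with hb | ⟨-, hb⟩
  · omega
  simp only [hk, neg_zero, zpow_zero, one_mul] at hb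
  push_cast at hb
  rcases ha with ha | ⟨ea, ha⟩
  · rcases hb with hb | ⟨eb, hb⟩ <;> linarith
  rcases hb with hb | ⟨eb, hb⟩
  · linarith
  rw [even_of la ea] at hb
  have hv : a.v = 0 := by omega
  have hx : a.x = 0 := by omega
  ext
  · rw [hv] at ea; simp at ea; simpa using ea
  · simpa using hk
  · simpa using hx
  · simpa using hv

lemma P_total0 {a : G} (la : L a.q) (hk : a.k = 0) : P a ∨ P a⁻¹ := by
  unfold P
  simp only [inv_k, inv_q, inv_v, inv_x, hk, neg_zero, zpow_zero, one_mul]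
  push_cast
  rcases lt_trichotomy 0 (2 * a.q - a.v) with h | h | h
  · left; exact ⟨la, Or.inr ⟨trivial, Or.inl h⟩⟩
  · have e := even_of la h.symm
    rw [e]
    have h' : 2 * -a.q - -(a.v : ℚ) = 0 := by linarith
    by_cases hx : 0 < a.x ∨ (a.x = 0 ∧ 0 ≤ a.v)
    · left; exact ⟨la, Or.inr ⟨trivial, Or.inr ⟨h.symm, hx⟩⟩⟩
    · right; exact ⟨L_neg la, Or.inr ⟨trivial, Or.inr ⟨h', by omega⟩⟩⟩
  · right; exact ⟨L_neg la, Or.inr ⟨trivial, Or.inl (by linarith)⟩⟩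

lemma L_div {a b : G} (la : L a.q) (lb : L b.q) (h : a.k ≤ b.k) : L (b * a⁻¹).q := by
  simp only [mul_q, inv_q]
  have : (2 : ℚ) ^ b.k * -((2 : ℚ) ^ (-a.k) * a.q) = -((2 : ℚ) ^ (b.k - a.k) * a.q) := by
    rw [sub_eq_add_neg, zpow_add₀ (by norm_num : (2 : ℚ) ≠ 0)]; ring
  rw [this]
  exact L_add lb (L_neg (L_pow la (by omega)))

lemma P_chain {a b : G} (ha : P a) (hb : P b) : P (b * a⁻¹) ∨ P (a * b⁻¹) := by
  rcases lt_trichotomy a.k b.k with h | h | h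
  · left; exact ⟨L_div ha.1 hb.1 h.le, Or.inl (by simp only [mul_k, inv_k]; omega)⟩
  · have := P_total0 (L_div ha.1 hb.1 h.le) (by simp only [mul_k, inv_k]; omega)
    rwa [mul_inv_rev, inv_inv] at this
  · right; exact ⟨L_div hb.1 ha.1 h.le, Or.inl (by simp only [mul_k, inv_k]; omega)⟩

lemma P_ev (a : G) : ∃ j : ℤ, ∀ i : ℤ, j ≤ i → P ((⟨0, i, 0, 0⟩ : G) * a) := by
  obtain ⟨j, hj⟩ := L_ev a.q
  refine ⟨max (j : ℤ) (1 - a.k), fun i hi => ⟨?_, Or.inl ?_⟩⟩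
  · simp only [mul_q, zero_add]
    have h1 : (j : ℤ) ≤ i := le_trans (le_max_left _ _) hi
    have : (2 : ℚ) ^ i * a.q = (2 : ℚ) ^ (i - j) * ((2 : ℚ) ^ (j : ℤ) * a.q) := by
      rw [← mul_assoc, ← zpow_add₀ (by norm_num : (2 : ℚ) ≠ 0)]; simp
    rw [this]
    exact L_pow hj (by omega)
  · have h1 : 1 - a.k ≤ i := le_trans (le_max_right _ _) hi
    simp only [mul_k]; omega

def ea : G := ⟨0, 0, 1, 0⟩
def ew : G := ⟨1 / 2, 0, 0, 1⟩

lemma P_ea : P ea := ⟨L_zero, by simp [ea]⟩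

lemma P_1 : P (ew * ew * ea) := by
  refine ⟨⟨1, 1, by norm_num, by simp [ea, ew]; norm_num⟩, Or.inr ⟨by simp [ea, ew], Or.inr ⟨?_, Or.inl ?_⟩⟩⟩
  · simp [ea, ew]; norm_num
  · simp [ea, ew, sg]

lemma P_2 : P (ew⁻¹ * ew⁻¹ * ea) := by
  refine ⟨⟨1, -1, by norm_num, by simp [ea, ew]; norm_num⟩, Or.inr ⟨by simp [ea, ew], Or.inr ⟨?_, Or.inl ?_⟩⟩⟩
  · simp [ea, ew]; norm_num
  · simp [ea, ew, sg]

lemma rel1 : ew * ea * ew * (ew⁻¹ * ew⁻¹ * ea) = 1 := by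
  ext <;> simp [ea, ew, sg]

lemma rel2 : ew⁻¹ * ea * ew⁻¹ * (ew * ew * ea) = 1 := by
  ext <;> simp [ea, ew, sg]

lemma ew_ne : ew ≠ 1 := by
  intro h
  have := congrArg G.v h
  simp [ew] at this

end Pool.Agent.H30.Semilin
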