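import Mathlib

/-! Syzygies of three binary forms. -/

namespace Pool.Agent.H30.Split
open Polynomial Module

variable {K : Type} [Field K]

noncomputable def Phi (P : Fin 3 → K[X]) (e : ℕ) : (Fin 3 → degreeLT K e) →ₗ[K] K[X] where
  toFun a := ∑ j, (a j : K[X]) * P j
  map_add' a b := by simp [add_mul, Finset.sum_add_distrib]
  map_smul' c a := by simp [Finset.smul_sum]

lemma fr_lt (e : ℕ) : finrank K (degreeLT K e) = e := by
  rw [(degreeLTEquiv K e).finrank_eq]; simp

lemma fr_W (e : ℕ) : finrank K (Fin 3 → degreeLT K e) = 3 * e := by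
  rw [finrank_pi_fintype]; simp [fr_lt]

lemma range_le (P : Fin 3 → K[X]) (n : ℕ) (hP : ∀ j, (P j).natDegree ≤ n) (e : ℕ) :
    LinearMap.range (Phi P e) ≤ degreeLT K (e + n) := by
  rintro _ ⟨a, rfl⟩
  change ∑ j, (a j : K[X]) * P j ∈ _
  refine Submodule.sum_mem _ fun j _ => ?_
  rw [mem_degreeLT]
  have h1 := mem_degreeLT.1 (a j).2
  have h2 : (P j).degree ≤ n := degree_le_of_natDegree_le (hP j)
  by_cases h0 : P j = 0
  · simp [h0]
  rw [degree_mul]
  push_cast
  exact WithBot.add_lt_add_of_lt_of_le (degree_ne_bot.2 h0) h1 h2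

lemma ker_ge (P : Fin 3 → K[X]) (n : ℕ) (hP : ∀ j, (P j).natDegree ≤ n) (e : ℕ) :
    3 * e ≤ finrank K (LinearMap.ker (Phi P e)) + (e + n) := by
  have h1 := LinearMap.finrank_range_add_finrank_ker (Phi P e)
  have h2 := Submodule.finrank_mono (range_le P n hP e)
  rw [fr_W] at h1
  rw [fr_lt] at h2
  omega

lemma ker_eq (P : Fin 3 → K[X]) (n e : ℕ) (h : degreeLT K (e + n) ≤ LinearMap.range (Phi P e)) :
    finrank K (LinearMap.ker (Phi P e)) + (e + n) ≤ 3 * e := by
  have h1 := LinearMap.finrank_range_add_finrank_ker (Phi P e)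
  have h2 := Submodule.finrank_mono h
  rw [fr_W] at h1
  rw [fr_lt] at h2
  omega

/-- not parallel -/
def NP {R : Type} [CommRing R] (a b : Fin 3 → R) : Prop :=
  a 1 * b 2 - a 2 * b 1 ≠ 0 ∨ a 2 * b 0 - a 0 * b 2 ≠ 0 ∨ a 0 * b 1 - a 1 * b 0 ≠ 0

noncomputable def mulX (e : ℕ) : (Fin 3 → degreeLT K e) →ₗ[K] (Fin 3 → degreeLT K (e + 1)) where
  toFun a j := ⟨X * (a j : K[X]), by
    rw [mem_degreeLT, degree_mul, degree_X, add_comm]
    push_cast
    exact WithBot.add_lt_add_right (by simp) (mem_degreeLT.1 (a j).2)⟩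
  map_add' a b := by ext j : 2; simp [mul_add]
  map_smul' c a := by ext j : 2; simp

noncomputable def ev0 (e : ℕ) : (Fin 3 → degreeLT K e) →ₗ[K] (Fin 3 → K) where
  toFun a j := (a j : K[X]).coeff 0
  map_add' a b := by ext j; simp
  map_smul' c a := by ext j; simp

lemma exists_np (P : Fin 3 → K[X]) (e : ℕ)
    (h : finrank K (LinearMap.ker (Phi P e)) + 2 ≤ finrank K (LinearMap.ker (Phi P (e + 1))))
    (y : Fin 3 → K) (hy : y ≠ 0) :
    ∃ V : Fin 3 → K[X], (∀ j, (V j).natDegree ≤ e) ∧ ∑ j, V j * P j = 0 ∧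
      NP y (fun j => (V j).coeff 0) := by
  by_contra hc
  push Not at hc
  set Z := LinearMap.ker (Phi P (e + 1))
  let E : Z →ₗ[K] (Fin 3 → K) := (ev0 (e + 1)).comp Z.subtype
  have h1 := LinearMap.finrank_range_add_finrank_ker (K := K) (V := Z) (V₂ := Fin 3 → K) E
  have h2 : LinearMap.range E ≤ Submodule.span K {y} := by
    rintro _ ⟨a, rfl⟩
    have := hc (fun j => (a.1 j : K[X]))
      (fun j => natDegree_le_of_degree_le (by
        have := mem_degreeLT.1 (a.1 j).2
        rw [degree_lt_iff_coeff_zero] at this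
        rw [degree_le_iff_coeff_zero]
        intro m hm
        exact this m (by exact_mod_cast hm))) a.2
    simp only [NP, not_or, not_not] at this
    obtain ⟨c1, c2, c3⟩ := this
    rw [Submodule.mem_span_singleton]
    have hy' : y 0 ≠ 0 ∨ y 1 ≠ 0 ∨ y 2 ≠ 0 := by
      by_contra hh
      push Not at hh
      apply hy
      ext j; fin_cases j <;> simp [hh]
    change ∃ c : K, c • y = fun j => (a.1 j : K[X]).coeff 0
    rcases hy' with g | g | g
    · refine ⟨(a.1 0 : K[X]).coeff 0 / y 0, ?_⟩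
      ext j; fin_cases j <;> simp <;> field_simp
      · linear_combination -c3
      · linear_combination c2
    · refine ⟨(a.1 1 : K[X]).coeff 0 / y 1, ?_⟩
      ext j; fin_cases j <;> simp <;> field_simp
      · linear_combination c3
      · linear_combination -c1
    · refine ⟨(a.1 2 : K[X]).coeff 0 / y 2, ?_⟩
      ext j; fin_cases j <;> simp <;> field_simp
      · linear_combination -c2
      · linear_combination c1
  have h3 : finrank K (LinearMap.range E) ≤ 1 :=
    (Submodule.finrank_mono h2).trans (finrank_span_singleton hy).le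
  have h4 : (LinearMap.ker E).map Z.subtype ≤ (LinearMap.ker (Phi P e)).map (mulX e) := by
    rintro _ ⟨a, ha, rfl⟩
    have h0 : ∀ j, (a.1 j : K[X]).coeff 0 = 0 := fun j => congrFun ha j
    have hx : ∀ j, (X : K[X]) * (a.1 j : K[X]).divX = (a.1 j : K[X]) := fun j => by
      have := X_mul_divX_add (a.1 j : K[X])
      rwa [h0, map_zero, add_zero] at this
    refine ⟨fun j => ⟨(a.1 j : K[X]).divX, ?_⟩, ?_, ?_⟩
    · have := mem_degreeLT.1 (a.1 j).2
      rw [mem_degreeLT]
      rw [degree_lt_iff_coeff_zero] at this ⊢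
      intro m hm
      rw [coeff_divX]
      exact this _ (by omega)
    · have h5 : ∑ j, (a.1 j : K[X]) * P j = 0 := a.2
      change ∑ j, (a.1 j : K[X]).divX * P j = 0
      apply mul_left_cancel₀ (X_ne_zero (R := K))
      rw [mul_zero, ← h5, Finset.mul_sum]
      exact Finset.sum_congr rfl fun j _ => by rw [← mul_assoc, hx]
    · ext j : 2
      exact hx j
  have h5 := (Submodule.finrank_mono h4).trans (Submodule.finrank_map_le _ _)
  rw [← (Submodule.equivMapOfInjective _ Z.injective_subtype (LinearMap.ker E)).finrank_eq] at h5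
  omega

/-- the matrix of selected columns -/
noncomputable def Mat {R : Type} [CommRing R] {N : ℕ} (sel : Fin N → Fin 3 × ℕ)
    (P : Fin 3 → R[X]) : Matrix (Fin N) (Fin N) R :=
  Matrix.of fun k c => (X ^ (sel c).2 * P (sel c).1).coeff k

lemma Mat_map {R S : Type} [CommRing R] [CommRing S] {N : ℕ} (sel : Fin N → Fin 3 × ℕ)
    (P : Fin 3 → R[X]) (φ : R →+* S) :
    φ (Mat sel P).det = (Mat sel fun j => (P j).map φ).det := by
  rw [RingHom.map_det]
  congr 1
  ext k c
  simp [Mat, ← coeff_map]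

lemma surj_of_det (P : Fin 3 → K[X]) (n : ℕ) (hP : ∀ j, (P j).natDegree ≤ n) (e : ℕ)
    (sel : Fin (e + n) → Fin 3 × ℕ) (hs : ∀ c, (sel c).2 < e) (hd : (Mat sel P).det ≠ 0) :
    degreeLT K (e + n) ≤ LinearMap.range (Phi P e) := by
  intro T hT
  have hu : IsUnit (Mat sel P) := (Matrix.isUnit_iff_isUnit_det _).2 (Ne.isUnit hd)
  obtain ⟨x, hx⟩ := (Matrix.mulVec_surjective_iff_isUnit.2 hu) (fun k => T.coeff k)
  let b : Fin (e + n) → (Fin 3 → degreeLT K e) := fun c =>
    Pi.single (sel c).1 ⟨X ^ (sel c).2, by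
      rw [mem_degreeLT, degree_X_pow]; exact_mod_cast hs c⟩
  have hb : ∀ c, Phi P e (b c) = X ^ (sel c).2 * P (sel c).1 := by
    intro c
    change ∑ j, (b c j : K[X]) * P j = _
    rw [Finset.sum_eq_single (sel c).1]
    · simp [b]
    · intro j _ hj
      simp [b, Pi.single_eq_of_ne hj]
    · simp
  refine ⟨∑ c, x c • b c, ?_⟩
  have hm := range_le P n hP e ⟨∑ c, x c • b c, rfl⟩
  rw [mem_degreeLT, degree_lt_iff_coeff_zero] at hm hT
  ext k
  by_cases hk : k < e + n
  · have := congrFun hx ⟨k, hk⟩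
    simp only [Matrix.mulVec, dotProduct, Mat, Matrix.of_apply] at this
    rw [← this, map_sum, finsetSum_coeff]
    exact Finset.sum_congr rfl fun c _ => by rw [map_smul, hb, coeff_smul, smul_eq_mul, mul_comm]
  · rw [hm k (by omega), hT k (by omega)]

lemma get_rep (P : Fin 3 → K[X]) (e : ℕ) (T : K[X]) (h : T ∈ LinearMap.range (Phi P (e + 1))) :
    ∃ a : Fin 3 → K[X], (∀ j, (a j).natDegree ≤ e) ∧ ∑ j, a j * P j = T := by
  obtain ⟨a, ha⟩ := h
  refine ⟨fun j => a j, fun j => ?_, ha⟩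
  have := mem_degreeLT.1 (a j).2
  rw [degree_lt_iff_coeff_zero] at this
  rw [natDegree_le_iff_coeff_eq_zero]
  intro m hm
  exact this m (by omega)

lemma cross_const (P U V : Fin 3 → K[X]) (n e d1 d2 : ℕ) (hd : d1 + d2 = n)
    (hs : degreeLT K (e + 1 + n) ≤ LinearMap.range (Phi P (e + 1)))
    (hU : ∀ j, (U j).natDegree ≤ d1) (hV : ∀ j, (V j).natDegree ≤ d2)
    (hUP : ∑ j, U j * P j = 0) (hVP : ∑ j, V j * P j = 0)
    (hnp : NP (fun j => (U j).coeff 0) (fun j => (V j).coeff 0)) :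
    ∃ c : K, c ≠ 0 ∧ U 1 * V 2 - U 2 * V 1 = C c * P 0 ∧ U 2 * V 0 - U 0 * V 2 = C c * P 1 ∧
      U 0 * V 1 - U 1 * V 0 = C c * P 2 := by
  obtain ⟨a, ha, haP⟩ := get_rep P e (X ^ (e + n)) (hs (by
    rw [mem_degreeLT, degree_X_pow]; exact_mod_cast (by omega)))
  obtain ⟨b, -, hbP⟩ := get_rep P e 1 (hs (by
    rw [mem_degreeLT, degree_one]; exact_mod_cast (by omega)))
  simp only [Fin.sum_univ_three] at hUP hVP haP hbP
  set h := b 0 * (U 1 * V 2 - U 2 * V 1) + b 1 * (U 2 * V 0 - U 0 * V 2)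
    + b 2 * (U 0 * V 1 - U 1 * V 0) with hh
  have e0 : U 1 * V 2 - U 2 * V 1 = h * P 0 := by
    rw [hh]
    linear_combination (-(U 1 * V 2 - U 2 * V 1)) * hbP + (b 1 * V 2 - b 2 * V 1) * hUP
      - (b 1 * U 2 - b 2 * U 1) * hVP
  have e1 : U 2 * V 0 - U 0 * V 2 = h * P 1 := by
    rw [hh]
    linear_combination (-(U 2 * V 0 - U 0 * V 2)) * hbP + (b 2 * V 0 - b 0 * V 2) * hUP
      - (b 2 * U 0 - b 0 * U 2) * hVP
  have e2 : U 0 * V 1 - U 1 * V 0 = h * P 2 := by
    rw [hh]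
    linear_combination (-(U 0 * V 1 - U 1 * V 0)) * hbP + (b 0 * V 1 - b 1 * V 0) * hUP
      - (b 0 * U 1 - b 1 * U 0) * hVP
  clear_value h
  have h0 : h ≠ 0 := by
    rintro rfl
    have c0 := congrArg (fun p => p.coeff 0) e0
    have c1 := congrArg (fun p => p.coeff 0) e1
    have c2 := congrArg (fun p => p.coeff 0) e2
    simp only [coeff_sub, mul_coeff_zero, coeff_zero, zero_mul] at c0 c1 c2
    rcases hnp with g | g | g <;> contradiction
  have hx : h * X ^ (e + n) = a 0 * (U 1 * V 2 - U 2 * V 1) + a 1 * (U 2 * V 0 - U 0 * V 2)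
      + a 2 * (U 0 * V 1 - U 1 * V 0) := by
    rw [e0, e1, e2, ← haP]; ring
  have hm : ∀ i j k l m, (a i * (U j * V k - U l * V m)).natDegree ≤ e + n := fun i j k l m =>
    natDegree_mul_le.trans (add_le_add (ha i) ((natDegree_sub_le _ _).trans (max_le
      (natDegree_mul_le.trans (hd ▸ add_le_add (hU j) (hV k)))
      (natDegree_mul_le.trans (hd ▸ add_le_add (hU l) (hV m))))))
  have hdg : (h * X ^ (e + n)).natDegree ≤ e + n := by
    rw [hx]
    exact (natDegree_add_le _ _).trans (max_le ((natDegree_add_le _ _).trans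
      (max_le (hm _ _ _ _ _) (hm _ _ _ _ _))) (hm _ _ _ _ _))
  rw [natDegree_mul_X_pow _ h0] at hdg
  obtain ⟨c, rfl⟩ := natDegree_eq_zero.1 (show h.natDegree = 0 by omega)
  exact ⟨c, fun hc => h0 (by rw [hc, map_zero]), e0, e1, e2⟩

end Pool.Agent.H30.Split
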