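import Pool.Agent.H30.SplitA

/-! Homogeneous bases of syzygies of three binary forms. -/

namespace Pool.Agent.H30.Split
open Polynomial Module

variable {K : Type} [Field K]

abbrev S2 (K : Type) [Field K] := MvPolynomial (Fin 2) K

noncomputable def deh : S2 K →ₐ[K] K[X] := MvPolynomial.aeval ![X, 1]

lemma deh_inj {q : S2 K} {n : ℕ} (hq : q.IsHomogeneous n) (h : deh q = 0) : q = 0 := by
  rw [← homogenize_eq_of_isHomogeneous hq h, homogenize_zero]

lemma deh_hom {p : K[X]} {n : ℕ} (h : p.natDegree ≤ n) : deh (p.homogenize n) = p :=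
  aeval_homogenize_X_one p h

lemma deh_deg {q : S2 K} {n : ℕ} (hq : q.IsHomogeneous n) : (deh q).natDegree ≤ n := by
  have := MvPolynomial.aeval_natDegree_le q hq.totalDegree_le ![X, 1] (n := 1)
    (fun i => by fin_cases i <;> simp)
  rwa [mul_one] at this

lemma par (p al be a : Fin 3 → S2 K) (N : ℕ)
    (h1 : al 0 * p 0 + al 1 * p 1 + al 2 * p 2 = MvPolynomial.X 0 ^ N)
    (h2 : be 0 * p 0 + be 1 * p 1 + be 2 * p 2 = MvPolynomial.X 1 ^ N)
    (c0 : a 1 * p 2 = a 2 * p 1) (c1 : a 2 * p 0 = a 0 * p 2) (c2 : a 0 * p 1 = a 1 * p 0) :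
    ∃ h, a 0 = h * p 0 ∧ a 1 = h * p 1 ∧ a 2 = h * p 2 := by
  have hx : (MvPolynomial.X 0 : S2 K) ^ N ≠ 0 := pow_ne_zero _ (MvPolynomial.X_ne_zero _)
  have hrp : IsRelPrime ((MvPolynomial.X 0 : S2 K) ^ N) (MvPolynomial.X 1 ^ N) := by
    apply IsRelPrime.pow
    rw [(MvPolynomial.X_prime (i := (0 : Fin 2))).irreducible.isRelPrime_iff_not_dvd,
      MvPolynomial.X_dvd_X]
    simp
  generalize (MvPolynomial.X 0 : S2 K) ^ N = s at *
  generalize (MvPolynomial.X 1 : S2 K) ^ N = t at *
  set A := al 0 * a 0 + al 1 * a 1 + al 2 * a 2 with hA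
  set B := be 0 * a 0 + be 1 * a 1 + be 2 * a 2 with hB
  have k0 : s * a 0 = A * p 0 := by rw [hA, ← h1]; linear_combination al 1 * c2 - al 2 * c1
  have k1 : s * a 1 = A * p 1 := by rw [hA, ← h1]; linear_combination al 2 * c0 - al 0 * c2
  have k2 : s * a 2 = A * p 2 := by rw [hA, ← h1]; linear_combination al 0 * c1 - al 1 * c0
  have k : s * B = A * t := by
    rw [hB, ← h2]; linear_combination be 0 * k0 + be 1 * k1 + be 2 * k2
  obtain ⟨h, hh⟩ : s ∣ A := hrp.dvd_of_dvd_mul_right ⟨B, k.symm⟩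
  refine ⟨h, ?_, ?_, ?_⟩ <;> apply mul_left_cancel₀ hx
  · rw [k0, hh]; ring
  · rw [k1, hh]; ring
  · rw [k2, hh]; ring

lemma basis_of (p : Fin 3 → S2 K) (n e d1 d2 : ℕ) (hd : d1 + d2 = n)
    (hp : ∀ j, (p j).IsHomogeneous n)
    (hs : degreeLT K (e + 1 + n) ≤ LinearMap.range (Phi (fun j => deh (p j)) (e + 1)))
    (U V : Fin 3 → K[X])
    (hU : ∀ j, (U j).natDegree ≤ d1) (hV : ∀ j, (V j).natDegree ≤ d2)
    (hUP : ∑ j, U j * deh (p j) = 0) (hVP : ∑ j, V j * deh (p j) = 0)
    (hnp : NP (fun j => (U j).coeff 0) (fun j => (V j).coeff 0)) :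
    ∃ u v : Fin 3 → S2 K, (∀ j, (u j).IsHomogeneous d1) ∧ (∀ j, (v j).IsHomogeneous d2) ∧
      LinearIndependent (S2 K) ![u, v] ∧
      ∀ w : Fin 3 → S2 K, w ∈ Submodule.span (S2 K) {u, v} ↔ ∑ j, w j * p j = 0 := by
  obtain ⟨c, hc, e0, e1, e2⟩ := cross_const _ U V n e d1 d2 hd hs hU hV hUP hVP hnp
  obtain ⟨a, ha, haP⟩ := get_rep _ e (X ^ (e + n)) (hs (by
    rw [mem_degreeLT, degree_X_pow]; exact_mod_cast (by omega)))
  obtain ⟨b, hb, hbP⟩ := get_rep _ e 1 (hs (by
    rw [mem_degreeLT, degree_one]; exact_mod_cast (by omega)))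
  set u : Fin 3 → S2 K := fun j => (U j).homogenize d1 with hu
  set v : Fin 3 → S2 K := fun j => (V j).homogenize d2 with hv
  set al : Fin 3 → S2 K := fun j => (a j).homogenize e with hal
  set be : Fin 3 → S2 K := fun j => (b j).homogenize e with hbe
  have uh : ∀ j, (u j).IsHomogeneous d1 := fun j => isHomogeneous_homogenize _
  have vh : ∀ j, (v j).IsHomogeneous d2 := fun j => isHomogeneous_homogenize _
  have ah : ∀ j, (al j).IsHomogeneous e := fun j => isHomogeneous_homogenize _
  have bh : ∀ j, (be j).IsHomogeneous e := fun j => isHomogeneous_homogenize _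
  have ud : ∀ j, deh (u j) = U j := fun j => deh_hom (hU j)
  have vd : ∀ j, deh (v j) = V j := fun j => deh_hom (hV j)
  have ad : ∀ j, deh (al j) = a j := fun j => deh_hom (ha j)
  have bd : ∀ j, deh (be j) = b j := fun j => deh_hom (hb j)
  clear_value u v al be
  simp only [Fin.sum_univ_three] at hUP hVP haP hbP ⊢
  have dot : ∀ (w : Fin 3 → S2 K) m, (∀ j, (w j).IsHomogeneous m) →
      (w 0 * p 0 + w 1 * p 1 + w 2 * p 2).IsHomogeneous (m + n) := fun w m hw =>
    (((hw 0).mul (hp 0)).add ((hw 1).mul (hp 1))).add ((hw 2).mul (hp 2))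
  have up : u 0 * p 0 + u 1 * p 1 + u 2 * p 2 = 0 :=
    deh_inj (dot u d1 uh) (by simp only [map_add, map_mul, ud, hUP])
  have vp : v 0 * p 0 + v 1 * p 1 + v 2 * p 2 = 0 :=
    deh_inj (dot v d2 vh) (by simp only [map_add, map_mul, vd, hVP])
  have ap : al 0 * p 0 + al 1 * p 1 + al 2 * p 2 = MvPolynomial.X 0 ^ (e + n) := by
    rw [← sub_eq_zero]
    refine deh_inj ((dot al e ah).sub (MvPolynomial.isHomogeneous_X_pow _ _)) ?_
    simp only [map_add, map_mul, map_sub, ad, haP]
    simp [deh]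
  have bp : be 0 * p 0 + be 1 * p 1 + be 2 * p 2 = MvPolynomial.X 1 ^ (e + n) := by
    rw [← sub_eq_zero]
    refine deh_inj ((dot be e bh).sub (MvPolynomial.isHomogeneous_X_pow _ _)) ?_
    simp only [map_add, map_mul, map_sub, bd, hbP]
    simp [deh]
  have cr : ∀ i j k : Fin 3, U i * V j - U j * V i = C c * deh (p k) →
      u i * v j - u j * v i = MvPolynomial.C c * p k := by
    intro i j k h
    rw [← sub_eq_zero]
    refine deh_inj (n := n) ((((hd ▸ (uh i).mul (vh j))).sub (hd ▸ (uh j).mul (vh i))).sub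
      ((hp k).C_mul c)) ?_
    simp only [map_mul, map_sub, ud, vd, h]
    simp [deh]
  have f0 := cr 1 2 0 e0
  have f1 := cr 2 0 1 e1
  have f2 := cr 0 1 2 e2
  have hx : (MvPolynomial.X 0 : S2 K) ^ (e + n) ≠ 0 := pow_ne_zero _ (MvPolynomial.X_ne_zero _)
  obtain ⟨ci, hci⟩ : ∃ ci : S2 K, ci * MvPolynomial.C c = 1 :=
    ⟨MvPolynomial.C c⁻¹, by rw [← map_mul, inv_mul_cancel₀ hc, map_one]⟩
  generalize (MvPolynomial.C c : S2 K) = γ at f0 f1 f2 hci
  have canc : ∀ z : S2 K, z * p 0 = 0 → z * p 1 = 0 → z * p 2 = 0 → z = 0 := by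
    intro z z0 z1 z2
    apply mul_right_cancel₀ hx
    rw [← ap]
    linear_combination al 0 * z0 + al 1 * z1 + al 2 * z2
  refine ⟨u, v, uh, vh, ?_, fun w => ?_⟩
  · rw [LinearIndependent.pair_iff]
    intro s t hst
    have g0 := congrFun hst 0
    have g1 := congrFun hst 1
    have g2 := congrFun hst 2
    simp only [Pi.add_apply, Pi.smul_apply, smul_eq_mul, Pi.zero_apply] at g0 g1 g2
    constructor
    · apply canc
      · linear_combination (-s * p 0) * hci - ci * s * f0 + ci * v 2 * g1 - ci * v 1 * g2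
      · linear_combination (-s * p 1) * hci - ci * s * f1 + ci * v 0 * g2 - ci * v 2 * g0
      · linear_combination (-s * p 2) * hci - ci * s * f2 + ci * v 1 * g0 - ci * v 0 * g1
    · apply canc
      · linear_combination (-t * p 0) * hci - ci * t * f0 - ci * u 2 * g1 + ci * u 1 * g2
      · linear_combination (-t * p 1) * hci - ci * t * f1 - ci * u 0 * g2 + ci * u 2 * g0
      · linear_combination (-t * p 2) * hci - ci * t * f2 - ci * u 1 * g0 + ci * u 0 * g1
  · rw [Submodule.mem_span_pair]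
    constructor
    · rintro ⟨s, t, rfl⟩
      simp only [Pi.add_apply, Pi.smul_apply, smul_eq_mul]
      linear_combination s * up + t * vp
    · intro wp
      obtain ⟨h1, a0, a1, a2⟩ := par p al be
        ![u 1 * w 2 - u 2 * w 1, u 2 * w 0 - u 0 * w 2, u 0 * w 1 - u 1 * w 0] _ ap bp
        (by simp; linear_combination w 0 * up - u 0 * wp)
        (by simp; linear_combination w 1 * up - u 1 * wp)
        (by simp; linear_combination w 2 * up - u 2 * wp)
      obtain ⟨h2, b0, b1, b2⟩ := par p al be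
        ![v 1 * w 2 - v 2 * w 1, v 2 * w 0 - v 0 * w 2, v 0 * w 1 - v 1 * w 0] _ ap bp
        (by simp; linear_combination w 0 * vp - v 0 * wp)
        (by simp; linear_combination w 1 * vp - v 1 * wp)
        (by simp; linear_combination w 2 * vp - v 2 * wp)
      simp only [Matrix.cons_val_zero, Matrix.cons_val_one, Matrix.cons_val] at a0 a1 a2 b0 b1 b2
      refine ⟨-ci * h2, ci * h1, ?_⟩
      have key : ∀ i j k : Fin 3, u i * v j - u j * v i = γ * p k →
          u i * w j - u j * w i = h1 * p k → v i * w j - v j * w i = h2 * p k →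
          (γ * w i - h1 * v i + h2 * u i) * p k = 0 ∧
            (γ * w j - h1 * v j + h2 * u j) * p k = 0 := by
        intro i j k q1 q2 q3
        constructor
        · linear_combination (-w i) * q1 + v i * q2 - u i * q3
        · linear_combination (-w j) * q1 + v j * q2 - u j * q3
      have z0 := key 1 2 0 f0 a0 b0
      have z1 := key 2 0 1 f1 a1 b1
      have z2 := key 0 1 2 f2 a2 b2
      have sm : (γ * w 0 - h1 * v 0 + h2 * u 0) * p 0 + (γ * w 1 - h1 * v 1 + h2 * u 1) * p 1
          + (γ * w 2 - h1 * v 2 + h2 * u 2) * p 2 = 0 := by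
        linear_combination γ * wp - h1 * vp + h2 * up
      obtain ⟨x1, x2⟩ := z0
      obtain ⟨x3, x4⟩ := z1
      obtain ⟨x5, x6⟩ := z2
      have fin : ∀ i, γ * w i - h1 * v i + h2 * u i = 0 → -ci * h2 * u i + ci * h1 * v i = w i :=
        fun i hi => by linear_combination (-ci) * hi + w i * hci
      generalize hz0 : γ * w 0 - h1 * v 0 + h2 * u 0 = z0 at *
      generalize hz1 : γ * w 1 - h1 * v 1 + h2 * u 1 = z1 at *
      generalize hz2 : γ * w 2 - h1 * v 2 + h2 * u 2 = z2 at *
      have y0 : z0 = 0 := mul_self_eq_zero.1 (canc _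
        (by linear_combination z0 * sm - z1 * x4 - z2 * x5) (by linear_combination z0 * x4)
        (by linear_combination z0 * x5))
      have y1 : z1 = 0 := mul_self_eq_zero.1 (canc _ (by linear_combination z1 * x1)
        (by linear_combination z1 * sm - z0 * x1 - z2 * x6) (by linear_combination z1 * x6))
      have y2 : z2 = 0 := mul_self_eq_zero.1 (canc _ (by linear_combination z2 * x2)
        (by linear_combination z2 * x3) (by linear_combination z2 * sm - z0 * x2 - z1 * x3))
      ext1 i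
      simp only [Pi.add_apply, Pi.smul_apply, smul_eq_mul]
      apply fin
      fin_cases i
      · exact hz0.trans y0
      · exact hz1.trans y1
      · exact hz2.trans y2

/-- A nonzero homogeneous vector cannot lie in the span of vectors of larger degrees. -/
lemma low_zero (u v w : Fin 3 → S2 K) (d e1 e2 : ℕ) (h1 : d < e1) (h2 : d < e2)
    (hu : ∀ j, (u j).IsHomogeneous e1) (hv : ∀ j, (v j).IsHomogeneous e2)
    (hw : ∀ j, (w j).IsHomogeneous d) (h : w ∈ Submodule.span (S2 K) {u, v}) : w = 0 := by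
  obtain ⟨s, t, rfl⟩ := Submodule.mem_span_pair.1 h
  have key : ∀ (a b : S2 K) (e : ℕ), d < e → b.IsHomogeneous e → ∀ m : Fin 2 →₀ ℕ,
      m.degree = d → MvPolynomial.coeff m (a * b) = 0 := by
    intro a b e he hb m hm
    rw [MvPolynomial.coeff_mul]
    refine Finset.sum_eq_zero fun x hx => ?_
    have : x.1 + x.2 = m := by simpa using hx
    rw [hb.coeff_eq_zero (d := x.2), mul_zero]
    rw [← this, map_add] at hm
    omega
  ext j m
  by_cases hm : m.degree = d
  · simp only [Pi.add_apply, Pi.smul_apply, smul_eq_mul, MvPolynomial.coeff_add,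
      key _ _ _ h1 (hu j) m hm, key _ _ _ h2 (hv j) m hm]
    simp
  · exact (hw j).coeff_eq_zero hm

end Pool.Agent.H30.Split
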