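import Pool.Agent.H30.SplitB

/-! Two explicit forms of degree 21 and the syzygies of their partials on lines. -/

namespace Pool.Agent.H30.Split
open Polynomial Module

abbrev TL := List (ℤ × ℕ × ℕ × ℕ)

noncomputable def mk {R : Type} [CommRing R] (x : Fin 3 → R) : TL → R
  | [] => 0
  | t :: l => (t.1 : R) * x 0 ^ t.2.1 * x 1 ^ t.2.2.1 * x 2 ^ t.2.2.2 + mk x l

lemma map_mk {R S F : Type} [CommRing R] [CommRing S] [FunLike F R S] [RingHomClass F R S]
    (φ : F) (x : Fin 3 → R) : ∀ l : TL, φ (mk x l) = mk (fun i => φ (x i)) l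
  | [] => by simp [mk]
  | t :: l => by simp [mk, map_mk φ x l]

def dl (j : Fin 3) (l : TL) : TL := l.map fun t =>
  if j = 0 then (t.1 * t.2.1, t.2.1 - 1, t.2.2.1, t.2.2.2)
  else if j = 1 then (t.1 * t.2.2.1, t.2.1, t.2.2.1 - 1, t.2.2.2)
  else (t.1 * t.2.2.2, t.2.1, t.2.2.1, t.2.2.2 - 1)

lemma pderiv_mk {K : Type} [CommRing K] (j : Fin 3) : ∀ l : TL,
    MvPolynomial.pderiv j (mk (MvPolynomial.X : Fin 3 → MvPolynomial (Fin 3) K) l)
      = mk MvPolynomial.X (dl j l)
  | [] => by simp [mk, dl]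
  | t :: l => by
    have := pderiv_mk (K := K) j l
    simp only [dl] at this
    simp only [mk, dl, List.map_cons, map_add, this, add_left_inj]
    fin_cases j <;>
      simp [Derivation.leibniz, Derivation.leibniz_pow, MvPolynomial.pderiv_X, Pi.single_apply] <;>
      ring

lemma mk_hom {K σ : Type} [CommRing K] (x : Fin 3 → MvPolynomial σ K)
    (hx : ∀ i, (x i).IsHomogeneous 1) (n : ℕ) : ∀ l : TL,
    (∀ t ∈ l, t.2.1 + t.2.2.1 + t.2.2.2 = n) → (mk x l).IsHomogeneous n
  | [], _ => MvPolynomial.isHomogeneous_zero _ _ _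
  | t :: l, h => by
    refine MvPolynomial.IsHomogeneous.add ?_ (mk_hom x hx n l fun s hs => h s (by simp [hs]))
    have h0 : ((t.1 : MvPolynomial σ K)).IsHomogeneous 0 := by
      rw [← map_intCast (MvPolynomial.C : K →+* MvPolynomial σ K)]
      exact MvPolynomial.isHomogeneous_C _ _
    have := ((h0.mul ((hx 0).pow t.2.1)).mul ((hx 1).pow t.2.2.1)).mul ((hx 2).pow t.2.2.2)
    rwa [zero_add, one_mul, one_mul, one_mul, h t (by simp)] at this

noncomputable def ofList : List ℤ → ℤ[X]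
  | [] => 0
  | a :: l => (a : ℤ[X]) + X * ofList l

lemma coeff_ofList : ∀ (l : List ℤ) (k : ℕ), (ofList l).coeff k = l.getD k 0
  | [], k => by simp [ofList]
  | a :: l, 0 => by simp [ofList]
  | a :: l, k + 1 => by
    rw [ofList, coeff_add, coeff_X_mul, coeff_ofList l k, ← C_eq_intCast, coeff_C_succ]
    simp

noncomputable def lin {R : Type} [CommRing R] (P Q : Fin 3 → R) (i : Fin 3) : R[X] :=
  C (P i) * X + C (Q i)

lemma map_res {R S : Type} [CommRing R] [CommRing S] (φ : R →+* S) (P Q : Fin 3 → R) (l : TL) :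
    (mk (lin P Q) l).map φ = mk (lin (fun i => φ (P i)) (fun i => φ (Q i))) l := by
  rw [← coe_mapRingHom, map_mk]
  congr 1
  ext1 i
  simp [lin]

lemma det_ne {N : ℕ} (sel : Fin N → Fin 3 × ℕ) (c : Fin 3 → List ℤ) (I : Matrix (Fin N) (Fin N) (ZMod 1009))
    (h : (Matrix.of fun (k : Fin N) (j : Fin N) => (((if (sel j).2 ≤ k then
      (c (sel j).1).getD (k - (sel j).2) 0 else 0 : ℤ)) : ZMod 1009)) * I = 1) :
    (Mat sel fun j => ofList (c j)).det ≠ 0 := by
  intro h0
  have h1 := congrArg Matrix.det h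
  have h2 := RingHom.map_det (Int.castRingHom (ZMod 1009)) (Mat sel fun j => ofList (c j))
  have h3 : (Int.castRingHom (ZMod 1009)).mapMatrix (Mat sel fun j => ofList (c j)) =
      Matrix.of fun (k : Fin N) (j : Fin N) => (((if (sel j).2 ≤ k then
      (c (sel j).1).getD (k - (sel j).2) 0 else 0 : ℤ)) : ZMod 1009) := by
    ext k j
    simp only [RingHom.mapMatrix_apply, Matrix.map_apply, Mat, Matrix.of_apply, coeff_X_pow_mul',
      coeff_ofList, eq_intCast]
  rw [h0, map_zero, h3] at h2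
  rw [Matrix.det_mul, ← h2, zero_mul, Matrix.det_one] at h1
  exact absurd h1 (by decide)

lemma gen_det {N : ℕ} (sel : Fin N → Fin 3 × ℕ) (D : Fin 3 → TL)
    (h : (Mat sel fun j => mk (lin (R := ℤ) ![1, 2, 1] ![0, 1, 3]) (D j)).det ≠ 0) :
    ∃ g : MvPolynomial (Fin 3 ⊕ Fin 3) ℂ, g ≠ 0 ∧ ∀ P Q : Fin 3 → ℂ,
      MvPolynomial.eval (Sum.elim P Q) g = (Mat sel fun j => mk (lin P Q) (D j)).det := by
  have key : ∀ P Q : Fin 3 → ℂ, MvPolynomial.eval (Sum.elim P Q) (Mat sel fun j =>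
      mk (lin (fun i => (MvPolynomial.X (Sum.inl i) : MvPolynomial (Fin 3 ⊕ Fin 3) ℂ))
        (fun i => MvPolynomial.X (Sum.inr i))) (D j)).det =
      (Mat sel fun j => mk (lin P Q) (D j)).det := by
    intro P Q
    rw [Mat_map]
    simp only [map_res, MvPolynomial.eval_X, Sum.elim_inl, Sum.elim_inr]
  refine ⟨_, fun h0 => h ?_, key⟩
  have h1 := key (fun i => Int.castRingHom ℂ (![1, 2, 1] i)) (fun i => Int.castRingHom ℂ (![0, 1, 3] i))
  rw [h0, map_zero] at h1
  have h2 := Mat_map sel (fun j => mk (lin (R := ℤ) ![1, 2, 1] ![0, 1, 3]) (D j)) (Int.castRingHom ℂ)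
  simp only [map_res] at h2
  rw [← h1] at h2
  simpa using h2

def fA : TL := [(1,13,7,1), (-1,13,5,3), (1,13,3,5), (-1,13,1,7), (-1,11,9,1), (2,11,7,3), (-2,11,5,5), (2,11,3,7), (-1,11,1,9), (1,9,11,1), (-2,9,9,3), (3,9,7,5), (-3,9,5,7), (2,9,3,9), (-1,9,1,11), (-1,7,13,1), (2,7,11,3), (-3,7,9,5), (4,7,7,7), (-3,7,5,9), (2,7,3,11), (-1,7,1,13), (-1,5,13,3), (2,5,11,5), (-3,5,9,7), (3,5,7,9), (-2,5,5,11), (1,5,3,13), (-1,3,13,5), (2,3,11,7), (-2,3,9,9), (2,3,7,11), (-1,3,5,13), (-1,1,13,7), (1,1,11,9), (-1,1,9,11), (1,1,7,13)]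
def fB : TL := [(1,13,7,1), (-1,13,5,3), (-16,13,3,5), (16,13,1,7), (-1,11,9,1), (-15,11,7,3), (32,11,5,5), (240,11,3,7), (-256,11,1,9), (-16,9,11,1), (32,9,9,3), (224,9,7,5), (-496,9,5,7), (512,9,3,9), (-256,9,1,11), (16,7,13,1), (240,7,11,3), (-496,7,9,5), (-3600,7,7,7), (3584,7,5,9), (-3840,7,3,11), (4096,7,1,13), (-256,5,13,3), (512,5,11,5), (3584,5,9,7), (-7936,5,7,9), (8192,5,5,11), (-4096,5,3,13), (-256,3,13,5), (-3840,3,11,7), (8192,3,9,9), (61440,3,7,11), (-65536,3,5,13), (4096,1,13,7), (-4096,1,11,9), (-65536,1,9,11), (65536,1,7,13)]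
def hA : TL := [(13,8,0,0), (2,6,2,0), (-2,6,0,2), (-2,4,4,0), (-2,4,0,4), (2,2,6,0), (-2,2,0,6), (13,0,8,0), (2,0,6,2), (-2,0,4,4), (2,0,2,6), (13,0,0,8)]
def cA0 : List ℤ := [1434672, 25821180, 207241578, 986006358, 3127176936, 7064153370, 11862305229, 15237576755, 15242921023, 11939381245, 7201354643, 3106302381, 662390205, -281716583, -390767020, -238532676, -99735694, -30573746, -6801184, -1006832, -74256]
def cA1 : List ℤ := [0, 9754020, 155160360, 1102694634, 4639951026, 12930538734, 25309659240, 35989281069, 37769285333, 28959566535, 14907838753, 2813188335, -3507813639, -4592489013, -3142107305, -1480084584, -505099890, -125026294, -21831126, -2490232, -144228]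
def cA2 : List ℤ := [0, 6313140, 111814020, 891187758, 4237009452, 13443514758, 30204068250, 49794034283, 61624082026, 58082621695, 41942470286, 22989392505, 9099789102, 2094224959, -181375840, -420819468, -208666840, -61744358, -11743552, -1352624, -74256]
def cB0 : List ℤ := [92804382720, 1662267432960, 13211807201280, 61747753904640, 189399635838720, 402634304997120, 609832047298560, 663665243839680, 511041957470880, 259310717265600, 60735158498040, -24409528866630, -32045839376025, -16869969626325, -5609550940755, -1249810885815, -180817318170, -14966367480, -440370000, 13608000, 0]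
def cB1 : List ℤ := [0, 626142928896, 9873968283648, 69161005453824, 284082485686272, 760238611331328, 1389382204766976, 1755855815848128, 1489319490403584, 725050826510400, -5952214977696, -333401316470478, -306454758985584, -164257144061643, -59810430538053, -15190469140149, -2628873008397, -286437077856, -15573627000, 33112800, 33048000]
def cB2 : List ℤ := [0, 409981575168, 7236370980864, 57338561014272, 269967633025536, 842621519142144, 1841650137412608, 2901545790880704, 3336893280841152, 2792349377438400, 1652630045824992, 626727946207626, 86030532428538, -59898864783279, -47610376909464, -17981948810127, -4291698369726, -667678754808, -64559862000, -3384633600, -66096000]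
def selA : List (Fin 3 × ℕ) := [(0,0), (0,1), (0,2), (0,3), (0,4), (0,5), (0,6), (0,7), (0,8), (0,9), (0,10), (1,0), (1,1), (1,2), (1,3), (1,4), (1,5), (1,6), (1,7), (1,8), (1,9), (1,10), (2,0), (2,1), (2,2), (2,3), (2,4), (2,5), (2,6), (2,7), (2,8)]
def selB : List (Fin 3 × ℕ) := [(0,0), (0,1), (0,2), (0,3), (0,4), (0,5), (0,6), (0,7), (0,8), (0,9), (1,0), (1,1), (1,2), (1,3), (1,4), (1,5), (1,6), (1,7), (1,8), (1,9), (2,0), (2,1), (2,2), (2,3), (2,4), (2,5), (2,6), (2,7), (2,8), (2,9)]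
def invA : List (List ℕ) := [[8, 0, 0, 0, 0, 0, 0, 0, 0, 0, 0, 0, 0, 0, 0, 0, 0, 0, 0, 0, 0, 0, 0, 0, 0, 0, 0, 0, 0, 0, 0], [435, 878, 577, 125, 942, 748, 388, 950, 148, 241, 583, 70, 27, 801, 453, 551, 859, 348, 23, 36, 278, 622, 243, 999, 814, 123, 973, 598, 506, 931, 274], [498, 574, 900, 103, 452, 939, 903, 979, 230, 308, 772, 703, 143, 275, 482, 854, 69, 339, 673, 279, 651, 88, 975, 530, 525, 987, 622, 154, 194, 87, 876], [76, 719, 931, 998, 205, 365, 320, 90, 999, 654, 839, 173, 220, 559, 970, 611, 327, 653, 683, 257, 603, 139, 10, 680, 723, 136, 436, 961, 335, 530, 159], [427, 840, 305, 330, 374, 1007, 571, 725, 812, 952, 144, 579, 2, 698, 352, 481, 695, 803, 880, 35, 876, 75, 295, 73, 409, 307, 388, 841, 73, 727, 189], [662, 98, 676, 210, 744, 653, 997, 210, 768, 391, 62, 213, 618, 169, 765, 478, 394, 502, 848, 657, 309, 925, 707, 949, 559, 476, 559, 205, 310, 350, 286], [957, 71, 568, 104, 552, 382, 458, 3, 549, 372, 33, 971, 632, 738, 602,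 984, 947, 245, 704, 547, 246, 273, 730, 821, 723, 814, 716, 411, 507, 526, 160], [975, 396, 66, 169, 682, 538, 107, 449, 129, 256, 586, 780, 495, 463, 32, 103, 974, 905, 80, 264, 187, 166, 873, 48, 924, 699, 688, 774, 859, 126, 75], [559, 884, 683, 986, 910, 488, 840, 645, 843, 587, 236, 494, 860, 15, 579, 858, 295, 957, 60, 1001, 919, 898, 38, 20, 787, 153, 344, 604, 304, 366, 258], [754, 777, 561, 377, 59, 620, 982, 934, 860, 958, 387, 106, 684, 832, 284, 200, 707, 349, 422, 272, 78, 228, 949, 778, 146, 801, 75, 397, 629, 75, 849], [586, 410, 464, 571, 672, 491, 287, 662, 783, 1003, 810, 187, 10, 258, 133, 874, 906, 857, 972, 182, 389, 256, 825, 110, 128, 949, 330, 143, 561, 341, 78], [597, 599, 675, 740, 250, 998, 44, 107, 243, 959, 481, 45, 115, 112, 339, 407, 722, 880, 519, 825, 914, 389, 1003, 18, 721, 572, 529, 251, 108, 944, 743], [752, 458, 99, 245, 913, 211, 723, 88, 736, 78, 9, 804, 630, 332, 223, 915, 605, 756, 60, 126, 375, 72, 406, 783,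 913, 962, 32, 923, 75, 425, 644], [112, 152, 140, 877, 619, 128, 427, 791, 406, 300, 824, 219, 328, 674, 264, 357, 22, 730, 369, 520, 0, 48, 211, 13, 942, 976, 208, 764, 731, 345, 878], [625, 372, 1008, 312, 942, 399, 327, 472, 342, 481, 842, 159, 109, 882, 242, 849, 414, 645, 11, 909, 702, 297, 515, 973, 611, 440, 651, 431, 8, 671, 905], [895, 699, 46, 436, 517, 7, 459, 442, 1005, 618, 111, 692, 83, 47, 828, 1006, 994, 173, 364, 444, 311, 654, 904, 168, 153, 44, 309, 131, 712, 234, 710], [598, 183, 359, 389, 65, 353, 2, 34, 637, 956, 612, 588, 919, 756, 595, 320, 279, 347, 114, 702, 901, 186, 128, 261, 622, 982, 633, 200, 907, 667, 878], [981, 235, 180, 403, 427, 125, 118, 125, 463, 173, 0, 480, 306, 274, 42, 890, 40, 822, 910, 145, 503, 774, 582, 871, 879, 833, 787, 968, 590, 701, 241], [346, 12, 679, 637, 338, 935, 96, 670, 609, 29, 750, 425, 279, 923, 751, 944, 693, 884, 611, 676, 905, 36, 53, 988, 244, 794, 436, 594, 473, 45, 821], [271, 688,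 272, 190, 83, 729, 616, 73, 617, 286, 994, 708, 306, 9, 1007, 56, 82, 228, 231, 704, 215, 660, 628, 830, 884, 113, 650, 33, 315, 982, 144], [25, 502, 573, 949, 627, 38, 977, 97, 198, 538, 846, 593, 77, 484, 102, 552, 935, 470, 58, 248, 615, 849, 586, 474, 433, 699, 617, 453, 490, 993, 822], [1007, 708, 880, 735, 683, 966, 92, 838, 476, 93, 562, 633, 854, 37, 461, 579, 83, 338, 69, 206, 529, 68, 834, 313, 34, 930, 939, 306, 890, 264, 638], [237, 755, 171, 40, 260, 259, 130, 975, 441, 187, 550, 595, 814, 145, 1004, 776, 361, 947, 530, 154, 943, 845, 394, 324, 452, 719, 294, 359, 132, 587, 585], [689, 444, 221, 91, 283, 628, 96, 790, 515, 655, 590, 73, 678, 617, 864, 55, 275, 909, 95, 612, 753, 756, 2, 730, 666, 565, 437, 764, 455, 228, 248], [538, 215, 770, 470, 772, 695, 761, 734, 750, 581, 861, 388, 387, 117, 307, 606, 406, 411, 1008, 218, 428, 399, 511, 623, 988, 551, 538, 63, 760, 602, 678], [217, 357, 617, 302, 497, 487, 68, 536, 973, 556, 977,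 164, 667, 385, 682, 890, 511, 429, 7, 818, 940, 904, 61, 790, 600, 597, 903, 951, 736, 913, 371], [941, 1006, 965, 146, 608, 922, 114, 39, 308, 500, 379, 290, 784, 409, 370, 624, 461, 397, 465, 623, 208, 947, 79, 837, 368, 256, 13, 520, 343, 380, 2], [316, 962, 583, 619, 595, 877, 362, 948, 214, 460, 755, 310, 510, 214, 857, 742, 4, 210, 180, 95, 40, 686, 535, 5, 313, 398, 433, 592, 406, 203, 18], [447, 868, 637, 758, 890, 412, 479, 947, 618, 590, 962, 721, 50, 263, 289, 242, 726, 773, 864, 917, 717, 193, 399, 878, 424, 656, 135, 611, 801, 525, 949], [86, 831, 488, 158, 553, 731, 477, 892, 232, 998, 388, 342, 598, 884, 83, 470, 825, 1007, 845, 656, 249, 640, 705, 121, 638, 411, 909, 499, 983, 694, 986], [369, 379, 330, 626, 116, 523, 147, 28, 430, 652, 659, 185, 620, 475, 786, 231, 306, 214, 221, 1002, 311, 171, 677, 332, 97, 562, 312, 974, 345, 735, 870]]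
def invB : List (List ℕ) := [[382, 0, 0, 0, 0, 0, 0, 0, 0, 0, 0, 0, 0, 0, 0, 0, 0, 0, 0, 0, 0, 0, 0, 0, 0, 0, 0, 0, 0, 0], [148, 690, 135, 617, 150, 189, 548, 325, 836, 105, 223, 977, 92, 385, 979, 392, 702, 317, 310, 881, 548, 149, 577, 462, 130, 14, 403, 821, 443, 668], [712, 986, 608, 6, 614, 901, 829, 775, 973, 391, 718, 2, 725, 929, 525, 355, 631, 395, 659, 667, 287, 554, 422, 415, 589, 981, 217, 984, 14, 863], [338, 856, 599, 384, 502, 216, 111, 504, 958, 87, 954, 853, 292, 156, 614, 289, 669, 124, 951, 656, 234, 297, 963, 145, 15, 892, 801, 63, 759, 819], [597, 685, 603, 850, 309, 36, 897, 85, 153, 227, 347, 819, 502, 331, 819, 33, 151, 109, 1, 175, 957, 237, 981, 735, 985, 730, 703, 225, 477, 147], [431, 412, 580, 210, 132, 767, 50, 343, 998, 566, 649, 456, 519, 490, 391, 339, 654, 844, 208, 308, 101, 443, 648, 801, 602, 130, 579, 848, 965, 810], [941, 1006, 482, 564, 660, 844, 630, 510, 595, 395, 81, 487, 445, 686, 583, 510, 333, 200, 64,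 820, 45, 348, 120, 171, 190, 278, 135, 377, 537, 41], [715, 291, 457, 999, 905, 218, 979, 798, 28, 209, 509, 337, 623, 343, 467, 12, 20, 396, 115, 976, 159, 619, 701, 4, 847, 214, 559, 810, 698, 688], [410, 413, 102, 951, 71, 56, 17, 26, 61, 145, 554, 813, 968, 969, 478, 905, 17, 565, 100, 536, 350, 234, 616, 931, 319, 310, 337, 920, 730, 375], [96, 593, 647, 521, 213, 27, 408, 350, 31, 357, 745, 586, 660, 53, 338, 278, 379, 651, 688, 458, 865, 214, 750, 658, 232, 314, 547, 804, 666, 255], [914, 174, 213, 729, 769, 795, 157, 516, 687, 607, 362, 711, 389, 339, 154, 880, 214, 21, 730, 613, 481, 593, 409, 246, 348, 371, 635, 33, 539, 464], [267, 751, 318, 272, 377, 270, 185, 676, 304, 813, 45, 256, 163, 151, 289, 175, 689, 415, 466, 883, 248, 444, 22, 667, 755, 973, 874, 166, 976, 992], [843, 911, 332, 401, 416, 520, 883, 756, 784, 649, 783, 714, 549, 620, 855, 356, 598, 187, 111, 314, 568, 387, 998, 732, 729, 554, 802, 899, 429, 265], [198, 575, 118,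 343, 430, 233, 971, 287, 563, 875, 91, 858, 648, 24, 671, 404, 695, 615, 895, 769, 931, 236, 201, 607, 753, 793, 23, 397, 601, 470], [569, 1000, 479, 476, 417, 387, 18, 789, 254, 465, 906, 99, 995, 110, 748, 516, 933, 160, 204, 638, 482, 748, 256, 62, 570, 668, 250, 66, 845, 424], [497, 988, 193, 914, 169, 440, 807, 812, 277, 723, 110, 580, 327, 13, 561, 862, 664, 673, 200, 375, 406, 589, 483, 896, 715, 381, 19, 793, 705, 805], [677, 674, 284, 601, 561, 642, 643, 381, 1000, 580, 989, 866, 526, 55, 213, 657, 422, 659, 341, 906, 608, 373, 69, 635, 223, 208, 735, 258, 878, 399], [554, 560, 326, 292, 262, 347, 854, 713, 287, 887, 549, 733, 665, 973, 314, 145, 309, 16, 643, 650, 682, 511, 308, 904, 891, 374, 824, 440, 585, 668], [758, 833, 364, 130, 458, 252, 741, 7, 539, 188, 761, 209, 311, 881, 99, 415, 431, 70, 619, 805, 690, 14, 197, 855, 119, 597, 989, 993, 768, 234], [164, 228, 573, 634, 864, 644, 599, 643, 117, 124, 592, 9, 755, 123, 860, 503, 766,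 199, 482, 429, 63, 442, 639, 41, 878, 918, 383, 42, 589, 423], [772, 148, 326, 767, 844, 162, 825, 131, 803, 864, 192, 713, 605, 113, 456, 447, 132, 792, 801, 736, 633, 401, 478, 343, 686, 753, 110, 941, 795, 771], [986, 54, 615, 69, 843, 507, 496, 987, 243, 969, 616, 578, 319, 200, 471, 579, 126, 513, 534, 647, 29, 880, 640, 262, 917, 579, 481, 386, 239, 1001], [285, 668, 868, 865, 34, 701, 166, 972, 228, 537, 544, 527, 931, 639, 343, 77, 288, 45, 846, 552, 874, 875, 653, 772, 596, 709, 946, 312, 563, 396], [487, 935, 604, 156, 213, 350, 430, 808, 129, 844, 354, 460, 71, 395, 582, 375, 165, 612, 66, 146, 721, 320, 503, 636, 384, 318, 924, 533, 793, 752], [1003, 440, 418, 115, 639, 1004, 681, 155, 910, 922, 411, 149, 596, 624, 671, 629, 301, 352, 216, 422, 763, 254, 873, 494, 793, 370, 687, 226, 153, 978], [453, 358, 301, 666, 309, 924, 268, 813, 804, 428, 551, 704, 423, 258, 527, 817, 358, 67, 623, 673, 262, 344, 373, 47, 664, 497, 691, 44, 497,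 549], [705, 862, 506, 270, 454, 744, 968, 958, 893, 269, 191, 871, 302, 809, 84, 799, 1003, 294, 535, 198, 383, 233, 444, 703, 618, 216, 14, 86, 245, 217], [127, 391, 220, 820, 750, 599, 378, 628, 807, 72, 837, 380, 173, 258, 116, 46, 464, 537, 397, 406, 425, 318, 202, 67, 729, 646, 266, 835, 330, 432], [674, 513, 903, 401, 40, 317, 538, 479, 351, 883, 986, 845, 20, 643, 46, 384, 206, 85, 875, 426, 648, 381, 460, 795, 621, 585, 504, 498, 44, 121], [82, 114, 791, 317, 432, 322, 804, 826, 563, 62, 296, 509, 882, 566, 430, 756, 383, 604, 241, 719, 536, 221, 824, 525, 439, 459, 696, 21, 799, 854]]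

lemma resA0 : mk (lin (R := ℤ) ![1, 2, 1] ![0, 1, 3]) (dl 0 fA) = ofList cA0 := by
  simp [mk, lin, dl, fA, cA0, ofList]
  ring

lemma resA1 : mk (lin (R := ℤ) ![1, 2, 1] ![0, 1, 3]) (dl 1 fA) = ofList cA1 := by
  simp [mk, lin, dl, fA, cA1, ofList]
  ring

lemma resA2 : mk (lin (R := ℤ) ![1, 2, 1] ![0, 1, 3]) (dl 2 fA) = ofList cA2 := by
  simp [mk, lin, dl, fA, cA2, ofList]
  ring

lemma invA_ok : (Matrix.of fun (k : Fin 31) (j : Fin 31) => (((if (selA.getD j (0, 0)).2 ≤ k then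
      (![cA0, cA1, cA2] (selA.getD j (0, 0)).1).getD (k - (selA.getD j (0, 0)).2) 0 else 0 : ℤ)) : ZMod 1009))
      * (Matrix.of fun (k : Fin 31) (j : Fin 31) => (((invA.getD k []).getD j 0 : ℕ) : ZMod 1009)) = 1 := by
  decide +kernel

lemma detA : (Mat (fun j : Fin 31 => selA.getD j (0, 0))
    fun j => mk (lin (R := ℤ) ![1, 2, 1] ![0, 1, 3]) (dl j fA)).det ≠ 0 := by
  have := det_ne (fun j : Fin 31 => selA.getD j (0, 0)) ![cA0, cA1, cA2] _ invA_ok
  convert this with j
  fin_cases j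
  · exact resA0
  · exact resA1
  · exact resA2

lemma resB0 : mk (lin (R := ℤ) ![1, 2, 1] ![0, 1, 3]) (dl 0 fB) = ofList cB0 := by
  simp [mk, lin, dl, fB, cB0, ofList]
  ring

lemma resB1 : mk (lin (R := ℤ) ![1, 2, 1] ![0, 1, 3]) (dl 1 fB) = ofList cB1 := by
  simp [mk, lin, dl, fB, cB1, ofList]
  ring

lemma resB2 : mk (lin (R := ℤ) ![1, 2, 1] ![0, 1, 3]) (dl 2 fB) = ofList cB2 := by
  simp [mk, lin, dl, fB, cB2, ofList]
  ring

lemma invB_ok : (Matrix.of fun (k : Fin 30) (j : Fin 30) => (((if (selB.getD j (0, 0)).2 ≤ k then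
      (![cB0, cB1, cB2] (selB.getD j (0, 0)).1).getD (k - (selB.getD j (0, 0)).2) 0 else 0 : ℤ)) : ZMod 1009))
      * (Matrix.of fun (k : Fin 30) (j : Fin 30) => (((invB.getD k []).getD j 0 : ℕ) : ZMod 1009)) = 1 := by
  decide +kernel

lemma detB : (Mat (fun j : Fin 30 => selB.getD j (0, 0))
    fun j => mk (lin (R := ℤ) ![1, 2, 1] ![0, 1, 3]) (dl j fB)).det ≠ 0 := by
  have := det_ne (fun j : Fin 30 => selB.getD j (0, 0)) ![cB0, cB1, cB2] _ invB_ok
  convert this with j
  fin_cases j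
  · exact resB0
  · exact resB1
  · exact resB2

lemma theta {R : Type} [CommRing R] (x : Fin 3 → R) :
    (21 * x 0 ^ 9 - mk x hA * x 0) * mk x (dl 0 fA) + (21 * x 1 ^ 9 - mk x hA * x 1) * mk x (dl 1 fA)
      + (21 * x 2 ^ 9 - mk x hA * x 2) * mk x (dl 2 fA) = 0 := by
  simp [mk, dl, fA, hA]
  ring

lemma fA_eq {R : Type} [CommRing R] (x : Fin 3 → R) : mk x fA = x 0 * x 1 * x 2 * (x 0 ^ 2 - x 1 ^ 2)
    * (x 0 ^ 4 + x 1 ^ 4) * (x 1 ^ 2 - x 2 ^ 2) * (x 1 ^ 4 + x 2 ^ 4) * (x 0 ^ 4 + x 2 ^ 4)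
    * (x 0 ^ 2 + x 2 ^ 2) := by
  simp [mk, fA]
  ring

lemma fB_eq {R : Type} [CommRing R] (x : Fin 3 → R) : mk x fB = x 0 * x 1 * x 2 * (x 0 ^ 2 - x 1 ^ 2)
    * (x 0 ^ 4 - 16 * x 1 ^ 4) * (x 1 ^ 2 - x 2 ^ 2) * (x 1 ^ 4 - 16 * x 2 ^ 4)
    * (x 0 ^ 4 - 16 * x 2 ^ 4) * (x 0 ^ 2 - 16 * x 2 ^ 2) := by
  simp [mk, fB]
  ring

end Pool.Agent.H30.Split
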