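import Mathlib

set_option autoImplicit false

namespace Pool.Agent.H30.Wilm

open Polynomial

noncomputable def T : ℂ[X] :=
  C (240469 / 240000) * X + C (3029 / 400000) * X ^ 2 + C (287 / 3000000) * X ^ 3 +
    C (133 / 6000000) * X ^ 4 + C (7 / 10000000) * X ^ 5 + C (1 / 30000000) * X ^ 6

lemma T_eval (z : ℂ) : T.eval z = 240469 / 240000 * z + 3029 / 400000 * z ^ 2 +
    287 / 3000000 * z ^ 3 + 133 / 6000000 * z ^ 4 + 7 / 10000000 * z ^ 5 + 1 / 30000000 * z ^ 6 := by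
  simp [T]

lemma T1_eval (z : ℂ) : (derivative T).eval z = (240469 / 240000) * z ^ 0 + (3029 / 200000) * z ^ 1 + (287 / 1000000) * z ^ 2 + (133 / 1500000) * z ^ 3 + (7 / 2000000) * z ^ 4 + (1 / 5000000) * z ^ 5 := by
  simp [T, derivative_X_pow]
  ring

lemma T2_eval (z : ℂ) : (derivative (derivative T)).eval z =
    1 / 1000000 * ((z - (1 + 8 * Complex.I)) * (z - (1 - 8 * Complex.I)) *
      (z - (-8 + 13 * Complex.I)) * (z - (-8 - 13 * Complex.I))) := by
  simp [T, derivative_X_pow]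
  have h : Complex.I ^ 2 = -1 := Complex.I_sq
  linear_combination (1 / 1000000 * (64 * (z + 8) ^ 2 + 169 * (z - 1) ^ 2 + 64 * 169 * (1 - Complex.I ^ 2))) * h

/-- real part along the segment -/
noncomputable def pre (t : ℝ) : ℝ := (2467527 / 2500000) * t ^ 0 + (1853 / 125000) * t ^ 1 + (-3 / 3125) * t ^ 2 + (-851 / 150000) * t ^ 3 + (119 / 100000) * t ^ 4 + (719 / 1250000) * t ^ 5

/-- imaginary part along the segment -/
noncomputable def pim (t : ℝ) : ℝ := (0 / 1) * t ^ 0 + (1853 / 25000) * t ^ 1 + (1 / 2500) * t ^ 2 + (-253 / 30000) * t ^ 3 + (-3 / 2500) * t ^ 4 + (19 / 50000) * t ^ 5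

lemma seg_lt (t : ℝ) (h0 : 0 ≤ t) (h1 : t ≤ 1) : pre t ^ 2 + pim t ^ 2 < 1 := by
  have h2 : 0 ≤ 1 - t := by linarith
  have e : 1 - (pre t ^ 2 + pim t ^ 2) = (161310504271 / 6250000000000) * t ^ 0 * (1 - t) ^ 10 + (143021194147 / 625000000000) * t ^ 1 * (1 - t) ^ 9 + (1117813875407 / 1250000000000) * t ^ 2 * (1 - t) ^ 8 + (632599421989 / 312500000000) * t ^ 3 * (1 - t) ^ 7 + (22908437393 / 7812500000) * t ^ 4 * (1 - t) ^ 6 + (265409078821 / 93750000000) * t ^ 5 * (1 - t) ^ 5 + (258380952841 / 140625000000) * t ^ 6 * (1 - t) ^ 4 + (44259426607 / 56250000000) * t ^ 7 * (1 - t) ^ 3 + (315894437 / 1500000000) * t ^ 8 * (1 - t) ^ 2 + (69962491 / 2250000000) * t ^ 9 * (1 - t) ^ 1 + (323591 / 180000000) * t ^ 10 * (1 - t) ^ 0 := by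
    unfold pre pim; ring
  have : 0 < 1 - (pre t ^ 2 + pim t ^ 2) := by
    rw [e]
    rcases h0.eq_or_lt with h | h
    · subst h; norm_num
    · positivity
  linarith

lemma seg_val (s : ℝ) (hs : s ^ 2 = 1) (t : ℝ) :
    (derivative T).eval (-1 + (t : ℂ) * (1 + 5 * s * Complex.I)) = ⟨pre t, s * pim t⟩ := by
  have hs' : s = 1 ∨ s = -1 := by
    have : (s - 1) * (s + 1) = 0 := by linarith
    rcases mul_eq_zero.1 this with h | h
    · left; linarith
    · right; linarith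
  rw [T1_eval]
  rcases hs' with rfl | rfl <;> apply Complex.ext <;>
    simp [pre, pim, pow_succ] <;> ring

lemma seg_mem (s : ℝ) (hs : s ^ 2 = 1) (t : ℝ) (h0 : 0 ≤ t) (h1 : t ≤ 1) :
    ‖(derivative T).eval (-1 + (t : ℂ) * (1 + 5 * s * Complex.I))‖ < 1 := by
  rw [seg_val s hs, ← sq_lt_one_iff₀ (norm_nonneg _), Complex.sq_norm, Complex.normSq_mk]
  have := seg_lt t h0 h1
  nlinarith

lemma mem_comp (s : ℝ) (hs : s ^ 2 = 1) : (5 * s * Complex.I : ℂ) ∈
    connectedComponentIn {u : ℂ | ‖(derivative T).eval u‖ < 1} (-1) := by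
  have hp : IsPreconnected ((fun t : ℝ => -1 + (t : ℂ) * (1 + 5 * s * Complex.I)) '' Set.Icc 0 1) :=
    isPreconnected_Icc.image _ (by fun_prop)
  refine hp.subset_connectedComponentIn ⟨0, by simp, by simp⟩ ?_ ⟨1, by simp, by simp⟩
  rintro _ ⟨t, ⟨h0, h1⟩, rfl⟩
  exact seg_mem s hs t h0 h1

lemma crit (z : ℂ) (hz : ‖(derivative T).eval z‖ < 1) :
    (derivative (derivative T)).eval z ≠ 0 := by
  intro h
  rw [T2_eval] at h
  rw [← sq_lt_one_iff₀ (norm_nonneg _), Complex.sq_norm, T1_eval] at hz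
  simp only [mul_eq_zero, sub_eq_zero] at h
  rcases h with h | (((h | h) | h) | h)
  · norm_num at h
  all_goals
    rw [h] at hz
    revert hz
    simp [Complex.normSq_apply, pow_succ]
    norm_num

lemma val_eq : starRingEnd ℂ (5 * (1 : ℝ) * Complex.I) + T.eval (5 * (1 : ℝ) * Complex.I) =
    starRingEnd ℂ (5 * (-1 : ℝ) * Complex.I) + T.eval (5 * (-1 : ℝ) * Complex.I) := by
  rw [T_eval, T_eval]
  apply Complex.ext <;> simp [pow_succ] <;> norm_num

end Pool.Agent.H30.Wilm
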